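import Mathlib

/-!
# Local rings of étale algebras over normal domains are normal domains
-/

set_option autoImplicit false
set_option linter.unusedSectionVars false

open TensorProduct Polynomial

namespace Pool.Agent.H14

section

variable {R0 S : Type} [CommRing R0] [IsDomain R0] [IsIntegrallyClosed R0] [CommRing S]
  [Algebra R0 S]

/-- elements of `S ⊗ K` integral over `S` are in `S` -/
lemma integral_mem_left [Algebra.Smooth R0 S]
    (x : S ⊗[R0] FractionRing R0) (hx : IsIntegral S x) :
    ∃ s : S, s ⊗ₜ[R0] (1 : FractionRing R0) = x := by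
  obtain ⟨z, hz⟩ := (TensorProduct.toIntegralClosure_bijective_of_smooth (R := R0) (S := S)
    (B := FractionRing R0)).2 ⟨x, hx⟩
  have h1 : ∀ z : S ⊗[R0] integralClosure R0 (FractionRing R0), ∃ s : S,
      s ⊗ₜ[R0] (1 : FractionRing R0) =
        (TensorProduct.toIntegralClosure R0 S (FractionRing R0) z :
          S ⊗[R0] FractionRing R0) := by
    intro z
    induction z using TensorProduct.induction_on with
    | zero => exact ⟨0, by simp⟩
    | add a b ha hb =>
      obtain ⟨s, hs⟩ := ha
      obtain ⟨t, ht⟩ := hb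
      exact ⟨s + t, by rw [add_tmul, hs, ht, map_add]; rfl⟩
    | tmul s y =>
      obtain ⟨r, hr⟩ := IsIntegrallyClosed.isIntegral_iff.1 y.2
      refine ⟨r • s, ?_⟩
      have : (TensorProduct.toIntegralClosure R0 S (FractionRing R0) (s ⊗ₜ y) :
          S ⊗[R0] FractionRing R0) = s ⊗ₜ (y : FractionRing R0) := by
        simp [TensorProduct.toIntegralClosure]
      rw [this, ← hr, Algebra.algebraMap_eq_smul_one, tmul_smul, smul_tmul']
  obtain ⟨s, hs⟩ := h1 z
  exact ⟨s, by rw [hs, hz]⟩

lemma exists_fraction (x : FractionRing R0 ⊗[R0] S) : ∃ (d : R0) (s : S), d ≠ 0 ∧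
    (1 ⊗ₜ[R0] algebraMap R0 S d : FractionRing R0 ⊗[R0] S) * x = 1 ⊗ₜ s := by
  induction x using TensorProduct.induction_on with
  | zero => exact ⟨1, 0, one_ne_zero, by simp⟩
  | add a b ha hb =>
    obtain ⟨d, s, hd, hs⟩ := ha
    obtain ⟨d', s', hd', hs'⟩ := hb
    refine ⟨d * d', algebraMap R0 S d' * s + algebraMap R0 S d * s', mul_ne_zero hd hd', ?_⟩
    have h1 : (1 ⊗ₜ[R0] algebraMap R0 S (d * d') : FractionRing R0 ⊗[R0] S) =
        (1 ⊗ₜ[R0] algebraMap R0 S d) * (1 ⊗ₜ[R0] algebraMap R0 S d') := by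
      rw [Algebra.TensorProduct.tmul_mul_tmul, one_mul, map_mul]
    rw [h1, mul_add]
    have h2 : (1 ⊗ₜ[R0] (algebraMap R0 S d' * s + algebraMap R0 S d * s') :
        FractionRing R0 ⊗[R0] S) = (1 ⊗ₜ[R0] algebraMap R0 S d') * (1 ⊗ₜ[R0] s) +
          (1 ⊗ₜ[R0] algebraMap R0 S d) * (1 ⊗ₜ[R0] s') := by
      rw [Algebra.TensorProduct.tmul_mul_tmul, Algebra.TensorProduct.tmul_mul_tmul, one_mul,
        tmul_add]
    rw [h2, ← hs, ← hs']
    ring
  | tmul y s =>
    obtain ⟨a, d, hd, rfl⟩ := IsFractionRing.div_surjective (A := R0) y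
    refine ⟨d, a • s, nonZeroDivisors.ne_zero hd, ?_⟩
    have hd0 : algebraMap R0 (FractionRing R0) d ≠ 0 := by
      intro h
      exact nonZeroDivisors.ne_zero hd (IsFractionRing.injective R0 (FractionRing R0)
        (by rw [h, map_zero]))
    rw [Algebra.TensorProduct.tmul_mul_tmul, one_mul, ← Algebra.smul_def, ← smul_tmul,
      Algebra.smul_def, mul_div_cancel₀ _ hd0, ← smul_tmul, Algebra.smul_def, mul_one]

theorem etale_normal [Algebra.Etale R0 S] (q : Ideal S) [q.IsPrime] :
    IsDomain (Localization.AtPrime q) ∧ IsIntegrallyClosed (Localization.AtPrime q) := by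
  classical
  obtain ⟨I, _, F, _, _, e, _⟩ :=
    (Algebra.Etale.iff_exists_algEquiv_prod (FractionRing R0) (FractionRing R0 ⊗[R0] S)).mp
      inferInstance
  have := Fintype.ofFinite I
  let j : S →+* (Π i, F i) := (e : _ →+* (Π i, F i)).comp
    (Algebra.TensorProduct.includeRight : S →ₐ[R0] FractionRing R0 ⊗[R0] S).toRingHom
  have hj : ∀ s, j s = e (1 ⊗ₜ s) := fun s => rfl
  have hjinj : Function.Injective j := by
    have : Module.Flat R0 S := inferInstance
    exact e.injective.comp (Algebra.TensorProduct.includeRight_injective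
      (IsFractionRing.injective R0 (FractionRing R0)))
  -- integral elements
  have hint : ∀ x : Π i, F i, j.IsIntegralElem x → ∃ s, j s = x := by
    intro x hx
    obtain ⟨p, hp, hpx⟩ := hx
    let g : (Π i, F i) →+* S ⊗[R0] FractionRing R0 :=
      ((Algebra.TensorProduct.comm R0 (FractionRing R0) S : _ →+* _)).comp
        (e.symm : (Π i, F i) →+* FractionRing R0 ⊗[R0] S)
    have hg : ∀ s, g (j s) = s ⊗ₜ 1 := by
      intro s
      simp [g, hj]
    have h1 : IsIntegral S (g x) := by
      refine ⟨p, hp, ?_⟩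
      have h2 := congrArg g hpx
      rw [map_zero, Polynomial.hom_eval₂] at h2
      rw [← h2]
      congr 1
      ext s
      rw [RingHom.comp_apply, hg]
      rfl
    obtain ⟨s, hs⟩ := integral_mem_left (g x) h1
    refine ⟨s, ?_⟩
    rw [← hg] at hs
    have hginj : Function.Injective g :=
      (Algebra.TensorProduct.comm R0 (FractionRing R0) S).injective.comp e.symm.injective
    exact hginj hs
  -- idempotents
  have hid : ∀ i, ∃ s, j s = Pi.single i (1 : F i) := by
    intro i
    apply hint
    refine ⟨X * (X - 1), monic_X.mul (monic_X_sub_C 1), ?_⟩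
    simp only [eval₂_mul, eval₂_X, eval₂_sub, eval₂_one]
    rw [mul_sub, mul_one, ← Pi.single_mul, mul_one, sub_self]
  choose ε hε using hid
  have hsum : ∑ i, ε i = 1 := by
    apply hjinj
    rw [map_sum, map_one]
    simp only [hε]
    exact Finset.univ_sum_single (1 : Π i, F i)
  obtain ⟨i, hi⟩ : ∃ i, ε i ∉ q := by
    by_contra hcon
    push Not at hcon
    exact (Ideal.ne_top_iff_one q).1 (Ideal.IsPrime.ne_top ‹_›)
      (hsum ▸ Ideal.sum_mem _ fun i _ => hcon i)
  let π : S →+* F i := (Pi.evalRingHom F i).comp j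
  have hπ : ∀ s, π s = j s i := fun s => rfl
  have hπ0 : ∀ s, π s = 0 → s * ε i = 0 := by
    intro s hs
    apply hjinj
    rw [map_mul, hε, map_zero]
    funext l
    by_cases hl : l = i
    · subst hl
      rw [Pi.mul_apply, ← hπ, hs, zero_mul]; rfl
    · rw [Pi.mul_apply, Pi.single_eq_of_ne hl, mul_zero]; rfl
  have hπq : ∀ s : q.primeCompl, IsUnit (π s) := by
    intro s
    rw [isUnit_iff_ne_zero]
    intro h0
    have h1 := hπ0 s h0
    have h2 : (s : S) * ε i ∈ q := by rw [h1]; exact zero_mem _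
    rcases (Ideal.IsPrime.mem_or_mem ‹q.IsPrime›) h2 with h3 | h3
    · exact s.2 h3
    · exact hi h3
  let ρ : Localization.AtPrime q →+* F i := IsLocalization.lift (M := q.primeCompl) hπq
  have hρ : ∀ s, ρ (algebraMap S _ s) = π s := fun s => IsLocalization.lift_eq hπq s
  have hρinj : Function.Injective ρ := by
    rw [injective_iff_map_eq_zero]
    intro x hx
    obtain ⟨s, t, rfl⟩ := IsLocalization.exists_mk'_eq q.primeCompl x
    have h1 : ρ (IsLocalization.mk' _ s t) * π t = π s := by
      rw [← hρ, ← hρ, ← map_mul, IsLocalization.mk'_spec]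
    rw [hx, zero_mul] at h1
    have h2 := hπ0 s h1.symm
    rw [IsLocalization.mk'_eq_zero_iff]
    exact ⟨⟨ε i, hi⟩, by rw [mul_comm]; exact h2⟩
  let _ : Algebra (Localization.AtPrime q) (F i) := ρ.toAlgebra
  let _ : Algebra S (F i) := π.toAlgebra
  have : IsScalarTower S (Localization.AtPrime q) (F i) :=
    IsScalarTower.of_algebraMap_eq (fun s => (hρ s).symm)
  have hdom : IsDomain (Localization.AtPrime q) := hρinj.isDomain ρ
  have hfaith : FaithfulSMul (Localization.AtPrime q) (F i) :=
    (faithfulSMul_iff_algebraMap_injective _ _).2 hρinj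
  have hfrac : IsFractionRing (Localization.AtPrime q) (F i) := by
    refine IsFractionRing.of_field _ _ fun x => ?_
    obtain ⟨d, s, hd, hs⟩ := exists_fraction (e.symm (Pi.single i x))
    have h1 : π (algebraMap R0 S d) * x = π s := by
      have h2 := congrArg e hs
      rw [map_mul, AlgEquiv.apply_symm_apply] at h2
      have h3 := congrFun h2 i
      rw [Pi.mul_apply, Pi.single_eq_same] at h3
      exact h3
    have h4 : π (algebraMap R0 S d) ≠ 0 := by
      intro h0
      have h5 : π (algebraMap R0 S d) = algebraMap (FractionRing R0) (F i)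
          (algebraMap R0 (FractionRing R0) d) := by
        rw [hπ, hj]
        have h6 : (1 ⊗ₜ[R0] algebraMap R0 S d : FractionRing R0 ⊗[R0] S) =
            algebraMap (FractionRing R0) _ (algebraMap R0 (FractionRing R0) d) := by
          rw [Algebra.TensorProduct.algebraMap_apply, Algebra.algebraMap_eq_smul_one (A := S),
            ← smul_tmul, Algebra.smul_def, mul_one]
          rfl
        rw [h6, AlgEquiv.commutes]
        rfl
      rw [h5] at h0
      have h7 := (algebraMap (FractionRing R0) (F i)).injective (h0.trans (map_zero _).symm)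
      exact hd (IsFractionRing.injective R0 (FractionRing R0) (h7.trans (map_zero _).symm))
    refine ⟨algebraMap _ _ s, algebraMap _ _ (algebraMap R0 S d), ?_⟩
    symm
    change ρ _ / ρ _ = x
    rw [hρ, hρ, ← h1, mul_div_cancel_left₀ _ h4]
  refine ⟨hdom, ?_⟩
  rw [isIntegrallyClosed_iff (F i)]
  intro x hx
  obtain ⟨t, ht⟩ := IsIntegral.exists_multiple_integral_of_isLocalization q.primeCompl x hx
  obtain ⟨p, hp, hpx⟩ := ht
  have hy : j.IsIntegralElem (Pi.single i (t • x)) := by
    refine ⟨X * p, monic_X.mul hp, ?_⟩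
    rw [eval₂_mul, eval₂_X]
    funext l
    rw [Pi.mul_apply]
    by_cases hl : l = i
    · subst hl
      have h1 := Polynomial.hom_eval₂ p j (Pi.evalRingHom F l) (Pi.single l (t • x))
      rw [Pi.evalRingHom_apply, Pi.evalRingHom_apply, Pi.single_eq_same] at h1
      rw [h1]
      have h2 : eval₂ ((Pi.evalRingHom F l).comp j) (t • x) p = 0 := hpx
      rw [h2, mul_zero]; rfl
    · rw [Pi.single_eq_of_ne hl, zero_mul]; rfl
  obtain ⟨s, hs⟩ := hint _ hy
  have h1 : π s = t • x := by rw [hπ, hs, Pi.single_eq_same]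
  have h2 : (t • x : F i) = π t * x := by
    rw [Submonoid.smul_def, Algebra.smul_def]; rfl
  refine ⟨IsLocalization.mk' _ s t, ?_⟩
  have h3 : ρ (IsLocalization.mk' _ s t) * π t = π s := by
    rw [← hρ, ← hρ, ← map_mul, IsLocalization.mk'_spec]
  have h4 : π t ≠ 0 := (hπq t).ne_zero
  change ρ _ = x
  apply mul_right_cancel₀ h4
  rw [h3, h1, h2, mul_comm]

end

end Pool.Agent.H14
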