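import Mathlib

/-!
# Hilbert schemes of points, Cohen–Macaulay local rings, quasi-projective schemes: definitions
-/

set_option autoImplicit false

open CategoryTheory AlgebraicGeometry Limits

namespace Pool.Agent.H14

attribute [local instance] MvPolynomial.gradedAlgebra

/-- A family over the `S`-scheme `T` of closed subschemes of length `n` of the fibres of
`f : X ⟶ S`: a commutative square formed by `a : Z ⟶ X`, `f : X ⟶ S`, `p : Z ⟶ T`, `t : T ⟶ S`
such that `Z ⟶ X ×[S] T` is a closed immersion and `p` is finite, flat, locally of finite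
presentation, of constant rank `n`. -/
structure IsFamily {X S : Scheme.{0}} (f : X ⟶ S) (n : ℕ) {T Z : Scheme.{0}} (t : T ⟶ S)
    (p : Z ⟶ T) (a : Z ⟶ X) : Prop where
  w : a ≫ f = p ≫ t
  finite : IsFinite p
  flat : Flat p
  lfp : LocallyOfFinitePresentation p
  rank : ∀ x : T, p.finrank x = n
  closed : IsClosedImmersion (pullback.lift a p w)

/-- `s : H ⟶ S` together with the family `π : 𝒵 ⟶ H`, `α : 𝒵 ⟶ X` is the Hilbert scheme of `n`
points of `f : X ⟶ S`: the family is universal, i.e. every family over an `S`-scheme `T` is the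
pullback of it along a unique `S`-morphism `T ⟶ H`. -/
structure IsHilbertScheme {X S : Scheme.{0}} (f : X ⟶ S) (n : ℕ) {H 𝒵 : Scheme.{0}} (s : H ⟶ S)
    (π : 𝒵 ⟶ H) (α : 𝒵 ⟶ X) : Prop where
  family : IsFamily f n s π α
  univ : ∀ {T Z : Scheme.{0}} (t : T ⟶ S) (p : Z ⟶ T) (a : Z ⟶ X), IsFamily f n t p a →
    ∃! g : T ⟶ H, g ≫ s = t ∧ ∃ z : Z ⟶ 𝒵, IsPullback z p π g ∧ z ≫ α = a

/-- A Cohen–Macaulay local ring: a Noetherian local ring `R` with a regular sequence of elements of
the maximal ideal whose length is the Krull dimension of `R`. -/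
def IsCMLocal (R : Type*) [CommRing R] : Prop :=
  IsNoetherianRing R ∧ ∃ _ : IsLocalRing R, ∃ rs : List R,
    (∀ r ∈ rs, r ∈ IsLocalRing.maximalIdeal R) ∧
    RingTheory.Sequence.IsRegular R rs ∧ (rs.length : WithBot ℕ∞) = ringKrullDim R

/-- The structure morphism of the projective space of dimension `N` over `k`. -/
noncomputable def projToSpec (k : Type) [Field k] (N : ℕ) :
    Proj (MvPolynomial.homogeneousSubmodule (Fin (N + 1)) k) ⟶ Spec (CommRingCat.of k) :=
  Proj.toSpecZero (MvPolynomial.homogeneousSubmodule (Fin (N + 1)) k) ≫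
    Spec.map (CommRingCat.ofHom
      (algebraMap k (MvPolynomial.homogeneousSubmodule (Fin (N + 1)) k 0)))

/-- A quasi-projective scheme over `k`: it has an immersion over `k` to a projective space. -/
def IsQuasiProjective {k : Type} [Field k] {X : Scheme.{0}} (f : X ⟶ Spec (CommRingCat.of k)) :
    Prop :=
  ∃ (N : ℕ) (ι : X ⟶ Proj (MvPolynomial.homogeneousSubmodule (Fin (N + 1)) k)),
    IsImmersion ι ∧ ι ≫ projToSpec k N = f

end Pool.Agent.H14
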