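import Pool.Agent.H14.RegSeq
import Pool.Agent.H14.EtNormal
import Pool.Agent.H14.HilbDefs

/-!
# Cohen–Macaulay local rings; smooth algebras over finite flat extensions of regular rings
-/

set_option autoImplicit false
set_option linter.unusedSectionVars false

open IsLocalRing RingTheory.Sequence

namespace Pool.Agent.H14

lemma IsCMLocal.of_ringEquiv {R R' : Type*} [CommRing R] [CommRing R'] (h : IsCMLocal R)
    (e : R ≃+* R') : IsCMLocal R' := by
  obtain ⟨h1, h2, rs, h3, h4, h5⟩ := h
  have h1' : IsNoetherianRing R' := isNoetherianRing_of_ringEquiv R e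
  have h2' : IsLocalRing R' := e.isLocalRing
  refine ⟨h1', h2', rs.map e, ?_, ?_, ?_⟩
  · intro r hr
    obtain ⟨x, hx, rfl⟩ := List.mem_map.1 hr
    have := h3 x hx
    rw [mem_maximalIdeal, mem_nonunits_iff] at this ⊢
    exact fun h => this ((MulEquiv.isUnit_map e).1 h)
  · refine ((AddEquiv.isRegular_congr (e := e.toAddEquiv) ?_).1 h4)
    rw [List.forall₂_map_right_iff]
    refine List.forall₂_same.mpr fun r _ x => ?_
    simp
  · rw [List.length_map, h5]
    exact ringKrullDim_eq_of_ringEquiv e

theorem cm_of_quasiFinite {S E : Type} [CommRing S] [CommRing E] [Algebra S E] [IsRegularRing S]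
    [IsNoetherianRing E] [Module.Flat S E] [Algebra.QuasiFinite S E] (q : Ideal E) [q.IsPrime] :
    IsCMLocal (Localization.AtPrime q) := by
  set s := q.under S with hs
  have hreg : IsRegularLocalRing (Localization.AtPrime s) :=
    IsRegularRing.isRegularLocalRing_localization s
  obtain ⟨hdom, rs, hlen, hrs, hrr⟩ := regular_aux _ (Localization.AtPrime s)
    (IsRegularLocalRing.spanFinrank_maximalIdeal).symm le_rfl
  have hdim : (rs.length : WithBot ℕ∞) = ringKrullDim (Localization.AtPrime s) := by
    rw [hlen]; exact IsRegularLocalRing.spanFinrank_maximalIdeal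
  let _ := Localization.AtPrime.algebraOfLiesOver s q
  have hloc : IsLocalHom (algebraMap (Localization.AtPrime s) (Localization.AtPrime q)) := by
    rw [RingHom.algebraMap_toAlgebra]
    exact Localization.isLocalHom_localRingHom s q (algebraMap S E) Ideal.LiesOver.over
  have hw : IsWeaklyRegular (Localization.AtPrime q)
      (rs.map (algebraMap (Localization.AtPrime s) (Localization.AtPrime q))) :=
    hrr.1.of_flat
  have hmem : ∀ r ∈ rs.map (algebraMap (Localization.AtPrime s) (Localization.AtPrime q)),
      r ∈ maximalIdeal (Localization.AtPrime q) := by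
    intro r hr
    obtain ⟨x, hx, rfl⟩ := List.mem_map.1 hr
    have := hrs x hx
    rw [mem_maximalIdeal, mem_nonunits_iff] at this ⊢
    exact fun h => this (hloc.map_nonunit _ h)
  have hr : IsRegular (Localization.AtPrime q)
      (rs.map (algebraMap (Localization.AtPrime s) (Localization.AtPrime q))) :=
    (IsLocalRing.isRegular_iff_isWeaklyRegular_of_subset_maximalIdeal hmem).2 hw
  refine ⟨inferInstance, inferInstance, _, hmem, hr, ?_⟩
  rw [List.length_map]
  apply le_antisymm
  · have h1 := ringKrullDim_add_length_eq_ringKrullDim_of_isRegular _ hr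
    rw [List.length_map] at h1
    rw [← h1]
    have : Nontrivial (Localization.AtPrime q ⧸ Ideal.ofList
        (rs.map (algebraMap (Localization.AtPrime s) (Localization.AtPrime q)))) := by
      apply Ideal.Quotient.nontrivial_iff.2
      have h2 := hr.2
      intro h3
      apply h2
      rw [h3]
      simp
    exact le_add_of_nonneg_left ringKrullDim_nonneg_of_nontrivial
  · rw [hdim, IsLocalization.AtPrime.ringKrullDim_eq_height q,
      IsLocalization.AtPrime.ringKrullDim_eq_height s]
    have h1 := Ideal.height_le_height_add_of_liesOver s q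
    have h2 : (q.map (Ideal.Quotient.mk (s.map (algebraMap S E)))).height = 0 := by
      have hle : s.map (algebraMap S E) ≤ q := Ideal.map_comap_le
      have hp : (q.map (Ideal.Quotient.mk (s.map (algebraMap S E)))).IsPrime := by
        apply Ideal.map_isPrime_of_surjective Ideal.Quotient.mk_surjective
        rw [Ideal.mk_ker]
        exact hle
      rw [Ideal.height_eq_zero_iff]
      refine ⟨⟨hp, bot_le⟩, ?_⟩
      rintro P ⟨hP, -⟩ hPq
      have hcm : (q.map (Ideal.Quotient.mk (s.map (algebraMap S E)))).comap
          (Ideal.Quotient.mk (s.map (algebraMap S E))) = q := by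
        rw [Ideal.comap_map_of_surjective _ Ideal.Quotient.mk_surjective, ← RingHom.ker_eq_comap_bot,
          Ideal.mk_ker, sup_eq_left.2 hle]
      set P' := P.comap (Ideal.Quotient.mk (s.map (algebraMap S E))) with hP'
      have hP'p : P'.IsPrime := Ideal.comap_isPrime _ _
      have hP'q : P' ≤ q := by
        rw [← hcm]
        exact Ideal.comap_mono hPq
      have hsP : s.map (algebraMap S E) ≤ P' := by
        rw [← Ideal.mk_ker (I := s.map (algebraMap S E)), RingHom.ker_eq_comap_bot]
        exact Ideal.comap_mono bot_le
      have hunder : P'.under S = q.under S := by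
        apply le_antisymm
        · exact Ideal.comap_mono hP'q
        · rw [← hs, Ideal.under_def, ← Ideal.map_le_iff_le_comap]
          exact hsP
      have heq := Algebra.QuasiFinite.eq_of_le_of_under_eq (R := S) P' q hP'q hunder
      rw [← Ideal.map_comap_of_surjective _ Ideal.Quotient.mk_surjective P, ← hP', heq]
    rw [h2, add_zero] at h1
    exact_mod_cast h1

end Pool.Agent.H14
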