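import Pool.Agent.H14.Fam

/-!
# Classifying morphisms of chart data
-/

set_option autoImplicit false
set_option linter.unusedSectionVars false

open TensorProduct CategoryTheory AlgebraicGeometry Limits

namespace Pool.Agent.H14

section cls

variable {k : Type} [Field k] {X : Scheme.{0}} {f : X ⟶ Spec (CommRingCat.of k)} [IsSeparated f]
variable {n : ℕ} {H 𝒵 : Scheme.{0}} {s : H ⟶ Spec (CommRingCat.of k)} {π : 𝒵 ⟶ H} {α : 𝒵 ⟶ X}
variable (hH : IsHilbertScheme f n s π α)
variable {B : Type} [CommRing B] [Algebra k B] {i : Spec (CommRingCat.of B) ⟶ X}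
variable (hi : IsAffChart k f B i) {b : Fin n → B}
variable {R : Type} [CommRing R] [Algebra k R]

/-- the classifying morphism of a chart datum -/
noncomputable def cl (c : Chart k b R) : Spec (CommRingCat.of R) ⟶ H :=
  (hH.univ _ _ _ (isFamily_chart hi c)).choose

lemma cl_s (c : Chart k b R) : cl hH hi c ≫ s = sp k R :=
  (hH.univ _ _ _ (isFamily_chart hi c)).choose_spec.1.1

lemma cl_pb (c : Chart k b R) :
    ∃ z : Spec (CommRingCat.of (OC c)) ⟶ 𝒵, IsPullback z (pc c) π (cl hH hi c) ∧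
      z ≫ α = ac i c :=
  (hH.univ _ _ _ (isFamily_chart hi c)).choose_spec.1.2

lemma cl_unique (c : Chart k b R) (g : Spec (CommRingCat.of R) ⟶ H) (h1 : g ≫ s = sp k R)
    (h2 : ∃ z : Spec (CommRingCat.of (OC c)) ⟶ 𝒵, IsPullback z (pc c) π g ∧ z ≫ α = ac i c) :
    g = cl hH hi c :=
  (hH.univ _ _ _ (isFamily_chart hi c)).choose_spec.2 g ⟨h1, h2⟩

variable {R' : Type} [CommRing R'] [Algebra k R']

lemma sp_comp (φ : R →ₐ[k] R') :
    Spec.map (CommRingCat.ofHom φ.toRingHom) ≫ sp k R = sp k R' := by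
  rw [← Spec.map_comp, ← CommRingCat.ofHom_comp]
  congr 2
  ext a
  exact φ.commutes a

lemma cl_map (c : Chart k b R) (φ : R →ₐ[k] R') :
    Spec.map (CommRingCat.ofHom φ.toRingHom) ≫ cl hH hi c = cl hH hi (c.map φ) := by
  apply cl_unique
  · rw [Category.assoc, cl_s, sp_comp]
  · obtain ⟨z, hz, hza⟩ := cl_pb hH hi c
    refine ⟨_, (isPullback_chart c φ).paste_horiz hz, ?_⟩
    rw [Category.assoc, hza, gO_ac]

lemma cl_injective {c c' : Chart k b R} (h : cl hH hi c = cl hH hi c') : c = c' := by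
  obtain ⟨z, hz, hza⟩ := cl_pb hH hi c
  obtain ⟨z', hz', hza'⟩ := cl_pb hH hi c'
  rw [← h] at hz'
  have := hi.isOpenImmersion
  refine chart_eq_of_iso (i := i) c c' (hz.lift z' (pc c') hz'.w) (hz.lift_snd _ _ _) ?_
  rw [← hza, ← Category.assoc, hz.lift_fst, hza']

variable (b) in
/-- the classifying morphism of the universal chart datum -/
noncomputable def clU : Spec (CommRingCat.of (ChartRing k b)) ⟶ H := cl hH hi (univChart k b)

lemma cl_eq (c : Chart k b R) :
    cl hH hi c = Spec.map (CommRingCat.ofHom c.lift.toRingHom) ≫ clU hH hi b := by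
  rw [clU, cl_map, Chart.map_lift]

lemma clU_s : clU hH hi b ≫ s = sp k (ChartRing k b) := cl_s _ _ _

lemma clU_spec_inj {R' : CommRingCat.{0}} (φ ψ : CommRingCat.of (ChartRing k b) ⟶ R')
    (h : Spec.map φ ≫ clU hH hi b = Spec.map ψ ≫ clU hH hi b) : φ = ψ := by
  have hs : CommRingCat.ofHom (algebraMap k (ChartRing k b)) ≫ φ =
      CommRingCat.ofHom (algebraMap k (ChartRing k b)) ≫ ψ := by
    apply Spec.map_injective
    rw [Spec.map_comp, Spec.map_comp]
    have := congrArg (· ≫ s) h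
    simp only [Category.assoc, clU_s] at this
    exact this
  let _ : Algebra k R' := (φ.hom.comp (algebraMap k (ChartRing k b))).toAlgebra
  let φ' : ChartRing k b →ₐ[k] R' := { φ.hom with commutes' := fun _ => rfl }
  let ψ' : ChartRing k b →ₐ[k] R' :=
    { ψ.hom with
      commutes' := fun x => (DFunLike.congr_fun (congrArg CommRingCat.Hom.hom hs) x).symm }
  have h1 : Spec.map (CommRingCat.ofHom φ'.toRingHom) ≫ clU hH hi b =
      Spec.map (CommRingCat.ofHom ψ'.toRingHom) ≫ clU hH hi b := h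
  rw [clU, cl_map, cl_map] at h1
  have h2 := chartRing_hom_ext (cl_injective hH hi h1)
  ext x
  exact DFunLike.congr_fun h2 x

instance mono_clU : Mono (clU hH hi b) := by
  refine ⟨fun {W} u v huv => ?_⟩
  apply Scheme.Cover.hom_ext W.affineCover
  intro j
  set w := W.affineCover.f j with hw
  have huv' : (w ≫ u) ≫ clU hH hi b = (w ≫ v) ≫ clU hH hi b := by
    rw [Category.assoc, huv, Category.assoc]
  generalize w ≫ u = u' at huv' ⊢
  generalize w ≫ v = v' at huv' ⊢
  obtain ⟨φ, rfl⟩ := Spec.map_surjective u'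
  obtain ⟨ψ, rfl⟩ := Spec.map_surjective v'
  rw [clU_spec_inj hH hi φ ψ huv']

/-- if an open subscheme of `H` maps to the chart, its stalks are stalks of the chart -/
lemma stalk_equiv {R' : CommRingCat.{0}} (j : Spec R' ⟶ H) [IsOpenImmersion j]
    (q : Spec R' ⟶ Spec (CommRingCat.of (ChartRing k b))) (hq : q ≫ clU hH hi b = j)
    (w : Spec R') :
    Nonempty ((Spec (CommRingCat.of (ChartRing k b))).presheaf.stalk (q w) ≅
      H.presheaf.stalk (j w)) := by
  have hpb : IsPullback q (𝟙 (Spec R')) (clU hH hi b) j := by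
    refine ⟨⟨by rw [hq, Category.id_comp]⟩, ⟨PullbackCone.IsLimit.mk _ (fun c => c.snd) ?_ ?_ ?_⟩⟩
    · intro c
      rw [← cancel_mono (clU hH hi b), Category.assoc, hq, c.condition]
    · intro c
      rw [Category.comp_id]
    · intro c m _ h2
      rw [Category.comp_id] at h2
      exact h2
  have hqo : IsOpenImmersion q := MorphismProperty.of_isPullback hpb.flip inferInstance
  exact ⟨(asIso (q.stalkMap w)) ≪≫ (asIso (j.stalkMap w)).symm⟩

end cls

end Pool.Agent.H14
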