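import Mathlib

/-!
# Linear algebra for four-dimensional algebras
-/

set_option autoImplicit false
set_option linter.unusedSectionVars false

namespace Pool.Agent.H14

section

variable {k A W : Type} [Field k] [CommRing A] [Algebra k A] [AddCommGroup W] [Module k W]

/-- the subspace -/
def spU (φ : W →ₗ[k] A) : Submodule k A := Submodule.span k {1} ⊔ LinearMap.range φ

lemma one_mem_spU (φ : W →ₗ[k] A) : (1 : A) ∈ spU φ :=
  Submodule.mem_sup_left (Submodule.mem_span_singleton_self 1)

lemma map_mem_spU (φ : W →ₗ[k] A) (w : W) : φ w ∈ spU φ := Submodule.mem_sup_right ⟨w, rfl⟩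

lemma exists_notMem_span [Module.Finite k A] (φ : W →ₗ[k] A) {m : ℕ} (s : Fin m → A)
    (h1 : (1 : A) ∈ Set.range s) (hm : m < Module.finrank k (spU φ)) :
    ∃ w, φ w ∉ Submodule.span k (Set.range s) := by
  by_contra hcon
  push Not at hcon
  have h2 : spU φ ≤ Submodule.span k (Set.range s) := by
    refine sup_le ?_ ?_
    · rw [Submodule.span_le, Set.singleton_subset_iff]
      exact Submodule.subset_span h1
    · rintro _ ⟨w, rfl⟩
      exact hcon w
  have h3 := Submodule.finrank_mono h2
  have h4 : Module.finrank k (Submodule.span k (Set.range s)) ≤ m := by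
    have := finrank_range_le_card (R := k) s
    simpa [Set.finrank] using this
  omega

lemma mem_spU_of_sq (h2 : (2 : k) ≠ 0) (φ : W →ₗ[k] A) (hsq : ∀ v, φ v * φ v ∈ spU φ)
    (hφ : Algebra.adjoin k (Set.range φ) = ⊤) (x : A) : x ∈ spU φ := by
  have hmul' : ∀ u v, φ u * φ v ∈ spU φ := by
    intro u v
    have h3 : (2 : k) • (φ u * φ v) ∈ spU φ := by
      have h4 : (2 : k) • (φ u * φ v) = φ (u + v) * φ (u + v) - φ u * φ u - φ v * φ v := by
        rw [map_add, two_smul]; ring
      rw [h4]
      exact sub_mem (sub_mem (hsq _) (hsq _)) (hsq _)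
    have h5 := (spU φ).smul_mem (2 : k)⁻¹ h3
    rwa [smul_smul, inv_mul_cancel₀ h2, one_smul] at h5
  have hmul : ∀ x y, x ∈ spU φ → y ∈ spU φ → x * y ∈ spU φ := by
    intro x y hx hy
    obtain ⟨x1, hx1, x2, ⟨u, rfl⟩, rfl⟩ := Submodule.mem_sup.1 hx
    obtain ⟨y1, hy1, y2, ⟨v, rfl⟩, rfl⟩ := Submodule.mem_sup.1 hy
    obtain ⟨a, rfl⟩ := Submodule.mem_span_singleton.1 hx1
    obtain ⟨b, rfl⟩ := Submodule.mem_span_singleton.1 hy1
    have : (a • (1 : A) + φ u) * (b • (1 : A) + φ v) =
        (a * b) • (1 : A) + a • φ v + b • φ u + φ u * φ v := by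
      rw [add_mul, mul_add, mul_add, smul_mul_smul_comm, one_mul, smul_mul_assoc, one_mul,
        mul_smul_comm, mul_one]
      abel
    rw [this]
    refine add_mem (add_mem (add_mem ?_ ?_) ?_) (hmul' u v)
    · exact (spU φ).smul_mem _ (one_mem_spU φ)
    · exact (spU φ).smul_mem _ (map_mem_spU φ v)
    · exact (spU φ).smul_mem _ (map_mem_spU φ u)
  have hx : x ∈ Algebra.adjoin k (Set.range φ) := by rw [hφ]; trivial
  induction hx using Algebra.adjoin_induction with
  | mem x hx => obtain ⟨w, rfl⟩ := hx; exact map_mem_spU φ w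
  | algebraMap r =>
    rw [Algebra.algebraMap_eq_smul_one]
    exact (spU φ).smul_mem _ (one_mem_spU φ)
  | add x y _ _ hx hy => exact add_mem hx hy
  | mul x y _ _ hx hy => exact hmul x y hx hy

theorem coords_cases (h2 : (2 : k) ≠ 0) (hA : Module.finrank k A = 4) (φ : W →ₗ[k] A)
    (hφ : Algebra.adjoin k (Set.range φ) = ⊤) :
    (∃ v : W, LinearIndependent k ![1, φ v, φ v * φ v, φ v * φ v * φ v]) ∨
    (∃ v y : W, LinearIndependent k ![1, φ v, φ v * φ v, φ y]) ∨
    (∃ v y z : W, LinearIndependent k ![1, φ v, φ y, φ z]) := by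
  have hfin : Module.Finite k A := Module.finite_of_finrank_pos (by omega)
  have hnt : Nontrivial A := Module.nontrivial_of_finrank_pos (R := k) (by omega)
  have hU : Module.finrank k (spU φ) ≤ 4 := hA ▸ Submodule.finrank_le _
  have hlt1 : 1 < Module.finrank k (spU φ) := by
    by_contra hcon
    have h3 : spU φ = Submodule.span k {1} := by
      symm
      apply Submodule.eq_of_le_of_finrank_le le_sup_left
      rw [finrank_span_singleton one_ne_zero]
      omega
    have h4 : ∀ x, x ∈ spU φ := by
      apply mem_spU_of_sq h2 φ ?_ hφ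
      intro v
      have h5 : φ v ∈ Submodule.span k {(1 : A)} := h3 ▸ map_mem_spU φ v
      obtain ⟨a, ha⟩ := Submodule.mem_span_singleton.1 h5
      rw [← ha, smul_mul_smul_comm, one_mul]
      exact (spU φ).smul_mem _ (one_mem_spU φ)
    have h5 : spU φ = ⊤ := by rw [eq_top_iff]; exact fun x _ => h4 x
    rw [h5, finrank_top] at hcon
    omega
  have h0 : LinearIndependent k ![(1 : A)] := by
    rw [linearIndependent_unique_iff]
    simp
  have hstep : ∀ {m : ℕ} (s : Fin m → A), LinearIndependent k s → (1 : A) ∈ Set.range s →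
      m < Module.finrank k (spU φ) → ∃ w, LinearIndependent k (Matrix.vecCons (φ w) s) := by
    intro m s hs h1 hm
    obtain ⟨w, hw⟩ := exists_notMem_span φ s h1 hm
    exact ⟨w, linearIndependent_finCons.2 ⟨hs, hw⟩⟩
  obtain hU4 | hU3 | hU2 : Module.finrank k (spU φ) = 4 ∨ Module.finrank k (spU φ) = 3 ∨
      Module.finrank k (spU φ) = 2 := by omega
  · -- dimension four
    right; right
    obtain ⟨v, hv⟩ := hstep _ h0 ⟨0, rfl⟩ (by omega)
    obtain ⟨y, hy⟩ := hstep _ hv ⟨1, rfl⟩ (by omega)
    obtain ⟨z, hz⟩ := hstep _ hy ⟨2, rfl⟩ (by omega)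
    refine ⟨v, y, z, ?_⟩
    have := hz.comp ![3, 2, 1, 0] (by decide)
    convert this using 1
    ext i; fin_cases i <;> rfl
  · -- dimension three
    right; left
    obtain ⟨v, hv⟩ : ∃ v, φ v * φ v ∉ spU φ := by
      by_contra hcon
      push Not at hcon
      have h4 := mem_spU_of_sq h2 φ hcon hφ
      have h5 : spU φ = ⊤ := by rw [eq_top_iff]; exact fun x _ => h4 x
      rw [h5, finrank_top] at hU3
      omega
    have hv1 : LinearIndependent k ![φ v, 1] := by
      refine linearIndependent_finCons.2 ⟨h0, fun hcon => hv ?_⟩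
      rw [Matrix.range_cons, Matrix.range_empty, Set.union_empty] at hcon
      obtain ⟨a, ha⟩ := Submodule.mem_span_singleton.1 hcon
      rw [← ha, smul_mul_smul_comm, one_mul]
      exact (spU φ).smul_mem _ (one_mem_spU φ)
    obtain ⟨y, hy⟩ := hstep _ hv1 ⟨1, rfl⟩ (by omega)
    have hz : LinearIndependent k ![φ v * φ v, φ y, φ v, 1] := by
      refine linearIndependent_finCons.2 ⟨hy, fun hcon => hv ?_⟩
      refine (Submodule.span_le.2 ?_) hcon
      rintro _ ⟨j, rfl⟩
      fin_cases j
      · exact map_mem_spU φ y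
      · exact map_mem_spU φ v
      · exact one_mem_spU φ
    refine ⟨v, y, ?_⟩
    have := hz.comp ![3, 2, 0, 1] (by decide)
    convert this using 1
    ext i; fin_cases i <;> rfl
  · -- dimension two
    left
    obtain ⟨v, hv⟩ := hstep _ h0 ⟨0, rfl⟩ (by omega)
    have h3 : Submodule.span k (Set.range ![φ v, 1]) = spU φ := by
      apply Submodule.eq_of_le_of_finrank_le
      · rw [Submodule.span_le]
        rintro _ ⟨j, rfl⟩
        fin_cases j
        · exact map_mem_spU φ v
        · exact one_mem_spU φ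
      · rw [hU2, finrank_span_eq_card hv]
        simp
    have h4 : Algebra.adjoin k {φ v} = ⊤ := by
      rw [eq_top_iff, ← hφ, Algebra.adjoin_le_iff]
      rintro _ ⟨w, rfl⟩
      have h5 : φ w ∈ Submodule.span k (Set.range ![φ v, 1]) := h3 ▸ map_mem_spU φ w
      have h6 : Submodule.span k (Set.range ![φ v, 1]) ≤
          Subalgebra.toSubmodule (Algebra.adjoin k {φ v}) := by
        rw [Submodule.span_le]
        rintro _ ⟨j, rfl⟩
        fin_cases j
        · exact Algebra.subset_adjoin rfl
        · exact one_mem (Algebra.adjoin k {φ v})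
      exact h6 h5
    have hint : IsIntegral k (φ v) := IsIntegral.of_finite k _
    have h7 : (minpoly k (φ v)).natDegree = 4 := by
      have h8 := (Algebra.adjoin.powerBasis hint).finrank
      rw [Algebra.adjoin.powerBasis_dim, h4] at h8
      rw [← h8]
      exact (Subalgebra.topEquiv.toLinearEquiv.finrank_eq).trans hA
    have h9 := linearIndependent_pow (K := k) (φ v)
    refine ⟨v, ?_⟩
    have h10 := h9.comp (Fin.cast h7.symm) (Fin.cast_injective _)
    convert h10 using 1
    ext i; fin_cases i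
    · simp
    · simp
    · simp [pow_two]
    · simp [pow_succ]

end

end Pool.Agent.H14
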