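import Mathlib

/-!
# Simultaneous parameters at finitely many points
-/

set_option autoImplicit false
set_option linter.unusedSectionVars false

open scoped Function

namespace Pool.Agent.H14

section

variable {k B : Type} [Field k] [CommRing B] [Algebra k B]

/-- if a subalgebra is everything modulo `I ^ 2`, then it is everything modulo `I ^ m` -/
lemma adjoin_pow (S : Subalgebra k B) (I : Ideal B) (h : ∀ b, ∃ s ∈ S, b - s ∈ I ^ 2) (m : ℕ) :
    ∀ b, ∃ s ∈ S, b - s ∈ I ^ m := by
  have hI : ∀ a ∈ I, ∃ s ∈ S, s ∈ I ∧ a - s ∈ I ^ 2 := by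
    intro a ha
    obtain ⟨s, hs, h1⟩ := h a
    refine ⟨s, hs, ?_, h1⟩
    have h2 : a - s ∈ I := Ideal.pow_le_self two_ne_zero h1
    have : s = a - (a - s) := by ring
    rw [this]
    exact sub_mem ha h2
  have key : ∀ m : ℕ, ∀ b ∈ I ^ m, ∃ s ∈ S, s ∈ I ^ m ∧ b - s ∈ I ^ (m + 1) := by
    intro m
    induction m with
    | zero =>
      intro b _
      obtain ⟨s, hs, h1⟩ := h b
      refine ⟨s, hs, by simp, ?_⟩
      exact Ideal.pow_le_pow_right (by omega) h1
    | succ m ih =>
      intro b hb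
      rw [pow_succ'] at hb
      refine Submodule.mul_induction_on hb ?_ ?_
      · intro a ha c hc
        obtain ⟨s, hs, hsI, h1⟩ := hI a ha
        obtain ⟨t, ht, htI, h2⟩ := ih c hc
        refine ⟨s * t, mul_mem hs ht, ?_, ?_⟩
        · rw [pow_succ']
          exact Ideal.mul_mem_mul hsI htI
        · have h3 : a * c - s * t = (a - s) * c + s * (c - t) := by ring
          rw [h3]
          refine add_mem ?_ ?_
          · have := Ideal.mul_mem_mul h1 hc
            rw [← pow_add] at this
            rwa [show m + 1 + 1 = 2 + m by omega]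
          · have := Ideal.mul_mem_mul hsI h2
            rwa [← pow_succ'] at this
      · rintro x y ⟨s, hs, hs1, hs2⟩ ⟨t, ht, ht1, ht2⟩
        refine ⟨s + t, add_mem hs ht, add_mem hs1 ht1, ?_⟩
        have : x + y - (s + t) = (x - s) + (y - t) := by ring
        rw [this]
        exact add_mem hs2 ht2
  induction m with
  | zero => exact fun b => ⟨0, zero_mem _, by simp⟩
  | succ m ih =>
    intro b
    obtain ⟨s, hs, h1⟩ := ih b
    obtain ⟨t, ht, -, h2⟩ := key m _ h1
    refine ⟨s + t, add_mem hs ht, ?_⟩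
    have : b - (s + t) = b - s - t := by ring
    rwa [this]

variable {J : Type} [Fintype J] [DecidableEq J] (N : J → Ideal B)

/-- elements of `k[x]` which are idempotents modulo the squares -/
lemma exists_idem (c : J → k) (hc : Function.Injective c) (x : B)
    (hx : ∀ j, x - algebraMap k B (c j) ∈ N j) (S : Subalgebra k B) (hxS : x ∈ S) (j : J) :
    ∃ e ∈ S, e - 1 ∈ N j ^ 2 ∧ ∀ l, l ≠ j → e ∈ N l ^ 2 := by
  classical
  let Q : J → Ideal (Polynomial k) := fun l =>
    Ideal.span {Polynomial.X - Polynomial.C (c l)} ^ 2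
  have hQ : Pairwise (IsCoprime on Q) := by
    intro l l' hll
    apply IsCoprime.pow
    rw [Ideal.isCoprime_span_singleton_iff]
    apply Polynomial.isCoprime_X_sub_C_of_isUnit_sub
    exact (sub_ne_zero.2 (fun h => hll (hc h))).isUnit
  obtain ⟨h, hh⟩ := Ideal.exists_forall_sub_mem_ideal hQ (fun l => if l = j then 1 else 0)
  have hmap : ∀ l, ∀ p ∈ Q l, Polynomial.aeval x p ∈ N l ^ 2 := by
    intro l p hp
    have h1 : Ideal.map (Polynomial.aeval (R := k) x).toRingHom (Q l) ≤ N l ^ 2 := by
      rw [Ideal.map_pow, Ideal.map_span]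
      apply Ideal.pow_right_mono
      rw [Ideal.span_le]
      rintro _ ⟨_, rfl, rfl⟩
      change Polynomial.aeval x _ ∈ N l
      simpa using hx l
    exact h1 (Ideal.mem_map_of_mem _ hp)
  refine ⟨Polynomial.aeval x h, ?_, ?_, ?_⟩
  · have h1 : Polynomial.aeval x h ∈ Algebra.adjoin k {x} := by
      rw [Algebra.adjoin_singleton_eq_range_aeval]
      exact ⟨h, rfl⟩
    exact (Algebra.adjoin_le (Set.singleton_subset_iff.2 hxS)) h1
  · have h1 := hmap j _ (hh j)
    simpa using h1
  · intro l hl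
    have h1 := hmap l _ (hh l)
    simpa [hl] using h1

variable (hmax : ∀ j, (N j).IsMaximal) (hinj : Function.Injective N)
  (hres : ∀ j b, ∃ c : k, b - algebraMap k B c ∈ N j)
  {K : J → Type} [∀ j, AddCommGroup (K j)] [∀ j, Module k (K j)]
  (δ : ∀ j, B →ₗ[k] K j)
  (hδ0 : ∀ j c, δ j (algebraMap k B c) = 0)
  (hδ1 : ∀ j, ∀ a ∈ N j ^ 2, δ j a = 0)
  (hδ2 : ∀ j, ∀ a ∈ N j, δ j a = 0 → a ∈ N j ^ 2)
  (hδ3 : ∀ j, Function.Surjective (δ j))
  {d : ℕ} (hd : ∀ j, Module.finrank k (K j) = d + 1)

include hmax hinj hres hδ0 hδ1 hδ2 hδ3 hd in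
theorem exists_params [Infinite k] :
    ∃ x : Fin (d + 1) → B, (∀ j, LinearIndependent k (fun i => δ j (x i))) ∧
      ∀ m b, ∃ s ∈ Algebra.adjoin k (Set.range x), b - s ∈ (∏ j, N j) ^ m := by
  classical
  have hcop : Pairwise (IsCoprime on N) := by
    intro j l hjl
    exact Ideal.isCoprime_of_isMaximal (fun h => hjl (hinj h))
  have hcop2 : Pairwise (IsCoprime on (fun j => N j ^ 2)) := by
    intro j l hjl
    exact (hcop hjl).pow
  let c : J → k := fun j => Infinite.natEmbedding k (Fintype.equivFin J j)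
  have hc : Function.Injective c := by
    intro j l h
    exact (Fintype.equivFin J).injective
      (Fin.val_injective ((Infinite.natEmbedding k).injective h))
  have hfin : ∀ j, Module.Finite k (K j) := fun j =>
    Module.finite_of_finrank_pos (by rw [hd j]; omega)
  let bas : ∀ j, Module.Basis (Fin (d + 1)) k (K j) := fun j =>
    Module.finBasisOfFinrankEq k (K j) (hd j)
  have hu : ∀ j i, ∃ u ∈ N j, δ j u = bas j i := by
    intro j i
    obtain ⟨v, hv⟩ := hδ3 j (bas j i)
    obtain ⟨a, ha⟩ := hres j v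
    exact ⟨_, ha, by rw [map_sub, hδ0, sub_zero, hv]⟩
  choose u huN hu using hu
  let cc : J → Fin (d + 1) → k := fun j i => if i = 0 then c j else 0
  have hx : ∀ i, ∃ x : B, ∀ j, x - (u j i + algebraMap k B (cc j i)) ∈ N j ^ 2 := fun i =>
    Ideal.exists_forall_sub_mem_ideal hcop2 _
  choose x hx using hx
  have hxδ : ∀ j i, δ j (x i) = bas j i := by
    intro j i
    have h1 := hδ1 j _ (hx i j)
    rw [map_sub, map_add, hδ0, add_zero, hu, sub_eq_zero] at h1
    exact h1
  have hxN : ∀ j i, x i - algebraMap k B (cc j i) ∈ N j := by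
    intro j i
    have h1 : x i - (u j i + algebraMap k B (cc j i)) ∈ N j :=
      Ideal.pow_le_self two_ne_zero (hx i j)
    have h2 := add_mem h1 (huN j i)
    convert h2 using 1
    ring
  set S := Algebra.adjoin k (Set.range x) with hS
  have hxS : ∀ i, x i ∈ S := fun i => Algebra.subset_adjoin ⟨i, rfl⟩
  refine ⟨x, ?_, ?_⟩
  · intro j
    have : (fun i => δ j (x i)) = bas j := by
      funext i; exact hxδ j i
    rw [this]
    exact (bas j).linearIndependent
  have hloc : ∀ j b, ∃ t ∈ S, b - t ∈ N j ^ 2 := by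
    intro j b
    obtain ⟨a, ha⟩ := hres j b
    refine ⟨algebraMap k B a + ∑ i, (bas j).repr (δ j b) i • (x i - algebraMap k B (cc j i)),
      ?_, ?_⟩
    · refine add_mem (S.algebraMap_mem a) (sum_mem fun i _ => S.smul_mem ?_ _)
      exact sub_mem (hxS i) (S.algebraMap_mem _)
    · apply hδ2
      · rw [← sub_sub]
        refine sub_mem ha (sum_mem fun i _ => ?_)
        rw [Algebra.smul_def]
        exact Ideal.mul_mem_left _ _ (hxN j i)
      · rw [map_sub, map_add, hδ0, zero_add, map_sum, sub_eq_zero]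
        conv_lhs => rw [← (bas j).sum_repr (δ j b)]
        refine Finset.sum_congr rfl fun i _ => ?_
        rw [map_smul, map_sub, hδ0, sub_zero, hxδ]
  intro m
  refine adjoin_pow S _ ?_ m
  intro b
  choose t htS ht using fun j => hloc j b
  choose e heS he1 he2 using fun j => exists_idem N c hc (x 0) (fun j => by
    have := hxN j 0
    simpa [cc] using this) S (hxS 0) j
  refine ⟨∑ j, e j * t j, sum_mem fun j _ => mul_mem (heS j) (htS j), ?_⟩
  have h1 : (∏ j, N j) ^ 2 = ⨅ j ∈ (Finset.univ : Finset J), N j ^ 2 := by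
    rw [← Finset.prod_pow, Ideal.prod_eq_iInf_of_pairwise_isCoprime]
    intro j _ l _ hjl
    exact hcop2 hjl
  rw [h1]
  simp only [Finset.mem_univ, iInf_pos, Submodule.mem_iInf]
  intro l
  have h2 : b - ∑ j, e j * t j = (b - t l) - (e l - 1) * t l -
      ∑ j ∈ Finset.univ.erase l, e j * t j := by
    rw [← Finset.add_sum_erase _ _ (Finset.mem_univ l)]
    ring
  rw [h2]
  refine sub_mem (sub_mem (ht l) (Ideal.mul_mem_right _ _ (he1 l))) (sum_mem fun j hj => ?_)
  exact Ideal.mul_mem_right _ _ (he2 j l (Finset.ne_of_mem_erase hj).symm)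

end

end Pool.Agent.H14
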