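import Pool.Agent.H14.LocParam

/-!
# Differentials at rational points of a smooth algebra
-/

set_option autoImplicit false
set_option linter.unusedSectionVars false

open TensorProduct KaehlerDifferential

namespace Pool.Agent.H14

section

variable {k B : Type} [Field k] [CommRing B] [Algebra k B] (n : Ideal B) [n.IsMaximal]

/-- the differential at the point -/
noncomputable def dn : B →ₗ[k] KS k (Localization.AtPrime n) :=
  dL k (Localization.AtPrime n) ∘ₗ (Algebra.linearMap B (Localization.AtPrime n)).restrictScalars k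

lemma dn_apply (b : B) : dn (k := k) n b = dL k _ (algebraMap B (Localization.AtPrime n) b) := rfl

lemma dn_algebraMap (c : k) : dn (k := k) n (algebraMap k B c) = 0 := by
  rw [dn_apply, ← IsScalarTower.algebraMap_apply k B, dL_algebraMap]

lemma mem_pow_iff (m : ℕ) (b : B) : algebraMap B (Localization.AtPrime n) b ∈
    IsLocalRing.maximalIdeal (Localization.AtPrime n) ^ m ↔ b ∈ n ^ m := by
  rw [← Ideal.mem_under, IsLocalization.AtPrime.under_maximalIdeal_pow n]

lemma mem_max_iff (b : B) : algebraMap B (Localization.AtPrime n) b ∈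
    IsLocalRing.maximalIdeal (Localization.AtPrime n) ↔ b ∈ n := by
  exact IsLocalization.AtPrime.to_map_mem_maximal_iff _ n b

lemma dn_sq (a : B) (ha : a ∈ n ^ 2) : dn (k := k) n a = 0 := by
  rw [dn_apply]
  have h1 := (mem_pow_iff n 2 a).2 ha
  exact dL_sq (k := k) _ h1

variable {n}
variable (hres : ∀ b, ∃ c : k, b - algebraMap k B c ∈ n)

include hres in
lemma bij_residue : Function.Bijective
    (algebraMap k (IsLocalRing.ResidueField (Localization.AtPrime n))) := by
  refine ⟨(algebraMap k _).injective, fun y => ?_⟩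
  obtain ⟨l, rfl⟩ := IsLocalRing.residue_surjective y
  obtain ⟨b, hb⟩ := (IsLocalization.AtPrime.equivQuotMaximalIdeal n
    (Localization.AtPrime n)).surjective (Ideal.Quotient.mk _ l)
  obtain ⟨b, rfl⟩ := Ideal.Quotient.mk_surjective b
  obtain ⟨c, hc⟩ := hres b
  refine ⟨c, ?_⟩
  change _ = (Ideal.Quotient.mk _ l)
  rw [← hb, IsLocalization.AtPrime.equivQuotMaximalIdeal_apply_mk]
  change IsLocalRing.residue _ (algebraMap k _ c) = IsLocalRing.residue _ _
  rw [← sub_eq_zero, ← map_sub, IsLocalRing.residue_eq_zero_iff,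
    IsScalarTower.algebraMap_apply k B, ← map_sub]
  apply (mem_max_iff n _).2
  rw [← neg_mem_iff, neg_sub]
  exact hc

variable [Algebra.Smooth k B]

include hres in
lemma dn_inj (a : B) (ha : a ∈ n) (h : dn (k := k) n a = 0) : a ∈ n ^ 2 := by
  rw [← mem_pow_iff]
  exact dL_inj (bij_residue hres) _ ((mem_max_iff n a).2 ha) h

include hres in
lemma dn_surj : Function.Surjective (dn (k := k) n) := by
  intro y
  obtain ⟨l, rfl⟩ := dL_surj (bij_residue hres) y
  obtain ⟨b, hb⟩ := (IsLocalization.AtPrime.equivQuotMaximalIdealPow n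
    (Localization.AtPrime n) 2).surjective (Ideal.Quotient.mk _ l)
  obtain ⟨b, rfl⟩ := Ideal.Quotient.mk_surjective b
  rw [IsLocalization.AtPrime.equivQuotMaximalIdealPow_apply_mk, Ideal.Quotient.mk_eq_mk_iff_sub_mem]
    at hb
  refine ⟨b, ?_⟩
  rw [dn_apply, ← sub_eq_zero, ← map_sub]
  exact dL_sq _ hb

include hres in
/-- the Jacobian criterion at a rational point -/
theorem smoothAt_of_dn {r : ℕ} [Algebra (MvPolynomial (Fin r) k) B]
    [IsScalarTower k (MvPolynomial (Fin r) k) B]
    (hli : LinearIndependent k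
      (fun i => dn (k := k) n (algebraMap (MvPolynomial (Fin r) k) B (MvPolynomial.X i)))) :
    Algebra.IsSmoothAt (MvPolynomial (Fin r) k) n := by
  have h1 : Algebra.FormallySmooth k (Localization.AtPrime n) := inferInstance
  have h2 : Module.Finite (Localization.AtPrime n) Ω[Localization.AtPrime n⁄k] := inferInstance
  have h3 : Module.Free (Localization.AtPrime n) Ω[Localization.AtPrime n⁄k] :=
    Module.free_of_flat_of_isLocalRing
  exact smooth_of_dL (bij_residue hres) hli

end

end Pool.Agent.H14
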