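import Pool.Agent.H14.DGood
import Pool.Agent.H14.CoordLA
import Pool.Agent.H14.Params
import Pool.Agent.H14.PointB

/-!
# Coordinates adapted to a subscheme of length four
-/

set_option autoImplicit false
set_option linter.unusedSectionVars false

open TensorProduct KaehlerDifferential

namespace Pool.Agent.H14

section

variable {k B A : Type} [Field k] [CommRing B] [Algebra k B]

/-- prime avoidance for open sets -/
lemma exists_basicOpen {J : Type} [Finite J] (N : J → Ideal B) (hN : ∀ j, (N j).IsPrime)
    (U : Set (PrimeSpectrum B)) (hU : IsOpen U) (hNU : ∀ j, (⟨N j, hN j⟩ : PrimeSpectrum B) ∈ U) :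
    ∃ g : B, (∀ j, g ∉ N j) ∧ (PrimeSpectrum.basicOpen g : Set (PrimeSpectrum B)) ⊆ U := by
  classical
  have : Fintype J := Fintype.ofFinite J
  obtain ⟨I, hI⟩ := (PrimeSpectrum.isClosed_iff_zeroLocus_ideal Uᶜ).1 hU.isClosed_compl
  have h1 : ¬ ((I : Set B) ⊆ ⋃ i ∈ ((Finset.univ : Finset J) : Set J), N i) := by
    rcases isEmpty_or_nonempty J with hJ | ⟨⟨j0⟩⟩
    · intro h
      have := h (zero_mem I)
      simp at this
    rw [Ideal.subset_union_prime j0 j0 (fun i _ _ _ => hN i)]
    rintro ⟨j, -, hj⟩
    have h2 : (⟨N j, hN j⟩ : PrimeSpectrum B) ∈ PrimeSpectrum.zeroLocus (I : Set B) := hj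
    rw [← hI] at h2
    exact h2 (hNU j)
  obtain ⟨g, hgI, hg⟩ := Set.not_subset.1 h1
  refine ⟨g, fun j hj => hg ?_, fun p hp => ?_⟩
  · simp only [Set.mem_iUnion]
    exact ⟨j, by simp, hj⟩
  · by_contra hcon
    have h2 : p ∈ PrimeSpectrum.zeroLocus (I : Set B) := by rw [← hI]; exact hcon
    exact hp (h2 hgI)

variable [CommRing A] [Algebra k A] [Module.Finite k A]

/-- Given elements with independent differentials at the points, the corresponding map from
affine space is smooth on a neighbourhood of the points. -/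
theorem exists_smooth_nbhd [Algebra.Smooth k B] (β : B →ₐ[k] A)
    (hres : ∀ (j : MaximalSpectrum A) (b : B), ∃ c : k,
      b - algebraMap k B c ∈ j.asIdeal.comap β.toRingHom)
    (hmax : ∀ j : MaximalSpectrum A, (j.asIdeal.comap β.toRingHom).IsMaximal)
    {r : ℕ} (x : Fin r → B)
    (hx : ∀ (j : MaximalSpectrum A) [(j.asIdeal.comap β.toRingHom).IsMaximal],
      LinearIndependent k (fun i => dn (k := k) (j.asIdeal.comap β.toRingHom) (x i))) :
    ∃ (g : B) (β' : Localization.Away g →ₐ[k] A)
      (_ : Algebra (MvPolynomial (Fin r) k) (Localization.Away g)),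
      (∀ b, β' (algebraMap B _ b) = β b) ∧
      IsScalarTower k (MvPolynomial (Fin r) k) (Localization.Away g) ∧
      Algebra.Smooth (MvPolynomial (Fin r) k) (Localization.Away g) ∧
      ∀ i, algebraMap (MvPolynomial (Fin r) k) (Localization.Away g) (MvPolynomial.X i) =
        algebraMap B _ (x i) := by
  classical
  let _ : Algebra (MvPolynomial (Fin r) k) B := (MvPolynomial.aeval x).toRingHom.toAlgebra
  have htow : IsScalarTower k (MvPolynomial (Fin r) k) B :=
    IsScalarTower.of_algebraMap_eq fun c => ((MvPolynomial.aeval x).commutes c).symm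
  have hX : ∀ i, algebraMap (MvPolynomial (Fin r) k) B (MvPolynomial.X i) = x i := fun i =>
    MvPolynomial.aeval_X _ _
  have hft : Algebra.FiniteType (MvPolynomial (Fin r) k) B :=
    Algebra.FiniteType.of_restrictScalars_finiteType k _ _
  have hfp : Algebra.FinitePresentation (MvPolynomial (Fin r) k) B :=
    Algebra.FinitePresentation.of_finiteType.1 hft
  have hart : IsArtinianRing A := isArtinian_of_tower k inferInstance
  obtain ⟨g, hg1, hg2⟩ := exists_basicOpen (fun j : MaximalSpectrum A =>
    j.asIdeal.comap β.toRingHom) (fun j => (hmax j).isPrime)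
    (Algebra.smoothLocus (MvPolynomial (Fin r) k) B) Algebra.isOpen_smoothLocus (by
      intro j
      have hm := hmax j
      apply smoothAt_of_dn (hres j)
      simp only [hX]
      exact hx j)
  have hsm := Algebra.basicOpen_subset_smoothLocus_iff_smooth.1 hg2
  have hu : IsUnit (β g) := by
    by_contra hnu
    obtain ⟨m, hm, hgm⟩ := exists_max_ideal_of_mem_nonunits hnu
    exact hg1 ⟨m, hm⟩ hgm
  refine ⟨g, IsLocalization.liftAlgHom (M := Submonoid.powers g) (f := β) ?_, inferInstance,
    ?_, inferInstance, hsm, ?_⟩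
  · rintro ⟨_, m, rfl⟩
    change IsUnit (β (g ^ m))
    rw [map_pow]
    exact hu.pow m
  · intro b
    exact IsLocalization.lift_eq _ _
  · intro i
    rw [IsScalarTower.algebraMap_apply (MvPolynomial (Fin r) k) B, hX]

lemma artinian_pow [IsArtinianRing A] [Fintype (MaximalSpectrum A)] :
    ∃ m : ℕ, (∏ j : MaximalSpectrum A, j.asIdeal) ^ m = ⊥ := by
  obtain ⟨m, hm⟩ := IsArtinianRing.isNilpotent_jacobson_bot (R := A)
  refine ⟨m, ?_⟩
  rw [eq_bot_iff, ← Ideal.zero_eq_bot, ← hm]
  apply Ideal.pow_right_mono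
  rw [Ideal.jacobson]
  refine le_sInf ?_
  rintro I ⟨-, hI⟩
  exact (Ideal.prod_le_inf).trans (Finset.inf_le (Finset.mem_univ (⟨I, hI⟩ : MaximalSpectrum A)))

lemma li_of {M : Type} [AddCommGroup M] [Module k M] (δ : B →ₗ[k] M) {m : ℕ} (x : Fin m → B)
    (hx : LinearIndependent k (fun i => δ (x i))) {r : ℕ} (v : Fin r → (Fin m → k))
    (hv : LinearIndependent k v) :
    LinearIndependent k (fun i => δ (Fintype.linearCombination k x (v i))) := by
  have h1 : Function.Injective (δ ∘ₗ Fintype.linearCombination k x) := by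
    apply injective_of_basis (Pi.basisFun k (Fin m))
    have h2 : ∀ i, (δ ∘ₗ Fintype.linearCombination k x) ((Pi.basisFun k (Fin m)) i) = δ (x i) := by
      intro i
      rw [Pi.basisFun_apply, LinearMap.comp_apply, Fintype.linearCombination_apply_single, one_smul]
    simp only [h2]
    exact hx
  exact hv.map' _ (LinearMap.ker_eq_bot.2 h1)

theorem exists_coords [IsAlgClosed k] [Algebra.Smooth k B] (h2 : (2 : k) ≠ 0) (β : B →ₐ[k] A)
    (hβ : Function.Surjective β) (hA : Module.finrank k A = 4) {d : ℕ}
    (hd : ∀ (n : Ideal B) [n.IsMaximal],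
      Module.finrank (Localization.AtPrime n) Ω[Localization.AtPrime n⁄k] = d + 1) :
    ∃ (r : ℕ) (e : Fin 4 → MvPolynomial (Fin r) k) (g : B) (β' : Localization.Away g →ₐ[k] A)
      (_ : Algebra (MvPolynomial (Fin r) k) (Localization.Away g)),
      GoodBase (ChartRing k e) ∧
      (∀ b, β' (algebraMap B _ b) = β b) ∧
      IsScalarTower k (MvPolynomial (Fin r) k) (Localization.Away g) ∧
      Algebra.Smooth (MvPolynomial (Fin r) k) (Localization.Away g) ∧
      LinearIndependent k (fun i => β' (algebraMap _ (Localization.Away g) (e i))) := by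
  classical
  have hart : IsArtinianRing A := isArtinian_of_tower k inferInstance
  have hfJ : Finite (MaximalSpectrum A) := inferInstance
  have : Fintype (MaximalSpectrum A) := Fintype.ofFinite _
  set N : MaximalSpectrum A → Ideal B := fun j => j.asIdeal.comap β.toRingHom with hN
  have hmax : ∀ j, (N j).IsMaximal := fun j =>
    Ideal.comap_isMaximal_of_surjective β.toRingHom hβ
  have hinj : Function.Injective N := by
    intro j l hjl
    have := Ideal.comap_injective_of_surjective β.toRingHom hβ hjl
    ext1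
    exact this
  have hres : ∀ (j : MaximalSpectrum A) (b : B), ∃ c : k, b - algebraMap k B c ∈ N j := by
    intro j b
    have h3 : Function.Bijective (algebraMap k (A ⧸ j.asIdeal)) := by
      have hj := j.isMaximal
      have h4 : Module.Finite k (A ⧸ j.asIdeal) := inferInstance
      have h5 : Algebra.IsIntegral k (A ⧸ j.asIdeal) := inferInstance
      exact IsAlgClosed.algebraMap_bijective_of_isIntegral
    obtain ⟨c, hc⟩ := h3.2 (Ideal.Quotient.mk _ (β b))
    refine ⟨c, ?_⟩
    change β (b - algebraMap k B c) ∈ j.asIdeal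
    rw [← Ideal.Quotient.eq_zero_iff_mem, map_sub, map_sub, ← hc, β.commutes, sub_eq_zero]
    rfl
  have hinf : Infinite k := IsAlgClosed.instInfinite
  obtain ⟨x, hx1, hx2⟩ := exists_params N hmax hinj hres
    (K := fun j => KS k (Localization.AtPrime (N j))) (fun j => dn (k := k) (N j))
    (fun j c => dn_algebraMap _ c) (fun j a ha => dn_sq _ a ha)
    (fun j a ha h => dn_inj (hres j) a ha h) (fun j => dn_surj (hres j)) (d := d) (by
      intro j
      have h4 : Module.Free (Localization.AtPrime (N j)) Ω[Localization.AtPrime (N j)⁄k] :=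
        Module.free_of_flat_of_isLocalRing
      rw [finrank_KS (bij_residue (hres j)), hd (N j)])
  -- the linear system
  let ψ : (Fin (d + 1) → k) →ₗ[k] B := Fintype.linearCombination k x
  let φ : (Fin (d + 1) → k) →ₗ[k] A := β.toLinearMap ∘ₗ ψ
  have hψ : ∀ i, ψ (Pi.single i 1) = x i := by
    intro i
    rw [Fintype.linearCombination_apply_single, one_smul]
  have hφ : Algebra.adjoin k (Set.range φ) = ⊤ := by
    obtain ⟨m, hm⟩ := artinian_pow (A := A)
    rw [eq_top_iff]
    rintro a -
    obtain ⟨b, rfl⟩ := hβ a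
    obtain ⟨s, hs, hbs⟩ := hx2 m b
    have h3 : β (b - s) = 0 := by
      have h4 : Ideal.map β.toRingHom ((∏ j, N j) ^ m) ≤ ⊥ := by
        rw [← hm, Ideal.map_pow]
        apply Ideal.pow_right_mono
        have h5 : Ideal.map β.toRingHom (∏ j, N j) = ∏ j, Ideal.map β.toRingHom (N j) :=
          map_prod (Ideal.mapHom β.toRingHom) _ _
        rw [h5]
        exact Finset.prod_le_prod' fun j _ => Ideal.map_comap_le
      exact h4 (Ideal.mem_map_of_mem β.toRingHom hbs)
    have h5 : β b = β s := by rwa [map_sub, sub_eq_zero] at h3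
    rw [h5]
    have h6 : s ∈ (Algebra.adjoin k (Set.range φ)).comap β := by
      refine (Algebra.adjoin_le ?_) hs
      rintro _ ⟨i, rfl⟩
      change β (x i) ∈ Algebra.adjoin k (Set.range φ)
      rw [← hψ i]
      exact Algebra.subset_adjoin ⟨_, rfl⟩
    exact h6
  have hdn : ∀ {r : ℕ} (v : Fin r → (Fin (d + 1) → k)), LinearIndependent k v →
      ∀ (j : MaximalSpectrum A) [(j.asIdeal.comap β.toRingHom).IsMaximal],
      LinearIndependent k (fun i => dn (k := k) (j.asIdeal.comap β.toRingHom) (ψ (v i))) := by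
    intro r v hv j hj
    exact li_of (dn (k := k) (j.asIdeal.comap β.toRingHom)) x (hx1 j) v hv
  obtain ⟨v, hv⟩ | ⟨v, y, hv⟩ | ⟨v, y, z, hv⟩ := coords_cases h2 hA φ hφ
  · have hli : LinearIndependent k ![v] := by
      apply LinearIndependent.of_comp φ
      have := hv.comp ![1] (by decide)
      convert this using 1
      ext i; fin_cases i; rfl
    obtain ⟨g, β', alg, h3, h4, h5, h6⟩ := exists_smooth_nbhd β hres hmax
      (fun i => ψ (![v] i)) (hdn _ hli)
    refine ⟨1, D1.b1 k, g, β', alg, goodBase_D1 k, h3, h4, h5, ?_⟩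
    convert hv using 1
    have h7 : β' (algebraMap (MvPolynomial (Fin 1) k) (Localization.Away g) (MvPolynomial.X 0)) =
        φ v := by rw [h6, h3]; rfl
    ext i; fin_cases i <;> simp [D1.b1, h7]
  · have hli : LinearIndependent k ![v, y] := by
      apply LinearIndependent.of_comp φ
      have := hv.comp ![1, 3] (by decide)
      convert this using 1
      ext i; fin_cases i <;> rfl
    obtain ⟨g, β', alg, h3, h4, h5, h6⟩ := exists_smooth_nbhd β hres hmax
      (fun i => ψ (![v, y] i)) (hdn _ hli)
    refine ⟨2, D2.b2 k, g, β', alg, goodBase_D2 k, h3, h4, h5, ?_⟩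
    convert hv using 1
    have h7 : β' (algebraMap (MvPolynomial (Fin 2) k) (Localization.Away g) (MvPolynomial.X 0)) =
        φ v := by rw [h6, h3]; rfl
    have h8 : β' (algebraMap (MvPolynomial (Fin 2) k) (Localization.Away g) (MvPolynomial.X 1)) =
        φ y := by rw [h6, h3]; rfl
    ext i; fin_cases i <;> simp [D2.b2, h7, h8]
  · have hli : LinearIndependent k ![v, y, z] := by
      apply LinearIndependent.of_comp φ
      have := hv.comp ![1, 2, 3] (by decide)
      convert this using 1
      ext i; fin_cases i <;> rfl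
    obtain ⟨g, β', alg, h3, h4, h5, h6⟩ := exists_smooth_nbhd β hres hmax
      (fun i => ψ (![v, y, z] i)) (hdn _ hli)
    refine ⟨3, D3.b3 k, g, β', alg, goodBase_D3 k, h3, h4, h5, ?_⟩
    convert hv using 1
    have h7 : β' (algebraMap (MvPolynomial (Fin 3) k) (Localization.Away g) (MvPolynomial.X 0)) =
        φ v := by rw [h6, h3]; rfl
    have h8 : β' (algebraMap (MvPolynomial (Fin 3) k) (Localization.Away g) (MvPolynomial.X 1)) =
        φ y := by rw [h6, h3]; rfl
    have h9 : β' (algebraMap (MvPolynomial (Fin 3) k) (Localization.Away g) (MvPolynomial.X 2)) =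
        φ z := by rw [h6, h3]; rfl
    ext i; fin_cases i <;> simp [D3.b3, h7, h8, h9]

end

end Pool.Agent.H14
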