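import Pool.Agent.H14.MatChart

/-!
# The chart `(1, x, x², x³)` of the Hilbert scheme of four points of the line is an affine space
-/

set_option autoImplicit false
set_option linter.unusedSimpArgs false
set_option linter.unusedVariables false

open MvPolynomial Matrix

namespace Pool.Agent.H14

namespace D1

variable {k : Type} [CommRing k]

/-- the functions `1, x, x², x³` -/
noncomputable def b1 (k : Type) [CommRing k] : Fin 4 → MvPolynomial (Fin 1) k :=
  ![1, X 0, X 0 * X 0, X 0 * X 0 * X 0]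

section

variable {R : Type} [CommRing R] [Algebra k R]

/-- companion matrix -/
def cmp (p : Fin 4 → R) : Matrix (Fin 4) (Fin 4) R :=
  Matrix.of ![![0, 0, 0, p 0], ![1, 0, 0, p 1], ![0, 1, 0, p 2], ![0, 0, 1, p 3]]

/-- the matrix -/
def Mt (p : Fin 4 → R) : Fin 1 → Matrix (Fin 4) (Fin 4) R := fun _ => cmp p

lemma Mt_comm (p : Fin 4 → R) (i j : Fin 1) : Mt p i * Mt p j = Mt p j * Mt p i := rfl

lemma c0 (p : Fin 4 → R) : (cmp p).mulVec (Pi.single 0 1) = Pi.single 1 1 := by
  ext l
  rw [Matrix.mulVec_single_one, Matrix.col_apply]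
  fin_cases l <;> simp [cmp]

lemma c1 (p : Fin 4 → R) : (cmp p).mulVec (Pi.single 1 1) = Pi.single 2 1 := by
  ext l
  rw [Matrix.mulVec_single_one, Matrix.col_apply]
  fin_cases l <;> simp [cmp]

lemma c2 (p : Fin 4 → R) : (cmp p).mulVec (Pi.single 2 1) = Pi.single 3 1 := by
  ext l
  rw [Matrix.mulVec_single_one, Matrix.col_apply]
  fin_cases l <;> simp [cmp]

lemma c3 (p : Fin 4 → R) : (cmp p).mulVec (Pi.single 3 1) = p := by
  ext l
  rw [Matrix.mulVec_single_one, Matrix.col_apply]
  fin_cases l <;> simp [cmp]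

/-- the chart datum with given parameters -/
noncomputable def chartOf (p : Fin 4 → R) : Chart k (b1 k) R :=
  Chart.ofMat (b1 k) (Mt p) (Mt_comm p) (Pi.single 0 1) (by
    intro i
    fin_cases i
    · change (matEval k (Mt p) (Mt_comm p) 1).mulVec _ = _
      rw [map_one, Matrix.one_mulVec]; rfl
    · change (matEval k (Mt p) (Mt_comm p) (X 0)).mulVec _ = _
      rw [matEval_X]; exact c0 p
    · change (matEval k (Mt p) (Mt_comm p) (X 0 * X 0)).mulVec _ = _
      rw [map_mul, matEval_X, ← Matrix.mulVec_mulVec]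
      change (cmp p).mulVec ((cmp p).mulVec _) = _
      rw [c0]; exact c1 p
    · change (matEval k (Mt p) (Mt_comm p) (X 0 * X 0 * X 0)).mulVec _ = _
      rw [map_mul, map_mul, matEval_X, ← Matrix.mulVec_mulVec, ← Matrix.mulVec_mulVec]
      change (cmp p).mulVec ((cmp p).mulVec ((cmp p).mulVec _)) = _
      rw [c0, c1]; exact c2 p)

/-- the parameters of a chart datum -/
noncomputable def pC (c : Chart k (b1 k) R) : Fin 4 → R := c.q (X 0 * X 0 * X 0 * X 0)

lemma pC_chartOf (p : Fin 4 → R) : pC (chartOf (k := k) p) = p := by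
  rw [pC, chartOf, Chart.ofMat_q, map_mul, map_mul, map_mul, matEval_X,
    ← Matrix.mulVec_mulVec, ← Matrix.mulVec_mulVec, ← Matrix.mulVec_mulVec]
  change (cmp p).mulVec ((cmp p).mulVec ((cmp p).mulVec ((cmp p).mulVec _))) = _
  rw [c0, c1, c2, c3]

lemma ext_p {c c' : Chart k (b1 k) R} (h : pC c = pC c') : c = c' := by
  apply Chart.ext_of
  · exact (c.q_b 0).trans (c'.q_b 0).symm
  · intro i j
    fin_cases i
    fin_cases j
    · change c.q (1 * X 0) = c'.q (1 * X 0)
      rw [one_mul]
      exact (c.q_b 1).trans (c'.q_b 1).symm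
    · exact (c.q_b 2).trans (c'.q_b 2).symm
    · exact (c.q_b 3).trans (c'.q_b 3).symm
    · exact h

lemma chartOf_pC (c : Chart k (b1 k) R) : chartOf (pC c) = c := by
  apply ext_p
  rw [pC_chartOf]

variable {R' : Type} [CommRing R'] [Algebra k R']

lemma pC_map (c : Chart k (b1 k) R) (φ : R →ₐ[k] R') (i : Fin 4) :
    pC (c.map φ) i = φ (pC c i) := rfl

end

variable (k)

/-- the chart ring is a polynomial ring -/
noncomputable def iso : ChartRing k (b1 k) ≃ₐ[k] MvPolynomial (Fin 4) k :=
  AlgEquiv.ofAlgHom (chartOf (k := k) (X : Fin 4 → MvPolynomial (Fin 4) k)).lift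
    (aeval (pC (univChart k (b1 k)))) (by
      apply MvPolynomial.algHom_ext
      intro i
      rw [AlgHom.comp_apply, aeval_X, ← pC_map, Chart.map_lift, pC_chartOf, AlgHom.id_apply]) (by
    apply chartRing_hom_ext
    rw [← Chart.map_map, Chart.map_lift, Chart.map_id, ← chartOf_pC ((chartOf X).map _)]
    conv_rhs => rw [← chartOf_pC (univChart k (b1 k))]
    congr 1
    funext i
    rw [pC_map, pC_chartOf, aeval_X])

end D1

end Pool.Agent.H14
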