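import Pool.Agent.H14.MatChart

/-!
# The chart `(1, x, x², y)` of the Hilbert scheme of four points of the plane is an affine space
-/

set_option autoImplicit false
set_option linter.unusedSimpArgs false
set_option linter.unusedVariables false

open MvPolynomial Matrix

namespace Pool.Agent.H14

namespace D2

section ring

variable {R : Type*} [CommRing R]

/-- multiplication by `x` -/
def Nx (p : Fin 8 → R) : Matrix (Fin 4) (Fin 4) R :=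
  Matrix.of ![
    ![0, 0, -p 5 * p 7, p 5 * p 6],
    ![1, 0, p 3, 0],
    ![0, 1, p 4, 0],
    ![0, 0, p 5, 0]]

/-- multiplication by `y` -/
def Ny (p : Fin 8 → R) : Matrix (Fin 4) (Fin 4) R :=
  Matrix.of ![
    ![0, p 5 * p 6, 0, -p 3 * p 6],
    ![0, 0, p 5 * p 6, -p 4 * p 6],
    ![0, 0, 0, p 6],
    ![1, 0, 0, p 7]]

/-- change of basis -/
def W (p : Fin 8 → R) : Matrix (Fin 4) (Fin 4) R :=
  Matrix.of ![
    ![1, p 0, p 0 * p 0, p 1],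
    ![0, 1, 2 * p 0, p 2],
    ![0, 0, 1, 0],
    ![0, 0, 0, 1]]

/-- change of basis -/
def Wi (p : Fin 8 → R) : Matrix (Fin 4) (Fin 4) R :=
  Matrix.of ![
    ![1, -p 0, p 0 * p 0, p 0 * p 2 - p 1],
    ![0, 1, -2 * p 0, -p 2],
    ![0, 0, 1, 0],
    ![0, 0, 0, 1]]

lemma W_mul (p : Fin 8 → R) : W p * Wi p = 1 := by
  ext i j
  fin_cases i <;> fin_cases j <;> simp only [W, Wi, Matrix.mul_apply, Fin.sum_univ_four, Matrix.add_apply,
    Matrix.smul_apply, Matrix.one_apply, Matrix.of_apply, Matrix.cons_val, Matrix.cons_val_zero,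
    Matrix.cons_val_one, smul_eq_mul, Fin.isValue, Fin.reduceEq, reduceIte, Fin.zero_eta,
    Fin.mk_one, Fin.reduceFinMk] <;> ring

lemma N_comm (p : Fin 8 → R) : Nx p * Ny p = Ny p * Nx p := by
  ext i j
  fin_cases i <;> fin_cases j <;> simp only [Nx, Ny, Matrix.mul_apply, Fin.sum_univ_four, Matrix.add_apply,
    Matrix.smul_apply, Matrix.one_apply, Matrix.of_apply, Matrix.cons_val, Matrix.cons_val_zero,
    Matrix.cons_val_one, smul_eq_mul, Fin.isValue, Fin.reduceEq, reduceIte, Fin.zero_eta,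
    Fin.mk_one, Fin.reduceFinMk] <;> ring

/-- the two matrices -/
def Mt (p : Fin 8 → R) : Fin 2 → Matrix (Fin 4) (Fin 4) R :=
  ![Wi p * (Nx p + p 0 • 1) * W p, Wi p * (Ny p + p 2 • Nx p + p 1 • 1) * W p]

lemma Mt_comm' (p : Fin 8 → R) : Mt p 0 * Mt p 1 = Mt p 1 * Mt p 0 := by
  have h0 := N_comm p
  have h1 : (Nx p + p 0 • 1) * (Ny p + p 2 • Nx p + p 1 • 1) =
      (Ny p + p 2 • Nx p + p 1 • 1) * (Nx p + p 0 • 1) := by
    rw [add_mul, mul_add, mul_add, mul_add, mul_add, add_mul, add_mul, h0]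
    simp only [smul_mul_assoc, one_mul, mul_smul_comm, mul_one, smul_smul, mul_add, smul_add]
    rw [mul_comm (p 0) (p 1), mul_comm (p 0) (p 2)]
    abel
  have h2 := W_mul p
  have h3 : ∀ A A' : Matrix (Fin 4) (Fin 4) R,
      (Wi p * A * W p) * (Wi p * A' * W p) = Wi p * (A * A') * W p := by
    intro A A'
    calc _ = Wi p * A * (W p * Wi p) * A' * W p := by
          simp only [mul_assoc]
      _ = _ := by rw [h2, mul_one]; simp only [mul_assoc]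
  rw [Mt, Matrix.cons_val_zero, Matrix.cons_val_one, Matrix.cons_val_fin_one, h3, h3, h1]

lemma Mt_comm (p : Fin 8 → R) (i j : Fin 2) : Mt p i * Mt p j = Mt p j * Mt p i := by
  fin_cases i <;> fin_cases j
  · rfl
  · exact Mt_comm' p
  · exact (Mt_comm' p).symm
  · rfl

lemma Mt_0_0_0 (p : Fin 8 → R) : Mt p 0 0 0 = 0 := by
  simp only [Mt, W, Wi, Nx, Ny, Matrix.mul_apply, Fin.sum_univ_four, Matrix.add_apply,
    Matrix.smul_apply, Matrix.one_apply, Matrix.of_apply, Matrix.cons_val, Matrix.cons_val_zero,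
    Matrix.cons_val_one, smul_eq_mul, Fin.isValue, Fin.reduceEq, reduceIte, Fin.zero_eta,
    Fin.mk_one, Fin.reduceFinMk]
  ring

lemma Mt_0_1_0 (p : Fin 8 → R) : Mt p 0 1 0 = 1 := by
  simp only [Mt, W, Wi, Nx, Ny, Matrix.mul_apply, Fin.sum_univ_four, Matrix.add_apply,
    Matrix.smul_apply, Matrix.one_apply, Matrix.of_apply, Matrix.cons_val, Matrix.cons_val_zero,
    Matrix.cons_val_one, smul_eq_mul, Fin.isValue, Fin.reduceEq, reduceIte, Fin.zero_eta,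
    Fin.mk_one, Fin.reduceFinMk]
  ring

lemma Mt_0_2_0 (p : Fin 8 → R) : Mt p 0 2 0 = 0 := by
  simp only [Mt, W, Wi, Nx, Ny, Matrix.mul_apply, Fin.sum_univ_four, Matrix.add_apply,
    Matrix.smul_apply, Matrix.one_apply, Matrix.of_apply, Matrix.cons_val, Matrix.cons_val_zero,
    Matrix.cons_val_one, smul_eq_mul, Fin.isValue, Fin.reduceEq, reduceIte, Fin.zero_eta,
    Fin.mk_one, Fin.reduceFinMk]
  ring

lemma Mt_0_3_0 (p : Fin 8 → R) : Mt p 0 3 0 = 0 := by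
  simp only [Mt, W, Wi, Nx, Ny, Matrix.mul_apply, Fin.sum_univ_four, Matrix.add_apply,
    Matrix.smul_apply, Matrix.one_apply, Matrix.of_apply, Matrix.cons_val, Matrix.cons_val_zero,
    Matrix.cons_val_one, smul_eq_mul, Fin.isValue, Fin.reduceEq, reduceIte, Fin.zero_eta,
    Fin.mk_one, Fin.reduceFinMk]
  ring

lemma Mt_0_0_1 (p : Fin 8 → R) : Mt p 0 0 1 = 0 := by
  simp only [Mt, W, Wi, Nx, Ny, Matrix.mul_apply, Fin.sum_univ_four, Matrix.add_apply,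
    Matrix.smul_apply, Matrix.one_apply, Matrix.of_apply, Matrix.cons_val, Matrix.cons_val_zero,
    Matrix.cons_val_one, smul_eq_mul, Fin.isValue, Fin.reduceEq, reduceIte, Fin.zero_eta,
    Fin.mk_one, Fin.reduceFinMk]
  ring

lemma Mt_0_1_1 (p : Fin 8 → R) : Mt p 0 1 1 = 0 := by
  simp only [Mt, W, Wi, Nx, Ny, Matrix.mul_apply, Fin.sum_univ_four, Matrix.add_apply,
    Matrix.smul_apply, Matrix.one_apply, Matrix.of_apply, Matrix.cons_val, Matrix.cons_val_zero,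
    Matrix.cons_val_one, smul_eq_mul, Fin.isValue, Fin.reduceEq, reduceIte, Fin.zero_eta,
    Fin.mk_one, Fin.reduceFinMk]
  ring

lemma Mt_0_2_1 (p : Fin 8 → R) : Mt p 0 2 1 = 1 := by
  simp only [Mt, W, Wi, Nx, Ny, Matrix.mul_apply, Fin.sum_univ_four, Matrix.add_apply,
    Matrix.smul_apply, Matrix.one_apply, Matrix.of_apply, Matrix.cons_val, Matrix.cons_val_zero,
    Matrix.cons_val_one, smul_eq_mul, Fin.isValue, Fin.reduceEq, reduceIte, Fin.zero_eta,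
    Fin.mk_one, Fin.reduceFinMk]
  ring

lemma Mt_0_3_1 (p : Fin 8 → R) : Mt p 0 3 1 = 0 := by
  simp only [Mt, W, Wi, Nx, Ny, Matrix.mul_apply, Fin.sum_univ_four, Matrix.add_apply,
    Matrix.smul_apply, Matrix.one_apply, Matrix.of_apply, Matrix.cons_val, Matrix.cons_val_zero,
    Matrix.cons_val_one, smul_eq_mul, Fin.isValue, Fin.reduceEq, reduceIte, Fin.zero_eta,
    Fin.mk_one, Fin.reduceFinMk]
  ring

lemma Mt_0_0_2 (p : Fin 8 → R) : Mt p 0 0 2 = p 4 * p 0 * p 0 + p 5 * p 0 * p 2 + p 0 * p 0 * p 0 - p 3 * p 0 - p 5 * p 7 - p 5 * p 1 := by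
  simp only [Mt, W, Wi, Nx, Ny, Matrix.mul_apply, Fin.sum_univ_four, Matrix.add_apply,
    Matrix.smul_apply, Matrix.one_apply, Matrix.of_apply, Matrix.cons_val, Matrix.cons_val_zero,
    Matrix.cons_val_one, smul_eq_mul, Fin.isValue, Fin.reduceEq, reduceIte, Fin.zero_eta,
    Fin.mk_one, Fin.reduceFinMk]
  ring

lemma Mt_0_1_2 (p : Fin 8 → R) : Mt p 0 1 2 = -2 * p 4 * p 0 - p 5 * p 2 - 3 * p 0 * p 0 + p 3 := by
  simp only [Mt, W, Wi, Nx, Ny, Matrix.mul_apply, Fin.sum_univ_four, Matrix.add_apply,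
    Matrix.smul_apply, Matrix.one_apply, Matrix.of_apply, Matrix.cons_val, Matrix.cons_val_zero,
    Matrix.cons_val_one, smul_eq_mul, Fin.isValue, Fin.reduceEq, reduceIte, Fin.zero_eta,
    Fin.mk_one, Fin.reduceFinMk]
  ring

lemma Mt_0_2_2 (p : Fin 8 → R) : Mt p 0 2 2 = p 4 + 3 * p 0 := by
  simp only [Mt, W, Wi, Nx, Ny, Matrix.mul_apply, Fin.sum_univ_four, Matrix.add_apply,
    Matrix.smul_apply, Matrix.one_apply, Matrix.of_apply, Matrix.cons_val, Matrix.cons_val_zero,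
    Matrix.cons_val_one, smul_eq_mul, Fin.isValue, Fin.reduceEq, reduceIte, Fin.zero_eta,
    Fin.mk_one, Fin.reduceFinMk]
  ring

lemma Mt_0_3_2 (p : Fin 8 → R) : Mt p 0 3 2 = p 5 := by
  simp only [Mt, W, Wi, Nx, Ny, Matrix.mul_apply, Fin.sum_univ_four, Matrix.add_apply,
    Matrix.smul_apply, Matrix.one_apply, Matrix.of_apply, Matrix.cons_val, Matrix.cons_val_zero,
    Matrix.cons_val_one, smul_eq_mul, Fin.isValue, Fin.reduceEq, reduceIte, Fin.zero_eta,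
    Fin.mk_one, Fin.reduceFinMk]
  ring

lemma Mt_0_0_3 (p : Fin 8 → R) : Mt p 0 0 3 = p 0 * p 0 * p 2 + p 5 * p 6 - p 0 * p 1 := by
  simp only [Mt, W, Wi, Nx, Ny, Matrix.mul_apply, Fin.sum_univ_four, Matrix.add_apply,
    Matrix.smul_apply, Matrix.one_apply, Matrix.of_apply, Matrix.cons_val, Matrix.cons_val_zero,
    Matrix.cons_val_one, smul_eq_mul, Fin.isValue, Fin.reduceEq, reduceIte, Fin.zero_eta,
    Fin.mk_one, Fin.reduceFinMk]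
  ring

lemma Mt_0_1_3 (p : Fin 8 → R) : Mt p 0 1 3 = -2 * p 0 * p 2 + p 1 := by
  simp only [Mt, W, Wi, Nx, Ny, Matrix.mul_apply, Fin.sum_univ_four, Matrix.add_apply,
    Matrix.smul_apply, Matrix.one_apply, Matrix.of_apply, Matrix.cons_val, Matrix.cons_val_zero,
    Matrix.cons_val_one, smul_eq_mul, Fin.isValue, Fin.reduceEq, reduceIte, Fin.zero_eta,
    Fin.mk_one, Fin.reduceFinMk]
  ring

lemma Mt_0_2_3 (p : Fin 8 → R) : Mt p 0 2 3 = p 2 := by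
  simp only [Mt, W, Wi, Nx, Ny, Matrix.mul_apply, Fin.sum_univ_four, Matrix.add_apply,
    Matrix.smul_apply, Matrix.one_apply, Matrix.of_apply, Matrix.cons_val, Matrix.cons_val_zero,
    Matrix.cons_val_one, smul_eq_mul, Fin.isValue, Fin.reduceEq, reduceIte, Fin.zero_eta,
    Fin.mk_one, Fin.reduceFinMk]
  ring

lemma Mt_0_3_3 (p : Fin 8 → R) : Mt p 0 3 3 = p 0 := by
  simp only [Mt, W, Wi, Nx, Ny, Matrix.mul_apply, Fin.sum_univ_four, Matrix.add_apply,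
    Matrix.smul_apply, Matrix.one_apply, Matrix.of_apply, Matrix.cons_val, Matrix.cons_val_zero,
    Matrix.cons_val_one, smul_eq_mul, Fin.isValue, Fin.reduceEq, reduceIte, Fin.zero_eta,
    Fin.mk_one, Fin.reduceFinMk]
  ring

lemma Mt_1_0_0 (p : Fin 8 → R) : Mt p 1 0 0 = 0 := by
  simp only [Mt, W, Wi, Nx, Ny, Matrix.mul_apply, Fin.sum_univ_four, Matrix.add_apply,
    Matrix.smul_apply, Matrix.one_apply, Matrix.of_apply, Matrix.cons_val, Matrix.cons_val_zero,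
    Matrix.cons_val_one, smul_eq_mul, Fin.isValue, Fin.reduceEq, reduceIte, Fin.zero_eta,
    Fin.mk_one, Fin.reduceFinMk]
  ring

lemma Mt_1_1_0 (p : Fin 8 → R) : Mt p 1 1 0 = 0 := by
  simp only [Mt, W, Wi, Nx, Ny, Matrix.mul_apply, Fin.sum_univ_four, Matrix.add_apply,
    Matrix.smul_apply, Matrix.one_apply, Matrix.of_apply, Matrix.cons_val, Matrix.cons_val_zero,
    Matrix.cons_val_one, smul_eq_mul, Fin.isValue, Fin.reduceEq, reduceIte, Fin.zero_eta,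
    Fin.mk_one, Fin.reduceFinMk]
  ring

lemma Mt_1_2_0 (p : Fin 8 → R) : Mt p 1 2 0 = 0 := by
  simp only [Mt, W, Wi, Nx, Ny, Matrix.mul_apply, Fin.sum_univ_four, Matrix.add_apply,
    Matrix.smul_apply, Matrix.one_apply, Matrix.of_apply, Matrix.cons_val, Matrix.cons_val_zero,
    Matrix.cons_val_one, smul_eq_mul, Fin.isValue, Fin.reduceEq, reduceIte, Fin.zero_eta,
    Fin.mk_one, Fin.reduceFinMk]
  ring

lemma Mt_1_3_0 (p : Fin 8 → R) : Mt p 1 3 0 = 1 := by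
  simp only [Mt, W, Wi, Nx, Ny, Matrix.mul_apply, Fin.sum_univ_four, Matrix.add_apply,
    Matrix.smul_apply, Matrix.one_apply, Matrix.of_apply, Matrix.cons_val, Matrix.cons_val_zero,
    Matrix.cons_val_one, smul_eq_mul, Fin.isValue, Fin.reduceEq, reduceIte, Fin.zero_eta,
    Fin.mk_one, Fin.reduceFinMk]
  ring

lemma Mt_1_0_3 (p : Fin 8 → R) : Mt p 1 0 3 = p 0 * p 0 * p 2 * p 2 + p 4 * p 6 * p 0 + 2 * p 5 * p 6 * p 2 + p 6 * p 0 * p 0 + p 7 * p 0 * p 2 - p 3 * p 6 - p 7 * p 1 - p 1 * p 1 := by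
  simp only [Mt, W, Wi, Nx, Ny, Matrix.mul_apply, Fin.sum_univ_four, Matrix.add_apply,
    Matrix.smul_apply, Matrix.one_apply, Matrix.of_apply, Matrix.cons_val, Matrix.cons_val_zero,
    Matrix.cons_val_one, smul_eq_mul, Fin.isValue, Fin.reduceEq, reduceIte, Fin.zero_eta,
    Fin.mk_one, Fin.reduceFinMk]
  ring

lemma Mt_1_1_3 (p : Fin 8 → R) : Mt p 1 1 3 = -2 * p 0 * p 2 * p 2 - p 4 * p 6 - 2 * p 6 * p 0 - p 7 * p 2 := by
  simp only [Mt, W, Wi, Nx, Ny, Matrix.mul_apply, Fin.sum_univ_four, Matrix.add_apply,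
    Matrix.smul_apply, Matrix.one_apply, Matrix.of_apply, Matrix.cons_val, Matrix.cons_val_zero,
    Matrix.cons_val_one, smul_eq_mul, Fin.isValue, Fin.reduceEq, reduceIte, Fin.zero_eta,
    Fin.mk_one, Fin.reduceFinMk]
  ring

lemma Mt_1_2_3 (p : Fin 8 → R) : Mt p 1 2 3 = p 2 * p 2 + p 6 := by
  simp only [Mt, W, Wi, Nx, Ny, Matrix.mul_apply, Fin.sum_univ_four, Matrix.add_apply,
    Matrix.smul_apply, Matrix.one_apply, Matrix.of_apply, Matrix.cons_val, Matrix.cons_val_zero,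
    Matrix.cons_val_one, smul_eq_mul, Fin.isValue, Fin.reduceEq, reduceIte, Fin.zero_eta,
    Fin.mk_one, Fin.reduceFinMk]
  ring

lemma Mt_1_3_3 (p : Fin 8 → R) : Mt p 1 3 3 = p 7 + 2 * p 1 := by
  simp only [Mt, W, Wi, Nx, Ny, Matrix.mul_apply, Fin.sum_univ_four, Matrix.add_apply,
    Matrix.smul_apply, Matrix.one_apply, Matrix.of_apply, Matrix.cons_val, Matrix.cons_val_zero,
    Matrix.cons_val_one, smul_eq_mul, Fin.isValue, Fin.reduceEq, reduceIte, Fin.zero_eta,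
    Fin.mk_one, Fin.reduceFinMk]
  ring

/-- the parameters -/
def par (a b g : Fin 4 → R) : Fin 8 → R :=
  ![b 3,
    2 * b 2 * b 3 + b 1,
    b 2,
    2 * a 2 * b 3 + a 3 * b 2 - 3 * b 3 * b 3 + a 1,
    a 2 - 3 * b 3,
    a 3,
    -b 2 * b 2 + g 2,
    -4 * b 2 * b 3 - 2 * b 1 + g 3]

/-- coordinates of `x² y` -/
def sS (a b : Fin 4 → R) : Fin 4 → R :=
  ![a 0 * b 2 + b 0 * b 3,
    a 1 * b 2 + b 1 * b 3 + b 0,
    a 2 * b 2 + b 2 * b 3 + b 1,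
    a 3 * b 2 + b 3 * b 3]

lemma Ma0 {a b g : Fin 4 → R} (hr2 : -a 3 * b 2 * b 2 - b 2 * b 3 * b 3 + a 3 * g 2 - b 1 * b 3 - b 0 = 0) (hr3 : a 2 * b 3 * b 3 - 2 * a 3 * b 2 * b 3 - b 3 * b 3 * b 3 + a 1 * b 3 - a 3 * b 1 + a 3 * g 3 + a 0 = 0) (hs1 : -a 1 * b 2 * b 2 - b 1 * b 2 * b 3 + a 1 * g 2 - b 0 * b 2 - b 1 * b 1 + b 1 * g 3 - b 3 * g 1 + g 0 = 0) (hs2 : -a 2 * b 2 * b 2 - b 2 * b 2 * b 3 + a 2 * g 2 - 2 * b 1 * b 2 + b 2 * g 3 - b 3 * g 2 + g 1 = 0) :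
    Mt (par a b g) 0 0 2 = a 0 := by
  rw [Mt_0_0_2]
  simp only [par, Fin.isValue, Matrix.cons_val, Matrix.cons_val_zero, Matrix.cons_val_one]
  linear_combination (-1) * hr3

lemma Ma1 {a b g : Fin 4 → R} (hr2 : -a 3 * b 2 * b 2 - b 2 * b 3 * b 3 + a 3 * g 2 - b 1 * b 3 - b 0 = 0) (hr3 : a 2 * b 3 * b 3 - 2 * a 3 * b 2 * b 3 - b 3 * b 3 * b 3 + a 1 * b 3 - a 3 * b 1 + a 3 * g 3 + a 0 = 0) (hs1 : -a 1 * b 2 * b 2 - b 1 * b 2 * b 3 + a 1 * g 2 - b 0 * b 2 - b 1 * b 1 + b 1 * g 3 - b 3 * g 1 + g 0 = 0) (hs2 : -a 2 * b 2 * b 2 - b 2 * b 2 * b 3 + a 2 * g 2 - 2 * b 1 * b 2 + b 2 * g 3 - b 3 * g 2 + g 1 = 0) :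
    Mt (par a b g) 0 1 2 = a 1 := by
  rw [Mt_0_1_2]
  simp only [par, Fin.isValue, Matrix.cons_val, Matrix.cons_val_zero, Matrix.cons_val_one]
  all_goals ring

lemma Ma2 {a b g : Fin 4 → R} (hr2 : -a 3 * b 2 * b 2 - b 2 * b 3 * b 3 + a 3 * g 2 - b 1 * b 3 - b 0 = 0) (hr3 : a 2 * b 3 * b 3 - 2 * a 3 * b 2 * b 3 - b 3 * b 3 * b 3 + a 1 * b 3 - a 3 * b 1 + a 3 * g 3 + a 0 = 0) (hs1 : -a 1 * b 2 * b 2 - b 1 * b 2 * b 3 + a 1 * g 2 - b 0 * b 2 - b 1 * b 1 + b 1 * g 3 - b 3 * g 1 + g 0 = 0) (hs2 : -a 2 * b 2 * b 2 - b 2 * b 2 * b 3 + a 2 * g 2 - 2 * b 1 * b 2 + b 2 * g 3 - b 3 * g 2 + g 1 = 0) :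
    Mt (par a b g) 0 2 2 = a 2 := by
  rw [Mt_0_2_2]
  simp only [par, Fin.isValue, Matrix.cons_val, Matrix.cons_val_zero, Matrix.cons_val_one]
  all_goals ring

lemma Ma3 {a b g : Fin 4 → R} (hr2 : -a 3 * b 2 * b 2 - b 2 * b 3 * b 3 + a 3 * g 2 - b 1 * b 3 - b 0 = 0) (hr3 : a 2 * b 3 * b 3 - 2 * a 3 * b 2 * b 3 - b 3 * b 3 * b 3 + a 1 * b 3 - a 3 * b 1 + a 3 * g 3 + a 0 = 0) (hs1 : -a 1 * b 2 * b 2 - b 1 * b 2 * b 3 + a 1 * g 2 - b 0 * b 2 - b 1 * b 1 + b 1 * g 3 - b 3 * g 1 + g 0 = 0) (hs2 : -a 2 * b 2 * b 2 - b 2 * b 2 * b 3 + a 2 * g 2 - 2 * b 1 * b 2 + b 2 * g 3 - b 3 * g 2 + g 1 = 0) :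
    Mt (par a b g) 0 3 2 = a 3 := by
  rw [Mt_0_3_2]
  simp only [par, Fin.isValue, Matrix.cons_val, Matrix.cons_val_zero, Matrix.cons_val_one]
  all_goals ring

lemma Mb0 {a b g : Fin 4 → R} (hr2 : -a 3 * b 2 * b 2 - b 2 * b 3 * b 3 + a 3 * g 2 - b 1 * b 3 - b 0 = 0) (hr3 : a 2 * b 3 * b 3 - 2 * a 3 * b 2 * b 3 - b 3 * b 3 * b 3 + a 1 * b 3 - a 3 * b 1 + a 3 * g 3 + a 0 = 0) (hs1 : -a 1 * b 2 * b 2 - b 1 * b 2 * b 3 + a 1 * g 2 - b 0 * b 2 - b 1 * b 1 + b 1 * g 3 - b 3 * g 1 + g 0 = 0) (hs2 : -a 2 * b 2 * b 2 - b 2 * b 2 * b 3 + a 2 * g 2 - 2 * b 1 * b 2 + b 2 * g 3 - b 3 * g 2 + g 1 = 0) :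
    Mt (par a b g) 0 0 3 = b 0 := by
  rw [Mt_0_0_3]
  simp only [par, Fin.isValue, Matrix.cons_val, Matrix.cons_val_zero, Matrix.cons_val_one]
  linear_combination (1) * hr2

lemma Mb1 {a b g : Fin 4 → R} (hr2 : -a 3 * b 2 * b 2 - b 2 * b 3 * b 3 + a 3 * g 2 - b 1 * b 3 - b 0 = 0) (hr3 : a 2 * b 3 * b 3 - 2 * a 3 * b 2 * b 3 - b 3 * b 3 * b 3 + a 1 * b 3 - a 3 * b 1 + a 3 * g 3 + a 0 = 0) (hs1 : -a 1 * b 2 * b 2 - b 1 * b 2 * b 3 + a 1 * g 2 - b 0 * b 2 - b 1 * b 1 + b 1 * g 3 - b 3 * g 1 + g 0 = 0) (hs2 : -a 2 * b 2 * b 2 - b 2 * b 2 * b 3 + a 2 * g 2 - 2 * b 1 * b 2 + b 2 * g 3 - b 3 * g 2 + g 1 = 0) :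
    Mt (par a b g) 0 1 3 = b 1 := by
  rw [Mt_0_1_3]
  simp only [par, Fin.isValue, Matrix.cons_val, Matrix.cons_val_zero, Matrix.cons_val_one]
  all_goals ring

lemma Mb2 {a b g : Fin 4 → R} (hr2 : -a 3 * b 2 * b 2 - b 2 * b 3 * b 3 + a 3 * g 2 - b 1 * b 3 - b 0 = 0) (hr3 : a 2 * b 3 * b 3 - 2 * a 3 * b 2 * b 3 - b 3 * b 3 * b 3 + a 1 * b 3 - a 3 * b 1 + a 3 * g 3 + a 0 = 0) (hs1 : -a 1 * b 2 * b 2 - b 1 * b 2 * b 3 + a 1 * g 2 - b 0 * b 2 - b 1 * b 1 + b 1 * g 3 - b 3 * g 1 + g 0 = 0) (hs2 : -a 2 * b 2 * b 2 - b 2 * b 2 * b 3 + a 2 * g 2 - 2 * b 1 * b 2 + b 2 * g 3 - b 3 * g 2 + g 1 = 0) :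
    Mt (par a b g) 0 2 3 = b 2 := by
  rw [Mt_0_2_3]
  simp only [par, Fin.isValue, Matrix.cons_val, Matrix.cons_val_zero, Matrix.cons_val_one]
  all_goals ring

lemma Mb3 {a b g : Fin 4 → R} (hr2 : -a 3 * b 2 * b 2 - b 2 * b 3 * b 3 + a 3 * g 2 - b 1 * b 3 - b 0 = 0) (hr3 : a 2 * b 3 * b 3 - 2 * a 3 * b 2 * b 3 - b 3 * b 3 * b 3 + a 1 * b 3 - a 3 * b 1 + a 3 * g 3 + a 0 = 0) (hs1 : -a 1 * b 2 * b 2 - b 1 * b 2 * b 3 + a 1 * g 2 - b 0 * b 2 - b 1 * b 1 + b 1 * g 3 - b 3 * g 1 + g 0 = 0) (hs2 : -a 2 * b 2 * b 2 - b 2 * b 2 * b 3 + a 2 * g 2 - 2 * b 1 * b 2 + b 2 * g 3 - b 3 * g 2 + g 1 = 0) :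
    Mt (par a b g) 0 3 3 = b 3 := by
  rw [Mt_0_3_3]
  simp only [par, Fin.isValue, Matrix.cons_val, Matrix.cons_val_zero, Matrix.cons_val_one]
  all_goals ring

lemma Mg0 {a b g : Fin 4 → R} (hr2 : -a 3 * b 2 * b 2 - b 2 * b 3 * b 3 + a 3 * g 2 - b 1 * b 3 - b 0 = 0) (hr3 : a 2 * b 3 * b 3 - 2 * a 3 * b 2 * b 3 - b 3 * b 3 * b 3 + a 1 * b 3 - a 3 * b 1 + a 3 * g 3 + a 0 = 0) (hs1 : -a 1 * b 2 * b 2 - b 1 * b 2 * b 3 + a 1 * g 2 - b 0 * b 2 - b 1 * b 1 + b 1 * g 3 - b 3 * g 1 + g 0 = 0) (hs2 : -a 2 * b 2 * b 2 - b 2 * b 2 * b 3 + a 2 * g 2 - 2 * b 1 * b 2 + b 2 * g 3 - b 3 * g 2 + g 1 = 0) :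
    Mt (par a b g) 1 0 3 = g 0 := by
  rw [Mt_1_0_3]
  simp only [par, Fin.isValue, Matrix.cons_val, Matrix.cons_val_zero, Matrix.cons_val_one]
  linear_combination (-1) * hs1 + (b 2) * hr2 + (-b 3) * hs2

lemma Mg1 {a b g : Fin 4 → R} (hr2 : -a 3 * b 2 * b 2 - b 2 * b 3 * b 3 + a 3 * g 2 - b 1 * b 3 - b 0 = 0) (hr3 : a 2 * b 3 * b 3 - 2 * a 3 * b 2 * b 3 - b 3 * b 3 * b 3 + a 1 * b 3 - a 3 * b 1 + a 3 * g 3 + a 0 = 0) (hs1 : -a 1 * b 2 * b 2 - b 1 * b 2 * b 3 + a 1 * g 2 - b 0 * b 2 - b 1 * b 1 + b 1 * g 3 - b 3 * g 1 + g 0 = 0) (hs2 : -a 2 * b 2 * b 2 - b 2 * b 2 * b 3 + a 2 * g 2 - 2 * b 1 * b 2 + b 2 * g 3 - b 3 * g 2 + g 1 = 0) :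
    Mt (par a b g) 1 1 3 = g 1 := by
  rw [Mt_1_1_3]
  simp only [par, Fin.isValue, Matrix.cons_val, Matrix.cons_val_zero, Matrix.cons_val_one]
  linear_combination (-1) * hs2

lemma Mg2 {a b g : Fin 4 → R} (hr2 : -a 3 * b 2 * b 2 - b 2 * b 3 * b 3 + a 3 * g 2 - b 1 * b 3 - b 0 = 0) (hr3 : a 2 * b 3 * b 3 - 2 * a 3 * b 2 * b 3 - b 3 * b 3 * b 3 + a 1 * b 3 - a 3 * b 1 + a 3 * g 3 + a 0 = 0) (hs1 : -a 1 * b 2 * b 2 - b 1 * b 2 * b 3 + a 1 * g 2 - b 0 * b 2 - b 1 * b 1 + b 1 * g 3 - b 3 * g 1 + g 0 = 0) (hs2 : -a 2 * b 2 * b 2 - b 2 * b 2 * b 3 + a 2 * g 2 - 2 * b 1 * b 2 + b 2 * g 3 - b 3 * g 2 + g 1 = 0) :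
    Mt (par a b g) 1 2 3 = g 2 := by
  rw [Mt_1_2_3]
  simp only [par, Fin.isValue, Matrix.cons_val, Matrix.cons_val_zero, Matrix.cons_val_one]
  all_goals ring

lemma Mg3 {a b g : Fin 4 → R} (hr2 : -a 3 * b 2 * b 2 - b 2 * b 3 * b 3 + a 3 * g 2 - b 1 * b 3 - b 0 = 0) (hr3 : a 2 * b 3 * b 3 - 2 * a 3 * b 2 * b 3 - b 3 * b 3 * b 3 + a 1 * b 3 - a 3 * b 1 + a 3 * g 3 + a 0 = 0) (hs1 : -a 1 * b 2 * b 2 - b 1 * b 2 * b 3 + a 1 * g 2 - b 0 * b 2 - b 1 * b 1 + b 1 * g 3 - b 3 * g 1 + g 0 = 0) (hs2 : -a 2 * b 2 * b 2 - b 2 * b 2 * b 3 + a 2 * g 2 - 2 * b 1 * b 2 + b 2 * g 3 - b 3 * g 2 + g 1 = 0) :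
    Mt (par a b g) 1 3 3 = g 3 := by
  rw [Mt_1_3_3]
  simp only [par, Fin.isValue, Matrix.cons_val, Matrix.cons_val_zero, Matrix.cons_val_one]
  all_goals ring

end ring

variable {k : Type} [CommRing k]

/-- the functions `1, x, x², y` -/
noncomputable def b2 (k : Type) [CommRing k] : Fin 4 → MvPolynomial (Fin 2) k :=
  ![1, X 0, X 0 * X 0, X 1]

section

variable {R : Type} [CommRing R] [Algebra k R]

lemma col_eq (M : Matrix (Fin 4) (Fin 4) R) (j m : Fin 4)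
    (h : ∀ l, M l j = (Pi.single m 1 : Fin 4 → R) l) :
    M.mulVec (Pi.single j 1) = Pi.single m 1 := by
  ext l
  rw [Matrix.mulVec_single_one, Matrix.col_apply, h]

lemma Mt_col00 (p : Fin 8 → R) : (Mt p 0).mulVec (Pi.single 0 1) = Pi.single 1 1 := by
  apply col_eq
  intro l
  fin_cases l <;> simp only [Fin.zero_eta, Fin.mk_one, Fin.reduceFinMk, Mt_0_0_0, Mt_0_1_0,
    Mt_0_2_0, Mt_0_3_0] <;> simp [Pi.single_apply]

lemma Mt_col01 (p : Fin 8 → R) : (Mt p 0).mulVec (Pi.single 1 1) = Pi.single 2 1 := by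
  apply col_eq
  intro l
  fin_cases l <;> simp only [Fin.zero_eta, Fin.mk_one, Fin.reduceFinMk, Mt_0_0_1, Mt_0_1_1,
    Mt_0_2_1, Mt_0_3_1] <;> simp [Pi.single_apply]

lemma Mt_col10 (p : Fin 8 → R) : (Mt p 1).mulVec (Pi.single 0 1) = Pi.single 3 1 := by
  apply col_eq
  intro l
  fin_cases l <;> simp only [Fin.zero_eta, Fin.mk_one, Fin.reduceFinMk, Mt_1_0_0, Mt_1_1_0,
    Mt_1_2_0, Mt_1_3_0] <;> simp [Pi.single_apply]

/-- the chart datum with given parameters -/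
noncomputable def chartOf (p : Fin 8 → R) : Chart k (b2 k) R :=
  Chart.ofMat (b2 k) (Mt p) (Mt_comm p) (Pi.single 0 1) (by
    intro i
    fin_cases i
    · change (matEval k (Mt p) (Mt_comm p) 1).mulVec _ = _
      rw [map_one, Matrix.one_mulVec]; rfl
    · change (matEval k (Mt p) (Mt_comm p) (X 0)).mulVec _ = _
      rw [matEval_X]; exact Mt_col00 p
    · change (matEval k (Mt p) (Mt_comm p) (X 0 * X 0)).mulVec _ = _
      rw [map_mul, matEval_X, ← Matrix.mulVec_mulVec, Mt_col00]; exact Mt_col01 p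
    · change (matEval k (Mt p) (Mt_comm p) (X 1)).mulVec _ = _
      rw [matEval_X]; exact Mt_col10 p)

/-- structure constants -/
noncomputable def aC (c : Chart k (b2 k) R) : Fin 4 → R := c.q (X 0 * X 0 * X 0)
/-- structure constants -/
noncomputable def bC (c : Chart k (b2 k) R) : Fin 4 → R := c.q (X 0 * X 1)
/-- structure constants -/
noncomputable def gC (c : Chart k (b2 k) R) : Fin 4 → R := c.q (X 1 * X 1)

lemma aC_chartOf (p : Fin 8 → R) (l : Fin 4) : aC (chartOf (k := k) p) l = Mt p 0 l 2 := by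
  rw [aC, chartOf, Chart.ofMat_q, mul_assoc, map_mul, map_mul, matEval_X,
    ← Matrix.mulVec_mulVec, ← Matrix.mulVec_mulVec, Mt_col00, Mt_col01,
    Matrix.mulVec_single_one, Matrix.col_apply]

lemma bC_chartOf (p : Fin 8 → R) (l : Fin 4) : bC (chartOf (k := k) p) l = Mt p 0 l 3 := by
  rw [bC, chartOf, Chart.ofMat_q, map_mul, matEval_X, matEval_X,
    ← Matrix.mulVec_mulVec, Mt_col10, Matrix.mulVec_single_one, Matrix.col_apply]

lemma gC_chartOf (p : Fin 8 → R) (l : Fin 4) : gC (chartOf (k := k) p) l = Mt p 1 l 3 := by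
  rw [gC, chartOf, Chart.ofMat_q, map_mul, matEval_X,
    ← Matrix.mulVec_mulVec, Mt_col10, Matrix.mulVec_single_one, Matrix.col_apply]

lemma qX0 (c : Chart k (b2 k) R) : c.q (X 0) = Pi.single 1 1 := c.q_b 1
lemma qXX (c : Chart k (b2 k) R) : c.q (X 0 * X 0) = Pi.single 2 1 := c.q_b 2
lemma qX1 (c : Chart k (b2 k) R) : c.q (X 1) = Pi.single 3 1 := c.q_b 3

lemma q_mulX0 (c : Chart k (b2 k) R) (f : MvPolynomial (Fin 2) k) (l : Fin 4) :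
    c.q (f * X 0) l = c.q f 0 * (Pi.single 1 1 : Fin 4 → R) l +
      c.q f 1 * (Pi.single 2 1 : Fin 4 → R) l + c.q f 2 * aC c l + c.q f 3 * bC c l := by
  rw [c.q_mul, Finset.sum_apply, Fin.sum_univ_four]
  simp only [Pi.smul_apply, smul_eq_mul]
  rw [show b2 k 0 = 1 from rfl, show b2 k 1 = X 0 from rfl, show b2 k 2 = X 0 * X 0 from rfl,
    show b2 k 3 = X 1 from rfl, one_mul, qX0, qXX, mul_comm (X 1) (X 0)]
  rfl

lemma sC (c : Chart k (b2 k) R) (l : Fin 4) : c.q (X 0 * X 0 * X 1) l = sS (aC c) (bC c) l := by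
  rw [mul_assoc, mul_comm, q_mulX0]
  change bC c 0 * _ + bC c 1 * _ + bC c 2 * _ + bC c 3 * _ = _
  fin_cases l <;> simp [sS, Pi.single_apply] <;> ring

lemma q_mulX1 (c : Chart k (b2 k) R) (f : MvPolynomial (Fin 2) k) (l : Fin 4) :
    c.q (f * X 1) l = c.q f 0 * (Pi.single 3 1 : Fin 4 → R) l +
      c.q f 1 * bC c l + c.q f 2 * sS (aC c) (bC c) l + c.q f 3 * gC c l := by
  rw [c.q_mul, Finset.sum_apply, Fin.sum_univ_four]
  simp only [Pi.smul_apply, smul_eq_mul]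
  rw [show b2 k 0 = 1 from rfl, show b2 k 1 = X 0 from rfl, show b2 k 2 = X 0 * X 0 from rfl,
    show b2 k 3 = X 1 from rfl, one_mul, qX1, sC]
  rfl

lemma rel1 (c : Chart k (b2 k) R) (l : Fin 4) :
    aC c 0 * (Pi.single 3 1 : Fin 4 → R) l +
      aC c 1 * bC c l + aC c 2 * sS (aC c) (bC c) l + aC c 3 * gC c l =
    sS (aC c) (bC c) 0 * (Pi.single 1 1 : Fin 4 → R) l +
      sS (aC c) (bC c) 1 * (Pi.single 2 1 : Fin 4 → R) l +
      sS (aC c) (bC c) 2 * aC c l + sS (aC c) (bC c) 3 * bC c l := by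
  have h1 := q_mulX1 c (X 0 * X 0 * X 0) l
  have h2 := q_mulX0 c (X 0 * X 0 * X 1) l
  rw [sC, sC, sC, sC] at h2
  rw [show (X 0 * X 0 * X 0 * X 1 : MvPolynomial (Fin 2) k) = X 0 * X 0 * X 1 * X 0 by ring,
    h2] at h1
  exact h1.symm

lemma rel2 (c : Chart k (b2 k) R) (l : Fin 4) :
    gC c 0 * (Pi.single 1 1 : Fin 4 → R) l +
      gC c 1 * (Pi.single 2 1 : Fin 4 → R) l + gC c 2 * aC c l + gC c 3 * bC c l =
    bC c 0 * (Pi.single 3 1 : Fin 4 → R) l +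
      bC c 1 * bC c l + bC c 2 * sS (aC c) (bC c) l + bC c 3 * gC c l := by
  have h1 := q_mulX0 c (X 1 * X 1) l
  have h2 := q_mulX1 c (X 0 * X 1) l
  rw [show (X 1 * X 1 * X 0 : MvPolynomial (Fin 2) k) = X 0 * X 1 * X 1 by ring, h2] at h1
  exact h1.symm

lemma rl_r2 (c : Chart k (b2 k) R) : -aC c 3 * bC c 2 * bC c 2 - bC c 2 * bC c 3 * bC c 3 + aC c 3 * gC c 2 - bC c 1 * bC c 3 - bC c 0 = 0 := by
  have h := rel1 c 2
  simp only [sS, Pi.single_apply, Fin.isValue, Fin.reduceEq, reduceIte, Matrix.cons_val,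
    Matrix.cons_val_zero, Matrix.cons_val_one] at h
  linear_combination h

lemma rl_r3 (c : Chart k (b2 k) R) : aC c 2 * bC c 3 * bC c 3 - 2 * aC c 3 * bC c 2 * bC c 3 - bC c 3 * bC c 3 * bC c 3 + aC c 1 * bC c 3 - aC c 3 * bC c 1 + aC c 3 * gC c 3 + aC c 0 = 0 := by
  have h := rel1 c 3
  simp only [sS, Pi.single_apply, Fin.isValue, Fin.reduceEq, reduceIte, Matrix.cons_val,
    Matrix.cons_val_zero, Matrix.cons_val_one] at h
  linear_combination h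

lemma rl_s1 (c : Chart k (b2 k) R) : -aC c 1 * bC c 2 * bC c 2 - bC c 1 * bC c 2 * bC c 3 + aC c 1 * gC c 2 - bC c 0 * bC c 2 - bC c 1 * bC c 1 + bC c 1 * gC c 3 - bC c 3 * gC c 1 + gC c 0 = 0 := by
  have h := rel2 c 1
  simp only [sS, Pi.single_apply, Fin.isValue, Fin.reduceEq, reduceIte, Matrix.cons_val,
    Matrix.cons_val_zero, Matrix.cons_val_one] at h
  linear_combination h

lemma rl_s2 (c : Chart k (b2 k) R) : -aC c 2 * bC c 2 * bC c 2 - bC c 2 * bC c 2 * bC c 3 + aC c 2 * gC c 2 - 2 * bC c 1 * bC c 2 + bC c 2 * gC c 3 - bC c 3 * gC c 2 + gC c 1 = 0 := by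
  have h := rel2 c 2
  simp only [sS, Pi.single_apply, Fin.isValue, Fin.reduceEq, reduceIte, Matrix.cons_val,
    Matrix.cons_val_zero, Matrix.cons_val_one] at h
  linear_combination h


lemma ext_abg {c c' : Chart k (b2 k) R} (ha : aC c = aC c') (hb : bC c = bC c')
    (hg : gC c = gC c') : c = c' := by
  apply Chart.ext_of
  · exact (c.q_b 0).trans (c'.q_b 0).symm
  · intro i j
    fin_cases j <;> fin_cases i
    · change c.q (1 * X 0) = c'.q (1 * X 0)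
      rw [one_mul, qX0, qX0]
    · change c.q (1 * X 1) = c'.q (1 * X 1)
      rw [one_mul, qX1, qX1]
    · exact (qXX c).trans (qXX c').symm
    · exact hb
    · exact ha
    · change c.q (X 0 * X 0 * X 1) = c'.q (X 0 * X 0 * X 1)
      ext l
      rw [sC, sC, ha, hb]
    · change c.q (X 1 * X 0) = c'.q (X 1 * X 0)
      rw [mul_comm]
      exact hb
    · exact hg

/-- the parameters of a chart datum -/
noncomputable def pC (c : Chart k (b2 k) R) : Fin 8 → R := par (aC c) (bC c) (gC c)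

lemma chartOf_pC (c : Chart k (b2 k) R) : chartOf (pC c) = c := by
  apply ext_abg
  · funext l
    rw [aC_chartOf]
    fin_cases l
    · exact Ma0 (rl_r2 c) (rl_r3 c) (rl_s1 c) (rl_s2 c)
    · exact Ma1 (rl_r2 c) (rl_r3 c) (rl_s1 c) (rl_s2 c)
    · exact Ma2 (rl_r2 c) (rl_r3 c) (rl_s1 c) (rl_s2 c)
    · exact Ma3 (rl_r2 c) (rl_r3 c) (rl_s1 c) (rl_s2 c)
  · funext l
    rw [bC_chartOf]
    fin_cases l
    · exact Mb0 (rl_r2 c) (rl_r3 c) (rl_s1 c) (rl_s2 c)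
    · exact Mb1 (rl_r2 c) (rl_r3 c) (rl_s1 c) (rl_s2 c)
    · exact Mb2 (rl_r2 c) (rl_r3 c) (rl_s1 c) (rl_s2 c)
    · exact Mb3 (rl_r2 c) (rl_r3 c) (rl_s1 c) (rl_s2 c)
  · funext l
    rw [gC_chartOf]
    fin_cases l
    · exact Mg0 (rl_r2 c) (rl_r3 c) (rl_s1 c) (rl_s2 c)
    · exact Mg1 (rl_r2 c) (rl_r3 c) (rl_s1 c) (rl_s2 c)
    · exact Mg2 (rl_r2 c) (rl_r3 c) (rl_s1 c) (rl_s2 c)
    · exact Mg3 (rl_r2 c) (rl_r3 c) (rl_s1 c) (rl_s2 c)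

lemma pC_chartOf (p : Fin 8 → R) : pC (chartOf (k := k) p) = p := by
  funext i
  fin_cases i <;> simp only [pC, par, aC_chartOf, bC_chartOf, gC_chartOf, Fin.zero_eta,
    Fin.isValue, Matrix.cons_val,
    Matrix.cons_val_zero, Matrix.cons_val_one, Fin.mk_one, Fin.reduceFinMk,
    Mt_0_0_2, Mt_0_1_2, Mt_0_2_2, Mt_0_3_2, Mt_0_0_3, Mt_0_1_3, Mt_0_2_3, Mt_0_3_3,
    Mt_1_0_3, Mt_1_1_3, Mt_1_2_3, Mt_1_3_3]
  all_goals ring

variable {R' : Type} [CommRing R'] [Algebra k R']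

lemma pC_map (c : Chart k (b2 k) R) (φ : R →ₐ[k] R') (i : Fin 8) :
    pC (c.map φ) i = φ (pC c i) := by
  have ha : ∀ l, aC (c.map φ) l = φ (aC c l) := fun _ => rfl
  have hb : ∀ l, bC (c.map φ) l = φ (bC c l) := fun _ => rfl
  have hg : ∀ l, gC (c.map φ) l = φ (gC c l) := fun _ => rfl
  have h2 : φ 2 = 2 := map_ofNat φ 2
  have h3 : φ 3 = 3 := map_ofNat φ 3
  have h4 : φ 4 = 4 := map_ofNat φ 4
  fin_cases i <;> simp [pC, par, ha, hb, hg, h2, h3, h4]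

end

variable (k)

/-- the chart ring is a polynomial ring -/
noncomputable def iso : ChartRing k (b2 k) ≃ₐ[k] MvPolynomial (Fin 8) k :=
  AlgEquiv.ofAlgHom (chartOf (k := k) (X : Fin 8 → MvPolynomial (Fin 8) k)).lift
    (aeval (pC (univChart k (b2 k)))) (by
      apply MvPolynomial.algHom_ext
      intro i
      rw [AlgHom.comp_apply, aeval_X, ← pC_map, Chart.map_lift, pC_chartOf, AlgHom.id_apply]) (by
    apply chartRing_hom_ext
    rw [← Chart.map_map, Chart.map_lift, Chart.map_id, ← chartOf_pC ((chartOf X).map _)]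
    conv_rhs => rw [← chartOf_pC (univChart k (b2 k))]
    congr 1
    funext i
    rw [pC_map, pC_chartOf, aeval_X])

end D2

end Pool.Agent.H14

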