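import Pool.Agent.H14.Pl4

/-!
# The Plücker algebra of `G(2,6)` is a normal domain
-/

set_option autoImplicit false
set_option linter.unusedSimpArgs false

open MvPolynomial

namespace Pool.Agent.H14

variable (k : Type) [Field k]

/-- the coordinate ring of the chart `p12 ≠ 0` -/
abbrev L0 : Type := Localization.Away (X 0 : A9 k)

/-- the coordinates -/
noncomputable def y0 (i : Fin 9) : L0 k := algebraMap (A9 k) (L0 k) (X i)

/-- the inverse of the first coordinate -/
noncomputable def ai : L0 k := IsLocalization.Away.invSelf (X 0 : A9 k)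

lemma y0_ai : y0 k 0 * ai k = 1 := IsLocalization.Away.mul_invSelf (X 0 : A9 k)

/-- the images of the parameters -/
noncomputable def tL : Fin 9 → L0 k :=
  ![y0 k 0, y0 k 1, y0 k 2 + y0 k 5, y0 k 3 + y0 k 6,
    y0 k 4 + y0 k 7 + ai k * (y0 k 1 * y0 k 6 - y0 k 2 * y0 k 5),
    y0 k 8 + ai k * (y0 k 1 * y0 k 7 - y0 k 3 * y0 k 5),
    ai k * (y0 k 1 * y0 k 8 - y0 k 4 * y0 k 5) + ai k * (y0 k 2 * y0 k 7 - y0 k 3 * y0 k 6),
    ai k * (y0 k 2 * y0 k 8 - y0 k 4 * y0 k 6),
    ai k * (y0 k 3 * y0 k 8 - y0 k 4 * y0 k 7)]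

/-- the images of the generators -/
noncomputable def uL : Fin 6 → L0 k :=
  ![y0 k 5, y0 k 6, y0 k 7, ai k * (y0 k 1 * y0 k 6 - y0 k 2 * y0 k 5),
    ai k * (y0 k 1 * y0 k 7 - y0 k 3 * y0 k 5), ai k * (y0 k 2 * y0 k 7 - y0 k 3 * y0 k 6)]

lemma plRel_L (i : Fin 15) : plRel (tL k) (uL k) i = 0 := by
  have h := y0_ai k
  fin_cases i <;> simp only [plRel, tL, uL, Fin.zero_eta, Fin.isValue, Matrix.cons_val,
    Matrix.cons_val_zero, Matrix.cons_val_one, Fin.mk_one, Fin.reduceFinMk]
  · linear_combination (y0 k 1 * y0 k 6 - y0 k 2 * y0 k 5) * h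
  · linear_combination (y0 k 1 * y0 k 7 - y0 k 3 * y0 k 5) * h
  · linear_combination (y0 k 1 * y0 k 8 - y0 k 4 * y0 k 5) * h
  · linear_combination (y0 k 2 * y0 k 7 - y0 k 3 * y0 k 6) * h
  · linear_combination (y0 k 2 * y0 k 8 - y0 k 4 * y0 k 6) * h
  · linear_combination (y0 k 3 * y0 k 8 - y0 k 4 * y0 k 7) * h
  · ring
  · ring
  · ring
  · ring
  · ring
  · ring
  · ring
  · ring
  · ring

/-- the map to the chart -/
noncomputable def psi0 : Pl k →ₐ[k] L0 k := Pl.lift (tL k) (uL k) (plRel_L k)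

/-- the localisation -/
abbrev Pl0 : Type := Localization.Away (tP k 0)

/-- the coordinates -/
noncomputable def yP : Fin 9 → Pl k :=
  ![tP k 0, tP k 1, tP k 2 - uP k 0, tP k 3 - uP k 1, tP k 4 - uP k 2 - uP k 3,
    uP k 0, uP k 1, uP k 2, tP k 5 - uP k 4]

lemma psi0_yP (i : Fin 9) : psi0 k (yP k i) = y0 k i := by
  have ht : ∀ i, psi0 k (tP k i) = tL k i := Pl.lift_tP _ _ _
  have hu : ∀ i, psi0 k (uP k i) = uL k i := Pl.lift_uP _ _ _
  fin_cases i <;> simp [yP, ht, hu, tL, uL]
  ring

/-- from the polynomial ring to the Plücker algebra -/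
noncomputable def phi0 : A9 k →ₐ[k] Pl k := aeval (yP k)

lemma phi0_X (i : Fin 9) : phi0 k (X i) = yP k i := aeval_X _ _

/-- the map of the localisations -/
noncomputable def fL : Pl0 k →+* L0 k :=
  IsLocalization.Away.lift (tP k 0) (g := (psi0 k : Pl k →+* L0 k)) (by
    have : psi0 k (tP k 0) = y0 k 0 := psi0_yP k 0
    rw [RingHom.coe_coe, this]
    exact IsUnit.of_mul_eq_one _ (y0_ai k))

lemma fL_algebraMap (x : Pl k) : fL k (algebraMap (Pl k) (Pl0 k) x) = psi0 k x :=
  IsLocalization.Away.lift_eq _ _ _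

/-- the map of the localisations -/
noncomputable def gL : L0 k →+* Pl0 k :=
  IsLocalization.Away.lift (X 0 : A9 k)
    (g := (algebraMap (Pl k) (Pl0 k)).comp (phi0 k : A9 k →+* Pl k)) (by
    have : phi0 k (X 0) = tP k 0 := phi0_X k 0
    rw [RingHom.comp_apply, RingHom.coe_coe, this]
    exact IsLocalization.Away.algebraMap_isUnit _)

lemma gL_algebraMap (x : A9 k) : gL k (algebraMap (A9 k) (L0 k) x) =
    algebraMap (Pl k) (Pl0 k) (phi0 k x) :=
  IsLocalization.Away.lift_eq _ _ _

lemma gL_y0 (i : Fin 9) : gL k (y0 k i) = algebraMap (Pl k) (Pl0 k) (yP k i) := by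
  rw [y0, gL_algebraMap, phi0_X]

lemma gL_ai : gL k (ai k) * algebraMap (Pl k) (Pl0 k) (tP k 0) = 1 := by
  have h := congrArg (gL k) (y0_ai k)
  rw [map_mul, map_one, gL_y0, mul_comm] at h
  exact h

lemma fL_gL : (fL k).comp (gL k) = RingHom.id _ := by
  apply IsLocalization.ringHom_ext (Submonoid.powers (X 0 : A9 k))
  apply MvPolynomial.ringHom_ext
  · intro r
    simp only [RingHom.comp_apply, RingHom.id_apply, gL_algebraMap, fL_algebraMap]
    have : (C r : A9 k) = algebraMap k _ r := rfl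
    rw [this, AlgHom.commutes, AlgHom.commutes]
    rfl
  · intro i
    simp only [RingHom.comp_apply, RingHom.id_apply, gL_algebraMap, fL_algebraMap, phi0_X,
      psi0_yP]
    rfl

lemma gL_algebraMap_k (r : k) : gL k (algebraMap k (L0 k) r) = algebraMap k (Pl0 k) r := by
  rw [IsScalarTower.algebraMap_apply k (A9 k) (L0 k), gL_algebraMap, AlgHom.commutes,
    ← IsScalarTower.algebraMap_apply]

/-- as an algebra map -/
noncomputable def gLa : L0 k →ₐ[k] Pl0 k := { gL k with commutes' := gL_algebraMap_k k }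

lemma gLa_apply (x : L0 k) : gLa k x = gL k x := rfl

lemma gL_psi0 : (gLa k).comp (psi0 k) = (IsScalarTower.toAlgHom k (Pl k) (Pl0 k)) := by
  have ht : ∀ i, psi0 k (tP k i) = tL k i := Pl.lift_tP _ _ _
  have hu : ∀ i, psi0 k (uP k i) = uL k i := Pl.lift_uP _ _ _
  have y := gL_y0 k
  have ha := gL_ai k
  have y0' := y 0
  have y1' := y 1
  have y2' := y 2
  have y3' := y 3
  have y4' := y 4
  have y5' := y 5
  have y6' := y 6
  have y7' := y 7
  have y8' := y 8
  simp only [yP, Matrix.cons_val, Matrix.cons_val_zero, Matrix.cons_val_one, map_sub]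
    at y0' y1' y2' y3' y4' y5' y6' y7' y8'
  have r : ∀ i, plRel (fun j => algebraMap (Pl k) (Pl0 k) (tP k j))
      (fun j => algebraMap (Pl k) (Pl0 k) (uP k j)) i = 0 := by
    intro i
    rw [← plRel_map, plRel_P, map_zero]
  have r0 := hrel0 r
  have r1 := hrel1 r
  have r2 := hrel2 r
  have r3 := hrel3 r
  have r4 := hrel4 r
  have r5 := hrel5 r
  apply Pl.hom_ext
  · intro i
    rw [AlgHom.comp_apply, ht, gLa_apply, IsScalarTower.toAlgHom_apply]
    fin_cases i <;> simp only [tL, Fin.zero_eta, Fin.isValue, Matrix.cons_val,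
      Matrix.cons_val_zero, Matrix.cons_val_one, Fin.mk_one, Fin.reduceFinMk, map_add, map_sub,
      map_mul, y0', y1', y2', y3', y4', y5', y6', y7', y8']
    · ring
    · ring
    · linear_combination (-gL k (ai k)) * r0 + algebraMap (Pl k) (Pl0 k) (uP k 3) * ha
    · linear_combination (-gL k (ai k)) * r1 + algebraMap (Pl k) (Pl0 k) (uP k 4) * ha
    · linear_combination (-gL k (ai k)) * r2 + (-gL k (ai k)) * r3 +
        algebraMap (Pl k) (Pl0 k) (tP k 6) * ha
    · linear_combination (-gL k (ai k)) * r4 + algebraMap (Pl k) (Pl0 k) (tP k 7) * ha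
    · linear_combination (-gL k (ai k)) * r5 + algebraMap (Pl k) (Pl0 k) (tP k 8) * ha
  · intro i
    rw [AlgHom.comp_apply, hu, gLa_apply, IsScalarTower.toAlgHom_apply]
    fin_cases i <;> simp only [uL, Fin.zero_eta, Fin.isValue, Matrix.cons_val,
      Matrix.cons_val_zero, Matrix.cons_val_one, Fin.mk_one, Fin.reduceFinMk, map_add, map_sub,
      map_mul, y0', y1', y2', y3', y4', y5', y6', y7', y8']
    · linear_combination (-gL k (ai k)) * r0 + algebraMap (Pl k) (Pl0 k) (uP k 3) * ha
    · linear_combination (-gL k (ai k)) * r1 + algebraMap (Pl k) (Pl0 k) (uP k 4) * ha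
    · linear_combination (-gL k (ai k)) * r3 + algebraMap (Pl k) (Pl0 k) (uP k 5) * ha

lemma gL_fL : (gL k).comp (fL k) = RingHom.id _ := by
  apply IsLocalization.ringHom_ext (Submonoid.powers (tP k 0))
  ext x
  simp only [RingHom.comp_apply, RingHom.id_apply, fL_algebraMap]
  exact DFunLike.congr_fun (gL_psi0 k) x

/-- the chart `p12 ≠ 0` -/
noncomputable def eL : Pl0 k ≃+* L0 k :=
  RingEquiv.ofRingHom (fL k) (gL k) (fL_gL k) (gL_fL k)

instance : IsDomain (L0 k) :=
  IsLocalization.isDomain_localization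
    (powers_le_nonZeroDivisors_of_noZeroDivisors (X_ne_zero (0 : Fin 9)))

instance : IsIntegrallyClosed (L0 k) :=
  isIntegrallyClosed_of_isLocalization _ (Submonoid.powers (X 0 : A9 k))
    (powers_le_nonZeroDivisors_of_noZeroDivisors (X_ne_zero (0 : Fin 9)))

instance : IsDomain (Pl0 k) := (eL k).toMulEquiv.isDomain (L0 k)

instance : IsIntegrallyClosed (Pl0 k) := IsIntegrallyClosed.of_equiv (eL k).symm

lemma tP0_mem : tP k 0 ∈ nonZeroDivisors (Pl k) := by
  rw [mem_nonZeroDivisors_iff_right]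
  intro x hx
  have h0 : (X 0 : A9 k) ≠ 0 := X_ne_zero _
  rw [mul_comm, tP, ← Algebra.smul_def] at hx
  exact (smul_eq_zero_iff_right h0).1 hx

instance : IsDomain (Pl k) := by
  have hinj : Function.Injective (algebraMap (Pl k) (Pl0 k)) :=
    IsLocalization.injective _ (Submonoid.powers_le.2 (tP0_mem k))
  exact hinj.isDomain (algebraMap (Pl k) (Pl0 k))

/-- the reversal of the indices -/
noncomputable def uR : Fin 6 → Pl k := ![uP k 5, uP k 4, uP k 2, uP k 3, uP k 1, uP k 0]

/-- the reversal of the indices -/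
noncomputable def tR : Fin 9 → Pl k :=
  ![tP k 8, tP k 7, tP k 6, tP k 5, tP k 4, tP k 3, tP k 2, tP k 1, tP k 0]

lemma plRel_R (i : Fin 15) : plRel (tR k) (uR k) i = 0 := by
  have r := plRel_P k
  have r0 := hrel0 r
  have r1 := hrel1 r
  have r2 := hrel2 r
  have r3 := hrel3 r
  have r4 := hrel4 r
  have r5 := hrel5 r
  have r6 := hrel6 r
  have r7 := hrel7 r
  have r8 := hrel8 r
  have r9 := hrel9 r
  have r10 := hrel10 r
  have r11 := hrel11 r
  have r12 := hrel12 r
  have r13 := hrel13 r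
  have r14 := hrel14 r
  fin_cases i <;> simp only [plRel, tR, uR, Fin.zero_eta, Fin.isValue, Matrix.cons_val,
    Matrix.cons_val_zero, Matrix.cons_val_one, Fin.mk_one, Fin.reduceFinMk]
  · linear_combination r14
  · linear_combination r13
  · linear_combination r9
  · linear_combination r12
  · linear_combination r8
  · linear_combination r5
  · linear_combination r11
  · linear_combination r7
  · linear_combination r4
  · linear_combination r2
  · linear_combination r10
  · linear_combination r6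
  · linear_combination r3
  · linear_combination r1
  · linear_combination r0

/-- the reversal of the indices -/
noncomputable def sg : Pl k →ₐ[k] Pl k := Pl.lift (tR k) (uR k) (plRel_R k)

lemma sg_t (i : Fin 9) : sg k (tP k i) = tR k i := Pl.lift_tP ..
lemma sg_u (i : Fin 6) : sg k (uP k i) = uR k i := Pl.lift_uP ..

lemma sg_sg : (sg k).comp (sg k) = AlgHom.id k _ := by
  apply Pl.hom_ext
  · intro i
    rw [AlgHom.comp_apply, sg_t]
    fin_cases i <;> simp [tR, sg_t]
  · intro i
    rw [AlgHom.comp_apply, sg_u]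
    fin_cases i <;> simp [uR, sg_u]

/-- the reversal of the indices -/
noncomputable def sgE : Pl k ≃+* Pl k :=
  RingEquiv.ofRingHom (sg k : Pl k →+* Pl k) (sg k : Pl k →+* Pl k)
    (RingHom.ext fun x => DFunLike.congr_fun (sg_sg k) x)
    (RingHom.ext fun x => DFunLike.congr_fun (sg_sg k) x)

lemma sgE_t0 : sgE k (tP k 0) = tP k 8 := sg_t k 0

instance : IsIntegrallyClosed (Localization.Away (tP k 8)) := by
  have h : (Submonoid.powers (tP k 0)).map (sgE k).toMonoidHom =
      Submonoid.powers (tP k 8) := by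
    rw [Submonoid.map_powers]
    exact congrArg _ (sgE_t0 k)
  exact IsIntegrallyClosed.of_equiv (R := Pl0 k) (IsLocalization.ringEquivOfRingEquiv
    (M := Submonoid.powers (tP k 0)) (T := Submonoid.powers (tP k 8)) (Pl0 k)
    (Localization.Away (tP k 8)) (sgE k) h)

lemma away_closed {R : Type*} [CommRing R] [IsDomain R] (t : R) (ht : t ≠ 0)
    [IsIntegrallyClosed (Localization.Away t)] (K : Type*) [Field K] [Algebra R K]
    [IsFractionRing R K] (x : K) (hx : IsIntegral R x) :
    ∃ (n : ℕ) (a : R), x * algebraMap R K t ^ n = algebraMap R K a := by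
  have hu : IsUnit (algebraMap R K t) := by
    rw [isUnit_iff_ne_zero]
    exact fun h => ht ((IsFractionRing.injective R K) (by rw [h, map_zero]))
  let _ : Algebra (Localization.Away t) K :=
    (IsLocalization.Away.lift t (g := algebraMap R K) hu).toAlgebra
  have : IsScalarTower R (Localization.Away t) K := IsScalarTower.of_algebraMap_eq (fun y => by
    exact (IsLocalization.Away.lift_eq t hu y).symm)
  have : IsFractionRing (Localization.Away t) K :=
    IsFractionRing.isFractionRing_of_isDomain_of_isLocalization (Submonoid.powers t)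
      (Localization.Away t) K
  have h1 : IsIntegral (Localization.Away t) x := hx.tower_top
  obtain ⟨y, hy⟩ := IsIntegrallyClosed.isIntegral_iff.1 h1
  obtain ⟨n, a, ha⟩ := IsLocalization.Away.surj t y
  refine ⟨n, a, ?_⟩
  rw [← hy, IsScalarTower.algebraMap_apply R (Localization.Away t) K,
    IsScalarTower.algebraMap_apply R (Localization.Away t) K a, ← ha, map_mul, map_pow]

lemma tP_ne_zero (i : Fin 9) : tP k i ≠ 0 := by
  intro h
  have h1 : (X i : A9 k) • (1 : Pl k) = 0 := by
    rw [Algebra.smul_def, mul_one]; exact h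
  exact X_ne_zero i ((smul_eq_zero_iff_left one_ne_zero).1 h1)

instance : IsIntegrallyClosed (Pl k) := by
  rw [isIntegrallyClosed_iff (FractionRing (Pl k))]
  intro x hx
  obtain ⟨n, a, ha⟩ := away_closed (tP k 0) (tP_ne_zero k 0) _ x hx
  obtain ⟨m, b, hb⟩ := away_closed (tP k 8) (tP_ne_zero k 8) _ x hx
  have hinj := IsFractionRing.injective (Pl k) (FractionRing (Pl k))
  have h1 : (X 8 ^ m : A9 k) • a = (X 0 ^ n : A9 k) • b := by
    rw [Algebra.smul_def, Algebra.smul_def, map_pow, map_pow]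
    apply hinj
    rw [map_mul, map_mul, ← ha, ← hb, map_pow, map_pow]
    change algebraMap _ _ (tP k 8) ^ m * (x * algebraMap _ _ (tP k 0) ^ n) =
      algebraMap _ _ (tP k 0) ^ n * (x * algebraMap _ _ (tP k 8) ^ m)
    ring
  have h2 : ∀ i, (X 0 ^ n : A9 k) ∣ (basisP k).repr a i := by
    intro i
    have h3 := DFunLike.congr_fun (congrArg (basisP k).repr h1) i
    rw [map_smul, map_smul, Finsupp.smul_apply, Finsupp.smul_apply, smul_eq_mul,
      smul_eq_mul] at h3
    refine (MvPolynomial.X_prime (i := (0 : Fin 9))).pow_dvd_of_dvd_mul_left n ?_ ⟨_, h3⟩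
    intro h4
    have h5 := (MvPolynomial.X_prime (i := (0 : Fin 9))).dvd_of_dvd_pow h4
    rw [MvPolynomial.X_dvd_X] at h5
    exact absurd h5 (by decide)
  choose c hc using h2
  have h3 : a = (X 0 ^ n : A9 k) • ∑ i, c i • basisP k i := by
    conv_lhs => rw [← (basisP k).sum_repr a]
    rw [Finset.smul_sum]
    refine Finset.sum_congr rfl fun i _ => ?_
    rw [hc i, mul_smul]
  refine ⟨∑ i, c i • basisP k i, ?_⟩
  have h4 : algebraMap (Pl k) (FractionRing (Pl k)) (tP k 0) ^ n ≠ 0 := by
    refine pow_ne_zero _ fun h => tP_ne_zero k 0 (hinj ?_)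
    rw [h, map_zero]
  apply mul_right_cancel₀ h4
  rw [ha, h3, Algebra.smul_def, map_mul, map_pow, map_pow]
  exact mul_comm _ _

end Pool.Agent.H14
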