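import Pool.Agent.H14.MatChart
import Pool.Agent.H14.Pl5

/-!
# The chart `(1, x, y, z)` of the Hilbert scheme of four points of the affine space:
normalised matrices
-/

set_option autoImplicit false
set_option linter.unusedSimpArgs false
set_option linter.unusedVariables false

open MvPolynomial Matrix

namespace Pool.Agent.H14

namespace D3

variable {R : Type*} [CommRing R]

/-- multiplication by the variable number 1 -/
def N1 (p12 p13 p14 p15 p16 p23 p24 p25 p26 p34 p35 p36 p45 p46 p56 : R) :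
    Matrix (Fin 4) (Fin 4) R :=
  Matrix.of ![
    ![0, -p12 * p13 - p14 * p34 - p15 * p25 - p15 * p46, p14 * p23 - p15 * p26, -p14 * p36 - p15 * p23],
    ![1, -p16 - p45, 0, 0],
    ![0, p15, 0, p13],
    ![0, -p14, -p12, -p16]]

/-- multiplication by the variable number 2 -/
def N2 (p12 p13 p14 p15 p16 p23 p24 p25 p26 p34 p35 p36 p45 p46 p56 : R) :
    Matrix (Fin 4) (Fin 4) R :=
  Matrix.of ![
    ![0, p14 * p23 - p15 * p26, p12 * p23 - p16 * p26 - p26 * p45, -p13 * p26 - p23 * p45],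
    ![0, 0, -p26, -p23],
    ![1, 0, p25 + p46, -p34],
    ![0, -p12, p24, p25]]

/-- multiplication by the variable number 3 -/
def N3 (p12 p13 p14 p15 p16 p23 p24 p25 p26 p34 p35 p36 p45 p46 p56 : R) :
    Matrix (Fin 4) (Fin 4) R :=
  Matrix.of ![
    ![0, -p14 * p36 - p15 * p23, -p13 * p26 - p23 * p45, -p13 * p23 + p36 * p45],
    ![0, 0, -p23, p36],
    ![0, p13, -p34, -p35],
    ![1, -p16, p25, -p34 - p56]]

lemma comm12 (p12 p13 p14 p15 p16 p23 p24 p25 p26 p34 p35 p36 p45 p46 p56 : R)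
    (h0 : p12 * p34 - p13 * p24 + p14 * p23 = 0)
    (h1 : p12 * p35 - p13 * p25 + p15 * p23 = 0)
    (h2 : p12 * p36 - p13 * p26 + p16 * p23 = 0)
    (h3 : p12 * p45 - p14 * p25 + p15 * p24 = 0)
    (h4 : p12 * p46 - p14 * p26 + p16 * p24 = 0)
    (h5 : p12 * p56 - p15 * p26 + p16 * p25 = 0)
    (h6 : p13 * p45 - p14 * p35 + p15 * p34 = 0)
    (h7 : p13 * p46 - p14 * p36 + p16 * p34 = 0)
    (h8 : p13 * p56 - p15 * p36 + p16 * p35 = 0)
    (h9 : p14 * p56 - p15 * p46 + p16 * p45 = 0)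
    (h10 : p23 * p45 - p24 * p35 + p25 * p34 = 0)
    (h11 : p23 * p46 - p24 * p36 + p26 * p34 = 0)
    (h12 : p23 * p56 - p25 * p36 + p26 * p35 = 0)
    (h13 : p24 * p56 - p25 * p46 + p26 * p45 = 0)
    (h14 : p34 * p56 - p35 * p46 + p36 * p45 = 0) :
    N1 p12 p13 p14 p15 p16 p23 p24 p25 p26 p34 p35 p36 p45 p46 p56 * N2 p12 p13 p14 p15 p16 p23 p24 p25 p26 p34 p35 p36 p45 p46 p56 =
      N2 p12 p13 p14 p15 p16 p23 p24 p25 p26 p34 p35 p36 p45 p46 p56 * N1 p12 p13 p14 p15 p16 p23 p24 p25 p26 p34 p35 p36 p45 p46 p56 := by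
  ext a b
  fin_cases a <;> fin_cases b <;>
    simp only [N1, N2, Matrix.mul_apply, Fin.sum_univ_four, Matrix.of_apply, Fin.zero_eta,
      Fin.isValue, Matrix.cons_val, Matrix.cons_val_zero, Matrix.cons_val_one, Fin.mk_one,
      Fin.reduceFinMk]
  · ring
  · linear_combination (p14) * h2
  · linear_combination (p14) * h11 + (-p23) * h3
  · linear_combination (p13) * h13 + (p15) * h11 + (-p16) * h10 + (-p24) * h8 + (p25) * h7
  · ring
  · ring
  · ring
  · ring
  · ring
  · ring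
  · linear_combination (-1) * h0
  · linear_combination (-1) * h7
  · ring
  · linear_combination (-1) * h3
  · linear_combination (-1) * h4
  · linear_combination (1) * h0

lemma comm13 (p12 p13 p14 p15 p16 p23 p24 p25 p26 p34 p35 p36 p45 p46 p56 : R)
    (h0 : p12 * p34 - p13 * p24 + p14 * p23 = 0)
    (h1 : p12 * p35 - p13 * p25 + p15 * p23 = 0)
    (h2 : p12 * p36 - p13 * p26 + p16 * p23 = 0)
    (h3 : p12 * p45 - p14 * p25 + p15 * p24 = 0)
    (h4 : p12 * p46 - p14 * p26 + p16 * p24 = 0)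
    (h5 : p12 * p56 - p15 * p26 + p16 * p25 = 0)
    (h6 : p13 * p45 - p14 * p35 + p15 * p34 = 0)
    (h7 : p13 * p46 - p14 * p36 + p16 * p34 = 0)
    (h8 : p13 * p56 - p15 * p36 + p16 * p35 = 0)
    (h9 : p14 * p56 - p15 * p46 + p16 * p45 = 0)
    (h10 : p23 * p45 - p24 * p35 + p25 * p34 = 0)
    (h11 : p23 * p46 - p24 * p36 + p26 * p34 = 0)
    (h12 : p23 * p56 - p25 * p36 + p26 * p35 = 0)
    (h13 : p24 * p56 - p25 * p46 + p26 * p45 = 0)
    (h14 : p34 * p56 - p35 * p46 + p36 * p45 = 0) :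
    N1 p12 p13 p14 p15 p16 p23 p24 p25 p26 p34 p35 p36 p45 p46 p56 * N3 p12 p13 p14 p15 p16 p23 p24 p25 p26 p34 p35 p36 p45 p46 p56 =
      N3 p12 p13 p14 p15 p16 p23 p24 p25 p26 p34 p35 p36 p45 p46 p56 * N1 p12 p13 p14 p15 p16 p23 p24 p25 p26 p34 p35 p36 p45 p46 p56 := by
  ext a b
  fin_cases a <;> fin_cases b <;>
    simp only [N1, N3, Matrix.mul_apply, Fin.sum_univ_four, Matrix.of_apply, Fin.zero_eta,
      Fin.isValue, Matrix.cons_val, Matrix.cons_val_zero, Matrix.cons_val_one, Fin.mk_one,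
      Fin.reduceFinMk]
  · ring
  · ring
  · linear_combination (p12) * h14 + (p14) * h12 + (p16) * h10 + (-p23) * h9 + (-p34) * h5 + (p35) * h4
  · linear_combination (-p13) * h2 + (p15) * h12 + (p23) * h6 + (p36) * h9
  · ring
  · ring
  · linear_combination (1) * h2
  · ring
  · ring
  · linear_combination (1) * h6
  · linear_combination (-1) * h1
  · linear_combination (-1) * h8
  · ring
  · linear_combination (-1) * h9
  · linear_combination (-1) * h5
  · linear_combination (1) * h1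

lemma comm23 (p12 p13 p14 p15 p16 p23 p24 p25 p26 p34 p35 p36 p45 p46 p56 : R)
    (h0 : p12 * p34 - p13 * p24 + p14 * p23 = 0)
    (h1 : p12 * p35 - p13 * p25 + p15 * p23 = 0)
    (h2 : p12 * p36 - p13 * p26 + p16 * p23 = 0)
    (h3 : p12 * p45 - p14 * p25 + p15 * p24 = 0)
    (h4 : p12 * p46 - p14 * p26 + p16 * p24 = 0)
    (h5 : p12 * p56 - p15 * p26 + p16 * p25 = 0)
    (h6 : p13 * p45 - p14 * p35 + p15 * p34 = 0)
    (h7 : p13 * p46 - p14 * p36 + p16 * p34 = 0)
    (h8 : p13 * p56 - p15 * p36 + p16 * p35 = 0)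
    (h9 : p14 * p56 - p15 * p46 + p16 * p45 = 0)
    (h10 : p23 * p45 - p24 * p35 + p25 * p34 = 0)
    (h11 : p23 * p46 - p24 * p36 + p26 * p34 = 0)
    (h12 : p23 * p56 - p25 * p36 + p26 * p35 = 0)
    (h13 : p24 * p56 - p25 * p46 + p26 * p45 = 0)
    (h14 : p34 * p56 - p35 * p46 + p36 * p45 = 0) :
    N2 p12 p13 p14 p15 p16 p23 p24 p25 p26 p34 p35 p36 p45 p46 p56 * N3 p12 p13 p14 p15 p16 p23 p24 p25 p26 p34 p35 p36 p45 p46 p56 =
      N3 p12 p13 p14 p15 p16 p23 p24 p25 p26 p34 p35 p36 p45 p46 p56 * N2 p12 p13 p14 p15 p16 p23 p24 p25 p26 p34 p35 p36 p45 p46 p56 := by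
  ext a b
  fin_cases a <;> fin_cases b <;>
    simp only [N2, N3, Matrix.mul_apply, Fin.sum_univ_four, Matrix.of_apply, Fin.zero_eta,
      Fin.isValue, Matrix.cons_val, Matrix.cons_val_zero, Matrix.cons_val_one, Fin.mk_one,
      Fin.reduceFinMk]
  · ring
  · linear_combination (p12) * h14 + (-p13) * h13 + (p14) * h12 + (-p15) * h11 + (2 * p16) * h10 + (-p23) * h9 + (p24) * h8 + (-p25) * h7 + (-p34) * h5 + (p35) * h4
  · linear_combination (-p23) * h0 + (p26) * h7 + (p45) * h11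
  · linear_combination (-p23) * h1 + (p26) * h8 + (p45) * h12
  · ring
  · linear_combination (1) * h2
  · linear_combination (1) * h11
  · linear_combination (1) * h12
  · ring
  · linear_combination (-1) * h1 + (1) * h7
  · linear_combination (-1) * h10
  · linear_combination (1) * h14
  · ring
  · linear_combination (-1) * h0 + (-1) * h5
  · linear_combination (1) * h13
  · linear_combination (-1) * h2 + (1) * h10

end D3

end Pool.Agent.H14
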