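import Pool.Agent.H14.D3a

/-!
# The chart `(1, x, y, z)` of the Hilbert scheme of four points of the affine space
-/

set_option autoImplicit false
set_option linter.unusedSimpArgs false
set_option linter.unusedVariables false

open MvPolynomial Matrix

namespace Pool.Agent.H14

namespace D3

section ring

variable {R : Type*} [CommRing R]

/-- change of basis -/
def W (a b c : R) : Matrix (Fin 4) (Fin 4) R :=
  Matrix.of ![![1, a, b, c], ![0, 1, 0, 0], ![0, 0, 1, 0], ![0, 0, 0, 1]]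

lemma W_mul (a b c : R) : W a b c * W (-a) (-b) (-c) = 1 := by
  ext i j
  fin_cases i <;> fin_cases j <;> simp [W, Matrix.mul_apply, Fin.sum_univ_four]

/-- conjugate of a matrix, translated -/
def cj (a b c s : R) (N : Matrix (Fin 4) (Fin 4) R) : Matrix (Fin 4) (Fin 4) R :=
  W (-a) (-b) (-c) * (N + s • 1) * W a b c

lemma cj_comm (a b c s s' : R) {N N' : Matrix (Fin 4) (Fin 4) R} (h : N * N' = N' * N) :
    cj a b c s N * cj a b c s' N' = cj a b c s' N' * cj a b c s N := by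
  have h1 : (N + s • 1) * (N' + s' • 1) = (N' + s' • 1) * (N + s • 1) := by
    rw [add_mul, mul_add, mul_add, add_mul, mul_add, mul_add, h]
    simp only [smul_mul_assoc, one_mul, mul_smul_comm, mul_one, smul_smul]
    rw [mul_comm s s']
    abel
  have h2 := W_mul a b c
  have h3 : ∀ A A' : Matrix (Fin 4) (Fin 4) R,
      (W (-a) (-b) (-c) * A * W a b c) * (W (-a) (-b) (-c) * A' * W a b c) =
        W (-a) (-b) (-c) * (A * A') * W a b c := by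
    intro A A'
    calc _ = W (-a) (-b) (-c) * A * (W a b c * W (-a) (-b) (-c)) * A' * W a b c := by
          simp only [mul_assoc]
      _ = _ := by rw [h2, mul_one]; simp only [mul_assoc]
  rw [cj, cj, h3, h3, h1]

/-- the three matrices -/
def Mt (t : Fin 9 → R) (u : Fin 6 → R) (τ : Fin 3 → R) : Fin 3 → Matrix (Fin 4) (Fin 4) R :=
  ![cj (τ 0) (τ 1) (τ 2) (τ 0) (N1 (t 0) (t 1) (t 2 - u 0) (t 3 - u 1) (t 4 - u 2 - u 3) (u 0) (u 1) (u 2) (t 5 - u 4) (u 3) (u 4) (t 6 - u 5) (u 5) (t 7) (t 8)),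
    cj (τ 0) (τ 1) (τ 2) (τ 1) (N2 (t 0) (t 1) (t 2 - u 0) (t 3 - u 1) (t 4 - u 2 - u 3) (u 0) (u 1) (u 2) (t 5 - u 4) (u 3) (u 4) (t 6 - u 5) (u 5) (t 7) (t 8)),
    cj (τ 0) (τ 1) (τ 2) (τ 2) (N3 (t 0) (t 1) (t 2 - u 0) (t 3 - u 1) (t 4 - u 2 - u 3) (u 0) (u 1) (u 2) (t 5 - u 4) (u 3) (u 4) (t 6 - u 5) (u 5) (t 7) (t 8))]

lemma Mt_comm (t : Fin 9 → R) (u : Fin 6 → R) (τ : Fin 3 → R) (h : ∀ i, plRel t u i = 0)
    (i j : Fin 3) : Mt t u τ i * Mt t u τ j = Mt t u τ j * Mt t u τ i := by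
  have c12 := comm12 (t 0) (t 1) (t 2 - u 0) (t 3 - u 1) (t 4 - u 2 - u 3) (u 0) (u 1) (u 2) (t 5 - u 4) (u 3) (u 4) (t 6 - u 5) (u 5) (t 7) (t 8)
    (hrel0 h) (hrel1 h) (hrel2 h) (hrel3 h) (hrel4 h) (hrel5 h) (hrel6 h) (hrel7 h) (hrel8 h) (hrel9 h) (hrel10 h) (hrel11 h) (hrel12 h) (hrel13 h) (hrel14 h)
  have c13 := comm13 (t 0) (t 1) (t 2 - u 0) (t 3 - u 1) (t 4 - u 2 - u 3) (u 0) (u 1) (u 2) (t 5 - u 4) (u 3) (u 4) (t 6 - u 5) (u 5) (t 7) (t 8)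
    (hrel0 h) (hrel1 h) (hrel2 h) (hrel3 h) (hrel4 h) (hrel5 h) (hrel6 h) (hrel7 h) (hrel8 h) (hrel9 h) (hrel10 h) (hrel11 h) (hrel12 h) (hrel13 h) (hrel14 h)
  have c23 := comm23 (t 0) (t 1) (t 2 - u 0) (t 3 - u 1) (t 4 - u 2 - u 3) (u 0) (u 1) (u 2) (t 5 - u 4) (u 3) (u 4) (t 6 - u 5) (u 5) (t 7) (t 8)
    (hrel0 h) (hrel1 h) (hrel2 h) (hrel3 h) (hrel4 h) (hrel5 h) (hrel6 h) (hrel7 h) (hrel8 h) (hrel9 h) (hrel10 h) (hrel11 h) (hrel12 h) (hrel13 h) (hrel14 h)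
  fin_cases i <;> fin_cases j
  · rfl
  · exact cj_comm _ _ _ _ _ c12
  · exact cj_comm _ _ _ _ _ c13
  · exact (cj_comm _ _ _ _ _ c12).symm
  · rfl
  · exact cj_comm _ _ _ _ _ c23
  · exact (cj_comm _ _ _ _ _ c13).symm
  · exact (cj_comm _ _ _ _ _ c23).symm
  · rfl

lemma Mt_0_0_0 (t : Fin 9 → R) (u : Fin 6 → R) (τ : Fin 3 → R) :
    Mt t u τ 0 0 0 = 0 := by
  simp only [Mt, cj, W, N1, Matrix.mul_apply, Fin.sum_univ_four, Matrix.add_apply,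
    Matrix.smul_apply, Matrix.one_apply, Matrix.of_apply, Matrix.cons_val, Matrix.cons_val_zero,
    Matrix.cons_val_one, smul_eq_mul, Fin.isValue, Fin.reduceEq, reduceIte]
  ring

lemma Mt_0_0_1 (t : Fin 9 → R) (u : Fin 6 → R) (τ : Fin 3 → R) :
    Mt t u τ 0 0 1 = -(τ 0) * (τ 0) + (τ 0) * (t 4 - u 2 - u 3) + (τ 0) * (u 5) - (τ 1) * (t 3 - u 1) + (τ 2) * (t 2 - u 0) - (t 0) * (t 1) - (t 2 - u 0) * (u 3) - (t 3 - u 1) * (u 2) - (t 3 - u 1) * (t 7) := by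
  simp only [Mt, cj, W, N1, Matrix.mul_apply, Fin.sum_univ_four, Matrix.add_apply,
    Matrix.smul_apply, Matrix.one_apply, Matrix.of_apply, Matrix.cons_val, Matrix.cons_val_zero,
    Matrix.cons_val_one, smul_eq_mul, Fin.isValue, Fin.reduceEq, reduceIte]
  ring

lemma Mt_0_0_2 (t : Fin 9 → R) (u : Fin 6 → R) (τ : Fin 3 → R) :
    Mt t u τ 0 0 2 = -(τ 0) * (τ 1) + (τ 2) * (t 0) + (t 2 - u 0) * (u 0) - (t 3 - u 1) * (t 5 - u 4) := by
  simp only [Mt, cj, W, N1, Matrix.mul_apply, Fin.sum_univ_four, Matrix.add_apply,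
    Matrix.smul_apply, Matrix.one_apply, Matrix.of_apply, Matrix.cons_val, Matrix.cons_val_zero,
    Matrix.cons_val_one, smul_eq_mul, Fin.isValue, Fin.reduceEq, reduceIte]
  ring

lemma Mt_0_0_3 (t : Fin 9 → R) (u : Fin 6 → R) (τ : Fin 3 → R) :
    Mt t u τ 0 0 3 = -(τ 0) * (τ 2) - (τ 1) * (t 1) + (τ 2) * (t 4 - u 2 - u 3) - (t 2 - u 0) * (t 6 - u 5) - (t 3 - u 1) * (u 0) := by
  simp only [Mt, cj, W, N1, Matrix.mul_apply, Fin.sum_univ_four, Matrix.add_apply,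
    Matrix.smul_apply, Matrix.one_apply, Matrix.of_apply, Matrix.cons_val, Matrix.cons_val_zero,
    Matrix.cons_val_one, smul_eq_mul, Fin.isValue, Fin.reduceEq, reduceIte]
  ring

lemma Mt_0_1_0 (t : Fin 9 → R) (u : Fin 6 → R) (τ : Fin 3 → R) :
    Mt t u τ 0 1 0 = 1 := by
  simp only [Mt, cj, W, N1, Matrix.mul_apply, Fin.sum_univ_four, Matrix.add_apply,
    Matrix.smul_apply, Matrix.one_apply, Matrix.of_apply, Matrix.cons_val, Matrix.cons_val_zero,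
    Matrix.cons_val_one, smul_eq_mul, Fin.isValue, Fin.reduceEq, reduceIte]
  ring

lemma Mt_0_1_1 (t : Fin 9 → R) (u : Fin 6 → R) (τ : Fin 3 → R) :
    Mt t u τ 0 1 1 = 2 * (τ 0) - (t 4 - u 2 - u 3) - (u 5) := by
  simp only [Mt, cj, W, N1, Matrix.mul_apply, Fin.sum_univ_four, Matrix.add_apply,
    Matrix.smul_apply, Matrix.one_apply, Matrix.of_apply, Matrix.cons_val, Matrix.cons_val_zero,
    Matrix.cons_val_one, smul_eq_mul, Fin.isValue, Fin.reduceEq, reduceIte]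
  ring

lemma Mt_0_1_2 (t : Fin 9 → R) (u : Fin 6 → R) (τ : Fin 3 → R) :
    Mt t u τ 0 1 2 = (τ 1) := by
  simp only [Mt, cj, W, N1, Matrix.mul_apply, Fin.sum_univ_four, Matrix.add_apply,
    Matrix.smul_apply, Matrix.one_apply, Matrix.of_apply, Matrix.cons_val, Matrix.cons_val_zero,
    Matrix.cons_val_one, smul_eq_mul, Fin.isValue, Fin.reduceEq, reduceIte]
  ring

lemma Mt_0_1_3 (t : Fin 9 → R) (u : Fin 6 → R) (τ : Fin 3 → R) :
    Mt t u τ 0 1 3 = (τ 2) := by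
  simp only [Mt, cj, W, N1, Matrix.mul_apply, Fin.sum_univ_four, Matrix.add_apply,
    Matrix.smul_apply, Matrix.one_apply, Matrix.of_apply, Matrix.cons_val, Matrix.cons_val_zero,
    Matrix.cons_val_one, smul_eq_mul, Fin.isValue, Fin.reduceEq, reduceIte]
  ring

lemma Mt_0_2_0 (t : Fin 9 → R) (u : Fin 6 → R) (τ : Fin 3 → R) :
    Mt t u τ 0 2 0 = 0 := by
  simp only [Mt, cj, W, N1, Matrix.mul_apply, Fin.sum_univ_four, Matrix.add_apply,
    Matrix.smul_apply, Matrix.one_apply, Matrix.of_apply, Matrix.cons_val, Matrix.cons_val_zero,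
    Matrix.cons_val_one, smul_eq_mul, Fin.isValue, Fin.reduceEq, reduceIte]
  ring

lemma Mt_0_2_1 (t : Fin 9 → R) (u : Fin 6 → R) (τ : Fin 3 → R) :
    Mt t u τ 0 2 1 = (t 3 - u 1) := by
  simp only [Mt, cj, W, N1, Matrix.mul_apply, Fin.sum_univ_four, Matrix.add_apply,
    Matrix.smul_apply, Matrix.one_apply, Matrix.of_apply, Matrix.cons_val, Matrix.cons_val_zero,
    Matrix.cons_val_one, smul_eq_mul, Fin.isValue, Fin.reduceEq, reduceIte]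
  ring

lemma Mt_0_2_2 (t : Fin 9 → R) (u : Fin 6 → R) (τ : Fin 3 → R) :
    Mt t u τ 0 2 2 = (τ 0) := by
  simp only [Mt, cj, W, N1, Matrix.mul_apply, Fin.sum_univ_four, Matrix.add_apply,
    Matrix.smul_apply, Matrix.one_apply, Matrix.of_apply, Matrix.cons_val, Matrix.cons_val_zero,
    Matrix.cons_val_one, smul_eq_mul, Fin.isValue, Fin.reduceEq, reduceIte]
  ring

lemma Mt_0_2_3 (t : Fin 9 → R) (u : Fin 6 → R) (τ : Fin 3 → R) :
    Mt t u τ 0 2 3 = (t 1) := by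
  simp only [Mt, cj, W, N1, Matrix.mul_apply, Fin.sum_univ_four, Matrix.add_apply,
    Matrix.smul_apply, Matrix.one_apply, Matrix.of_apply, Matrix.cons_val, Matrix.cons_val_zero,
    Matrix.cons_val_one, smul_eq_mul, Fin.isValue, Fin.reduceEq, reduceIte]
  ring

lemma Mt_0_3_0 (t : Fin 9 → R) (u : Fin 6 → R) (τ : Fin 3 → R) :
    Mt t u τ 0 3 0 = 0 := by
  simp only [Mt, cj, W, N1, Matrix.mul_apply, Fin.sum_univ_four, Matrix.add_apply,
    Matrix.smul_apply, Matrix.one_apply, Matrix.of_apply, Matrix.cons_val, Matrix.cons_val_zero,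
    Matrix.cons_val_one, smul_eq_mul, Fin.isValue, Fin.reduceEq, reduceIte]
  ring

lemma Mt_0_3_1 (t : Fin 9 → R) (u : Fin 6 → R) (τ : Fin 3 → R) :
    Mt t u τ 0 3 1 = -(t 2 - u 0) := by
  simp only [Mt, cj, W, N1, Matrix.mul_apply, Fin.sum_univ_four, Matrix.add_apply,
    Matrix.smul_apply, Matrix.one_apply, Matrix.of_apply, Matrix.cons_val, Matrix.cons_val_zero,
    Matrix.cons_val_one, smul_eq_mul, Fin.isValue, Fin.reduceEq, reduceIte]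
  ring

lemma Mt_0_3_2 (t : Fin 9 → R) (u : Fin 6 → R) (τ : Fin 3 → R) :
    Mt t u τ 0 3 2 = -(t 0) := by
  simp only [Mt, cj, W, N1, Matrix.mul_apply, Fin.sum_univ_four, Matrix.add_apply,
    Matrix.smul_apply, Matrix.one_apply, Matrix.of_apply, Matrix.cons_val, Matrix.cons_val_zero,
    Matrix.cons_val_one, smul_eq_mul, Fin.isValue, Fin.reduceEq, reduceIte]
  ring

lemma Mt_0_3_3 (t : Fin 9 → R) (u : Fin 6 → R) (τ : Fin 3 → R) :
    Mt t u τ 0 3 3 = (τ 0) - (t 4 - u 2 - u 3) := by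
  simp only [Mt, cj, W, N1, Matrix.mul_apply, Fin.sum_univ_four, Matrix.add_apply,
    Matrix.smul_apply, Matrix.one_apply, Matrix.of_apply, Matrix.cons_val, Matrix.cons_val_zero,
    Matrix.cons_val_one, smul_eq_mul, Fin.isValue, Fin.reduceEq, reduceIte]
  ring

lemma Mt_1_0_0 (t : Fin 9 → R) (u : Fin 6 → R) (τ : Fin 3 → R) :
    Mt t u τ 1 0 0 = 0 := by
  simp only [Mt, cj, W, N2, Matrix.mul_apply, Fin.sum_univ_four, Matrix.add_apply,
    Matrix.smul_apply, Matrix.one_apply, Matrix.of_apply, Matrix.cons_val, Matrix.cons_val_zero,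
    Matrix.cons_val_one, smul_eq_mul, Fin.isValue, Fin.reduceEq, reduceIte]
  ring

lemma Mt_1_0_1 (t : Fin 9 → R) (u : Fin 6 → R) (τ : Fin 3 → R) :
    Mt t u τ 1 0 1 = -(τ 0) * (τ 1) + (τ 2) * (t 0) + (t 2 - u 0) * (u 0) - (t 3 - u 1) * (t 5 - u 4) := by
  simp only [Mt, cj, W, N2, Matrix.mul_apply, Fin.sum_univ_four, Matrix.add_apply,
    Matrix.smul_apply, Matrix.one_apply, Matrix.of_apply, Matrix.cons_val, Matrix.cons_val_zero,
    Matrix.cons_val_one, smul_eq_mul, Fin.isValue, Fin.reduceEq, reduceIte]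
  ring

lemma Mt_1_0_2 (t : Fin 9 → R) (u : Fin 6 → R) (τ : Fin 3 → R) :
    Mt t u τ 1 0 2 = (τ 0) * (t 5 - u 4) - (τ 1) * (τ 1) - (τ 1) * (u 2) - (τ 1) * (t 7) - (τ 2) * (u 1) + (t 0) * (u 0) - (t 4 - u 2 - u 3) * (t 5 - u 4) - (t 5 - u 4) * (u 5) := by
  simp only [Mt, cj, W, N2, Matrix.mul_apply, Fin.sum_univ_four, Matrix.add_apply,
    Matrix.smul_apply, Matrix.one_apply, Matrix.of_apply, Matrix.cons_val, Matrix.cons_val_zero,
    Matrix.cons_val_one, smul_eq_mul, Fin.isValue, Fin.reduceEq, reduceIte]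
  ring

lemma Mt_1_0_3 (t : Fin 9 → R) (u : Fin 6 → R) (τ : Fin 3 → R) :
    Mt t u τ 1 0 3 = (τ 0) * (u 0) - (τ 1) * (τ 2) + (τ 1) * (u 3) - (τ 2) * (u 2) - (t 1) * (t 5 - u 4) - (u 0) * (u 5) := by
  simp only [Mt, cj, W, N2, Matrix.mul_apply, Fin.sum_univ_four, Matrix.add_apply,
    Matrix.smul_apply, Matrix.one_apply, Matrix.of_apply, Matrix.cons_val, Matrix.cons_val_zero,
    Matrix.cons_val_one, smul_eq_mul, Fin.isValue, Fin.reduceEq, reduceIte]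
  ring

lemma Mt_1_1_0 (t : Fin 9 → R) (u : Fin 6 → R) (τ : Fin 3 → R) :
    Mt t u τ 1 1 0 = 0 := by
  simp only [Mt, cj, W, N2, Matrix.mul_apply, Fin.sum_univ_four, Matrix.add_apply,
    Matrix.smul_apply, Matrix.one_apply, Matrix.of_apply, Matrix.cons_val, Matrix.cons_val_zero,
    Matrix.cons_val_one, smul_eq_mul, Fin.isValue, Fin.reduceEq, reduceIte]
  ring

lemma Mt_1_1_1 (t : Fin 9 → R) (u : Fin 6 → R) (τ : Fin 3 → R) :
    Mt t u τ 1 1 1 = (τ 1) := by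
  simp only [Mt, cj, W, N2, Matrix.mul_apply, Fin.sum_univ_four, Matrix.add_apply,
    Matrix.smul_apply, Matrix.one_apply, Matrix.of_apply, Matrix.cons_val, Matrix.cons_val_zero,
    Matrix.cons_val_one, smul_eq_mul, Fin.isValue, Fin.reduceEq, reduceIte]
  ring

lemma Mt_1_1_2 (t : Fin 9 → R) (u : Fin 6 → R) (τ : Fin 3 → R) :
    Mt t u τ 1 1 2 = -(t 5 - u 4) := by
  simp only [Mt, cj, W, N2, Matrix.mul_apply, Fin.sum_univ_four, Matrix.add_apply,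
    Matrix.smul_apply, Matrix.one_apply, Matrix.of_apply, Matrix.cons_val, Matrix.cons_val_zero,
    Matrix.cons_val_one, smul_eq_mul, Fin.isValue, Fin.reduceEq, reduceIte]
  ring

lemma Mt_1_1_3 (t : Fin 9 → R) (u : Fin 6 → R) (τ : Fin 3 → R) :
    Mt t u τ 1 1 3 = -(u 0) := by
  simp only [Mt, cj, W, N2, Matrix.mul_apply, Fin.sum_univ_four, Matrix.add_apply,
    Matrix.smul_apply, Matrix.one_apply, Matrix.of_apply, Matrix.cons_val, Matrix.cons_val_zero,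
    Matrix.cons_val_one, smul_eq_mul, Fin.isValue, Fin.reduceEq, reduceIte]
  ring

lemma Mt_1_2_0 (t : Fin 9 → R) (u : Fin 6 → R) (τ : Fin 3 → R) :
    Mt t u τ 1 2 0 = 1 := by
  simp only [Mt, cj, W, N2, Matrix.mul_apply, Fin.sum_univ_four, Matrix.add_apply,
    Matrix.smul_apply, Matrix.one_apply, Matrix.of_apply, Matrix.cons_val, Matrix.cons_val_zero,
    Matrix.cons_val_one, smul_eq_mul, Fin.isValue, Fin.reduceEq, reduceIte]
  ring

lemma Mt_1_2_1 (t : Fin 9 → R) (u : Fin 6 → R) (τ : Fin 3 → R) :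
    Mt t u τ 1 2 1 = (τ 0) := by
  simp only [Mt, cj, W, N2, Matrix.mul_apply, Fin.sum_univ_four, Matrix.add_apply,
    Matrix.smul_apply, Matrix.one_apply, Matrix.of_apply, Matrix.cons_val, Matrix.cons_val_zero,
    Matrix.cons_val_one, smul_eq_mul, Fin.isValue, Fin.reduceEq, reduceIte]
  ring

lemma Mt_1_2_2 (t : Fin 9 → R) (u : Fin 6 → R) (τ : Fin 3 → R) :
    Mt t u τ 1 2 2 = 2 * (τ 1) + (u 2) + (t 7) := by
  simp only [Mt, cj, W, N2, Matrix.mul_apply, Fin.sum_univ_four, Matrix.add_apply,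
    Matrix.smul_apply, Matrix.one_apply, Matrix.of_apply, Matrix.cons_val, Matrix.cons_val_zero,
    Matrix.cons_val_one, smul_eq_mul, Fin.isValue, Fin.reduceEq, reduceIte]
  ring

lemma Mt_1_2_3 (t : Fin 9 → R) (u : Fin 6 → R) (τ : Fin 3 → R) :
    Mt t u τ 1 2 3 = (τ 2) - (u 3) := by
  simp only [Mt, cj, W, N2, Matrix.mul_apply, Fin.sum_univ_four, Matrix.add_apply,
    Matrix.smul_apply, Matrix.one_apply, Matrix.of_apply, Matrix.cons_val, Matrix.cons_val_zero,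
    Matrix.cons_val_one, smul_eq_mul, Fin.isValue, Fin.reduceEq, reduceIte]
  ring

lemma Mt_1_3_0 (t : Fin 9 → R) (u : Fin 6 → R) (τ : Fin 3 → R) :
    Mt t u τ 1 3 0 = 0 := by
  simp only [Mt, cj, W, N2, Matrix.mul_apply, Fin.sum_univ_four, Matrix.add_apply,
    Matrix.smul_apply, Matrix.one_apply, Matrix.of_apply, Matrix.cons_val, Matrix.cons_val_zero,
    Matrix.cons_val_one, smul_eq_mul, Fin.isValue, Fin.reduceEq, reduceIte]
  ring

lemma Mt_1_3_1 (t : Fin 9 → R) (u : Fin 6 → R) (τ : Fin 3 → R) :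
    Mt t u τ 1 3 1 = -(t 0) := by
  simp only [Mt, cj, W, N2, Matrix.mul_apply, Fin.sum_univ_four, Matrix.add_apply,
    Matrix.smul_apply, Matrix.one_apply, Matrix.of_apply, Matrix.cons_val, Matrix.cons_val_zero,
    Matrix.cons_val_one, smul_eq_mul, Fin.isValue, Fin.reduceEq, reduceIte]
  ring

lemma Mt_1_3_2 (t : Fin 9 → R) (u : Fin 6 → R) (τ : Fin 3 → R) :
    Mt t u τ 1 3 2 = (u 1) := by
  simp only [Mt, cj, W, N2, Matrix.mul_apply, Fin.sum_univ_four, Matrix.add_apply,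
    Matrix.smul_apply, Matrix.one_apply, Matrix.of_apply, Matrix.cons_val, Matrix.cons_val_zero,
    Matrix.cons_val_one, smul_eq_mul, Fin.isValue, Fin.reduceEq, reduceIte]
  ring

lemma Mt_1_3_3 (t : Fin 9 → R) (u : Fin 6 → R) (τ : Fin 3 → R) :
    Mt t u τ 1 3 3 = (τ 1) + (u 2) := by
  simp only [Mt, cj, W, N2, Matrix.mul_apply, Fin.sum_univ_four, Matrix.add_apply,
    Matrix.smul_apply, Matrix.one_apply, Matrix.of_apply, Matrix.cons_val, Matrix.cons_val_zero,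
    Matrix.cons_val_one, smul_eq_mul, Fin.isValue, Fin.reduceEq, reduceIte]
  ring

lemma Mt_2_0_0 (t : Fin 9 → R) (u : Fin 6 → R) (τ : Fin 3 → R) :
    Mt t u τ 2 0 0 = 0 := by
  simp only [Mt, cj, W, N3, Matrix.mul_apply, Fin.sum_univ_four, Matrix.add_apply,
    Matrix.smul_apply, Matrix.one_apply, Matrix.of_apply, Matrix.cons_val, Matrix.cons_val_zero,
    Matrix.cons_val_one, smul_eq_mul, Fin.isValue, Fin.reduceEq, reduceIte]
  ring

lemma Mt_2_0_1 (t : Fin 9 → R) (u : Fin 6 → R) (τ : Fin 3 → R) :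
    Mt t u τ 2 0 1 = -(τ 0) * (τ 2) - (τ 1) * (t 1) + (τ 2) * (t 4 - u 2 - u 3) - (t 2 - u 0) * (t 6 - u 5) - (t 3 - u 1) * (u 0) := by
  simp only [Mt, cj, W, N3, Matrix.mul_apply, Fin.sum_univ_four, Matrix.add_apply,
    Matrix.smul_apply, Matrix.one_apply, Matrix.of_apply, Matrix.cons_val, Matrix.cons_val_zero,
    Matrix.cons_val_one, smul_eq_mul, Fin.isValue, Fin.reduceEq, reduceIte]
  ring

lemma Mt_2_0_2 (t : Fin 9 → R) (u : Fin 6 → R) (τ : Fin 3 → R) :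
    Mt t u τ 2 0 2 = (τ 0) * (u 0) - (τ 1) * (τ 2) + (τ 1) * (u 3) - (τ 2) * (u 2) - (t 1) * (t 5 - u 4) - (u 0) * (u 5) := by
  simp only [Mt, cj, W, N3, Matrix.mul_apply, Fin.sum_univ_four, Matrix.add_apply,
    Matrix.smul_apply, Matrix.one_apply, Matrix.of_apply, Matrix.cons_val, Matrix.cons_val_zero,
    Matrix.cons_val_one, smul_eq_mul, Fin.isValue, Fin.reduceEq, reduceIte]
  ring

lemma Mt_2_0_3 (t : Fin 9 → R) (u : Fin 6 → R) (τ : Fin 3 → R) :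
    Mt t u τ 2 0 3 = -(τ 0) * (t 6 - u 5) + (τ 1) * (u 4) - (τ 2) * (τ 2) + (τ 2) * (u 3) + (τ 2) * (t 8) - (t 1) * (u 0) + (t 6 - u 5) * (u 5) := by
  simp only [Mt, cj, W, N3, Matrix.mul_apply, Fin.sum_univ_four, Matrix.add_apply,
    Matrix.smul_apply, Matrix.one_apply, Matrix.of_apply, Matrix.cons_val, Matrix.cons_val_zero,
    Matrix.cons_val_one, smul_eq_mul, Fin.isValue, Fin.reduceEq, reduceIte]
  ring

lemma Mt_2_1_0 (t : Fin 9 → R) (u : Fin 6 → R) (τ : Fin 3 → R) :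
    Mt t u τ 2 1 0 = 0 := by
  simp only [Mt, cj, W, N3, Matrix.mul_apply, Fin.sum_univ_four, Matrix.add_apply,
    Matrix.smul_apply, Matrix.one_apply, Matrix.of_apply, Matrix.cons_val, Matrix.cons_val_zero,
    Matrix.cons_val_one, smul_eq_mul, Fin.isValue, Fin.reduceEq, reduceIte]
  ring

lemma Mt_2_1_1 (t : Fin 9 → R) (u : Fin 6 → R) (τ : Fin 3 → R) :
    Mt t u τ 2 1 1 = (τ 2) := by
  simp only [Mt, cj, W, N3, Matrix.mul_apply, Fin.sum_univ_four, Matrix.add_apply,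
    Matrix.smul_apply, Matrix.one_apply, Matrix.of_apply, Matrix.cons_val, Matrix.cons_val_zero,
    Matrix.cons_val_one, smul_eq_mul, Fin.isValue, Fin.reduceEq, reduceIte]
  ring

lemma Mt_2_1_2 (t : Fin 9 → R) (u : Fin 6 → R) (τ : Fin 3 → R) :
    Mt t u τ 2 1 2 = -(u 0) := by
  simp only [Mt, cj, W, N3, Matrix.mul_apply, Fin.sum_univ_four, Matrix.add_apply,
    Matrix.smul_apply, Matrix.one_apply, Matrix.of_apply, Matrix.cons_val, Matrix.cons_val_zero,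
    Matrix.cons_val_one, smul_eq_mul, Fin.isValue, Fin.reduceEq, reduceIte]
  ring

lemma Mt_2_1_3 (t : Fin 9 → R) (u : Fin 6 → R) (τ : Fin 3 → R) :
    Mt t u τ 2 1 3 = (t 6 - u 5) := by
  simp only [Mt, cj, W, N3, Matrix.mul_apply, Fin.sum_univ_four, Matrix.add_apply,
    Matrix.smul_apply, Matrix.one_apply, Matrix.of_apply, Matrix.cons_val, Matrix.cons_val_zero,
    Matrix.cons_val_one, smul_eq_mul, Fin.isValue, Fin.reduceEq, reduceIte]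
  ring

lemma Mt_2_2_0 (t : Fin 9 → R) (u : Fin 6 → R) (τ : Fin 3 → R) :
    Mt t u τ 2 2 0 = 0 := by
  simp only [Mt, cj, W, N3, Matrix.mul_apply, Fin.sum_univ_four, Matrix.add_apply,
    Matrix.smul_apply, Matrix.one_apply, Matrix.of_apply, Matrix.cons_val, Matrix.cons_val_zero,
    Matrix.cons_val_one, smul_eq_mul, Fin.isValue, Fin.reduceEq, reduceIte]
  ring

lemma Mt_2_2_1 (t : Fin 9 → R) (u : Fin 6 → R) (τ : Fin 3 → R) :
    Mt t u τ 2 2 1 = (t 1) := by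
  simp only [Mt, cj, W, N3, Matrix.mul_apply, Fin.sum_univ_four, Matrix.add_apply,
    Matrix.smul_apply, Matrix.one_apply, Matrix.of_apply, Matrix.cons_val, Matrix.cons_val_zero,
    Matrix.cons_val_one, smul_eq_mul, Fin.isValue, Fin.reduceEq, reduceIte]
  ring

lemma Mt_2_2_2 (t : Fin 9 → R) (u : Fin 6 → R) (τ : Fin 3 → R) :
    Mt t u τ 2 2 2 = (τ 2) - (u 3) := by
  simp only [Mt, cj, W, N3, Matrix.mul_apply, Fin.sum_univ_four, Matrix.add_apply,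
    Matrix.smul_apply, Matrix.one_apply, Matrix.of_apply, Matrix.cons_val, Matrix.cons_val_zero,
    Matrix.cons_val_one, smul_eq_mul, Fin.isValue, Fin.reduceEq, reduceIte]
  ring

lemma Mt_2_2_3 (t : Fin 9 → R) (u : Fin 6 → R) (τ : Fin 3 → R) :
    Mt t u τ 2 2 3 = -(u 4) := by
  simp only [Mt, cj, W, N3, Matrix.mul_apply, Fin.sum_univ_four, Matrix.add_apply,
    Matrix.smul_apply, Matrix.one_apply, Matrix.of_apply, Matrix.cons_val, Matrix.cons_val_zero,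
    Matrix.cons_val_one, smul_eq_mul, Fin.isValue, Fin.reduceEq, reduceIte]
  ring

lemma Mt_2_3_0 (t : Fin 9 → R) (u : Fin 6 → R) (τ : Fin 3 → R) :
    Mt t u τ 2 3 0 = 1 := by
  simp only [Mt, cj, W, N3, Matrix.mul_apply, Fin.sum_univ_four, Matrix.add_apply,
    Matrix.smul_apply, Matrix.one_apply, Matrix.of_apply, Matrix.cons_val, Matrix.cons_val_zero,
    Matrix.cons_val_one, smul_eq_mul, Fin.isValue, Fin.reduceEq, reduceIte]
  ring

lemma Mt_2_3_1 (t : Fin 9 → R) (u : Fin 6 → R) (τ : Fin 3 → R) :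
    Mt t u τ 2 3 1 = (τ 0) - (t 4 - u 2 - u 3) := by
  simp only [Mt, cj, W, N3, Matrix.mul_apply, Fin.sum_univ_four, Matrix.add_apply,
    Matrix.smul_apply, Matrix.one_apply, Matrix.of_apply, Matrix.cons_val, Matrix.cons_val_zero,
    Matrix.cons_val_one, smul_eq_mul, Fin.isValue, Fin.reduceEq, reduceIte]
  ring

lemma Mt_2_3_2 (t : Fin 9 → R) (u : Fin 6 → R) (τ : Fin 3 → R) :
    Mt t u τ 2 3 2 = (τ 1) + (u 2) := by
  simp only [Mt, cj, W, N3, Matrix.mul_apply, Fin.sum_univ_four, Matrix.add_apply,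
    Matrix.smul_apply, Matrix.one_apply, Matrix.of_apply, Matrix.cons_val, Matrix.cons_val_zero,
    Matrix.cons_val_one, smul_eq_mul, Fin.isValue, Fin.reduceEq, reduceIte]
  ring

lemma Mt_2_3_3 (t : Fin 9 → R) (u : Fin 6 → R) (τ : Fin 3 → R) :
    Mt t u τ 2 3 3 = 2 * (τ 2) - (u 3) - (t 8) := by
  simp only [Mt, cj, W, N3, Matrix.mul_apply, Fin.sum_univ_four, Matrix.add_apply,
    Matrix.smul_apply, Matrix.one_apply, Matrix.of_apply, Matrix.cons_val, Matrix.cons_val_zero,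
    Matrix.cons_val_one, smul_eq_mul, Fin.isValue, Fin.reduceEq, reduceIte]
  ring

/-- the parameters of an algebra with basis `1, x, y, z` -/
def tA (a : Fin 3 → Fin 3 → Fin 4 → R) : Fin 9 → R :=
  ![-a 0 1 3,
    a 0 2 2,
    -a 0 0 3 - a 1 2 1,
    a 0 0 2 + a 1 1 3,
    -a 0 1 1 + a 0 1 2 + a 0 2 1 - a 0 2 3 - a 1 2 2 + a 1 2 3,
    -a 1 1 1 - a 2 2 2,
    -a 0 0 1 + a 0 1 2 + a 0 2 3 + a 2 2 1,
    -a 0 1 1 + a 1 1 2 - a 1 2 3,
    a 0 2 1 + a 1 2 2 - a 2 2 3]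

/-- the parameters of an algebra with basis `1, x, y, z` -/
def uA (a : Fin 3 → Fin 3 → Fin 4 → R) : Fin 6 → R :=
  ![-a 1 2 1,
    a 1 1 3,
    -a 0 1 1 + a 1 2 3,
    a 0 2 1 - a 1 2 2,
    -a 2 2 2,
    -a 0 0 1 + a 0 1 2 + a 0 2 3]

/-- the parameters of an algebra with basis `1, x, y, z` -/
def τA (a : Fin 3 → Fin 3 → Fin 4 → R) : Fin 3 → R :=
  ![a 0 1 2, a 0 1 1, a 0 2 1]

/-- one side of the associativity relation -/
def hf (a : Fin 3 → Fin 3 → Fin 4 → R) (m j i : Fin 3) (l : Fin 4) : R :=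
  a m j 0 * (Pi.single i.succ 1 : Fin 4 → R) l + a m j 1 * a 0 i l + a m j 2 * a 1 i l +
    a m j 3 * a 2 i l

lemma e1210 {a : Fin 3 → Fin 3 → Fin 4 → R} (hs : ∀ i j, a i j = a j i)
    (hE : ∀ m j i l, hf a m j i l = hf a m i j l) :
    a 0 0 0 * a 0 1 1 - a 0 0 1 * a 0 1 0 - a 0 0 2 * a 1 1 0 - a 0 0 3 * a 1 2 0 + a 0 1 0 * a 0 1 2 + a 0 1 3 * a 0 2 0 = 0 := by
  have h := hE 0 1 0 0
  simp only [hf, Pi.single_apply, hs 1 0, hs 2 0, hs 2 1, Fin.succ_zero_eq_one,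
    Fin.succ_one_eq_two] at h
  norm_num [Fin.ext_iff] at h
  linear_combination h

lemma e1211 {a : Fin 3 → Fin 3 → Fin 4 → R} (hs : ∀ i j, a i j = a j i)
    (hE : ∀ m j i l, hf a m j i l = hf a m i j l) :
    -a 0 0 2 * a 1 1 1 - a 0 0 3 * a 1 2 1 + a 0 1 1 * a 0 1 2 + a 0 1 3 * a 0 2 1 + a 0 1 0 = 0 := by
  have h := hE 0 1 0 1
  simp only [hf, Pi.single_apply, hs 1 0, hs 2 0, hs 2 1, Fin.succ_zero_eq_one,
    Fin.succ_one_eq_two] at h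
  norm_num [Fin.ext_iff] at h
  linear_combination h

lemma e1212 {a : Fin 3 → Fin 3 → Fin 4 → R} (hs : ∀ i j, a i j = a j i)
    (hE : ∀ m j i l, hf a m j i l = hf a m i j l) :
    -a 0 0 1 * a 0 1 2 + a 0 0 2 * a 0 1 1 - a 0 0 2 * a 1 1 2 - a 0 0 3 * a 1 2 2 + a 0 1 2 * a 0 1 2 + a 0 1 3 * a 0 2 2 - a 0 0 0 = 0 := by
  have h := hE 0 1 0 2
  simp only [hf, Pi.single_apply, hs 1 0, hs 2 0, hs 2 1, Fin.succ_zero_eq_one,
    Fin.succ_one_eq_two] at h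
  norm_num [Fin.ext_iff] at h
  linear_combination h

lemma e1213 {a : Fin 3 → Fin 3 → Fin 4 → R} (hs : ∀ i j, a i j = a j i)
    (hE : ∀ m j i l, hf a m j i l = hf a m i j l) :
    -a 0 0 1 * a 0 1 3 - a 0 0 2 * a 1 1 3 + a 0 0 3 * a 0 1 1 - a 0 0 3 * a 1 2 3 + a 0 1 2 * a 0 1 3 + a 0 1 3 * a 0 2 3 = 0 := by
  have h := hE 0 1 0 3
  simp only [hf, Pi.single_apply, hs 1 0, hs 2 0, hs 2 1, Fin.succ_zero_eq_one,
    Fin.succ_one_eq_two] at h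
  norm_num [Fin.ext_iff] at h
  linear_combination h

lemma e1310 {a : Fin 3 → Fin 3 → Fin 4 → R} (hs : ∀ i j, a i j = a j i)
    (hE : ∀ m j i l, hf a m j i l = hf a m i j l) :
    a 0 0 0 * a 0 2 1 - a 0 0 1 * a 0 2 0 - a 0 0 2 * a 1 2 0 - a 0 0 3 * a 2 2 0 + a 0 1 0 * a 0 2 2 + a 0 2 0 * a 0 2 3 = 0 := by
  have h := hE 0 2 0 0
  simp only [hf, Pi.single_apply, hs 1 0, hs 2 0, hs 2 1, Fin.succ_zero_eq_one,
    Fin.succ_one_eq_two] at h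
  norm_num [Fin.ext_iff] at h
  linear_combination h

lemma e1311 {a : Fin 3 → Fin 3 → Fin 4 → R} (hs : ∀ i j, a i j = a j i)
    (hE : ∀ m j i l, hf a m j i l = hf a m i j l) :
    -a 0 0 2 * a 1 2 1 - a 0 0 3 * a 2 2 1 + a 0 1 1 * a 0 2 2 + a 0 2 1 * a 0 2 3 + a 0 2 0 = 0 := by
  have h := hE 0 2 0 1
  simp only [hf, Pi.single_apply, hs 1 0, hs 2 0, hs 2 1, Fin.succ_zero_eq_one,
    Fin.succ_one_eq_two] at h
  norm_num [Fin.ext_iff] at h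
  linear_combination h

lemma e1312 {a : Fin 3 → Fin 3 → Fin 4 → R} (hs : ∀ i j, a i j = a j i)
    (hE : ∀ m j i l, hf a m j i l = hf a m i j l) :
    -a 0 0 1 * a 0 2 2 + a 0 0 2 * a 0 2 1 - a 0 0 2 * a 1 2 2 - a 0 0 3 * a 2 2 2 + a 0 1 2 * a 0 2 2 + a 0 2 2 * a 0 2 3 = 0 := by
  have h := hE 0 2 0 2
  simp only [hf, Pi.single_apply, hs 1 0, hs 2 0, hs 2 1, Fin.succ_zero_eq_one,
    Fin.succ_one_eq_two] at h
  norm_num [Fin.ext_iff] at h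
  linear_combination h

lemma e1313 {a : Fin 3 → Fin 3 → Fin 4 → R} (hs : ∀ i j, a i j = a j i)
    (hE : ∀ m j i l, hf a m j i l = hf a m i j l) :
    -a 0 0 1 * a 0 2 3 - a 0 0 2 * a 1 2 3 + a 0 0 3 * a 0 2 1 - a 0 0 3 * a 2 2 3 + a 0 1 3 * a 0 2 2 + a 0 2 3 * a 0 2 3 - a 0 0 0 = 0 := by
  have h := hE 0 2 0 3
  simp only [hf, Pi.single_apply, hs 1 0, hs 2 0, hs 2 1, Fin.succ_zero_eq_one,
    Fin.succ_one_eq_two] at h
  norm_num [Fin.ext_iff] at h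
  linear_combination h

lemma e1320 {a : Fin 3 → Fin 3 → Fin 4 → R} (hs : ∀ i j, a i j = a j i)
    (hE : ∀ m j i l, hf a m j i l = hf a m i j l) :
    a 0 1 0 * a 0 2 1 - a 0 1 1 * a 0 2 0 - a 0 1 2 * a 1 2 0 - a 0 1 3 * a 2 2 0 + a 0 2 2 * a 1 1 0 + a 0 2 3 * a 1 2 0 = 0 := by
  have h := hE 0 2 1 0
  simp only [hf, Pi.single_apply, hs 1 0, hs 2 0, hs 2 1, Fin.succ_zero_eq_one,
    Fin.succ_one_eq_two] at h
  norm_num [Fin.ext_iff] at h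
  linear_combination h

lemma e1321 {a : Fin 3 → Fin 3 → Fin 4 → R} (hs : ∀ i j, a i j = a j i)
    (hE : ∀ m j i l, hf a m j i l = hf a m i j l) :
    -a 0 1 2 * a 1 2 1 - a 0 1 3 * a 2 2 1 + a 0 2 2 * a 1 1 1 + a 0 2 3 * a 1 2 1 = 0 := by
  have h := hE 0 2 1 1
  simp only [hf, Pi.single_apply, hs 1 0, hs 2 0, hs 2 1, Fin.succ_zero_eq_one,
    Fin.succ_one_eq_two] at h
  norm_num [Fin.ext_iff] at h
  linear_combination h

lemma e1322 {a : Fin 3 → Fin 3 → Fin 4 → R} (hs : ∀ i j, a i j = a j i)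
    (hE : ∀ m j i l, hf a m j i l = hf a m i j l) :
    -a 0 1 1 * a 0 2 2 + a 0 1 2 * a 0 2 1 - a 0 1 2 * a 1 2 2 - a 0 1 3 * a 2 2 2 + a 0 2 2 * a 1 1 2 + a 0 2 3 * a 1 2 2 + a 0 2 0 = 0 := by
  have h := hE 0 2 1 2
  simp only [hf, Pi.single_apply, hs 1 0, hs 2 0, hs 2 1, Fin.succ_zero_eq_one,
    Fin.succ_one_eq_two] at h
  norm_num [Fin.ext_iff] at h
  linear_combination h

lemma e1323 {a : Fin 3 → Fin 3 → Fin 4 → R} (hs : ∀ i j, a i j = a j i)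
    (hE : ∀ m j i l, hf a m j i l = hf a m i j l) :
    -a 0 1 1 * a 0 2 3 - a 0 1 2 * a 1 2 3 + a 0 1 3 * a 0 2 1 - a 0 1 3 * a 2 2 3 + a 0 2 2 * a 1 1 3 + a 0 2 3 * a 1 2 3 - a 0 1 0 = 0 := by
  have h := hE 0 2 1 3
  simp only [hf, Pi.single_apply, hs 1 0, hs 2 0, hs 2 1, Fin.succ_zero_eq_one,
    Fin.succ_one_eq_two] at h
  norm_num [Fin.ext_iff] at h
  linear_combination h

lemma e2210 {a : Fin 3 → Fin 3 → Fin 4 → R} (hs : ∀ i j, a i j = a j i)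
    (hE : ∀ m j i l, hf a m j i l = hf a m i j l) :
    a 0 0 0 * a 1 1 1 - a 0 1 0 * a 0 1 1 + a 0 1 0 * a 1 1 2 - a 0 1 2 * a 1 1 0 - a 0 1 3 * a 1 2 0 + a 0 2 0 * a 1 1 3 = 0 := by
  have h := hE 1 1 0 0
  simp only [hf, Pi.single_apply, hs 1 0, hs 2 0, hs 2 1, Fin.succ_zero_eq_one,
    Fin.succ_one_eq_two] at h
  norm_num [Fin.ext_iff] at h
  linear_combination h

lemma e2211 {a : Fin 3 → Fin 3 → Fin 4 → R} (hs : ∀ i j, a i j = a j i)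
    (hE : ∀ m j i l, hf a m j i l = hf a m i j l) :
    a 0 0 1 * a 1 1 1 - a 0 1 1 * a 0 1 1 + a 0 1 1 * a 1 1 2 - a 0 1 2 * a 1 1 1 - a 0 1 3 * a 1 2 1 + a 0 2 1 * a 1 1 3 + a 1 1 0 = 0 := by
  have h := hE 1 1 0 1
  simp only [hf, Pi.single_apply, hs 1 0, hs 2 0, hs 2 1, Fin.succ_zero_eq_one,
    Fin.succ_one_eq_two] at h
  norm_num [Fin.ext_iff] at h
  linear_combination h

lemma e2212 {a : Fin 3 → Fin 3 → Fin 4 → R} (hs : ∀ i j, a i j = a j i)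
    (hE : ∀ m j i l, hf a m j i l = hf a m i j l) :
    a 0 0 2 * a 1 1 1 - a 0 1 1 * a 0 1 2 - a 0 1 3 * a 1 2 2 + a 0 2 2 * a 1 1 3 - a 0 1 0 = 0 := by
  have h := hE 1 1 0 2
  simp only [hf, Pi.single_apply, hs 1 0, hs 2 0, hs 2 1, Fin.succ_zero_eq_one,
    Fin.succ_one_eq_two] at h
  norm_num [Fin.ext_iff] at h
  linear_combination h

lemma e2213 {a : Fin 3 → Fin 3 → Fin 4 → R} (hs : ∀ i j, a i j = a j i)
    (hE : ∀ m j i l, hf a m j i l = hf a m i j l) :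
    a 0 0 3 * a 1 1 1 - a 0 1 1 * a 0 1 3 - a 0 1 2 * a 1 1 3 + a 0 1 3 * a 1 1 2 - a 0 1 3 * a 1 2 3 + a 0 2 3 * a 1 1 3 = 0 := by
  have h := hE 1 1 0 3
  simp only [hf, Pi.single_apply, hs 1 0, hs 2 0, hs 2 1, Fin.succ_zero_eq_one,
    Fin.succ_one_eq_two] at h
  norm_num [Fin.ext_iff] at h
  linear_combination h

lemma e2310 {a : Fin 3 → Fin 3 → Fin 4 → R} (hs : ∀ i j, a i j = a j i)
    (hE : ∀ m j i l, hf a m j i l = hf a m i j l) :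
    a 0 0 0 * a 1 2 1 + a 0 1 0 * a 1 2 2 - a 0 1 1 * a 0 2 0 - a 0 1 2 * a 1 2 0 - a 0 1 3 * a 2 2 0 + a 0 2 0 * a 1 2 3 = 0 := by
  have h := hE 1 2 0 0
  simp only [hf, Pi.single_apply, hs 1 0, hs 2 0, hs 2 1, Fin.succ_zero_eq_one,
    Fin.succ_one_eq_two] at h
  norm_num [Fin.ext_iff] at h
  linear_combination h

lemma e2311 {a : Fin 3 → Fin 3 → Fin 4 → R} (hs : ∀ i j, a i j = a j i)
    (hE : ∀ m j i l, hf a m j i l = hf a m i j l) :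
    a 0 0 1 * a 1 2 1 - a 0 1 1 * a 0 2 1 + a 0 1 1 * a 1 2 2 - a 0 1 2 * a 1 2 1 - a 0 1 3 * a 2 2 1 + a 0 2 1 * a 1 2 3 + a 1 2 0 = 0 := by
  have h := hE 1 2 0 1
  simp only [hf, Pi.single_apply, hs 1 0, hs 2 0, hs 2 1, Fin.succ_zero_eq_one,
    Fin.succ_one_eq_two] at h
  norm_num [Fin.ext_iff] at h
  linear_combination h

lemma e2312 {a : Fin 3 → Fin 3 → Fin 4 → R} (hs : ∀ i j, a i j = a j i)
    (hE : ∀ m j i l, hf a m j i l = hf a m i j l) :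
    a 0 0 2 * a 1 2 1 - a 0 1 1 * a 0 2 2 - a 0 1 3 * a 2 2 2 + a 0 2 2 * a 1 2 3 = 0 := by
  have h := hE 1 2 0 2
  simp only [hf, Pi.single_apply, hs 1 0, hs 2 0, hs 2 1, Fin.succ_zero_eq_one,
    Fin.succ_one_eq_two] at h
  norm_num [Fin.ext_iff] at h
  linear_combination h

lemma e2313 {a : Fin 3 → Fin 3 → Fin 4 → R} (hs : ∀ i j, a i j = a j i)
    (hE : ∀ m j i l, hf a m j i l = hf a m i j l) :
    a 0 0 3 * a 1 2 1 - a 0 1 1 * a 0 2 3 - a 0 1 2 * a 1 2 3 + a 0 1 3 * a 1 2 2 - a 0 1 3 * a 2 2 3 + a 0 2 3 * a 1 2 3 - a 0 1 0 = 0 := by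
  have h := hE 1 2 0 3
  simp only [hf, Pi.single_apply, hs 1 0, hs 2 0, hs 2 1, Fin.succ_zero_eq_one,
    Fin.succ_one_eq_two] at h
  norm_num [Fin.ext_iff] at h
  linear_combination h

lemma e2320 {a : Fin 3 → Fin 3 → Fin 4 → R} (hs : ∀ i j, a i j = a j i)
    (hE : ∀ m j i l, hf a m j i l = hf a m i j l) :
    a 0 1 0 * a 1 2 1 - a 0 2 0 * a 1 1 1 + a 1 1 0 * a 1 2 2 - a 1 1 2 * a 1 2 0 - a 1 1 3 * a 2 2 0 + a 1 2 0 * a 1 2 3 = 0 := by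
  have h := hE 1 2 1 0
  simp only [hf, Pi.single_apply, hs 1 0, hs 2 0, hs 2 1, Fin.succ_zero_eq_one,
    Fin.succ_one_eq_two] at h
  norm_num [Fin.ext_iff] at h
  linear_combination h

lemma e2321 {a : Fin 3 → Fin 3 → Fin 4 → R} (hs : ∀ i j, a i j = a j i)
    (hE : ∀ m j i l, hf a m j i l = hf a m i j l) :
    a 0 1 1 * a 1 2 1 - a 0 2 1 * a 1 1 1 + a 1 1 1 * a 1 2 2 - a 1 1 2 * a 1 2 1 - a 1 1 3 * a 2 2 1 + a 1 2 1 * a 1 2 3 = 0 := by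
  have h := hE 1 2 1 1
  simp only [hf, Pi.single_apply, hs 1 0, hs 2 0, hs 2 1, Fin.succ_zero_eq_one,
    Fin.succ_one_eq_two] at h
  norm_num [Fin.ext_iff] at h
  linear_combination h

lemma e2322 {a : Fin 3 → Fin 3 → Fin 4 → R} (hs : ∀ i j, a i j = a j i)
    (hE : ∀ m j i l, hf a m j i l = hf a m i j l) :
    a 0 1 2 * a 1 2 1 - a 0 2 2 * a 1 1 1 - a 1 1 3 * a 2 2 2 + a 1 2 2 * a 1 2 3 + a 1 2 0 = 0 := by
  have h := hE 1 2 1 2
  simp only [hf, Pi.single_apply, hs 1 0, hs 2 0, hs 2 1, Fin.succ_zero_eq_one,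
    Fin.succ_one_eq_two] at h
  norm_num [Fin.ext_iff] at h
  linear_combination h

lemma e2323 {a : Fin 3 → Fin 3 → Fin 4 → R} (hs : ∀ i j, a i j = a j i)
    (hE : ∀ m j i l, hf a m j i l = hf a m i j l) :
    a 0 1 3 * a 1 2 1 - a 0 2 3 * a 1 1 1 - a 1 1 2 * a 1 2 3 + a 1 1 3 * a 1 2 2 - a 1 1 3 * a 2 2 3 + a 1 2 3 * a 1 2 3 - a 1 1 0 = 0 := by
  have h := hE 1 2 1 3
  simp only [hf, Pi.single_apply, hs 1 0, hs 2 0, hs 2 1, Fin.succ_zero_eq_one,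
    Fin.succ_one_eq_two] at h
  norm_num [Fin.ext_iff] at h
  linear_combination h

lemma e3210 {a : Fin 3 → Fin 3 → Fin 4 → R} (hs : ∀ i j, a i j = a j i)
    (hE : ∀ m j i l, hf a m j i l = hf a m i j l) :
    a 0 0 0 * a 1 2 1 - a 0 1 0 * a 0 2 1 + a 0 1 0 * a 1 2 2 + a 0 2 0 * a 1 2 3 - a 0 2 2 * a 1 1 0 - a 0 2 3 * a 1 2 0 = 0 := by
  have h := hE 2 1 0 0
  simp only [hf, Pi.single_apply, hs 1 0, hs 2 0, hs 2 1, Fin.succ_zero_eq_one,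
    Fin.succ_one_eq_two] at h
  norm_num [Fin.ext_iff] at h
  linear_combination h

lemma e3211 {a : Fin 3 → Fin 3 → Fin 4 → R} (hs : ∀ i j, a i j = a j i)
    (hE : ∀ m j i l, hf a m j i l = hf a m i j l) :
    a 0 0 1 * a 1 2 1 - a 0 1 1 * a 0 2 1 + a 0 1 1 * a 1 2 2 + a 0 2 1 * a 1 2 3 - a 0 2 2 * a 1 1 1 - a 0 2 3 * a 1 2 1 + a 1 2 0 = 0 := by
  have h := hE 2 1 0 1
  simp only [hf, Pi.single_apply, hs 1 0, hs 2 0, hs 2 1, Fin.succ_zero_eq_one,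
    Fin.succ_one_eq_two] at h
  norm_num [Fin.ext_iff] at h
  linear_combination h

lemma e3212 {a : Fin 3 → Fin 3 → Fin 4 → R} (hs : ∀ i j, a i j = a j i)
    (hE : ∀ m j i l, hf a m j i l = hf a m i j l) :
    a 0 0 2 * a 1 2 1 - a 0 1 2 * a 0 2 1 + a 0 1 2 * a 1 2 2 - a 0 2 2 * a 1 1 2 + a 0 2 2 * a 1 2 3 - a 0 2 3 * a 1 2 2 - a 0 2 0 = 0 := by
  have h := hE 2 1 0 2
  simp only [hf, Pi.single_apply, hs 1 0, hs 2 0, hs 2 1, Fin.succ_zero_eq_one,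
    Fin.succ_one_eq_two] at h
  norm_num [Fin.ext_iff] at h
  linear_combination h

lemma e3213 {a : Fin 3 → Fin 3 → Fin 4 → R} (hs : ∀ i j, a i j = a j i)
    (hE : ∀ m j i l, hf a m j i l = hf a m i j l) :
    a 0 0 3 * a 1 2 1 - a 0 1 3 * a 0 2 1 + a 0 1 3 * a 1 2 2 - a 0 2 2 * a 1 1 3 = 0 := by
  have h := hE 2 1 0 3
  simp only [hf, Pi.single_apply, hs 1 0, hs 2 0, hs 2 1, Fin.succ_zero_eq_one,
    Fin.succ_one_eq_two] at h
  norm_num [Fin.ext_iff] at h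
  linear_combination h

lemma e3310 {a : Fin 3 → Fin 3 → Fin 4 → R} (hs : ∀ i j, a i j = a j i)
    (hE : ∀ m j i l, hf a m j i l = hf a m i j l) :
    a 0 0 0 * a 2 2 1 + a 0 1 0 * a 2 2 2 - a 0 2 0 * a 0 2 1 + a 0 2 0 * a 2 2 3 - a 0 2 2 * a 1 2 0 - a 0 2 3 * a 2 2 0 = 0 := by
  have h := hE 2 2 0 0
  simp only [hf, Pi.single_apply, hs 1 0, hs 2 0, hs 2 1, Fin.succ_zero_eq_one,
    Fin.succ_one_eq_two] at h
  norm_num [Fin.ext_iff] at h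
  linear_combination h

lemma e3311 {a : Fin 3 → Fin 3 → Fin 4 → R} (hs : ∀ i j, a i j = a j i)
    (hE : ∀ m j i l, hf a m j i l = hf a m i j l) :
    a 0 0 1 * a 2 2 1 + a 0 1 1 * a 2 2 2 - a 0 2 1 * a 0 2 1 + a 0 2 1 * a 2 2 3 - a 0 2 2 * a 1 2 1 - a 0 2 3 * a 2 2 1 + a 2 2 0 = 0 := by
  have h := hE 2 2 0 1
  simp only [hf, Pi.single_apply, hs 1 0, hs 2 0, hs 2 1, Fin.succ_zero_eq_one,
    Fin.succ_one_eq_two] at h
  norm_num [Fin.ext_iff] at h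
  linear_combination h

lemma e3312 {a : Fin 3 → Fin 3 → Fin 4 → R} (hs : ∀ i j, a i j = a j i)
    (hE : ∀ m j i l, hf a m j i l = hf a m i j l) :
    a 0 0 2 * a 2 2 1 + a 0 1 2 * a 2 2 2 - a 0 2 1 * a 0 2 2 - a 0 2 2 * a 1 2 2 + a 0 2 2 * a 2 2 3 - a 0 2 3 * a 2 2 2 = 0 := by
  have h := hE 2 2 0 2
  simp only [hf, Pi.single_apply, hs 1 0, hs 2 0, hs 2 1, Fin.succ_zero_eq_one,
    Fin.succ_one_eq_two] at h
  norm_num [Fin.ext_iff] at h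
  linear_combination h

lemma e3313 {a : Fin 3 → Fin 3 → Fin 4 → R} (hs : ∀ i j, a i j = a j i)
    (hE : ∀ m j i l, hf a m j i l = hf a m i j l) :
    a 0 0 3 * a 2 2 1 + a 0 1 3 * a 2 2 2 - a 0 2 1 * a 0 2 3 - a 0 2 2 * a 1 2 3 - a 0 2 0 = 0 := by
  have h := hE 2 2 0 3
  simp only [hf, Pi.single_apply, hs 1 0, hs 2 0, hs 2 1, Fin.succ_zero_eq_one,
    Fin.succ_one_eq_two] at h
  norm_num [Fin.ext_iff] at h
  linear_combination h

lemma e3320 {a : Fin 3 → Fin 3 → Fin 4 → R} (hs : ∀ i j, a i j = a j i)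
    (hE : ∀ m j i l, hf a m j i l = hf a m i j l) :
    a 0 1 0 * a 2 2 1 - a 0 2 0 * a 1 2 1 + a 1 1 0 * a 2 2 2 - a 1 2 0 * a 1 2 2 + a 1 2 0 * a 2 2 3 - a 1 2 3 * a 2 2 0 = 0 := by
  have h := hE 2 2 1 0
  simp only [hf, Pi.single_apply, hs 1 0, hs 2 0, hs 2 1, Fin.succ_zero_eq_one,
    Fin.succ_one_eq_two] at h
  norm_num [Fin.ext_iff] at h
  linear_combination h

lemma e3321 {a : Fin 3 → Fin 3 → Fin 4 → R} (hs : ∀ i j, a i j = a j i)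
    (hE : ∀ m j i l, hf a m j i l = hf a m i j l) :
    a 0 1 1 * a 2 2 1 - a 0 2 1 * a 1 2 1 + a 1 1 1 * a 2 2 2 - a 1 2 1 * a 1 2 2 + a 1 2 1 * a 2 2 3 - a 1 2 3 * a 2 2 1 = 0 := by
  have h := hE 2 2 1 1
  simp only [hf, Pi.single_apply, hs 1 0, hs 2 0, hs 2 1, Fin.succ_zero_eq_one,
    Fin.succ_one_eq_two] at h
  norm_num [Fin.ext_iff] at h
  linear_combination h

lemma e3322 {a : Fin 3 → Fin 3 → Fin 4 → R} (hs : ∀ i j, a i j = a j i)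
    (hE : ∀ m j i l, hf a m j i l = hf a m i j l) :
    a 0 1 2 * a 2 2 1 - a 0 2 2 * a 1 2 1 + a 1 1 2 * a 2 2 2 - a 1 2 2 * a 1 2 2 + a 1 2 2 * a 2 2 3 - a 1 2 3 * a 2 2 2 + a 2 2 0 = 0 := by
  have h := hE 2 2 1 2
  simp only [hf, Pi.single_apply, hs 1 0, hs 2 0, hs 2 1, Fin.succ_zero_eq_one,
    Fin.succ_one_eq_two] at h
  norm_num [Fin.ext_iff] at h
  linear_combination h

lemma e3323 {a : Fin 3 → Fin 3 → Fin 4 → R} (hs : ∀ i j, a i j = a j i)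
    (hE : ∀ m j i l, hf a m j i l = hf a m i j l) :
    a 0 1 3 * a 2 2 1 - a 0 2 3 * a 1 2 1 + a 1 1 3 * a 2 2 2 - a 1 2 2 * a 1 2 3 - a 1 2 0 = 0 := by
  have h := hE 2 2 1 3
  simp only [hf, Pi.single_apply, hs 1 0, hs 2 0, hs 2 1, Fin.succ_zero_eq_one,
    Fin.succ_one_eq_two] at h
  norm_num [Fin.ext_iff] at h
  linear_combination h

lemma plRel_A {a : Fin 3 → Fin 3 → Fin 4 → R} (hs : ∀ i j, a i j = a j i)
    (hE : ∀ m j i l, hf a m j i l = hf a m i j l) (n : Fin 15) :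
    plRel (tA a) (uA a) n = 0 := by
  fin_cases n <;> simp only [plRel, tA, uA, Fin.zero_eta, Fin.isValue, Matrix.cons_val,
    Matrix.cons_val_zero, Matrix.cons_val_one, Fin.mk_one, Fin.reduceFinMk]
  · linear_combination (-1) * e1211 hs hE + (-1) * e2212 hs hE
  · linear_combination (-1) * e2312 hs hE
  · linear_combination (1) * e1321 hs hE
  · linear_combination (-1) * e1213 hs hE
  · linear_combination (-1) * e2213 hs hE
  · linear_combination (-1) * e1323 hs hE + (1) * e2212 hs hE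
  · linear_combination (1) * e1312 hs hE
  · linear_combination (-1) * e1311 hs hE + (1) * e1322 hs hE + (-1) * e2312 hs hE
  · linear_combination (-1) * e3312 hs hE
  · linear_combination (1) * e1212 hs hE + (-1) * e1313 hs hE
  · linear_combination (-1) * e1321 hs hE + (1) * e2311 hs hE + (-1) * e2322 hs hE
  · linear_combination (1) * e2321 hs hE
  · linear_combination (1) * e3321 hs hE
  · linear_combination (1) * e2211 hs hE + (1) * e2323 hs hE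
  · linear_combination (-1) * e3311 hs hE + (1) * e3322 hs hE

lemma MtA_0_0_1 {a : Fin 3 → Fin 3 → Fin 4 → R} (hs : ∀ i j, a i j = a j i)
    (hE : ∀ m j i l, hf a m j i l = hf a m i j l) :
    Mt (tA a) (uA a) (τA a) 0 0 1 = a 0 0 0 := by
  rw [Mt_0_0_1]
  simp only [tA, uA, τA, Fin.isValue, Matrix.cons_val, Matrix.cons_val_zero, Matrix.cons_val_one]
  linear_combination (1) * e1212 hs hE

lemma MtA_0_1_1 {a : Fin 3 → Fin 3 → Fin 4 → R} (hs : ∀ i j, a i j = a j i)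
    (hE : ∀ m j i l, hf a m j i l = hf a m i j l) :
    Mt (tA a) (uA a) (τA a) 0 1 1 = a 0 0 1 := by
  rw [Mt_0_1_1]
  simp only [tA, uA, τA, Fin.isValue, Matrix.cons_val, Matrix.cons_val_zero, Matrix.cons_val_one]
  all_goals ring

lemma MtA_0_2_1 {a : Fin 3 → Fin 3 → Fin 4 → R} (hs : ∀ i j, a i j = a j i)
    (hE : ∀ m j i l, hf a m j i l = hf a m i j l) :
    Mt (tA a) (uA a) (τA a) 0 2 1 = a 0 0 2 := by
  rw [Mt_0_2_1]
  simp only [tA, uA, τA, Fin.isValue, Matrix.cons_val, Matrix.cons_val_zero, Matrix.cons_val_one]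
  all_goals ring

lemma MtA_0_3_1 {a : Fin 3 → Fin 3 → Fin 4 → R} (hs : ∀ i j, a i j = a j i)
    (hE : ∀ m j i l, hf a m j i l = hf a m i j l) :
    Mt (tA a) (uA a) (τA a) 0 3 1 = a 0 0 3 := by
  rw [Mt_0_3_1]
  simp only [tA, uA, τA, Fin.isValue, Matrix.cons_val, Matrix.cons_val_zero, Matrix.cons_val_one]
  all_goals ring

lemma MtA_0_0_2 {a : Fin 3 → Fin 3 → Fin 4 → R} (hs : ∀ i j, a i j = a j i)
    (hE : ∀ m j i l, hf a m j i l = hf a m i j l) :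
    Mt (tA a) (uA a) (τA a) 0 0 2 = a 0 1 0 := by
  rw [Mt_0_0_2]
  simp only [tA, uA, τA, Fin.isValue, Matrix.cons_val, Matrix.cons_val_zero, Matrix.cons_val_one]
  linear_combination (-1) * e1211 hs hE

lemma MtA_0_1_2 {a : Fin 3 → Fin 3 → Fin 4 → R} (hs : ∀ i j, a i j = a j i)
    (hE : ∀ m j i l, hf a m j i l = hf a m i j l) :
    Mt (tA a) (uA a) (τA a) 0 1 2 = a 0 1 1 := by
  rw [Mt_0_1_2]
  simp only [tA, uA, τA, Fin.isValue, Matrix.cons_val, Matrix.cons_val_zero, Matrix.cons_val_one]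
  all_goals ring

lemma MtA_0_2_2 {a : Fin 3 → Fin 3 → Fin 4 → R} (hs : ∀ i j, a i j = a j i)
    (hE : ∀ m j i l, hf a m j i l = hf a m i j l) :
    Mt (tA a) (uA a) (τA a) 0 2 2 = a 0 1 2 := by
  rw [Mt_0_2_2]
  simp only [tA, uA, τA, Fin.isValue, Matrix.cons_val, Matrix.cons_val_zero, Matrix.cons_val_one]
  all_goals ring

lemma MtA_0_3_2 {a : Fin 3 → Fin 3 → Fin 4 → R} (hs : ∀ i j, a i j = a j i)
    (hE : ∀ m j i l, hf a m j i l = hf a m i j l) :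
    Mt (tA a) (uA a) (τA a) 0 3 2 = a 0 1 3 := by
  rw [Mt_0_3_2]
  simp only [tA, uA, τA, Fin.isValue, Matrix.cons_val, Matrix.cons_val_zero, Matrix.cons_val_one]
  all_goals ring

lemma MtA_0_0_3 {a : Fin 3 → Fin 3 → Fin 4 → R} (hs : ∀ i j, a i j = a j i)
    (hE : ∀ m j i l, hf a m j i l = hf a m i j l) :
    Mt (tA a) (uA a) (τA a) 0 0 3 = a 0 2 0 := by
  rw [Mt_0_0_3]
  simp only [tA, uA, τA, Fin.isValue, Matrix.cons_val, Matrix.cons_val_zero, Matrix.cons_val_one]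
  linear_combination (-1) * e1311 hs hE

lemma MtA_0_1_3 {a : Fin 3 → Fin 3 → Fin 4 → R} (hs : ∀ i j, a i j = a j i)
    (hE : ∀ m j i l, hf a m j i l = hf a m i j l) :
    Mt (tA a) (uA a) (τA a) 0 1 3 = a 0 2 1 := by
  rw [Mt_0_1_3]
  simp only [tA, uA, τA, Fin.isValue, Matrix.cons_val, Matrix.cons_val_zero, Matrix.cons_val_one]
  all_goals ring

lemma MtA_0_2_3 {a : Fin 3 → Fin 3 → Fin 4 → R} (hs : ∀ i j, a i j = a j i)
    (hE : ∀ m j i l, hf a m j i l = hf a m i j l) :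
    Mt (tA a) (uA a) (τA a) 0 2 3 = a 0 2 2 := by
  rw [Mt_0_2_3]
  simp only [tA, uA, τA, Fin.isValue, Matrix.cons_val, Matrix.cons_val_zero, Matrix.cons_val_one]
  all_goals ring

lemma MtA_0_3_3 {a : Fin 3 → Fin 3 → Fin 4 → R} (hs : ∀ i j, a i j = a j i)
    (hE : ∀ m j i l, hf a m j i l = hf a m i j l) :
    Mt (tA a) (uA a) (τA a) 0 3 3 = a 0 2 3 := by
  rw [Mt_0_3_3]
  simp only [tA, uA, τA, Fin.isValue, Matrix.cons_val, Matrix.cons_val_zero, Matrix.cons_val_one]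
  all_goals ring

lemma MtA_1_0_2 {a : Fin 3 → Fin 3 → Fin 4 → R} (hs : ∀ i j, a i j = a j i)
    (hE : ∀ m j i l, hf a m j i l = hf a m i j l) :
    Mt (tA a) (uA a) (τA a) 1 0 2 = a 1 1 0 := by
  rw [Mt_1_0_2]
  simp only [tA, uA, τA, Fin.isValue, Matrix.cons_val, Matrix.cons_val_zero, Matrix.cons_val_one]
  linear_combination (-1) * e2211 hs hE

lemma MtA_1_1_2 {a : Fin 3 → Fin 3 → Fin 4 → R} (hs : ∀ i j, a i j = a j i)
    (hE : ∀ m j i l, hf a m j i l = hf a m i j l) :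
    Mt (tA a) (uA a) (τA a) 1 1 2 = a 1 1 1 := by
  rw [Mt_1_1_2]
  simp only [tA, uA, τA, Fin.isValue, Matrix.cons_val, Matrix.cons_val_zero, Matrix.cons_val_one]
  all_goals ring

lemma MtA_1_2_2 {a : Fin 3 → Fin 3 → Fin 4 → R} (hs : ∀ i j, a i j = a j i)
    (hE : ∀ m j i l, hf a m j i l = hf a m i j l) :
    Mt (tA a) (uA a) (τA a) 1 2 2 = a 1 1 2 := by
  rw [Mt_1_2_2]
  simp only [tA, uA, τA, Fin.isValue, Matrix.cons_val, Matrix.cons_val_zero, Matrix.cons_val_one]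
  all_goals ring

lemma MtA_1_3_2 {a : Fin 3 → Fin 3 → Fin 4 → R} (hs : ∀ i j, a i j = a j i)
    (hE : ∀ m j i l, hf a m j i l = hf a m i j l) :
    Mt (tA a) (uA a) (τA a) 1 3 2 = a 1 1 3 := by
  rw [Mt_1_3_2]
  simp only [tA, uA, τA, Fin.isValue, Matrix.cons_val, Matrix.cons_val_zero, Matrix.cons_val_one]
  all_goals ring

lemma MtA_1_0_3 {a : Fin 3 → Fin 3 → Fin 4 → R} (hs : ∀ i j, a i j = a j i)
    (hE : ∀ m j i l, hf a m j i l = hf a m i j l) :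
    Mt (tA a) (uA a) (τA a) 1 0 3 = a 1 2 0 := by
  rw [Mt_1_0_3]
  simp only [tA, uA, τA, Fin.isValue, Matrix.cons_val, Matrix.cons_val_zero, Matrix.cons_val_one]
  linear_combination (1) * e1321 hs hE + (-1) * e2311 hs hE

lemma MtA_1_1_3 {a : Fin 3 → Fin 3 → Fin 4 → R} (hs : ∀ i j, a i j = a j i)
    (hE : ∀ m j i l, hf a m j i l = hf a m i j l) :
    Mt (tA a) (uA a) (τA a) 1 1 3 = a 1 2 1 := by
  rw [Mt_1_1_3]
  simp only [tA, uA, τA, Fin.isValue, Matrix.cons_val, Matrix.cons_val_zero, Matrix.cons_val_one]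
  all_goals ring

lemma MtA_1_2_3 {a : Fin 3 → Fin 3 → Fin 4 → R} (hs : ∀ i j, a i j = a j i)
    (hE : ∀ m j i l, hf a m j i l = hf a m i j l) :
    Mt (tA a) (uA a) (τA a) 1 2 3 = a 1 2 2 := by
  rw [Mt_1_2_3]
  simp only [tA, uA, τA, Fin.isValue, Matrix.cons_val, Matrix.cons_val_zero, Matrix.cons_val_one]
  all_goals ring

lemma MtA_1_3_3 {a : Fin 3 → Fin 3 → Fin 4 → R} (hs : ∀ i j, a i j = a j i)
    (hE : ∀ m j i l, hf a m j i l = hf a m i j l) :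
    Mt (tA a) (uA a) (τA a) 1 3 3 = a 1 2 3 := by
  rw [Mt_1_3_3]
  simp only [tA, uA, τA, Fin.isValue, Matrix.cons_val, Matrix.cons_val_zero, Matrix.cons_val_one]
  all_goals ring

lemma MtA_2_0_3 {a : Fin 3 → Fin 3 → Fin 4 → R} (hs : ∀ i j, a i j = a j i)
    (hE : ∀ m j i l, hf a m j i l = hf a m i j l) :
    Mt (tA a) (uA a) (τA a) 2 0 3 = a 2 2 0 := by
  rw [Mt_2_0_3]
  simp only [tA, uA, τA, Fin.isValue, Matrix.cons_val, Matrix.cons_val_zero, Matrix.cons_val_one]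
  linear_combination (-1) * e3311 hs hE

lemma MtA_2_1_3 {a : Fin 3 → Fin 3 → Fin 4 → R} (hs : ∀ i j, a i j = a j i)
    (hE : ∀ m j i l, hf a m j i l = hf a m i j l) :
    Mt (tA a) (uA a) (τA a) 2 1 3 = a 2 2 1 := by
  rw [Mt_2_1_3]
  simp only [tA, uA, τA, Fin.isValue, Matrix.cons_val, Matrix.cons_val_zero, Matrix.cons_val_one]
  all_goals ring

lemma MtA_2_2_3 {a : Fin 3 → Fin 3 → Fin 4 → R} (hs : ∀ i j, a i j = a j i)
    (hE : ∀ m j i l, hf a m j i l = hf a m i j l) :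
    Mt (tA a) (uA a) (τA a) 2 2 3 = a 2 2 2 := by
  rw [Mt_2_2_3]
  simp only [tA, uA, τA, Fin.isValue, Matrix.cons_val, Matrix.cons_val_zero, Matrix.cons_val_one]
  all_goals ring

lemma MtA_2_3_3 {a : Fin 3 → Fin 3 → Fin 4 → R} (hs : ∀ i j, a i j = a j i)
    (hE : ∀ m j i l, hf a m j i l = hf a m i j l) :
    Mt (tA a) (uA a) (τA a) 2 3 3 = a 2 2 3 := by
  rw [Mt_2_3_3]
  simp only [tA, uA, τA, Fin.isValue, Matrix.cons_val, Matrix.cons_val_zero, Matrix.cons_val_one]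
  all_goals ring

end ring

end D3

end Pool.Agent.H14
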