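import Pool.Agent.H14.D3b

/-!
# The chart ring of `(1, x, y, z)` is a polynomial ring over the Plücker algebra
-/

set_option autoImplicit false
set_option linter.unusedSimpArgs false

open MvPolynomial Matrix

namespace Pool.Agent.H14

namespace D3

variable {k : Type} [CommRing k]

/-- the functions `1, x, y, z` -/
noncomputable def b3 (k : Type) [CommRing k] : Fin 4 → MvPolynomial (Fin 3) k :=
  ![1, X 0, X 1, X 2]

lemma b3_succ (i : Fin 3) : b3 k i.succ = X i := by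
  fin_cases i <;> rfl

section

variable {R : Type} [CommRing R] [Algebra k R]

lemma Mt_col (t : Fin 9 → R) (u : Fin 6 → R) (τ : Fin 3 → R) (i : Fin 3) :
    (Mt t u τ i).mulVec (Pi.single 0 1) = Pi.single i.succ 1 := by
  ext l
  rw [Matrix.mulVec_single_one, Matrix.col_apply]
  fin_cases i <;> fin_cases l <;>
    simp only [Fin.zero_eta, Fin.mk_one, Fin.reduceFinMk, Mt_0_0_0, Mt_0_1_0, Mt_0_2_0, Mt_0_3_0,
      Mt_1_0_0, Mt_1_1_0, Mt_1_2_0, Mt_1_3_0, Mt_2_0_0, Mt_2_1_0, Mt_2_2_0, Mt_2_3_0] <;>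
    simp [Pi.single_apply, Fin.ext_iff]

/-- the chart datum with given parameters -/
noncomputable def chartOf (t : Fin 9 → R) (u : Fin 6 → R) (τ : Fin 3 → R)
    (h : ∀ i, plRel t u i = 0) : Chart k (b3 k) R :=
  Chart.ofMat (b3 k) (Mt t u τ) (Mt_comm t u τ h) (Pi.single 0 1) (by
    intro i
    induction i using Fin.cases with
    | zero => rw [show b3 k 0 = 1 from rfl, map_one, Matrix.one_mulVec]
    | succ i => rw [b3_succ, matEval_X, Mt_col])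

lemma chartOf_q1 (t : Fin 9 → R) (u : Fin 6 → R) (τ : Fin 3 → R)
    (h : ∀ i, plRel t u i = 0) (i : Fin 3) : (chartOf (k := k) t u τ h).q (X i) =
      Pi.single i.succ 1 := by
  rw [← b3_succ]
  exact (chartOf t u τ h).q_b _

lemma chartOf_q2 (t : Fin 9 → R) (u : Fin 6 → R) (τ : Fin 3 → R)
    (h : ∀ i, plRel t u i = 0) (i j : Fin 3) (l : Fin 4) :
    (chartOf (k := k) t u τ h).q (X i * X j) l = Mt t u τ i l j.succ := by
  rw [chartOf, Chart.ofMat_q, map_mul, matEval_X, matEval_X, ← Matrix.mulVec_mulVec, Mt_col,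
    Matrix.mulVec_single_one, Matrix.col_apply]

/-- the structure constants -/
noncomputable def aC (c : Chart k (b3 k) R) (i j : Fin 3) (l : Fin 4) : R := c.q (X i * X j) l

lemma aC_symm (c : Chart k (b3 k) R) (i j : Fin 3) : aC c i j = aC c j i := by
  ext l
  rw [aC, aC, mul_comm]

lemma q_X (c : Chart k (b3 k) R) (i : Fin 3) : c.q (X i) = Pi.single i.succ 1 := by
  rw [← b3_succ]
  exact c.q_b _

lemma aC_hf (c : Chart k (b3 k) R) (m j i : Fin 3) (l : Fin 4) :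
    hf (aC c) m j i l = c.q (X m * X j * X i) l := by
  rw [c.q_mul, Finset.sum_apply, Fin.sum_univ_four, hf]
  simp only [Pi.smul_apply, smul_eq_mul]
  rw [show b3 k 0 = 1 from rfl, show b3 k 1 = X 0 from rfl, show b3 k 2 = X 1 from rfl,
    show b3 k 3 = X 2 from rfl, one_mul, q_X]
  rfl

lemma aC_assoc (c : Chart k (b3 k) R) (m j i : Fin 3) (l : Fin 4) :
    hf (aC c) m j i l = hf (aC c) m i j l := by
  rw [aC_hf, aC_hf, mul_right_comm]

lemma plRel_aC (c : Chart k (b3 k) R) (n : Fin 15) : plRel (tA (aC c)) (uA (aC c)) n = 0 :=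
  plRel_A (aC_symm c) (aC_assoc c) n

/-- a chart datum is determined by its parameters -/
lemma chartOf_aC (c : Chart k (b3 k) R) :
    chartOf (tA (aC c)) (uA (aC c)) (τA (aC c)) (plRel_aC c) = c := by
  have hs := aC_symm c
  have hE := aC_assoc c
  have key : ∀ i j : Fin 3, i ≤ j → ∀ l, (chartOf (k := k) (tA (aC c)) (uA (aC c)) (τA (aC c))
      (plRel_aC c)).q (X i * X j) l = c.q (X i * X j) l := by
    intro i j hij l
    rw [chartOf_q2]
    change _ = aC c i j l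
    fin_cases i <;> fin_cases j <;> first | exact absurd hij (by decide) | fin_cases l
    · exact MtA_0_0_1 hs hE
    · exact MtA_0_1_1 hs hE
    · exact MtA_0_2_1 hs hE
    · exact MtA_0_3_1 hs hE
    · exact MtA_0_0_2 hs hE
    · exact MtA_0_1_2 hs hE
    · exact MtA_0_2_2 hs hE
    · exact MtA_0_3_2 hs hE
    · exact MtA_0_0_3 hs hE
    · exact MtA_0_1_3 hs hE
    · exact MtA_0_2_3 hs hE
    · exact MtA_0_3_3 hs hE
    · exact MtA_1_0_2 hs hE
    · exact MtA_1_1_2 hs hE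
    · exact MtA_1_2_2 hs hE
    · exact MtA_1_3_2 hs hE
    · exact MtA_1_0_3 hs hE
    · exact MtA_1_1_3 hs hE
    · exact MtA_1_2_3 hs hE
    · exact MtA_1_3_3 hs hE
    · exact MtA_2_0_3 hs hE
    · exact MtA_2_1_3 hs hE
    · exact MtA_2_2_3 hs hE
    · exact MtA_2_3_3 hs hE
  apply Chart.ext_of
  · exact (Chart.q_b _ 0).trans (c.q_b 0).symm
  · intro i j
    induction j using Fin.cases with
    | zero =>
      rw [show b3 k 0 = 1 from rfl, one_mul, q_X, q_X]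
    | succ j =>
      rw [b3_succ]
      ext l
      rcases le_total j i with h | h
      · exact key j i h l
      · rw [mul_comm]; exact key i j h l

/-- the parameters of a chart datum with given parameters -/
lemma tA_chartOf (t : Fin 9 → R) (u : Fin 6 → R) (τ : Fin 3 → R) (h : ∀ i, plRel t u i = 0) :
    tA (aC (chartOf (k := k) t u τ h)) = t := by
  funext i
  fin_cases i <;> simp only [tA, aC, chartOf_q2, Fin.zero_eta, Fin.isValue, Matrix.cons_val,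
    Matrix.cons_val_zero, Matrix.cons_val_one, Fin.mk_one, Fin.reduceFinMk, Mt_0_0_0, Mt_0_0_1, Mt_0_0_2, Mt_0_0_3, Mt_0_1_0, Mt_0_1_1, Mt_0_1_2, Mt_0_1_3, Mt_0_2_0, Mt_0_2_1, Mt_0_2_2, Mt_0_2_3, Mt_0_3_0, Mt_0_3_1, Mt_0_3_2, Mt_0_3_3, Mt_1_0_0, Mt_1_0_1, Mt_1_0_2, Mt_1_0_3, Mt_1_1_0, Mt_1_1_1, Mt_1_1_2, Mt_1_1_3, Mt_1_2_0, Mt_1_2_1, Mt_1_2_2, Mt_1_2_3, Mt_1_3_0, Mt_1_3_1, Mt_1_3_2, Mt_1_3_3, Mt_2_0_0, Mt_2_0_1, Mt_2_0_2, Mt_2_0_3, Mt_2_1_0, Mt_2_1_1, Mt_2_1_2, Mt_2_1_3, Mt_2_2_0, Mt_2_2_1, Mt_2_2_2, Mt_2_2_3, Mt_2_3_0, Mt_2_3_1, Mt_2_3_2, Mt_2_3_3,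
    Fin.succ_zero_eq_one, Fin.succ_one_eq_two, Fin.reduceSucc]
  all_goals ring

lemma uA_chartOf (t : Fin 9 → R) (u : Fin 6 → R) (τ : Fin 3 → R) (h : ∀ i, plRel t u i = 0) :
    uA (aC (chartOf (k := k) t u τ h)) = u := by
  funext i
  fin_cases i <;> simp only [uA, aC, chartOf_q2, Fin.zero_eta, Fin.isValue, Matrix.cons_val,
    Matrix.cons_val_zero, Matrix.cons_val_one, Fin.mk_one, Fin.reduceFinMk, Mt_0_0_0, Mt_0_0_1, Mt_0_0_2, Mt_0_0_3, Mt_0_1_0, Mt_0_1_1, Mt_0_1_2, Mt_0_1_3, Mt_0_2_0, Mt_0_2_1, Mt_0_2_2, Mt_0_2_3, Mt_0_3_0, Mt_0_3_1, Mt_0_3_2, Mt_0_3_3, Mt_1_0_0, Mt_1_0_1, Mt_1_0_2, Mt_1_0_3, Mt_1_1_0, Mt_1_1_1, Mt_1_1_2, Mt_1_1_3, Mt_1_2_0, Mt_1_2_1, Mt_1_2_2, Mt_1_2_3, Mt_1_3_0, Mt_1_3_1, Mt_1_3_2, Mt_1_3_3, Mt_2_0_0, Mt_2_0_1, Mt_2_0_2, Mt_2_0_3, Mt_2_1_0, Mt_2_1_1, Mt_2_1_2, Mt_2_1_3, Mt_2_2_0, Mt_2_2_1, Mt_2_2_2, Mt_2_2_3, Mt_2_3_0, Mt_2_3_1, Mt_2_3_2, Mt_2_3_3,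
    Fin.succ_zero_eq_one, Fin.succ_one_eq_two, Fin.reduceSucc]
  all_goals ring

lemma τA_chartOf (t : Fin 9 → R) (u : Fin 6 → R) (τ : Fin 3 → R) (h : ∀ i, plRel t u i = 0) :
    τA (aC (chartOf (k := k) t u τ h)) = τ := by
  funext i
  fin_cases i <;> simp only [τA, aC, chartOf_q2, Fin.zero_eta, Fin.isValue, Matrix.cons_val,
    Matrix.cons_val_zero, Matrix.cons_val_one, Fin.mk_one, Fin.reduceFinMk, Mt_0_0_0, Mt_0_0_1, Mt_0_0_2, Mt_0_0_3, Mt_0_1_0, Mt_0_1_1, Mt_0_1_2, Mt_0_1_3, Mt_0_2_0, Mt_0_2_1, Mt_0_2_2, Mt_0_2_3, Mt_0_3_0, Mt_0_3_1, Mt_0_3_2, Mt_0_3_3, Mt_1_0_0, Mt_1_0_1, Mt_1_0_2, Mt_1_0_3, Mt_1_1_0, Mt_1_1_1, Mt_1_1_2, Mt_1_1_3, Mt_1_2_0, Mt_1_2_1, Mt_1_2_2, Mt_1_2_3, Mt_1_3_0, Mt_1_3_1, Mt_1_3_2, Mt_1_3_3, Mt_2_0_0, Mt_2_0_1, Mt_2_0_2, Mt_2_0_3, Mt_2_1_0, Mt_2_1_1, Mt_2_1_2, Mt_2_1_3, Mt_2_2_0, Mt_2_2_1, Mt_2_2_2, Mt_2_2_3, Mt_2_3_0, Mt_2_3_1, Mt_2_3_2, Mt_2_3_3,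
    Fin.succ_zero_eq_one, Fin.succ_one_eq_two, Fin.reduceSucc]

variable {R' : Type} [CommRing R'] [Algebra k R']

lemma aC_map (c : Chart k (b3 k) R) (φ : R →ₐ[k] R') (i j : Fin 3) (l : Fin 4) :
    aC (c.map φ) i j l = φ (aC c i j l) := rfl

lemma tA_map (c : Chart k (b3 k) R) (φ : R →ₐ[k] R') (i : Fin 9) :
    tA (aC (c.map φ)) i = φ (tA (aC c) i) := by
  fin_cases i <;> simp [tA, aC_map]

lemma uA_map (c : Chart k (b3 k) R) (φ : R →ₐ[k] R') (i : Fin 6) :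
    uA (aC (c.map φ)) i = φ (uA (aC c) i) := by
  fin_cases i <;> simp [uA, aC_map]

lemma τA_map (c : Chart k (b3 k) R) (φ : R →ₐ[k] R') (i : Fin 3) :
    τA (aC (c.map φ)) i = φ (τA (aC c) i) := by
  fin_cases i <;> simp [τA, aC_map]

lemma chart_ext_params {c c' : Chart k (b3 k) R} (ht : tA (aC c) = tA (aC c'))
    (hu : uA (aC c) = uA (aC c')) (hτ : τA (aC c) = τA (aC c')) : c = c' := by
  rw [← chartOf_aC c, ← chartOf_aC c']
  congr 1

end

variable (k)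

/-- the polynomial ring in three variables over the Plücker algebra -/
abbrev T3 : Type := MvPolynomial (Fin 3) (Pl k)

/-- the chart datum over the polynomial ring -/
noncomputable def cT : Chart k (b3 k) (T3 k) :=
  chartOf (fun i => C (tP k i)) (fun i => C (uP k i)) X (fun i => by
    have := plRel_map (C : Pl k →+* T3 k) (tP k) (uP k) i
    rw [plRel_P, map_zero] at this
    exact this.symm)

/-- the map to the chart ring -/
noncomputable def toCh : T3 k →ₐ[k] ChartRing k (b3 k) :=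
  aevalTower (Pl.lift (tA (aC (univChart k (b3 k)))) (uA (aC (univChart k (b3 k))))
    (plRel_aC _)) (τA (aC (univChart k (b3 k))))

lemma toCh_t (i : Fin 9) : toCh k (C (tP k i)) = tA (aC (univChart k (b3 k))) i := by
  rw [toCh, aevalTower_C, Pl.lift_tP]

lemma toCh_u (i : Fin 6) : toCh k (C (uP k i)) = uA (aC (univChart k (b3 k))) i := by
  rw [toCh, aevalTower_C, Pl.lift_uP]

lemma toCh_X (i : Fin 3) : toCh k (X i) = τA (aC (univChart k (b3 k))) i := by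
  rw [toCh, aevalTower_X]

lemma univ_map_cT : (univChart k (b3 k)).map (cT k).lift = cT k := Chart.map_lift _

/-- the chart ring is a polynomial ring over the Plücker algebra -/
noncomputable def iso : ChartRing k (b3 k) ≃ₐ[k] T3 k :=
  AlgEquiv.ofAlgHom (cT k).lift (toCh k) (by
    apply MvPolynomial.algHom_ext'
    · apply Pl.hom_ext
      · intro i
        change (cT k).lift (toCh k (C (tP k i))) = C (tP k i)
        rw [toCh_t, ← tA_map, univ_map_cT, cT, tA_chartOf]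
      · intro i
        change (cT k).lift (toCh k (C (uP k i))) = C (uP k i)
        rw [toCh_u, ← uA_map, univ_map_cT, cT, uA_chartOf]
    · intro i
      change (cT k).lift (toCh k (X i)) = X i
      rw [toCh_X, ← τA_map, univ_map_cT, cT, τA_chartOf]) (by
    apply chartRing_hom_ext
    rw [← Chart.map_map, univ_map_cT, Chart.map_id]
    apply chart_ext_params
    · funext i
      rw [tA_map, cT, tA_chartOf, toCh_t]
    · funext i
      rw [uA_map, cT, uA_chartOf, toCh_u]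
    · funext i
      rw [τA_map, cT, τA_chartOf, toCh_X])

end D3

end Pool.Agent.H14
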