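import Pool.Agent.H14.SmoothNC
import Pool.Agent.H14.D1
import Pool.Agent.H14.D2
import Pool.Agent.H14.D3c

/-!
# The chart rings of the affine spaces are good bases
-/

set_option autoImplicit false

namespace Pool.Agent.H14

variable (k : Type) [Field k]

theorem goodBase_D1 : GoodBase (ChartRing k (D1.b1 k)) :=
  (goodBase_of_regular (D := MvPolynomial (Fin 4) k)).of_ringEquiv (D1.iso k).symm.toRingEquiv

theorem goodBase_D2 : GoodBase (ChartRing k (D2.b2 k)) :=
  (goodBase_of_regular (D := MvPolynomial (Fin 8) k)).of_ringEquiv (D2.iso k).symm.toRingEquiv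

theorem goodBase_D3 : GoodBase (ChartRing k (D3.b3 k)) :=
  (goodBase_mv (S0 := A9 k) (D := Pl k) 3).of_ringEquiv (D3.iso k).symm.toRingEquiv

end Pool.Agent.H14
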