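import Pool.Agent.H14.OCAlg
import Pool.Agent.H14.HilbDefs

/-!
# Families of closed subschemes of finite length and the Hilbert scheme
-/

set_option autoImplicit false
set_option linter.unusedSectionVars false

open TensorProduct CategoryTheory AlgebraicGeometry Limits

namespace Pool.Agent.H14

section SpecLemmas

/-- the morphism of spectra -/
noncomputable abbrev sp (A B : Type) [CommRing A] [CommRing B] [Algebra A B] :
    Spec (CommRingCat.of B) ⟶ Spec (CommRingCat.of A) :=
  Spec.map (CommRingCat.ofHom (algebraMap A B))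

lemma spec_hom_ext {A : Type} [CommRing A] {W : Scheme.{0}} {u v : W ⟶ Spec (CommRingCat.of A)}
    (h : ((Scheme.ΓSpecIso (CommRingCat.of A)).inv ≫ u.appTop).hom =
      ((Scheme.ΓSpecIso (CommRingCat.of A)).inv ≫ v.appTop).hom) : u = v := by
  apply ext_of_isAffine
  have h1 : (Scheme.ΓSpecIso (CommRingCat.of A)).inv ≫ u.appTop =
      (Scheme.ΓSpecIso (CommRingCat.of A)).inv ≫ v.appTop := CommRingCat.hom_ext h
  exact (cancel_epi _).1 h1

lemma spec_comp_eq {A B : Type} [CommRing A] [CommRing B] [Algebra A B] {W : Scheme.{0}}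
    {u v : W ⟶ Spec (CommRingCat.of B)} (h : u ≫ sp A B = v ≫ sp A B) (x : A) :
    ((Scheme.ΓSpecIso (CommRingCat.of B)).inv ≫ u.appTop).hom (algebraMap A B x) =
      ((Scheme.ΓSpecIso (CommRingCat.of B)).inv ≫ v.appTop).hom (algebraMap A B x) := by
  have key : ∀ w : W ⟶ Spec (CommRingCat.of B),
      CommRingCat.ofHom (algebraMap A B) ≫ (Scheme.ΓSpecIso (CommRingCat.of B)).inv ≫ w.appTop =
        (Scheme.ΓSpecIso (CommRingCat.of A)).inv ≫ (w ≫ sp A B).appTop := by
    intro w
    rw [Scheme.Hom.comp_appTop, Scheme.ΓSpecIso_inv_naturality_assoc]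
  have h1 := key u
  rw [h, ← key v] at h1
  exact DFunLike.congr_fun (congrArg CommRingCat.Hom.hom h1) x

end SpecLemmas

section chart

variable {k : Type} [Field k] {B : Type} [CommRing B] [Algebra k B] {n : ℕ} {b : Fin n → B}
variable {R : Type} [CommRing R] [Algebra k R]

/-- the projection of the family of a chart datum -/
noncomputable abbrev pc (c : Chart k b R) : Spec (CommRingCat.of (OC c)) ⟶ Spec (CommRingCat.of R) :=
  sp R (OC c)

/-- An affine chart of a `k`-scheme: an open immersion `Spec B ⟶ X` over `k`. -/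
structure IsAffChart (k : Type) [Field k] {X : Scheme.{0}} (f : X ⟶ Spec (CommRingCat.of k))
    (B : Type) [CommRing B] [Algebra k B] (i : Spec (CommRingCat.of B) ⟶ X) : Prop where
  isOpenImmersion : IsOpenImmersion i
  w : i ≫ f = sp k B

variable {X : Scheme.{0}} {f : X ⟶ Spec (CommRingCat.of k)} {i : Spec (CommRingCat.of B) ⟶ X}

/-- the map to `X` of the family of a chart datum -/
noncomputable abbrev ac (i : Spec (CommRingCat.of B) ⟶ X) (c : Chart k b R) :
    Spec (CommRingCat.of (OC c)) ⟶ X := sp B (OC c) ≫ i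

lemma chart_w (hi : IsAffChart k f B i) (c : Chart k b R) : ac i c ≫ f = pc c ≫ sp k R := by
  rw [Category.assoc, hi.w, ← Spec.map_comp, ← Spec.map_comp, ← CommRingCat.ofHom_comp,
    ← CommRingCat.ofHom_comp]
  congr 2
  ext a
  exact (algebraMap_comm c a).symm

lemma chart_hom_ext [IsOpenImmersion i] (c : Chart k b R) {W : Scheme.{0}}
    {u v : W ⟶ Spec (CommRingCat.of (OC c))} (h1 : u ≫ pc c = v ≫ pc c)
    (h2 : u ≫ ac i c = v ≫ ac i c) : u = v := by
  apply spec_hom_ext
  rw [← Category.assoc, ← Category.assoc, cancel_mono] at h2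
  exact OC_hom_ext c (spec_comp_eq h1) (spec_comp_eq h2)

lemma isFamily_chart [IsSeparated f] (hi : IsAffChart k f B i) (c : Chart k b R) :
    IsFamily f n (sp k R) (pc c) (ac i c) where
  w := chart_w hi c
  finite := by
    rw [IsFinite.SpecMap_iff]
    exact RingHom.finite_algebraMap.2 inferInstance
  flat := by
    rw [Flat.SpecMap_iff]
    exact RingHom.flat_algebraMap_iff.2 inferInstance
  lfp := by
    rw [LocallyOfFinitePresentation.SpecMap_iff]
    have h1 : Module.FinitePresentation R (OC c) := Module.finitePresentation_of_projective R _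
    have h2 : Algebra.FinitePresentation R (OC c) := inferInstance
    exact RingHom.finitePresentation_algebraMap.2 h2
  rank x := by
    rw [Scheme.Hom.finrank_SpecMap_algebraMap]
    exact rank_OC c x
  closed := by
    have := hi.isOpenImmersion
    rw [IsClosedImmersion.iff_isFinite_and_mono]
    constructor
    · have h1 : IsFinite (pullback.lift (ac i c) (pc c) (chart_w hi c) ≫
          pullback.snd f (sp k R)) := by
        rw [pullback.lift_snd, IsFinite.SpecMap_iff]
        exact RingHom.finite_algebraMap.2 inferInstance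
      exact IsFinite.of_comp _ (pullback.snd f (sp k R))
    · refine ⟨fun {W} u v huv => ?_⟩
      have h1 := congrArg (· ≫ pullback.fst f (sp k R)) huv
      have h2 := congrArg (· ≫ pullback.snd f (sp k R)) huv
      simp only [Category.assoc, pullback.lift_fst, pullback.lift_snd] at h1 h2
      exact chart_hom_ext (i := i) c h2 h1

variable {R' : Type} [CommRing R'] [Algebra k R']

lemma pushout_chart (c : Chart k b R) (φ : R →ₐ[k] R') :
    IsPushout (CommRingCat.ofHom (algebraMap R (OC c))) (CommRingCat.ofHom φ.toRingHom)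
      (CommRingCat.ofHom (gO c φ).toRingHom) (CommRingCat.ofHom (algebraMap R' (OC (c.map φ)))) := by
  have hcomm : ∀ r, gO c φ (algebraMap R (OC c) r) = algebraMap R' (OC (c.map φ)) (φ r) := by
    intro r
    rw [algebraMap_OC_left, gO_mk, algebraMap_OC_left]
    simp
  let _ : Algebra R R' := φ.toRingHom.toAlgebra
  let _ : Algebra (OC c) (OC (c.map φ)) := (gO c φ).toRingHom.toAlgebra
  let _ : Algebra R (OC (c.map φ)) :=
    ((algebraMap R' (OC (c.map φ))).comp φ.toRingHom).toAlgebra
  have : IsScalarTower R R' (OC (c.map φ)) := IsScalarTower.of_algebraMap_eq' rfl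
  have : IsScalarTower R (OC c) (OC (c.map φ)) :=
    IsScalarTower.of_algebraMap_eq (fun r => (hcomm r).symm)
  have h := isPushout_of_basis (basisO c) (basisO (c.map φ)) (fun i => by
    rw [basisO_apply, basisO_apply]
    exact (gO c φ).commutes _)
  exact (CommRingCat.isPushout_of_isPushout R R' (OC c) (OC (c.map φ))).flip

/-- the family of the base change of a chart datum is the pullback of the family -/
lemma isPullback_chart (c : Chart k b R) (φ : R →ₐ[k] R') :
    IsPullback (Spec.map (CommRingCat.ofHom (gO c φ).toRingHom)) (pc (c.map φ)) (pc c)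
      (Spec.map (CommRingCat.ofHom φ.toRingHom)) :=
  isPullback_SpecMap_of_isPushout _ _ _ _ (pushout_chart c φ)

lemma gO_ac (c : Chart k b R) (φ : R →ₐ[k] R') :
    Spec.map (CommRingCat.ofHom (gO c φ).toRingHom) ≫ ac i c = ac i (c.map φ) := by
  rw [← Category.assoc, ← Spec.map_comp, ← CommRingCat.ofHom_comp]
  congr 3
  ext x
  exact (gO c φ).commutes x

/-- a chart datum is determined by its family -/
lemma chart_eq_of_iso [IsOpenImmersion i] (c c' : Chart k b R)
    (θ : Spec (CommRingCat.of (OC c')) ⟶ Spec (CommRingCat.of (OC c)))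
    (h1 : θ ≫ pc c = pc c') (h2 : θ ≫ ac i c = ac i c') : c = c' := by
  obtain ⟨ψ, rfl⟩ : ∃ ψ : OC c →+* OC c', Spec.map (CommRingCat.ofHom ψ) = θ :=
    ⟨(Spec.preimage θ).hom, Spec.map_preimage θ⟩
  rw [← Category.assoc, cancel_mono, ← Spec.map_comp, ← CommRingCat.ofHom_comp] at h2
  rw [← Spec.map_comp, ← CommRingCat.ofHom_comp] at h1
  have h1' : ∀ r, ψ (algebraMap R (OC c) r) = algebraMap R (OC c') r := fun r =>
    DFunLike.congr_fun (congrArg CommRingCat.Hom.hom (Spec.map_injective h1)) r
  have h2' : ∀ r, ψ (algebraMap B (OC c) r) = algebraMap B (OC c') r := fun r =>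
    DFunLike.congr_fun (congrArg CommRingCat.Hom.hom (Spec.map_injective h2)) r
  apply Chart.ext'
  intro x
  have h3 : algebraMap B (OC c) x = ∑ j, algebraMap R (OC c) (c.q x j) *
      algebraMap B (OC c) (b j) := by
    have h4 := (basisO c).sum_repr (algebraMap B (OC c) x)
    rw [← h4]
    refine Finset.sum_congr rfl fun j _ => ?_
    rw [basisO_repr, basisO_apply, Algebra.smul_def]
  have h5 := congrArg ψ h3
  rw [h2', map_sum] at h5
  ext l
  rw [← basisO_repr c' x l, h5]
  simp only [map_mul, h1', h2']
  rw [map_sum, Finsupp.finsetSum_apply]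
  simp only [← Algebra.smul_def, map_smul, Finsupp.smul_apply, basisO_repr, c'.q_b]
  rw [Finset.sum_eq_single l]
  · simp
  · intro j _ hj
    rw [Pi.single_eq_of_ne (Ne.symm hj), smul_zero]
  · simp

end chart

end Pool.Agent.H14
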