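import Pool.Agent.H14.HUniv

/-!
# The chart ring of a finitely generated algebra is finitely generated
-/

set_option autoImplicit false

universe u

namespace Pool.Agent.H14

section
variable {k : Type u} [Field k] {B : Type u} [CommRing B] [Algebra k B] {d : ℕ}

/-- The generators of the chart ring. -/
noncomputable def genFin (b : Fin d → B) (s : Finset B) : Set (ChartRing k b) :=
  (Set.range fun l => (univChart k b).q 1 l) ∪
    ((fun p : B × Fin d × Fin d => (univChart k b).q (b p.2.1 * p.1) p.2.2) ''
      ((s : Set B) ×ˢ (Set.univ : Set (Fin d × Fin d))))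

lemma genFin_finite (b : Fin d → B) (s : Finset B) : (genFin (k := k) b s).Finite := by
  unfold genFin
  exact (Set.finite_range _).union (((s.finite_toSet).prod Set.finite_univ).image _)

lemma q_mem_adjoin (b : Fin d → B) (s : Finset B) (hs : Algebra.adjoin k (s : Set B) = ⊤)
    (x : B) : ∀ y : B, (∀ l, (univChart k b).q y l ∈ Algebra.adjoin k (genFin b s)) →
      ∀ l, (univChart k b).q (y * x) l ∈ Algebra.adjoin k (genFin b s) := by
  have hx : x ∈ Algebra.adjoin k (s : Set B) := hs ▸ Algebra.mem_top
  induction hx using Algebra.adjoin_induction with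
  | mem x hx =>
    intro y hy l
    rw [(univChart k b).q_mul, Finset.sum_apply]
    refine Subalgebra.sum_mem _ fun j _ => ?_
    rw [Pi.smul_apply, smul_eq_mul]
    refine Subalgebra.mul_mem _ (hy j) (Algebra.subset_adjoin (Or.inr ?_))
    exact ⟨(x, j, l), ⟨hx, trivial⟩, rfl⟩
  | algebraMap r =>
    intro y hy l
    rw [mul_comm, ← Algebra.smul_def, map_smul, Pi.smul_apply]
    exact Subalgebra.smul_mem _ (hy l) r
  | add x x' _ _ hx hx' =>
    intro y hy l
    rw [mul_add, map_add, Pi.add_apply]
    exact Subalgebra.add_mem _ (hx y hy l) (hx' y hy l)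
  | mul x x' _ _ hx hx' =>
    intro y hy l
    rw [← mul_assoc]
    exact hx' (y * x) (hx y hy) l

lemma chartRing_finiteType [h : Algebra.FiniteType k B] (b : Fin d → B) :
    Algebra.FiniteType k (ChartRing k b) := by
  classical
  obtain ⟨s, hs⟩ := h.out
  refine ⟨?_⟩
  have htop : Algebra.adjoin k (genFin (k := k) b s) = ⊤ := by
    rw [eq_top_iff]
    rintro z -
    obtain ⟨p, rfl⟩ := mkCh_surjective k b z
    induction p using MvPolynomial.induction_on with
    | C a => exact Subalgebra.algebraMap_mem _ a
    | add p q hp hq => rw [map_add]; exact Subalgebra.add_mem _ hp hq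
    | mul_X p i hp =>
      rw [map_mul]
      refine Subalgebra.mul_mem _ hp ?_
      obtain ⟨x, j⟩ := i
      have := q_mem_adjoin (k := k) b s hs x 1 (fun l => Algebra.subset_adjoin (Or.inl ⟨l, rfl⟩)) j
      rw [one_mul] at this
      exact this
  rw [← htop]
  exact Subalgebra.fg_def.2 ⟨_, genFin_finite b s, rfl⟩

end

end Pool.Agent.H14
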