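import Pool.Agent.H14.StepA
import Pool.Agent.H14.Coords
import Pool.Agent.H14.HFinite

/-!
# The stalks of the Hilbert scheme of four points
-/

set_option autoImplicit false
set_option linter.unusedSectionVars false

open TensorProduct CategoryTheory AlgebraicGeometry Limits

namespace Pool.Agent.H14

/-- closed points in the closure of a point -/
lemma exists_closed_point {k E : Type} [Field k] [IsAlgClosed k] [CommRing E] [Algebra k E]
    [Algebra.FiniteType k E] (x : PrimeSpectrum E) :
    ∃ ψ : E →ₐ[k] k, x.asIdeal ≤ RingHom.ker ψ := by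
  obtain ⟨m, hm, hxm⟩ := Ideal.exists_le_maximal x.asIdeal x.2.ne_top
  have h1 : Module.Finite k (E ⧸ m) := by
    let _ : Field (E ⧸ m) := Ideal.Quotient.field m
    exact finite_of_finite_type_of_isJacobsonRing k (E ⧸ m)
  have h2 : Algebra.IsIntegral k (E ⧸ m) := inferInstance
  have h3 : Function.Bijective (algebraMap k (E ⧸ m)) :=
    IsAlgClosed.algebraMap_bijective_of_isIntegral
  let ε : k ≃ₐ[k] E ⧸ m := AlgEquiv.ofBijective (Algebra.ofId k (E ⧸ m)) h3
  refine ⟨(ε.symm : (E ⧸ m) →ₐ[k] k).comp (Ideal.Quotient.mkₐ k m), fun y hy => ?_⟩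
  rw [RingHom.mem_ker]
  change ε.symm (Ideal.Quotient.mk m y) = 0
  rw [Ideal.Quotient.eq_zero_iff_mem.2 (hxm hy), map_zero]

/-- the stalk of an affine scheme -/
lemma ncm_spec {E : Type} [CommRing E] (x : PrimeSpectrum E)
    (h : IsNCM (Localization.AtPrime x.asIdeal)) :
    IsNCM ((Spec (CommRingCat.of E)).presheaf.stalk x) :=
  h.of_ringEquiv (StructureSheaf.stalkIso E x).toRingEquiv

section

variable {k : Type} [Field k] {P : Type} [CommRing P] [Algebra k P] [Algebra.FiniteType k P]
variable {n : ℕ} (e : Fin n → P) (B : Type) [CommRing B] [Algebra k B] [Algebra P B]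
  [IsScalarTower k P B] [Algebra.Smooth P B]

theorem chart_ncm (hgood : GoodBase (ChartRing k e))
    (q : Ideal (ChartRing k (fun i => algebraMap P B (e i)))) [q.IsPrime] :
    IsNCM (Localization.AtPrime q) := by
  have hft1 : Algebra.FiniteType k (ChartRing k e) := chartRing_finiteType e
  have hB : Algebra.FiniteType k B := Algebra.FiniteType.trans (S := P) inferInstance inferInstance
  have hft2 : Algebra.FiniteType k (ChartRing k (fun i => algebraMap P B (e i))) :=
    chartRing_finiteType _
  have hN : IsNoetherianRing (ChartRing k e) := Algebra.FiniteType.isNoetherianRing k _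
  let _ : Algebra (ChartRing k e) (ChartRing k (fun i => algebraMap P B (e i))) :=
    (resHom k e B).toRingHom.toAlgebra
  have htow : IsScalarTower k (ChartRing k e) (ChartRing k (fun i => algebraMap P B (e i))) :=
    IsScalarTower.of_algebraMap_eq fun c => ((resHom k e B).commutes c).symm
  have hfs : Algebra.FormallySmooth (ChartRing k e)
      (ChartRing k (fun i => algebraMap P B (e i))) := resHom_formallySmooth e B
  have hfp : Algebra.FinitePresentation (ChartRing k e)
      (ChartRing k (fun i => algebraMap P B (e i))) :=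
    Algebra.FinitePresentation.of_finiteType.1
      (Algebra.FiniteType.of_restrictScalars_finiteType k _ _)
  have hsm : Algebra.Smooth (ChartRing k e) (ChartRing k (fun i => algebraMap P B (e i))) :=
    ⟨hfs, hfp⟩
  exact hgood.smooth q

end

section

variable {k : Type} [Field k] {X : Scheme.{0}} {f : X ⟶ Spec (CommRingCat.of k)} [IsSeparated f]
variable {H 𝒵 : Scheme.{0}} {s : H ⟶ Spec (CommRingCat.of k)} {π : 𝒵 ⟶ H} {α : 𝒵 ⟶ X}
variable (hH : IsHilbertScheme f 4 s π α)
variable {B : Type} [CommRing B] [Algebra k B] {i : Spec (CommRingCat.of B) ⟶ X}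
variable (hi : IsAffChart k f B i) {b : Fin 4 → B}

/-- the stalks at the generizations of a closed point in the image of a chart -/
theorem ncm_of_closed [IsAlgClosed k] (h2 : (2 : k) ≠ 0) [Algebra.Smooth k B] {d : ℕ}
    (hd : ∀ (n : Ideal B) [n.IsMaximal], Module.finrank (Localization.AtPrime n)
      (Ω[Localization.AtPrime n⁄k]) = d + 1)
    (c0 : Chart k b k) (y0 : Spec (CommRingCat.of k)) (h : H)
    (hsp : h ⤳ cl hH hi c0 y0) : IsNCM (H.presheaf.stalk h) := by
  have hio := hi.isOpenImmersion
  let β : B →ₐ[k] OC c0 := { algebraMap B (OC c0) with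
    commutes' := fun x => (algebraMap_comm c0 x).symm }
  have hβ : Function.Surjective β := by
    intro y
    rw [← (basisO c0).sum_repr y]
    refine ⟨∑ l, (basisO c0).repr y l • b l, ?_⟩
    rw [map_sum]
    refine Finset.sum_congr rfl fun l _ => ?_
    rw [map_smul, basisO_apply]
    rfl
  have hA : Module.finrank k (OC c0) = 4 := by
    rw [Module.finrank_eq_card_basis (basisO c0)]
    simp
  obtain ⟨r, e, g, β', alg, hgood, hβ', htow, hsm, hli⟩ := exists_coords h2 β hβ hA hd
  let bas' : Module.Basis (Fin 4) k (OC c0) :=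
    basisOfLinearIndependentOfCardEqFinrank hli (by rw [hA]; simp)
  have hbas' : ∀ l, β' (algebraMap (MvPolynomial (Fin r) k) (Localization.Away g) (e l)) =
      bas' l := by
    intro l
    simp [bas']
  let i' : Spec (CommRingCat.of (Localization.Away g)) ⟶ X := sp B (Localization.Away g) ≫ i
  have hio' : IsOpenImmersion (sp B (Localization.Away g)) :=
    Scheme.isOpenImmersion_SpecMap_localizationAway (R := CommRingCat.of B) g
  have hi' : IsAffChart k f (Localization.Away g) i' := ⟨inferInstance, by
    rw [Category.assoc, hi.w, ← Spec.map_comp, ← CommRingCat.ofHom_comp,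
      ← IsScalarTower.algebraMap_eq k B (Localization.Away g)]⟩
  obtain ⟨z, hz, hza⟩ := cl_pb hH hi c0
  have hcl := eq_cl_ofBasis hH hi' (cl hH hi c0) (cl_s hH hi c0) z hz β' (by
    rw [hza]
    change sp B (OC c0) ≫ i = _ ≫ sp B (Localization.Away g) ≫ i
    rw [← Category.assoc, ← Spec.map_comp, ← CommRingCat.ofHom_comp]
    have h7 : algebraMap B (OC c0) =
        β'.toRingHom.comp (algebraMap B (Localization.Away g)) := by
      ext x
      exact (hβ' x).symm
    rw [← h7]) bas' hbas'
  rw [hcl] at hsp
  obtain ⟨R, _, j, q, w, hj, hq, hw⟩ := exists_section hH hi' (Chart.ofBasis bas' β' hbas') y0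
  rw [← hw] at hsp
  have hmem : h ∈ Set.range j := hsp.mem_open j.isOpenEmbedding.isOpen_range ⟨w, rfl⟩
  obtain ⟨w', rfl⟩ := hmem
  obtain ⟨iso⟩ := stalk_equiv hH hi' j q hq w'
  exact (ncm_spec (q w') (chart_ncm e (Localization.Away g) hgood _)).of_ringEquiv
    iso.commRingCatIsoToRingEquiv

end

end Pool.Agent.H14
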