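import Pool.Agent.H14.FinalA

/-!
# Normality and the Cohen-Macaulay property of the Hilbert scheme of four points
-/

set_option autoImplicit false
set_option linter.unusedSectionVars false

open TensorProduct CategoryTheory AlgebraicGeometry Limits KaehlerDifferential

namespace Pool.Agent.H14

lemma finrank_of_standard {k B : Type} [Field k] [CommRing B] [Algebra k B] (t : B) (n : Ideal B)
    [n.IsPrime] (ht : t ∉ n) {d : ℕ}
    (h : Algebra.IsStandardSmoothOfRelativeDimension d k (Localization.Away t)) :
    Module.finrank (Localization.AtPrime n) (Ω[Localization.AtPrime n⁄k]) = d := by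
  have hu : ∀ y : Submonoid.powers t, IsUnit (algebraMap B (Localization.AtPrime n) y) := by
    rintro ⟨_, m, rfl⟩
    change IsUnit (algebraMap B (Localization.AtPrime n) (t ^ m))
    rw [map_pow]
    exact (IsLocalization.map_units (Localization.AtPrime n) (⟨t, ht⟩ : n.primeCompl)).pow m
  let φ : Localization.Away t →ₐ[B] Localization.AtPrime n :=
    IsLocalization.liftAlgHom (M := Submonoid.powers t)
      (f := Algebra.ofId B (Localization.AtPrime n)) hu
  let _ : Algebra (Localization.Away t) (Localization.AtPrime n) := φ.toRingHom.toAlgebra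
  have htow : IsScalarTower B (Localization.Away t) (Localization.AtPrime n) :=
    IsScalarTower.of_algebraMap_eq fun x => (φ.commutes x).symm
  have htow2 : IsScalarTower k (Localization.Away t) (Localization.AtPrime n) := by
    apply IsScalarTower.of_algebraMap_eq
    intro x
    rw [IsScalarTower.algebraMap_apply k B (Localization.AtPrime n),
      IsScalarTower.algebraMap_apply k B (Localization.Away t),
      ← IsScalarTower.algebraMap_apply B (Localization.Away t)]
  have hun : Algebra.FormallyUnramified B (Localization.Away t) :=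
    Algebra.FormallyUnramified.of_isLocalization (Submonoid.powers t)
  have het0 : Algebra.FormallyEtale B (Localization.AtPrime n) :=
    Algebra.FormallyEtale.of_isLocalization n.primeCompl
  have het : Algebra.FormallyEtale (Localization.Away t) (Localization.AtPrime n) :=
    Algebra.FormallyEtale.of_restrictScalars (R := B)
  have hnt : Nontrivial (Localization.Away t) :=
    RingHom.domain_nontrivial φ.toRingHom
  have hstd : Algebra.IsStandardSmooth k (Localization.Away t) := h.isStandardSmooth
  have hfree : Module.Free (Localization.Away t) (Ω[Localization.Away t⁄k]) := inferInstance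
  rw [← (tensorKaehlerEquivOfFormallyEtale k (Localization.Away t)
    (Localization.AtPrime n)).finrank_eq, Module.finrank_baseChange]
  exact Module.finrank_eq_of_rank_eq
    (Algebra.IsStandardSmoothOfRelativeDimension.rank_kaehlerDifferential d)

section

variable {k : Type} [Field k] {X : Scheme.{0}} {f : X ⟶ Spec (CommRingCat.of k)}
variable {B : Type} [CommRing B] [Algebra k B] {i : Spec (CommRingCat.of B) ⟶ X}

lemma chart_smooth (hi : IsAffChart k f B i) (d : ℕ) [SmoothOfRelativeDimension d f] :
    Algebra.Smooth k B ∧ ∀ (n : Ideal B) [n.IsMaximal], Module.finrank (Localization.AtPrime n)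
      (Ω[Localization.AtPrime n⁄k]) = d := by
  have hio := hi.isOpenImmersion
  have h1 : SmoothOfRelativeDimension (0 + d) (i ≫ f) := inferInstance
  rw [hi.w, zero_add] at h1
  have h2 : Smooth (sp k B) := SmoothOfRelativeDimension.smooth d _
  have h3 := (HasRingHomProperty.Spec_iff (P := @Smooth)).mp h2
  have h4 := (HasRingHomProperty.Spec_iff (P := @SmoothOfRelativeDimension d)).mp h1
  refine ⟨RingHom.smooth_algebraMap.1 h3, fun n hn => ?_⟩
  obtain ⟨s, hs, h5⟩ := h4
  obtain ⟨t, hts, htn⟩ : ∃ t ∈ s, t ∉ n := by
    by_contra hcon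
    push Not at hcon
    have h6 : Ideal.span s ≤ n := Ideal.span_le.2 hcon
    rw [hs, top_le_iff] at h6
    exact hn.ne_top h6
  have h7 : (algebraMap k (Localization.Away t)).IsStandardSmoothOfRelativeDimension d := by
    rw [IsScalarTower.algebraMap_eq k B (Localization.Away t)]
    exact h5 t hts
  rw [RingHom.isStandardSmoothOfRelativeDimension_algebraMap] at h7
  exact finrank_of_standard t n htn h7

end

section

variable {k : Type} [Field k] [IsAlgClosed k] {X : Scheme.{0}} {f : X ⟶ Spec (CommRingCat.of k)}
variable [IsSeparated f] {H 𝒵 : Scheme.{0}} {s : H ⟶ Spec (CommRingCat.of k)} {π : 𝒵 ⟶ H}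
variable {α : 𝒵 ⟶ X} (hH : IsHilbertScheme f 4 s π α)

include hH in
/-- The stalks of the Hilbert scheme of four points are normal Cohen-Macaulay domains. -/
theorem ncm_stalk (h2 : (2 : k) ≠ 0) (d : ℕ) (hd : 1 ≤ d) [SmoothOfRelativeDimension d f]
    (hAF : ∀ F : Set X, F.Finite → ∃ U : X.Opens, IsAffineOpen U ∧ F ⊆ U) (h : H) :
    IsNCM (H.presheaf.stalk h) := by
  have hsm : Smooth f := SmoothOfRelativeDimension.smooth d f
  obtain ⟨B, _, _, hft, i, hi, b, x, hx⟩ := exists_chart_at hH hAF h
  have hftE : Algebra.FiniteType k (ChartRing k b) := chartRing_finiteType b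
  obtain ⟨ψ, hψ⟩ := exists_closed_point (k := k) (E := ChartRing k b) x
  obtain ⟨hB1, hB2⟩ := chart_smooth hi d
  obtain ⟨d', rfl⟩ : ∃ d', d = d' + 1 := ⟨d - 1, by omega⟩
  let y0 : Spec (CommRingCat.of k) := (default : PrimeSpectrum k)
  apply ncm_of_closed hH hi h2 hB2 ((univChart k b).map ψ) y0 h
  rw [← cl_map hH hi (univChart k b) ψ, ← hx]
  have h3 : x ⤳ (Spec.map (CommRingCat.ofHom ψ.toRingHom)) y0 := by
    apply (PrimeSpectrum.le_iff_specializes (R := ChartRing k b) _ _).1
    intro a ha
    have h4 : ψ a = 0 := hψ ha
    change ψ a ∈ (default : PrimeSpectrum k).asIdeal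
    rw [h4]
    exact zero_mem _
  exact h3.map (clU hH hi b).continuous

end

end Pool.Agent.H14
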