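import Pool.Agent.H14.HilbDefs

/-!
# Finite sets of points of quasi-projective schemes lie in affine opens
-/

set_option autoImplicit false
set_option linter.unusedSectionVars false

open AlgebraicGeometry CategoryTheory

namespace Pool.Agent.H14

section

variable {A σ : Type} [CommRing A] [SetLike σ A] [AddSubgroupClass σ A] {𝒜 : ℕ → σ}
  [GradedRing 𝒜]

lemma exists_homogeneous (I : HomogeneousIdeal 𝒜) (p : ProjectiveSpectrum 𝒜)
    (h : ¬ I ≤ p.asHomogeneousIdeal) :
    ∃ m, ∃ a ∈ 𝒜 m, a ∈ I ∧ a ∉ p.asHomogeneousIdeal := by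
  classical
  by_contra hcon
  push Not at hcon
  apply h
  intro a ha
  change a ∈ p.asHomogeneousIdeal.toIdeal
  rw [← DirectSum.sum_support_decompose 𝒜 a]
  exact sum_mem fun i _ => hcon i _ (SetLike.coe_mem _) (I.isHomogeneous i ha)

lemma exists_pos_homogeneous (I : HomogeneousIdeal 𝒜) (p : ProjectiveSpectrum 𝒜)
    (h : ¬ I ≤ p.asHomogeneousIdeal) :
    ∃ m, 0 < m ∧ ∃ a ∈ 𝒜 m, a ∈ I ∧ a ∉ p.asHomogeneousIdeal := by
  obtain ⟨m, a, ha, haI, hap⟩ := exists_homogeneous I p h
  obtain ⟨l, b, hb, hbI, hbp⟩ := exists_homogeneous _ p p.not_irrelevant_le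
  have hl : 0 < l := by
    rcases Nat.eq_zero_or_pos l with rfl | hl
    · exfalso
      apply hbp
      rw [HomogeneousIdeal.mem_irrelevant_iff, GradedRing.proj_apply,
        DirectSum.decompose_of_mem_same 𝒜 hb] at hbI
      rw [hbI]
      exact zero_mem p.asHomogeneousIdeal.toIdeal
    · exact hl
  refine ⟨m + l, by omega, a * b, SetLike.mul_mem_graded ha hb, ?_, ?_⟩
  · exact Ideal.mul_mem_right b I.toIdeal haI
  · intro h2
    rcases p.isPrime.mem_or_mem h2 with h3 | h3
    · exact hap h3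
    · exact hbp h3

/-- graded prime avoidance -/
theorem exists_avoid (I : HomogeneousIdeal 𝒜) (c : ℕ) :
    ∀ s : Finset (ProjectiveSpectrum 𝒜), s.card = c →
    (∀ p ∈ s, ¬ I ≤ p.asHomogeneousIdeal) →
    ∃ m, 0 < m ∧ ∃ f ∈ 𝒜 m, f ∈ I ∧ ∀ p ∈ s, f ∉ p.asHomogeneousIdeal := by
  classical
  induction c with
  | zero =>
    intro s hs _
    rw [Finset.card_eq_zero] at hs
    subst hs
    exact ⟨1, one_pos, 0, zero_mem _, zero_mem I.toIdeal, by simp⟩
  | succ c ih =>
    intro s hs h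
    have hne : s.Nonempty := by rw [← Finset.card_pos]; omega
    obtain ⟨p, hp⟩ := s.exists_minimal hne
    have hps : p ∈ s := hp.prop
    obtain ⟨m, hm, f, hf, hfI, hfs⟩ := ih (s.erase p) (by rw [Finset.card_erase_of_mem hps]; omega)
      (fun q hq => h q (Finset.mem_of_mem_erase hq))
    by_cases hfp : f ∈ p.asHomogeneousIdeal
    swap
    · refine ⟨m, hm, f, hf, hfI, fun q hq => ?_⟩
      by_cases hqp : q = p
      · rw [hqp]; exact hfp
      · exact hfs q (Finset.mem_erase.2 ⟨hqp, hq⟩)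
    obtain ⟨l, hl, a, ha, haI, hap⟩ := exists_pos_homogeneous I p (h p hps)
    -- an element of all the other primes
    obtain ⟨l', b, hb, hbs, hbp⟩ : ∃ l', ∃ b ∈ 𝒜 l', (∀ q ∈ s.erase p, b ∈ q.asHomogeneousIdeal) ∧
        b ∉ p.asHomogeneousIdeal := by
      have hq : ∀ q ∈ s.erase p, ∃ l', ∃ b ∈ 𝒜 l', b ∈ q.asHomogeneousIdeal ∧
          b ∉ p.asHomogeneousIdeal := by
        intro q hq
        apply exists_homogeneous
        intro hle
        have h1 : q ≤ p := hle
        have h2 := hp.le_of_le (Finset.mem_of_mem_erase hq) h1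
        exact (Finset.ne_of_mem_erase hq) (le_antisymm h1 h2)
      generalize s.erase p = t at hq
      clear hfs ih
      induction t using Finset.induction_on with
      | empty => exact ⟨0, 1, SetLike.one_mem_graded 𝒜, by simp, fun h1 =>
          p.isPrime.ne_top ((Ideal.eq_top_iff_one _).2 h1)⟩
      | insert q t hqt iht =>
        obtain ⟨l1, b1, hb1, hb1s, hb1p⟩ := iht (fun q' hq' => hq q' (Finset.mem_insert_of_mem hq'))
        obtain ⟨l2, b2, hb2, hb2q, hb2p⟩ := hq q (Finset.mem_insert_self _ _)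
        refine ⟨l1 + l2, b1 * b2, SetLike.mul_mem_graded hb1 hb2, ?_, ?_⟩
        · intro q' hq'
          rcases Finset.mem_insert.1 hq' with rfl | hq'
          · exact Ideal.mul_mem_left q'.asHomogeneousIdeal.toIdeal b1 hb2q
          · exact Ideal.mul_mem_right b2 q'.asHomogeneousIdeal.toIdeal (hb1s q' hq')
        · intro h2
          rcases p.isPrime.mem_or_mem h2 with h3 | h3
          · exact hb1p h3
          · exact hb2p h3
    have hg : a * b ∈ 𝒜 (l + l') := SetLike.mul_mem_graded ha hb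
    have hgp : a * b ∉ p.asHomogeneousIdeal := by
      intro h2
      rcases p.isPrime.mem_or_mem h2 with h3 | h3
      · exact hap h3
      · exact hbp h3
    refine ⟨(l + l') * m, by positivity, f ^ (l + l') + (a * b) ^ m, ?_, ?_, ?_⟩
    · refine add_mem ?_ ?_
      · have := SetLike.pow_mem_graded (l + l') hf
        rwa [smul_eq_mul] at this
      · have := SetLike.pow_mem_graded m hg
        rwa [smul_eq_mul, mul_comm] at this
    · refine add_mem (s := I.toIdeal) ?_ ?_
      · exact Ideal.pow_mem_of_mem I.toIdeal hfI _ (by omega)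
      · exact Ideal.pow_mem_of_mem I.toIdeal (Ideal.mul_mem_right b _ haI) _ hm
    · intro q hq h2
      by_cases hqp : q = p
      · subst hqp
        have h3 : f ^ (l + l') ∈ q.asHomogeneousIdeal.toIdeal :=
          Ideal.pow_mem_of_mem _ hfp _ (by omega)
        have h4 : (a * b) ^ m ∈ q.asHomogeneousIdeal.toIdeal := (Ideal.add_mem_iff_right _ h3).1 h2
        exact hgp (q.isPrime.mem_of_pow_mem _ h4)
      · have hq' := Finset.mem_erase.2 ⟨hqp, hq⟩
        have h3 : (a * b) ^ m ∈ q.asHomogeneousIdeal.toIdeal :=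
          Ideal.pow_mem_of_mem _ (Ideal.mul_mem_left _ a (hbs q hq')) _ hm
        have h4 : f ^ (l + l') ∈ q.asHomogeneousIdeal.toIdeal := (Ideal.add_mem_iff_left _ h3).1 h2
        exact hfs q hq' (q.isPrime.mem_of_pow_mem _ h4)

variable (𝒜) in
/-- finite subsets of open subsets of `Proj` lie in affine open subsets -/
theorem proj_af (U : (Proj 𝒜).Opens) (F : Set (Proj 𝒜)) (hF : F.Finite) (hFU : F ⊆ U) :
    ∃ V : (Proj 𝒜).Opens, IsAffineOpen V ∧ V ≤ U ∧ F ⊆ V := by
  classical
  let Z : Set (ProjectiveSpectrum 𝒜) := (U : Set (Proj 𝒜))ᶜ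
  have hZ : IsClosed Z := U.isOpen.isClosed_compl
  obtain ⟨m, hm, f, hf, hfI, hfs⟩ := exists_avoid (ProjectiveSpectrum.vanishingIdeal Z) _
    (hF.toFinset : Finset (ProjectiveSpectrum 𝒜)) rfl (by
      intro p hp hle
      have hpF : p ∈ F := hF.mem_toFinset.1 hp
      have h1 : p ∈ ProjectiveSpectrum.zeroLocus 𝒜
          (ProjectiveSpectrum.vanishingIdeal Z : Set A) := hle
      rw [ProjectiveSpectrum.zeroLocus_vanishingIdeal_eq_closure, hZ.closure_eq] at h1
      exact h1 (hFU hpF))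
  refine ⟨Proj.basicOpen 𝒜 f, Proj.isAffineOpen_basicOpen 𝒜 f hf hm, ?_, ?_⟩
  · intro x hx
    by_contra hcon
    exact hx ((ProjectiveSpectrum.mem_vanishingIdeal Z f).1 hfI x hcon)
  · intro x hx
    exact hfs x (hF.mem_toFinset.2 hx)

theorem af_of_immersion {X : Scheme.{0}} (ι : X ⟶ Proj 𝒜) [IsImmersion ι] (F : Set X)
    (hF : F.Finite) : ∃ U : X.Opens, IsAffineOpen U ∧ F ⊆ U := by
  obtain ⟨V, hV, hVU, hFV⟩ := proj_af 𝒜 ι.coborderRange (ι '' F) (hF.image _) (by
    rintro _ ⟨x, -, rfl⟩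
    exact subset_coborder ⟨x, rfl⟩)
  have h1 : IsAffineOpen (ι.coborderRange.ι ⁻¹ᵁ V) :=
    hV.preimage_of_isOpenImmersion ι.coborderRange.ι (by simpa using hVU)
  refine ⟨ι.liftCoborder ⁻¹ᵁ (ι.coborderRange.ι ⁻¹ᵁ V), h1.preimage ι.liftCoborder, ?_⟩
  intro x hx
  have h2 : ι x ∈ V := hFV ⟨x, hx, rfl⟩
  rw [← ι.liftCoborder_ι] at h2
  exact h2

end

section

attribute [local instance] MvPolynomial.gradedAlgebra

variable {k : Type} [Field k] {X : Scheme.{0}} {f : X ⟶ Spec (CommRingCat.of k)}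

lemma IsQuasiProjective.isSeparated (h : IsQuasiProjective f) : IsSeparated f := by
  obtain ⟨N, ι, hι, hιf⟩ := h
  have hX : X.IsSeparated := by
    constructor
    have : IsSeparated (ι ≫ Limits.terminal.from _) := inferInstance
    rwa [Limits.terminal.comp_from] at this
  infer_instance

lemma IsQuasiProjective.af (h : IsQuasiProjective f) (F : Set X) (hF : F.Finite) :
    ∃ U : X.Opens, IsAffineOpen U ∧ F ⊆ U := by
  obtain ⟨N, ι, hι, hιf⟩ := h
  exact af_of_immersion ι F hF

end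

end Pool.Agent.H14
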