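import Pool.Agent.H14.FinalB
import Pool.Agent.H14.ProjAF

/-!
# The Hilbert scheme of points is locally of finite type
-/

set_option autoImplicit false
set_option linter.unusedSectionVars false

open TensorProduct CategoryTheory AlgebraicGeometry Limits

namespace Pool.Agent.H14

section

variable {k : Type} [Field k] {X : Scheme.{0}} {f : X ⟶ Spec (CommRingCat.of k)} [IsSeparated f]
variable {n : ℕ} {H 𝒵 : Scheme.{0}} {s : H ⟶ Spec (CommRingCat.of k)} {π : 𝒵 ⟶ H} {α : 𝒵 ⟶ X}
variable (hH : IsHilbertScheme f n s π α)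
variable {B : Type} [CommRing B] [Algebra k B] {i : Spec (CommRingCat.of B) ⟶ X}
variable (hi : IsAffChart k f B i) {b : Fin n → B}

lemma isOpenImmersion_section {R' : CommRingCat.{0}} (j : Spec R' ⟶ H) [IsOpenImmersion j]
    (q : Spec R' ⟶ Spec (CommRingCat.of (ChartRing k b))) (hq : q ≫ clU hH hi b = j) :
    IsOpenImmersion q := by
  have hpb : IsPullback q (𝟙 (Spec R')) (clU hH hi b) j := by
    refine ⟨⟨by rw [hq, Category.id_comp]⟩, ⟨PullbackCone.IsLimit.mk _ (fun c => c.snd) ?_ ?_ ?_⟩⟩
    · intro c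
      rw [← cancel_mono (clU hH hi b), Category.assoc, hq, c.condition]
    · intro c
      rw [Category.comp_id]
    · intro c m _ h2
      rw [Category.comp_id] at h2
      exact h2
  exact MorphismProperty.of_isPullback hpb.flip inferInstance

include hH in
theorem locallyOfFiniteType_hilb [LocallyOfFiniteType f]
    (hAF : ∀ F : Set X, F.Finite → ∃ U : X.Opens, IsAffineOpen U ∧ F ⊆ U) :
    LocallyOfFiniteType s := by
  have key : ∀ h : H, ∃ U : H.Opens, h ∈ U ∧ LocallyOfFiniteType (U.ι ≫ s) := by
    intro h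
    obtain ⟨B, _, _, hft, i, hi, b, K, _, _, cK, y0, h1⟩ := exists_chart_datum_at hH hAF h
    obtain ⟨R, _, j, q, w, hj, hq, hw⟩ := exists_section hH hi cK y0
    have hqo := isOpenImmersion_section hH hi j q hq
    have hft2 : Algebra.FiniteType k (ChartRing k b) := chartRing_finiteType b
    have h2 : LocallyOfFiniteType (sp k (ChartRing k b)) :=
      (HasRingHomProperty.Spec_iff (P := @LocallyOfFiniteType)).mpr
        (RingHom.finiteType_algebraMap.2 hft2)
    have h3 : LocallyOfFiniteType (j ≫ s) := by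
      rw [← hq, Category.assoc, clU_s]
      infer_instance
    refine ⟨j.opensRange, ⟨w, by rw [hw, h1]⟩, ?_⟩
    have h4 : j.opensRange.ι = j.isoOpensRange.inv ≫ j := by
      rw [Iso.eq_inv_comp, Scheme.Hom.isoOpensRange_hom_ι]
    rw [h4, Category.assoc]
    infer_instance
  choose U hU hU2 using key
  rw [IsZariskiLocalAtSource.iff_of_iSup_eq_top (P := @LocallyOfFiniteType) U (by
    rw [eq_top_iff]
    intro h _
    exact TopologicalSpace.Opens.mem_iSup.2 ⟨h, hU h⟩)]
  exact hU2

end

end Pool.Agent.H14
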