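import Mathlib

set_option autoImplicit false

open scoped TensorProduct

universe u

namespace Pool.Agent.H14

section Chart

variable {k : Type u} [CommRing k] {B : Type u} [CommRing B] [Algebra k B] {d : ℕ}

/-- base change of coefficients -/
noncomputable abbrev bc (B : Type u) [CommRing B] [Algebra k B] {R R' : Type u} [CommRing R]
    [Algebra k R] [CommRing R'] [Algebra k R'] (φ : R →ₐ[k] R') : R ⊗[k] B →ₐ[k] R' ⊗[k] B :=
  Algebra.TensorProduct.map φ (AlgHom.id k B)

/-- A chart datum: the coordinate functional `B → R^d` of a quotient of `R ⊗ B` in which `b` is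
a basis. -/
structure Chart (k : Type u) [CommRing k] {B : Type u} [CommRing B] [Algebra k B] {d : ℕ}
    (b : Fin d → B) (R : Type u) [CommRing R] [Algebra k R] where
  q : B →ₗ[k] (Fin d → R)
  q_b : ∀ i, q (b i) = Pi.single i 1
  q_mul : ∀ x y, q (x * y) = ∑ j, q x j • q (b j * y)

namespace Chart

variable {b : Fin d → B} {R : Type u} [CommRing R] [Algebra k R] {R' : Type u} [CommRing R']
  [Algebra k R'] {R'' : Type u} [CommRing R''] [Algebra k R'']

@[ext] lemma ext' {c c' : Chart k b R} (h : ∀ x, c.q x = c'.q x) : c = c' := by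
  cases c; cases c'
  congr
  exact LinearMap.ext h

/-- the `R`-linear extension of the coordinate functional -/
noncomputable def L (c : Chart k b R) : R ⊗[k] B →ₗ[R] (Fin d → R) :=
  c.q.liftBaseChange R

@[simp] lemma L_tmul (c : Chart k b R) (r : R) (x : B) : c.L (r ⊗ₜ x) = r • c.q x := by
  simp [L]

/-- the element is congruent to its coordinate expansion -/
noncomputable def expand (R : Type u) [CommRing R] [Algebra k R] (b : Fin d → B) :
    (Fin d → R) →ₗ[R] R ⊗[k] B :=
  Fintype.linearCombination R (fun i => (1 : R) ⊗ₜ[k] b i)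

lemma expand_apply (v : Fin d → R) : expand (k := k) R b v = ∑ i, v i ⊗ₜ[k] b i := by
  simp [expand, Fintype.linearCombination_apply, TensorProduct.smul_tmul']

lemma L_expand (c : Chart k b R) (v : Fin d → R) : c.L (expand R b v) = v := by
  rw [expand_apply, map_sum]
  ext j
  simp [c.q_b, Pi.single_apply]

lemma L_mul (c : Chart k b R) (x y : R ⊗[k] B) :
    c.L (x * y) = ∑ j, c.L x j • c.L ((1 ⊗ₜ[k] b j) * y) := by
  induction x using TensorProduct.induction_on with
  | zero => simp
  | add x x' hx hx' => simp [add_mul, hx, hx', add_smul, Finset.sum_add_distrib]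
  | tmul r x =>
    induction y using TensorProduct.induction_on with
    | zero => simp
    | add y y' hy hy' =>
      simp only [mul_add, map_add, hy, hy', smul_add, Finset.sum_add_distrib]
    | tmul s y =>
      simp only [Algebra.TensorProduct.tmul_mul_tmul, L_tmul, c.q_mul x y, one_mul,
        Finset.smul_sum, Pi.smul_apply, smul_eq_mul, smul_smul]
      exact Finset.sum_congr rfl fun j _ => by ring_nf

/-- the ideal defined by a chart datum -/
noncomputable def ideal (c : Chart k b R) : Ideal (R ⊗[k] B) where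
  carrier := {x | c.L x = 0}
  add_mem' := by
    intro x y hx hy
    simp only [Set.mem_ofPred_eq] at *
    simp [hx, hy]
  zero_mem' := by simp
  smul_mem' := by
    intro y x hx
    simp only [Set.mem_ofPred_eq] at *
    rw [smul_eq_mul, mul_comm, L_mul, hx]
    simp

lemma mem_ideal {c : Chart k b R} {x : R ⊗[k] B} : x ∈ c.ideal ↔ c.L x = 0 := Iff.rfl

lemma sub_expand_mem (c : Chart k b R) (x : R ⊗[k] B) : x - expand R b (c.L x) ∈ c.ideal := by
  rw [mem_ideal, map_sub, L_expand, sub_self]

lemma ideal_injective {c c' : Chart k b R} (h : c.ideal = c'.ideal) : c = c' := by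
  ext x : 1
  have h1 := c.sub_expand_mem (1 ⊗ₜ x)
  rw [h, mem_ideal, map_sub, L_expand, sub_eq_zero] at h1
  simpa using h1.symm

/-- construct a chart from a linear map with ideal kernel -/
noncomputable def mk' (b : Fin d → B) (L : R ⊗[k] B →ₗ[R] (Fin d → R))
    (hb : ∀ i, L (1 ⊗ₜ b i) = Pi.single i 1)
    (hL : ∀ x y, L x = 0 → L (x * y) = 0) : Chart k b R where
  q := (L.restrictScalars k) ∘ₗ (Algebra.TensorProduct.includeRight (R := k) (A := R)).toLinearMap
  q_b := by simpa using hb
  q_mul := by
    intro x y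
    have key : ∀ z : R ⊗[k] B, L (z - expand R b (L z)) = 0 := by
      intro z
      have : ∀ v : Fin d → R, L (expand R b v) = v := by
        intro v
        have : expand (k := k) R b v = ∑ i, v i • ((1 : R) ⊗ₜ[k] b i) := by
          simp [expand, Fintype.linearCombination_apply]
        rw [this, map_sum]
        ext j
        simp [hb, Pi.single_apply]
      rw [map_sub, this, sub_self]
    have h1 := hL _ ((1 : R) ⊗ₜ[k] y) (key (1 ⊗ₜ[k] x))
    rw [sub_mul, map_sub, sub_eq_zero] at h1
    simp only [LinearMap.coe_comp, LinearMap.coe_restrictScalars, Function.comp_apply,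
      AlgHom.toLinearMap_apply, Algebra.TensorProduct.includeRight_apply]
    rw [show (1 : R) ⊗ₜ[k] (x * y) = (1 ⊗ₜ[k] x) * (1 ⊗ₜ[k] y) by simp, h1]
    have : expand (k := k) R b (L (1 ⊗ₜ[k] x)) = ∑ i, L (1 ⊗ₜ[k] x) i • ((1 : R) ⊗ₜ[k] b i) := by
      simp [expand, Fintype.linearCombination_apply]
    rw [this, Finset.sum_mul, map_sum]
    refine Finset.sum_congr rfl fun j _ => ?_
    rw [smul_mul_assoc, map_smul]
    simp

lemma mk'_L (L : R ⊗[k] B →ₗ[R] (Fin d → R))
    (hb : ∀ i, L (1 ⊗ₜ b i) = Pi.single i 1)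
    (hL : ∀ x y, L x = 0 → L (x * y) = 0) (x : R ⊗[k] B) : (mk' b L hb hL).L x = L x := by
  induction x using TensorProduct.induction_on with
  | zero => simp
  | add x x' hx hx' => simp [hx, hx']
  | tmul r x =>
    rw [L_tmul]
    simp only [mk', LinearMap.coe_comp, LinearMap.coe_restrictScalars, Function.comp_apply,
      AlgHom.toLinearMap_apply, Algebra.TensorProduct.includeRight_apply]
    rw [← map_smul, TensorProduct.smul_tmul', smul_eq_mul, mul_one]

/-- base change of a chart datum -/
noncomputable def map (c : Chart k b R) (φ : R →ₐ[k] R') : Chart k b R' where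
  q := (φ.toLinearMap.compLeft (Fin d)) ∘ₗ c.q
  q_b := by
    intro i
    ext j
    by_cases h : i = j
    · subst h; simp [c.q_b]
    · simp [c.q_b, Ne.symm h]
  q_mul := by
    intro x y
    ext l
    simp [c.q_mul x y]

@[simp] lemma map_q (c : Chart k b R) (φ : R →ₐ[k] R') (x : B) (j : Fin d) :
    (c.map φ).q x j = φ (c.q x j) := rfl

lemma map_L (c : Chart k b R) (φ : R →ₐ[k] R') (x : R ⊗[k] B) (j : Fin d) :
    (c.map φ).L (bc B φ x) j = φ (c.L x j) := by
  induction x using TensorProduct.induction_on with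
  | zero => simp
  | add x x' hx hx' => simp [hx, hx']
  | tmul r x => simp

lemma map_map (c : Chart k b R) (φ : R →ₐ[k] R') (ψ : R' →ₐ[k] R'') :
    (c.map φ).map ψ = c.map (ψ.comp φ) := by
  ext x j
  simp

lemma map_id (c : Chart k b R) : c.map (AlgHom.id k R) = c := by
  ext x j
  simp

lemma ideal_map (c : Chart k b R) (φ : R →ₐ[k] R') :
    (c.map φ).ideal = c.ideal.map (bc B φ) := by
  apply le_antisymm
  · have key : ∀ y : R' ⊗[k] B, y - expand R' b ((c.map φ).L y) ∈ c.ideal.map (bc B φ) := by
      intro y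
      induction y using TensorProduct.induction_on with
      | zero => simp
      | add x x' hx hx' =>
        rw [map_add, map_add, add_sub_add_comm]
        exact Ideal.add_mem _ hx hx'
      | tmul r x =>
        have h1 : bc B φ ((1 : R) ⊗ₜ[k] x - expand R b (c.L (1 ⊗ₜ x))) ∈ c.ideal.map (bc B φ) :=
          Ideal.mem_map_of_mem _ (c.sub_expand_mem _)
        have h2 := Ideal.mul_mem_left _ ((r : R') ⊗ₜ[k] (1 : B)) h1
        convert h2 using 1
        rw [map_sub, expand_apply, expand_apply, map_sum]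
        simp [mul_sub, Finset.mul_sum]
    intro y hy
    have := key y
    rw [mem_ideal.1 hy, map_zero, sub_zero] at this
    exact this
  · rw [Ideal.map_le_iff_le_comap]
    intro x hx
    rw [Ideal.mem_comap, mem_ideal]
    ext j
    rw [map_L, mem_ideal.1 hx]
    simp

end Chart

/-- `b` is a basis of the quotient of `R ⊗ B` by `I`. -/
def IsBas (b : Fin d → B) {R : Type u} [CommRing R] [Algebra k R] (I : Ideal (R ⊗[k] B)) : Prop :=
  ∃ c : Chart k b R, c.ideal = I

section
variable {R : Type u} [CommRing R] [Algebra k R] {R' : Type u} [CommRing R']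
  [Algebra k R'] {R'' : Type u} [CommRing R''] [Algebra k R'']

lemma IsBas.map {b : Fin d → B} {I : Ideal (R ⊗[k] B)} (h : IsBas b I) (φ : R →ₐ[k] R') :
    IsBas b (I.map (bc B φ)) := by
  obtain ⟨c, rfl⟩ := h
  exact ⟨c.map φ, c.ideal_map φ⟩

/-- The transition matrix. -/
noncomputable def tmat {b : Fin d → B} (c : Chart k b R) (b' : Fin d → B) : Matrix (Fin d) (Fin d) R :=
  Matrix.of fun i j => c.q (b' i) j

lemma tmat_map {b : Fin d → B} (c : Chart k b R) (b' : Fin d → B) (φ : R →ₐ[k] R') :
    tmat (c.map φ) b' = (tmat c b').map φ := by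
  ext i j
  simp [tmat]

lemma isUnit_det_of_isBas {b b' : Fin d → B} (c : Chart k b R) (h : IsBas b' c.ideal) :
    IsUnit (tmat c b').det := by
  obtain ⟨c', hc'⟩ := h
  have key : ∀ x j, c'.q x j = ∑ i, c.q x i * c'.q (b i) j := by
    intro x j
    have h1 := c.sub_expand_mem (1 ⊗ₜ x)
    rw [← hc', Chart.mem_ideal, map_sub, Chart.expand_apply, map_sum, sub_eq_zero] at h1
    have h2 := congrFun h1 j
    simpa using h2
  have : tmat c b' * tmat c' b = 1 := by
    ext i j
    rw [Matrix.mul_apply]
    simp only [tmat, Matrix.of_apply]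
    rw [← key, c'.q_b, Matrix.one_apply, Pi.single_apply]
    by_cases hij : i = j
    · simp [hij]
    · rw [if_neg hij, if_neg (Ne.symm hij)]
  exact (Matrix.isUnit_iff_isUnit_det _).1 (IsUnit.of_mul_eq_one _ this)

lemma isBas_of_isUnit_det {b b' : Fin d → B} (c : Chart k b R) (h : IsUnit (tmat c b').det) :
    IsBas b' c.ideal := by
  set M := tmat c b' with hM
  have hMi : M * M⁻¹ = 1 := Matrix.mul_nonsing_inv _ h
  have hMi' : M⁻¹ * M = 1 := Matrix.nonsing_inv_mul _ h
  let L' : R ⊗[k] B →ₗ[R] (Fin d → R) := (Matrix.vecMulLinear M⁻¹) ∘ₗ c.L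
  have hL0 : ∀ x, L' x = 0 ↔ c.L x = 0 := by
    intro x
    simp only [L', LinearMap.coe_comp, Function.comp_apply, Matrix.vecMulLinear_apply]
    constructor
    · intro h0
      have := congrArg (fun v => Matrix.vecMul v M) h0
      simpa [Matrix.vecMul_vecMul, hMi'] using this
    · intro h0; simp [h0]
  refine ⟨Chart.mk' b' L' ?_ ?_, ?_⟩
  · intro i
    simp only [L', LinearMap.coe_comp, Function.comp_apply, Matrix.vecMulLinear_apply]
    have h1 : c.L (1 ⊗ₜ b' i) = Matrix.vecMul (Pi.single i 1) M := by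
      ext j
      simp [hM, tmat]
    rw [h1, Matrix.vecMul_vecMul, hMi, Matrix.vecMul_one]
  · intro x y hx
    rw [hL0] at hx ⊢
    rw [mul_comm]
    exact c.ideal.mul_mem_left y hx
  · ext x
    rw [Chart.mem_ideal, Chart.mk'_L, hL0, Chart.mem_ideal]

lemma isBas_iff {b b' : Fin d → B} (c : Chart k b R) :
    IsBas b' c.ideal ↔ IsUnit (tmat c b').det :=
  ⟨isUnit_det_of_isBas c, isBas_of_isUnit_det c⟩

end

end Chart
end Pool.Agent.H14
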