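import Mathlib
import Pool.Agent.H14.HChart

set_option autoImplicit false

open scoped TensorProduct

universe u

namespace Pool.Agent.H14

variable {k : Type u} [CommRing k] {B : Type u} [CommRing B] [Algebra k B] {d : ℕ}

section Univ

variable (k) (b : Fin d → B)

/-- relations of the chart ring -/
inductive ChartRel : MvPolynomial (B × Fin d) k → MvPolynomial (B × Fin d) k → Prop
  | add (x y : B) (j : Fin d) : ChartRel (MvPolynomial.X (x + y, j))
      (MvPolynomial.X (x, j) + MvPolynomial.X (y, j))
  | smul (c : k) (x : B) (j : Fin d) : ChartRel (MvPolynomial.X (c • x, j))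
      (MvPolynomial.C c * MvPolynomial.X (x, j))
  | basis (i j : Fin d) : ChartRel (MvPolynomial.X (b i, j))
      (if i = j then 1 else 0)
  | mul (x y : B) (l : Fin d) : ChartRel (MvPolynomial.X (x * y, l))
      (∑ j, MvPolynomial.X (x, j) * MvPolynomial.X (b j * y, l))

/-- the ideal of relations -/
noncomputable def chartIdeal : Ideal (MvPolynomial (B × Fin d) k) :=
  Ideal.span {p | ∃ x y, ChartRel k b x y ∧ p = x - y}

/-- the chart ring -/
def ChartRing : Type u := MvPolynomial (B × Fin d) k ⧸ chartIdeal k b

noncomputable instance : CommRing (ChartRing k b) :=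
  inferInstanceAs (CommRing (MvPolynomial (B × Fin d) k ⧸ chartIdeal k b))

noncomputable instance : Algebra k (ChartRing k b) :=
  inferInstanceAs (Algebra k (MvPolynomial (B × Fin d) k ⧸ chartIdeal k b))

/-- the quotient map -/
noncomputable def mkCh : MvPolynomial (B × Fin d) k →ₐ[k] ChartRing k b :=
  Ideal.Quotient.mkₐ k (chartIdeal k b)

lemma mkCh_surjective : Function.Surjective (mkCh k b) := Ideal.Quotient.mk_surjective

lemma chartRel_eq {x y : MvPolynomial (B × Fin d) k} (h : ChartRel k b x y) :
    mkCh k b x = mkCh k b y := by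
  refine (Ideal.Quotient.eq (I := chartIdeal k b)).2 ?_
  exact Ideal.subset_span ⟨x, y, h, rfl⟩

/-- the universal chart datum -/
noncomputable def univChart : Chart k b (ChartRing k b) where
  q :=
    { toFun := fun x j => mkCh k b (MvPolynomial.X (x, j))
      map_add' := by
        intro x y
        ext j
        simp only [Pi.add_apply]
        rw [← map_add]
        exact chartRel_eq k b (ChartRel.add x y j)
      map_smul' := by
        intro c x
        ext j
        simp only [Pi.smul_apply, RingHom.id_apply]
        rw [chartRel_eq k b (ChartRel.smul c x j), map_mul, Algebra.smul_def]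
        congr 1 }
  q_b := by
    intro i
    ext j
    simp only [LinearMap.coe_mk, AddHom.coe_mk]
    rw [chartRel_eq k b (ChartRel.basis i j), Pi.single_apply]
    by_cases h : i = j
    · simp [h]
    · simp [h, Ne.symm h]
  q_mul := by
    intro x y
    ext l
    simp only [LinearMap.coe_mk, AddHom.coe_mk, Finset.sum_apply, Pi.smul_apply, smul_eq_mul]
    rw [chartRel_eq k b (ChartRel.mul x y l), map_sum]
    simp

lemma univChart_q (x : B) (j : Fin d) :
    (univChart k b).q x j = mkCh k b (MvPolynomial.X (x, j)) := rfl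

variable {k b}
variable {R : Type u} [CommRing R] [Algebra k R]

/-- the classifying map of a chart datum -/
noncomputable def Chart.lift (c : Chart k b R) : ChartRing k b →ₐ[k] R :=
  Ideal.Quotient.liftₐ (chartIdeal k b) (MvPolynomial.aeval fun p : B × Fin d => c.q p.1 p.2) (by
    have hle : chartIdeal k b ≤
        RingHom.ker (MvPolynomial.aeval (R := k) fun p : B × Fin d => c.q p.1 p.2) := by
      unfold chartIdeal
      rw [Ideal.span_le]
      rintro p ⟨x, y, h, rfl⟩
      simp only [SetLike.mem_coe, RingHom.mem_ker, map_sub, sub_eq_zero]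
      cases h with
      | add x y j => simp
      | smul a x j =>
        rw [MvPolynomial.aeval_X, map_mul, MvPolynomial.aeval_X, map_smul, Pi.smul_apply,
          Algebra.smul_def]
        simp
      | basis i j =>
        by_cases h : i = j
        · simp [c.q_b, h]
        · simp [c.q_b, h, Ne.symm h]
      | mul x y l => simp [c.q_mul x y]
    intro a ha
    exact hle ha)

lemma Chart.lift_mk (c : Chart k b R) (x : B) (j : Fin d) :
    c.lift (mkCh k b (MvPolynomial.X (x, j))) = c.q x j := by
  change MvPolynomial.aeval (R := k) (fun p : B × Fin d => c.q p.1 p.2)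
    (MvPolynomial.X (x, j)) = c.q x j
  simp

lemma Chart.map_lift (c : Chart k b R) : (univChart k b).map c.lift = c := by
  ext x j
  rw [Chart.map_q, univChart_q, Chart.lift_mk]

lemma chartRing_hom_ext {φ ψ : ChartRing k b →ₐ[k] R}
    (h : (univChart k b).map φ = (univChart k b).map ψ) : φ = ψ := by
  have h1 : φ.comp (mkCh k b) = ψ.comp (mkCh k b) := by
    apply MvPolynomial.algHom_ext
    rintro ⟨x, j⟩
    have := congrFun (congrArg (fun c : Chart k b R => c.q x) h) j
    simpa [univChart_q] using this
  apply AlgHom.ext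
  intro x
  obtain ⟨x, rfl⟩ := mkCh_surjective k b x
  exact DFunLike.congr_fun h1 x

end Univ

section Multi

/-- all members of `L` are bases -/
def HasBas (L : Set (Fin d → B)) {R : Type u} [CommRing R] [Algebra k R] (I : Ideal (R ⊗[k] B)) :
    Prop := ∀ b ∈ L, IsBas b I

variable (k) in
/-- a universal ideal with all members of `L` as bases -/
structure UnivFor (L : Set (Fin d → B)) where
  A : Type u
  [ring : CommRing A]
  [alg : Algebra k A]
  I : Ideal (A ⊗[k] B)
  has : HasBas L I
  desc : ∀ (R : Type u) [CommRing R] [Algebra k R] (I' : Ideal (R ⊗[k] B)), HasBas L I' →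
    ∃ φ : A →ₐ[k] R, I.map (bc B φ) = I'
  uniq : ∀ (R : Type u) [CommRing R] [Algebra k R] (φ ψ : A →ₐ[k] R),
    I.map (bc B φ) = I.map (bc B ψ) → φ = ψ

attribute [instance] UnivFor.ring UnivFor.alg

variable (k) in
/-- one chart -/
noncomputable def univSingle (b : Fin d → B) : UnivFor k ({b} : Set (Fin d → B)) where
  A := ChartRing k b
  I := (univChart k b).ideal
  has := by
    rintro b' rfl
    exact ⟨_, rfl⟩
  desc := by
    intro R _ _ I' h
    obtain ⟨c, hc⟩ := h b rfl
    exact ⟨c.lift, by rw [← Chart.ideal_map, Chart.map_lift, hc]⟩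
  uniq := by
    intro R _ _ φ ψ h
    rw [← Chart.ideal_map, ← Chart.ideal_map] at h
    exact chartRing_hom_ext (Chart.ideal_injective h)

lemma bc_comp {R R' R'' : Type u} [CommRing R] [Algebra k R] [CommRing R'] [Algebra k R']
    [CommRing R''] [Algebra k R''] (φ : R →ₐ[k] R') (ψ : R' →ₐ[k] R'') :
    bc B (ψ.comp φ) = (bc B ψ).comp (bc B φ) := by
  ext <;> simp

lemma map_bc_comp {R R' R'' : Type u} [CommRing R] [Algebra k R] [CommRing R'] [Algebra k R']
    [CommRing R''] [Algebra k R''] (φ : R →ₐ[k] R') (ψ : R' →ₐ[k] R'') (I : Ideal (R ⊗[k] B)) :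
    I.map (bc B (ψ.comp φ)) = (I.map (bc B φ)).map (bc B ψ) := by
  rw [bc_comp]
  exact (Ideal.map_mapₐ _ _).symm

lemma map_bc_id {R : Type u} [CommRing R] [Algebra k R] (I : Ideal (R ⊗[k] B)) :
    I.map (bc B (AlgHom.id k R)) = I := by
  have : bc B (AlgHom.id k R) = AlgHom.id k (R ⊗[k] B) := by ext <;> simp
  rw [this]
  exact Ideal.map_id _

lemma HasBas.map {L : Set (Fin d → B)} {R R' : Type u} [CommRing R] [Algebra k R]
    [CommRing R'] [Algebra k R'] {I : Ideal (R ⊗[k] B)} (h : HasBas L I) (φ : R →ₐ[k] R') :
    HasBas L (I.map (bc B φ)) := fun b hb => (h b hb).map φ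

/-- the localising element -/
noncomputable def locElt {b : Fin d → B} {R : Type u} [CommRing R] [Algebra k R]
    (c : Chart k b R) (L : Finset (Fin d → B)) : R := ∏ b' ∈ L, (tmat c b').det

lemma isUnit_locElt_iff {b : Fin d → B} {R : Type u} [CommRing R] [Algebra k R]
    (c : Chart k b R) (L : Finset (Fin d → B)) :
    IsUnit (locElt c L) ↔ HasBas (L : Set (Fin d → B)) c.ideal := by
  unfold locElt HasBas
  rw [IsUnit.prod_iff]
  simp only [Finset.mem_coe, isBas_iff]

lemma locElt_map {b : Fin d → B} {R : Type u} [CommRing R] [Algebra k R] {R' : Type u}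
    [CommRing R'] [Algebra k R']
    (c : Chart k b R) (L : Finset (Fin d → B)) (φ : R →ₐ[k] R') :
    locElt (c.map φ) L = φ (locElt c L) := by
  unfold locElt
  rw [map_prod]
  refine Finset.prod_congr rfl fun b' _ => ?_
  rw [tmat_map, AlgHom.map_det]
  rfl

/-- the chart of the universal ideal -/
noncomputable def UnivFor.chart {L : Set (Fin d → B)} (U : UnivFor k L) {b : Fin d → B}
    (hb : b ∈ L) : Chart k b U.A := (U.has b hb).choose

lemma UnivFor.chart_ideal {L : Set (Fin d → B)} (U : UnivFor k L) {b : Fin d → B}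
    (hb : b ∈ L) : (U.chart hb).ideal = U.I := (U.has b hb).choose_spec

/-- localisation gives the universal object for a bigger set -/
noncomputable def UnivFor.loc {L : Set (Fin d → B)} (U : UnivFor k L) {b : Fin d → B}
    (hb : b ∈ L) (L' : Finset (Fin d → B)) (hL : L ⊆ L') :
    UnivFor k (L' : Set (Fin d → B)) where
  A := Localization.Away (locElt (U.chart hb) L')
  I := U.I.map (bc B (IsScalarTower.toAlgHom k U.A (Localization.Away (locElt (U.chart hb) L'))))
  has := by
    rw [← U.chart_ideal hb, ← Chart.ideal_map, ← isUnit_locElt_iff, locElt_map]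
    exact IsLocalization.Away.algebraMap_isUnit _
  desc := by
    intro R _ _ I' h
    obtain ⟨φ, hφ⟩ := U.desc R I' (fun b hb => h b (hL hb))
    have hu : IsUnit (φ (locElt (U.chart hb) L')) := by
      rw [← locElt_map, isUnit_locElt_iff, Chart.ideal_map, U.chart_ideal hb, hφ]
      exact h
    refine ⟨IsLocalization.liftAlgHom (M := Submonoid.powers (locElt (U.chart hb) L'))
      (f := φ) ?_, ?_⟩
    · rintro ⟨_, n, rfl⟩
      simpa using hu.pow n
    · rw [← map_bc_comp, ← hφ]
      congr 2
      ext x
      simp
  uniq := by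
    intro R _ _ φ ψ h
    rw [← map_bc_comp, ← map_bc_comp] at h
    have := U.uniq _ _ _ h
    apply IsLocalization.algHom_ext (Submonoid.powers (locElt (U.chart hb) L'))
    exact this

end Multi

end Pool.Agent.H14
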