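import Mathlib

/-!
# Bases of finite flat algebras on neighbourhoods
-/

set_option autoImplicit false
set_option linter.unusedSectionVars false

open TensorProduct

namespace Pool.Agent.H14

section

variable {R A : Type} [CommRing R] [CommRing A] [Algebra R A] {n : ℕ}

/-- the localised algebra -/
abbrev LA (A : Type) [CommRing A] [Algebra R A] (S : Submonoid R) : Type :=
  Localization (Algebra.algebraMapSubmonoid A S)

lemma lc_map (S : Submonoid R) (v : Fin n → A) :
    IsLocalizedModule.map S (Finsupp.mapRange.linearMap (Algebra.linearMap R (Localization S)))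
      (IsScalarTower.toAlgHom R A (LA A S)).toLinearMap (Finsupp.linearCombination R v) =
    (Finsupp.linearCombination (Localization S)
      (fun i => algebraMap A (LA A S) (v i))).restrictScalars R := by
  apply IsLocalizedModule.linearMap_ext S
    (Finsupp.mapRange.linearMap (Algebra.linearMap R (Localization S)))
    (IsScalarTower.toAlgHom R A (LA A S)).toLinearMap
  rw [IsLocalizedModule.map_comp]
  ext i
  simp

theorem exists_loc_bijective [Module.Finite R A] [Module.Flat R A] [Module.FinitePresentation R A]
    (y : PrimeSpectrum R) (v : Fin n → A)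
    (h : Function.Bijective (Finsupp.linearCombination (Localization y.asIdeal.primeCompl)
      (fun i => algebraMap A (LA A y.asIdeal.primeCompl) (v i)))) :
    ∃ r : R, r ∉ y.asIdeal ∧ Function.Bijective (Finsupp.linearCombination
      (Localization (Submonoid.powers r))
      (fun i => algebraMap A (LA A (Submonoid.powers r)) (v i))) := by
  have h1 : Function.Bijective (IsLocalizedModule.map y.asIdeal.primeCompl
      (Finsupp.mapRange.linearMap (α := Fin n)
        (Algebra.linearMap R (Localization y.asIdeal.primeCompl)))
      (IsScalarTower.toAlgHom R A (LA A y.asIdeal.primeCompl)).toLinearMap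
      (Finsupp.linearCombination R v)) := by
    rw [lc_map]; exact h
  obtain ⟨r, hr, h2⟩ := Module.FinitePresentation.exists_notMem_bijective
    (Finsupp.linearCombination R v) y.asIdeal _ _ h1
  refine ⟨r, hr, ?_⟩
  rw [← IsLocalizedModule.map_bijective_iff_localizedModuleMap_bijective
    (Finsupp.mapRange.linearMap (α := Fin n)
        (Algebra.linearMap R (Localization (Submonoid.powers r))))
    (IsScalarTower.toAlgHom R A (LA A (Submonoid.powers r))).toLinearMap, lc_map] at h2
  exact h2

variable {K AK : Type} [Field K] [CommRing AK] [Algebra K AK]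

theorem bijective_at [Module.Finite R A] [Module.Flat R A] [Module.FinitePresentation R A]
    (κ : R →+* K) (ζ : A →+* AK) (hζ : ∀ r, ζ (algebraMap R A r) = algebraMap K AK (κ r))
    (y : PrimeSpectrum R) (hy : y.asIdeal = RingHom.ker κ)
    (v : Fin n → A) (hli : LinearIndependent K (fun i => ζ (v i)))
    (hrank : Module.rankAtStalk (R := R) A y = n) :
    Function.Bijective (Finsupp.linearCombination (Localization y.asIdeal.primeCompl)
      (fun i => algebraMap A (LA A y.asIdeal.primeCompl) (v i))) := by
  classical
  set S := y.asIdeal.primeCompl with hS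
  set Ry := Localization S with hRy
  have hloc : IsLocalRing Ry := inferInstanceAs (IsLocalRing (Localization.AtPrime y.asIdeal))
  have hfin : Module.Finite Ry (LA A S) :=
    Module.Finite.of_isLocalizedModule S (Rₚ := Ry)
      (IsScalarTower.toAlgHom R A (LA A S)).toLinearMap
  have hflat : Module.Flat Ry (LA A S) := inferInstance
  have hfree : Module.Free Ry (LA A S) := Module.free_of_flat_of_isLocalRing
  have hfr : Module.finrank Ry (LA A S) = n := by
    rw [← hrank, Module.rankAtStalk]
    have e1 := IsLocalizedModule.iso S (IsScalarTower.toAlgHom R A (LA A S)).toLinearMap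
    exact ((e1.extendScalarsOfIsLocalization S Ry).finrank_eq).symm
  let w : Module.Basis (Fin n) Ry (LA A S) := Module.finBasisOfFinrankEq Ry (LA A S) hfr
  -- the maps to K
  have hκ : ∀ r : S, IsUnit (κ r) := by
    intro r
    rw [isUnit_iff_ne_zero]
    intro h0
    have : (r : R) ∈ y.asIdeal := by rw [hy]; exact h0
    exact r.2 this
  let κy : Ry →+* K := IsLocalization.lift hκ
  have hζu : ∀ a : Algebra.algebraMapSubmonoid A S, IsUnit (ζ a) := by
    rintro ⟨_, r, hr, rfl⟩
    rw [show ((⟨algebraMap R A r, ⟨r, hr, rfl⟩⟩ : Algebra.algebraMapSubmonoid A S) : A) =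
      algebraMap R A r from rfl, hζ]
    exact (hκ ⟨r, hr⟩).map _
  let ζy : LA A S →+* AK := IsLocalization.lift hζu
  have hζy : ∀ a, ζy (algebraMap A _ a) = ζ a := fun a => IsLocalization.lift_eq hζu a
  have hκy : ∀ a, κy (algebraMap R _ a) = κ a := fun a => IsLocalization.lift_eq hκ a
  have hcomp : ∀ r : Ry, ζy (algebraMap Ry (LA A S) r) = algebraMap K AK (κy r) := by
    have : ζy.comp (algebraMap Ry (LA A S)) = (algebraMap K AK).comp κy := by
      apply IsLocalization.ringHom_ext S
      ext r
      simp only [RingHom.comp_apply]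
      rw [← IsScalarTower.algebraMap_apply R Ry (LA A S), IsScalarTower.algebraMap_apply R A,
        hζy, hζ, hκy]
    exact fun r => DFunLike.congr_fun this r
  set vy : Fin n → LA A S := fun i => algebraMap A (LA A S) (v i) with hvy
  -- the determinant
  have hdet : IsUnit (w.det vy) := by
    by_contra hnu
    have hmax : w.det vy ∈ IsLocalRing.maximalIdeal Ry := hnu
    have hzero : κy (w.det vy) = 0 := by
      rw [← IsLocalization.AtPrime.under_maximalIdeal Ry y.asIdeal] at hy
      obtain ⟨a, s, has⟩ := IsLocalization.exists_mk'_eq S (w.det vy)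
      have h1 : w.det vy * algebraMap R Ry s = algebraMap R Ry a := by
        rw [← has]; exact IsLocalization.mk'_spec _ _ _
      have h2 : a ∈ RingHom.ker κ := by
        rw [← hy]
        change algebraMap R Ry a ∈ IsLocalRing.maximalIdeal Ry
        rw [← h1]
        exact Ideal.mul_mem_right _ _ hmax
      have h3 := congrArg κy h1
      rw [map_mul, hκy, hκy, show κ a = 0 from h2] at h3
      exact (mul_eq_zero.1 h3).resolve_right (hκ s).ne_zero
    rw [Module.Basis.det_apply, RingHom.map_det] at hzero
    obtain ⟨c, hc, hc2⟩ := Matrix.exists_vecMul_eq_zero_iff.2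
      (show (κy.mapMatrix (w.toMatrix vy)).transpose.det = 0 by rw [Matrix.det_transpose, hzero])
    have h4 : ∑ i, c i • ζ (v i) = 0 := by
      have h5 : ∀ i, ζ (v i) = ∑ j, (κy (w.toMatrix vy j i)) • ζy (w j) := by
        intro i
        rw [← hζy]
        change ζy (vy i) = _
        conv_lhs => rw [← w.sum_toMatrix_smul_self vy i]
        rw [map_sum]
        refine Finset.sum_congr rfl fun j _ => ?_
        rw [Algebra.smul_def, map_mul, hcomp, Algebra.smul_def]
      simp only [h5, Finset.smul_sum, smul_smul]
      rw [Finset.sum_comm]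
      refine Finset.sum_eq_zero fun j _ => ?_
      rw [← Finset.sum_smul]
      have h6 := congrFun hc2 j
      simp only [Matrix.vecMul, dotProduct, Matrix.transpose_apply, RingHom.mapMatrix_apply,
        Matrix.map_apply, Pi.zero_apply] at h6
      rw [h6, zero_smul]
    have h7 := Fintype.linearIndependent_iff.1 hli c h4
    exact hc (funext h7)
  have h8 := (Module.Basis.is_basis_iff_det w).2 hdet
  constructor
  · exact h8.1
  · rw [← LinearMap.range_eq_top, Finsupp.range_linearCombination]
    exact h8.2

/-- a basis on a neighbourhood -/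
theorem exists_loc_basis [Module.Finite R A] [Module.Flat R A] [Module.FinitePresentation R A]
    (κ : R →+* K) (ζ : A →+* AK) (hζ : ∀ r, ζ (algebraMap R A r) = algebraMap K AK (κ r))
    (v : Fin n → A) (hli : LinearIndependent K (fun i => ζ (v i)))
    (hrank : ∀ y : PrimeSpectrum R, Module.rankAtStalk (R := R) A y = n) :
    ∃ r : R, κ r ≠ 0 ∧ ∃ bas : Module.Basis (Fin n) (Localization (Submonoid.powers r))
      (LA A (Submonoid.powers r)), ∀ i, bas i = algebraMap A _ (v i) := by
  have hp : (RingHom.ker κ).IsPrime := RingHom.ker_isPrime κ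
  obtain ⟨r, hr, hb⟩ := exists_loc_bijective ⟨RingHom.ker κ, hp⟩ v
    (bijective_at κ ζ hζ ⟨RingHom.ker κ, hp⟩ rfl v hli (hrank _))
  refine ⟨r, fun h => hr h, Module.Basis.mk hb.1 ?_, ?_⟩
  · rw [← Finsupp.range_linearCombination, LinearMap.range_eq_top.2 hb.2]
  · intro i
    rw [Module.Basis.mk_apply]

end

end Pool.Agent.H14
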