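import Mathlib

/-!
# Parameters of a smooth local algebra at a rational point
-/

set_option autoImplicit false
set_option linter.unusedSectionVars false

open TensorProduct KaehlerDifferential

namespace Pool.Agent.H14

section

variable (k L : Type) [Field k] [CommRing L] [IsLocalRing L] [Algebra k L]

/-- the cotangent space -/
abbrev KS : Type := IsLocalRing.ResidueField L ⊗[L] Ω[L⁄k]

/-- the differential -/
noncomputable def dL : L →ₗ[k] KS k L :=
  (((TensorProduct.mk L (IsLocalRing.ResidueField L) Ω[L⁄k] 1).restrictScalars k) ∘ₗ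
    (KaehlerDifferential.D k L : L →ₗ[k] Ω[L⁄k]))

variable {k L}

lemma dL_apply (x : L) : dL k L x = 1 ⊗ₜ KaehlerDifferential.D k L x := rfl

lemma dL_algebraMap (c : k) : dL k L (algebraMap k L c) = 0 := by
  rw [dL_apply, Derivation.map_algebraMap, tmul_zero]

lemma smul_KS (a : L) (ha : a ∈ IsLocalRing.maximalIdeal L) (y : Ω[L⁄k]) :
    (1 : IsLocalRing.ResidueField L) ⊗ₜ[L] (a • y) = 0 := by
  rw [tmul_smul, smul_tmul']
  have : a • (1 : IsLocalRing.ResidueField L) = 0 := by
    rw [Algebra.smul_def, mul_one]
    exact Ideal.Quotient.eq_zero_iff_mem.2 ha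
  rw [this, zero_tmul]

lemma dL_sq (x : L) (hx : x ∈ IsLocalRing.maximalIdeal L ^ 2) : dL k L x = 0 := by
  rw [pow_two] at hx
  refine Submodule.mul_induction_on hx ?_ ?_
  · intro a ha b hb
    rw [dL_apply, Derivation.leibniz, tmul_add, smul_KS a ha, smul_KS b hb, add_zero]
  · intro a b ha hb
    rw [map_add, ha, hb, add_zero]

variable (hκ : Function.Bijective (algebraMap k (IsLocalRing.ResidueField L)))

include hκ in
lemma dL_inj [Algebra.FormallySmooth k L] (x : L) (hx : x ∈ IsLocalRing.maximalIdeal L)
    (h : dL k L x = 0) : x ∈ IsLocalRing.maximalIdeal L ^ 2 := by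
  have hsurj : Function.Surjective (algebraMap L (IsLocalRing.ResidueField L)) :=
    IsLocalRing.residue_surjective
  have hfs : Algebra.FormallySmooth k (IsLocalRing.ResidueField L) :=
    Algebra.FormallySmooth.of_equiv (AlgEquiv.ofBijective (Algebra.ofId k _) hκ)
  have hinj := (Algebra.FormallySmooth.kerCotangentToTensor_injective_iff (R := k) (P := L)
    (A := IsLocalRing.ResidueField L) hsurj).2 inferInstance
  have hker : RingHom.ker (algebraMap L (IsLocalRing.ResidueField L)) =
      IsLocalRing.maximalIdeal L := Ideal.mk_ker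
  have hx' : x ∈ RingHom.ker (algebraMap L (IsLocalRing.ResidueField L)) := hker ▸ hx
  have h1 : kerCotangentToTensor k L (IsLocalRing.ResidueField L)
      (Ideal.toCotangent _ ⟨x, hx'⟩) = 0 := by
    rw [kerCotangentToTensor_toCotangent]
    exact h
  rw [← map_zero (kerCotangentToTensor k L (IsLocalRing.ResidueField L))] at h1
  have h2 := hinj h1
  rw [Ideal.toCotangent_eq_zero] at h2
  rw [← hker]
  exact h2

include hκ in
lemma dL_surj : Function.Surjective (dL k L) := by
  have hres : ∀ x : L, ∃ c : k, x - algebraMap k L c ∈ IsLocalRing.maximalIdeal L := by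
    intro x
    obtain ⟨c, hc⟩ := hκ.2 (IsLocalRing.residue L x)
    refine ⟨c, ?_⟩
    rw [← IsLocalRing.residue_eq_zero_iff, map_sub, ← hc, sub_eq_zero]
    rfl
  rw [← LinearMap.range_eq_top, eq_top_iff]
  rintro y -
  induction y using TensorProduct.induction_on with
  | zero => exact zero_mem _
  | add a b ha hb => exact add_mem ha hb
  | tmul c y =>
    obtain ⟨c, rfl⟩ := hκ.2 c
    have h1 : (algebraMap k (IsLocalRing.ResidueField L) c) ⊗ₜ[L] y =
        c • ((1 : IsLocalRing.ResidueField L) ⊗ₜ[L] y) := by
      rw [smul_tmul', Algebra.algebraMap_eq_smul_one]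
    rw [h1]
    refine Submodule.smul_mem _ _ ?_
    have hy : y ∈ Submodule.span L (Set.range (KaehlerDifferential.D k L)) := by
      rw [KaehlerDifferential.span_range_derivation]; trivial
    clear h1
    induction hy using Submodule.span_induction with
    | mem y hy => obtain ⟨x, rfl⟩ := hy; exact ⟨x, rfl⟩
    | zero => rw [tmul_zero]; exact zero_mem _
    | add a b _ _ ha hb => rw [tmul_add]; exact add_mem ha hb
    | smul a y _ hy =>
      obtain ⟨c, hc⟩ := hres a
      have h2 : (1 : IsLocalRing.ResidueField L) ⊗ₜ[L] (a • y) = c • (1 ⊗ₜ y) := by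
        have h3 : a • y = (a - algebraMap k L c) • y + c • y := by
          rw [sub_smul, algebraMap_smul, sub_add_cancel]
        rw [h3, tmul_add, smul_KS _ hc, zero_add, tmul_smul]
      rw [h2]
      exact Submodule.smul_mem _ _ hy

include hκ in
lemma finrank_KS [Module.Finite L Ω[L⁄k]] [Module.Free L Ω[L⁄k]] :
    Module.finrank k (KS k L) = Module.finrank L Ω[L⁄k] := by
  have h1 : Module.finrank (IsLocalRing.ResidueField L) (KS k L) = Module.finrank L Ω[L⁄k] :=
    Module.finrank_baseChange
  have h2 : Module.finrank k (IsLocalRing.ResidueField L) = 1 := by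
    rw [← Module.finrank_self k]
    exact (LinearEquiv.ofBijective (Algebra.linearMap k (IsLocalRing.ResidueField L))
      hκ).finrank_eq.symm
  rw [← h1, ← Module.finrank_mul_finrank k (IsLocalRing.ResidueField L) (KS k L), h2, one_mul]

lemma injective_of_basis {R M N ι : Type*} [Ring R] [AddCommGroup M] [Module R M]
    [AddCommGroup N] [Module R N] [Fintype ι] (b : Module.Basis ι R M) (g : M →ₗ[R] N)
    (h : LinearIndependent R (fun i => g (b i))) : Function.Injective g := by
  rw [injective_iff_map_eq_zero]
  intro x hx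
  rw [← b.sum_repr x, map_sum] at hx
  simp only [map_smul] at hx
  have h1 := Fintype.linearIndependent_iff.1 h _ hx
  rw [← b.sum_repr x]
  exact Finset.sum_eq_zero fun i _ => by rw [h1, zero_smul]

include hκ in
/-- the Jacobian criterion -/
theorem smooth_of_dL [Algebra.FormallySmooth k L] [Module.Finite L Ω[L⁄k]]
    [Module.Free L Ω[L⁄k]] {r : ℕ} [Algebra (MvPolynomial (Fin r) k) L]
    [IsScalarTower k (MvPolynomial (Fin r) k) L]
    (hli : LinearIndependent k
      (fun i => dL k L (algebraMap (MvPolynomial (Fin r) k) L (MvPolynomial.X i)))) :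
    Algebra.FormallySmooth (MvPolynomial (Fin r) k) L := by
  set P := MvPolynomial (Fin r) k with hP
  let g : L ⊗[P] Ω[P⁄k] →ₗ[L] Ω[L⁄k] := mapBaseChange k P L
  let bP : Module.Basis (Fin r) P Ω[P⁄k] := mvPolynomialBasis k (Fin r)
  have hbP : ∀ i, bP i = KaehlerDifferential.D k P (MvPolynomial.X i) := by
    intro i
    rw [← one_smul P (KaehlerDifferential.D k P (MvPolynomial.X i)),
      ← mvPolynomialBasis_repr_symm_single]
    rfl
  have hfree : Module.Free P Ω[P⁄k] := Module.Free.of_basis bP
  have hfinP : Module.Finite P Ω[P⁄k] := Module.Finite.of_basis bP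
  let bL : Module.Basis (Fin r) L (L ⊗[P] Ω[P⁄k]) := bP.baseChange L
  let bκ : Module.Basis (Fin r) (IsLocalRing.ResidueField L)
    (IsLocalRing.ResidueField L ⊗[L] (L ⊗[P] Ω[P⁄k])) := bL.baseChange _
  have hinj : Function.Injective (g.lTensor (IsLocalRing.ResidueField L)) := by
    have h1 : Function.Injective (g.baseChange (IsLocalRing.ResidueField L)) := by
      apply injective_of_basis bκ
      have h2 : ∀ i, g.baseChange (IsLocalRing.ResidueField L) (bκ i) =
          dL k L (algebraMap P L (MvPolynomial.X i)) := by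
        intro i
        rw [Module.Basis.baseChange_apply, Module.Basis.baseChange_apply, hbP,
          LinearMap.baseChange_tmul]
        change 1 ⊗ₜ (mapBaseChange k P L _) = _
        rw [mapBaseChange_tmul, one_smul, map_D]
        rfl
      simp only [h2]
      rw [Fintype.linearIndependent_iff] at hli ⊢
      intro c hc i
      choose c' hc' using fun i => hκ.2 (c i)
      have h3 : ∑ i, c' i • dL k L (algebraMap P L (MvPolynomial.X i)) = 0 := by
        rw [← hc]
        refine Finset.sum_congr rfl fun j _ => ?_
        rw [← hc', algebraMap_smul]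
      rw [← hc', hli c' h3 i, map_zero]
    exact h1
  have hsplit := (IsLocalRing.split_injective_iff_lTensor_residueField_injective g).2 hinj
  obtain ⟨l, hl⟩ := hsplit
  have hginj : Function.Injective g := by
    intro x y hxy
    have := congrArg l hxy
    rwa [← LinearMap.comp_apply, ← LinearMap.comp_apply, hl] at this
  refine ⟨?_, ?_⟩
  · have h1 : Function.Exact g (KaehlerDifferential.map k P L L) :=
      exact_mapBaseChange_map k P L
    have h3 : Function.Surjective (KaehlerDifferential.map k P L L) ∧
        ∃ l, l ∘ₗ g = LinearMap.id := ⟨KaehlerDifferential.map_surjective k P L, l, hl⟩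
    have h2 := (h1.split_tfae'.out 1 0).1 h3
    obtain ⟨-, l', hl'⟩ := h2
    exact Module.Projective.of_split l' _ hl'
  · rw [subsingleton_iff_forall_eq 0]
    intro y
    have h1 : Algebra.H1Cotangent.δ k P L y = 0 := by
      apply hginj
      rw [map_zero]
      exact (Algebra.H1Cotangent.exact_δ_mapBaseChange k P L _).2 ⟨y, rfl⟩
    obtain ⟨z, hz⟩ := (Algebra.H1Cotangent.exact_map_δ k P L y).1 h1
    rw [← hz, Subsingleton.elim z 0, map_zero]

end

end Pool.Agent.H14
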