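import Pool.Agent.H14.HUniv

/-!
# Charts from commuting matrices
-/

set_option autoImplicit false

universe u

open MvPolynomial Matrix

namespace Pool.Agent.H14

variable {k : Type u} [CommRing k] {r d : ℕ} {R : Type u} [CommRing R] [Algebra k R]

/-- evaluation at commuting matrices -/
noncomputable def matEval (k : Type u) [CommRing k] [Algebra k R]
    (M : Fin r → Matrix (Fin d) (Fin d) R) (h : ∀ i j, M i * M j = M j * M i) :
    MvPolynomial (Fin r) k →ₐ[k] Matrix (Fin d) (Fin d) R :=
  letI : CommRing (Algebra.adjoin k (Set.range M)) :=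
    { (inferInstance : Ring (Algebra.adjoin k (Set.range M))) with
      mul_comm := fun x y => (Algebra.isMulCommutative_adjoin k (s := Set.range M) (by
        rintro _ ⟨i, rfl⟩ _ ⟨j, rfl⟩
        exact h i j)).is_comm.comm x y }
  (Algebra.adjoin k (Set.range M)).val.comp
    (aeval fun i => (⟨M i, Algebra.subset_adjoin ⟨i, rfl⟩⟩ : Algebra.adjoin k (Set.range M)))

lemma matEval_X (M : Fin r → Matrix (Fin d) (Fin d) R) (h : ∀ i j, M i * M j = M j * M i)
    (i : Fin r) : matEval k M h (X i) = M i := by
  simp [matEval]

lemma matEval_mul_comm (M : Fin r → Matrix (Fin d) (Fin d) R)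
    (h : ∀ i j, M i * M j = M j * M i) (x y : MvPolynomial (Fin r) k) :
    matEval k M h x * matEval k M h y = matEval k M h y * matEval k M h x := by
  rw [← map_mul, ← map_mul, mul_comm]

/-- the chart datum given by commuting matrices and a vector -/
noncomputable def Chart.ofMat (b : Fin d → MvPolynomial (Fin r) k)
    (M : Fin r → Matrix (Fin d) (Fin d) R) (h : ∀ i j, M i * M j = M j * M i) (v : Fin d → R)
    (hb : ∀ i, (matEval k M h (b i)).mulVec v = Pi.single i 1) : Chart k b R where
  q :=
    { toFun := fun f => (matEval k M h f).mulVec v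
      map_add' := fun x y => by rw [map_add, Matrix.add_mulVec]
      map_smul' := fun c x => by rw [map_smul, Matrix.smul_mulVec, RingHom.id_apply] }
  q_b := hb
  q_mul := by
    intro x y
    simp only [LinearMap.coe_mk, AddHom.coe_mk]
    have h1 : ∀ w : Fin d → R, w = ∑ j, w j • (Pi.single j (1 : R) : Fin d → R) := by
      intro w
      ext l
      simp [Finset.sum_apply, Pi.single_apply]
    rw [map_mul, matEval_mul_comm, ← Matrix.mulVec_mulVec]
    conv_lhs => rw [h1 ((matEval k M h x).mulVec v)]
    rw [Matrix.mulVec_sum]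
    refine Finset.sum_congr rfl fun j _ => ?_
    rw [Matrix.mulVec_smul, ← hb j, Matrix.mulVec_mulVec, matEval_mul_comm, ← map_mul]

lemma Chart.ofMat_q (b : Fin d → MvPolynomial (Fin r) k)
    (M : Fin r → Matrix (Fin d) (Fin d) R) (h : ∀ i j, M i * M j = M j * M i) (v : Fin d → R)
    (hb : ∀ i, (matEval k M h (b i)).mulVec v = Pi.single i 1) (f : MvPolynomial (Fin r) k) :
    (Chart.ofMat b M h v hb).q f = (matEval k M h f).mulVec v := rfl

/-- a chart datum is determined by the value at `1` and the products of the basis elements with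
the variables -/
lemma Chart.ext_of {b : Fin d → MvPolynomial (Fin r) k} {c c' : Chart k b R}
    (h1 : c.q 1 = c'.q 1) (h : ∀ i j, c.q (b j * X i) = c'.q (b j * X i)) : c = c' := by
  apply Chart.ext'
  intro f
  induction f using MvPolynomial.induction_on with
  | C a =>
    have : (C a : MvPolynomial (Fin r) k) = a • 1 := by
      rw [MvPolynomial.smul_eq_C_mul, mul_one]
    rw [this, map_smul, map_smul, h1]
  | add p q hp hq => rw [map_add, map_add, hp, hq]
  | mul_X p i hp =>
    rw [c.q_mul, c'.q_mul, hp]
    exact Finset.sum_congr rfl fun j _ => by rw [h]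

end Pool.Agent.H14
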