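import Pool.Agent.H14.Weil

/-!
# The finite free algebra defined by a chart datum
-/

set_option autoImplicit false
set_option linter.unusedSectionVars false

open TensorProduct CategoryTheory AlgebraicGeometry

namespace Pool.Agent.H14

section

variable {k : Type} [CommRing k] {P : Type} [CommRing P] [Algebra k P] {d : ℕ} {e : Fin d → P}
variable {R : Type} [CommRing R] [Algebra k R]

noncomputable instance algR (c : Chart k e R) : Algebra R (OC c) :=
  ((mkO c).comp (algebraMap R (R ⊗[k] P))).toAlgebra

lemma algebraMap_OC_left (c : Chart k e R) (r : R) :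
    algebraMap R (OC c) r = mkO c (r ⊗ₜ 1) := rfl

lemma mkO_tmul (c : Chart k e R) (r : R) (p : P) :
    mkO c (r ⊗ₜ p) = algebraMap R (OC c) r * algebraMap P (OC c) p := by
  rw [algebraMap_OC_left, algebraMap_OC, ← map_mul, Algebra.TensorProduct.tmul_mul_tmul, mul_one,
    one_mul]

lemma algebraMap_comm (c : Chart k e R) (a : k) :
    algebraMap R (OC c) (algebraMap k R a) = algebraMap P (OC c) (algebraMap k P a) := by
  rw [algebraMap_OC_left, algebraMap_OC, Algebra.algebraMap_eq_smul_one,
    Algebra.algebraMap_eq_smul_one, tmul_smul, smul_tmul']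

lemma LO_smul' (c : Chart k e R) (r : R) (y : OC c) : LO c (r • y) = r • LO c y := by
  obtain ⟨y, rfl⟩ := mkO_surjective c y
  have h2 : r • mkO c y = mkO c (r • y) := by
    rw [Algebra.smul_def, algebraMap_OC_left, ← map_mul, Algebra.smul_def]
    rfl
  rw [h2, LO_mk, LO_mk, map_smul]

/-- coordinates as a linear equivalence -/
noncomputable def LOe (c : Chart k e R) : OC c ≃ₗ[R] (Fin d → R) :=
  LinearEquiv.ofBijective
    { toFun := LO c
      map_add' := LO_add c
      map_smul' := LO_smul' c } ⟨LO_injective c, fun v => ⟨sO c v, LO_sO c v⟩⟩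

/-- the basis -/
noncomputable def basisO (c : Chart k e R) : Module.Basis (Fin d) R (OC c) :=
  Module.Basis.ofEquivFun (LOe c)

lemma basisO_apply (c : Chart k e R) (i : Fin d) :
    basisO c i = algebraMap P (OC c) (e i) := by
  rw [basisO, Module.Basis.coe_ofEquivFun]
  apply (LOe c).injective
  rw [LinearEquiv.apply_symm_apply]
  change _ = LO c _
  rw [LO_algebraMap, c.q_b]

lemma basisO_repr (c : Chart k e R) (p : P) (i : Fin d) :
    (basisO c).repr (algebraMap P (OC c) p) i = c.q p i := by
  rw [basisO, Module.Basis.ofEquivFun_repr_apply]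
  change LO c _ i = _
  rw [LO_algebraMap]

instance (c : Chart k e R) : Module.Free R (OC c) := Module.Free.of_basis (basisO c)
instance (c : Chart k e R) : Module.Finite R (OC c) := Module.Finite.of_basis (basisO c)

lemma rank_OC (c : Chart k e R) (x : PrimeSpectrum R) :
    Module.rankAtStalk (R := R) (OC c) x = d := by
  have : Nontrivial R := x.nontrivial
  rw [Module.rankAtStalk_eq_finrank_of_free, Module.finrank_eq_card_basis (basisO c)]
  simp

/-- ring homomorphisms from `OC c` are determined on the two factors -/
lemma OC_hom_ext (c : Chart k e R) {A : Type*} [CommRing A] {f g : OC c →+* A}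
    (h1 : ∀ r, f (algebraMap R (OC c) r) = g (algebraMap R (OC c) r))
    (h2 : ∀ p, f (algebraMap P (OC c) p) = g (algebraMap P (OC c) p)) : f = g := by
  ext x
  obtain ⟨x, rfl⟩ := mkO_surjective c x
  induction x using TensorProduct.induction_on with
  | zero => simp
  | add x y hx hy => rw [map_add, map_add, map_add, hx, hy]
  | tmul r p => rw [mkO_tmul, map_mul, map_mul, h1, h2]

end

section basis

variable {k : Type} [CommRing k] {P : Type} [CommRing P] [Algebra k P] {d : ℕ} {e : Fin d → P}
variable {R : Type} [CommRing R] [Algebra k R] {A : Type} [CommRing A] [Algebra k A] [Algebra R A]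
  [IsScalarTower k R A]

/-- the chart datum of an algebra with a basis -/
noncomputable def Chart.ofBasis (bas : Module.Basis (Fin d) R A) (β : P →ₐ[k] A)
    (h : ∀ i, β (e i) = bas i) : Chart k e R where
  q := ((bas.equivFun : A →ₗ[R] (Fin d → R)).restrictScalars k) ∘ₗ β.toLinearMap
  q_b i := by
    simp only [LinearMap.coe_comp, LinearMap.coe_restrictScalars, Function.comp_apply,
      AlgHom.toLinearMap_apply, h, LinearEquiv.coe_coe]
    ext j
    rw [Module.Basis.equivFun_self, Pi.single_apply]
    simp [eq_comm]
  q_mul x y := by
    simp only [LinearMap.coe_comp, LinearMap.coe_restrictScalars, Function.comp_apply,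
      AlgHom.toLinearMap_apply, LinearEquiv.coe_coe, map_mul]
    conv_lhs => rw [← bas.sum_equivFun (β x)]
    rw [Finset.sum_mul, map_sum]
    refine Finset.sum_congr rfl fun j _ => ?_
    rw [smul_mul_assoc, map_smul, h]

lemma Chart.ofBasis_q (bas : Module.Basis (Fin d) R A) (β : P →ₐ[k] A)
    (h : ∀ i, β (e i) = bas i) (x : P) (i : Fin d) :
    (Chart.ofBasis bas β h).q x i = bas.repr (β x) i := rfl

/-- the algebra of the chart datum of an algebra with a basis -/
noncomputable def ocEquiv (bas : Module.Basis (Fin d) R A) (β : P →ₐ[k] A)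
    (h : ∀ i, β (e i) = bas i) : OC (Chart.ofBasis bas β h) ≃+* A :=
  RingEquiv.ofBijective
    (Ideal.Quotient.lift (Chart.ofBasis bas β h).ideal
      (Algebra.TensorProduct.lift (Algebra.ofId R A) β (fun _ _ => Commute.all _ _)).toRingHom
      (by
        intro x hx
        rw [Chart.mem_ideal] at hx
        have key : ∀ x : R ⊗[k] P, bas.equivFun
            (Algebra.TensorProduct.lift (Algebra.ofId R A) β (fun _ _ => Commute.all _ _) x) =
            (Chart.ofBasis bas β h).L x := by
          intro x
          induction x using TensorProduct.induction_on with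
          | zero => simp
          | add x y hx hy => rw [map_add, map_add, map_add, hx, hy]
          | tmul r p =>
            rw [Algebra.TensorProduct.lift_tmul, Chart.L_tmul]
            change bas.equivFun (algebraMap R A r * β p) = _
            rw [← Algebra.smul_def, map_smul]
            rfl
        apply bas.equivFun.injective
        rw [map_zero]
        exact (key x).trans hx) : OC (Chart.ofBasis bas β h) →+* A)
    (by
      have key : ∀ x : R ⊗[k] P, bas.equivFun
          (Algebra.TensorProduct.lift (Algebra.ofId R A) β (fun _ _ => Commute.all _ _) x) =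
          (Chart.ofBasis bas β h).L x := by
        intro x
        induction x using TensorProduct.induction_on with
        | zero => simp
        | add x y hx hy => rw [map_add, map_add, map_add, hx, hy]
        | tmul r p =>
          rw [Algebra.TensorProduct.lift_tmul, Chart.L_tmul]
          change bas.equivFun (algebraMap R A r * β p) = _
          rw [← Algebra.smul_def, map_smul]
          rfl
      constructor
      · intro x y hxy
        obtain ⟨x, rfl⟩ := mkO_surjective _ x
        obtain ⟨y, rfl⟩ := mkO_surjective _ y
        rw [mkO_eq_iff, ← key, ← key]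
        exact congrArg _ hxy
      · intro a
        refine ⟨mkO _ (Chart.expand R e (bas.equivFun a)), ?_⟩
        apply bas.equivFun.injective
        exact (key _).trans (Chart.L_expand _ _))

lemma ocEquiv_left (bas : Module.Basis (Fin d) R A) (β : P →ₐ[k] A)
    (h : ∀ i, β (e i) = bas i) (r : R) :
    ocEquiv bas β h (algebraMap R _ r) = algebraMap R A r := by
  change Algebra.TensorProduct.lift (Algebra.ofId R A) β (fun _ _ => Commute.all _ _)
    (r ⊗ₜ 1) = _
  rw [Algebra.TensorProduct.lift_tmul, map_one, mul_one]
  rfl

lemma ocEquiv_right (bas : Module.Basis (Fin d) R A) (β : P →ₐ[k] A)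
    (h : ∀ i, β (e i) = bas i) (p : P) :
    ocEquiv bas β h (algebraMap P _ p) = β p := by
  change Algebra.TensorProduct.lift (Algebra.ofId R A) β (fun _ _ => Commute.all _ _)
    (1 ⊗ₜ p) = _
  rw [Algebra.TensorProduct.lift_tmul, map_one, one_mul]

end basis

section pushout

variable {R R' A A' : Type} [CommRing R] [CommRing R'] [CommRing A] [CommRing A'] {d : ℕ}

lemma isPushout_of_basis [Algebra R R'] [Algebra R A] [Algebra R' A'] [Algebra A A']
    [Algebra R A'] [IsScalarTower R R' A'] [IsScalarTower R A A']
    (b : Module.Basis (Fin d) R A) (b' : Module.Basis (Fin d) R' A')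
    (h : ∀ i, algebraMap A A' (b i) = b' i) : Algebra.IsPushout R R' A A' := by
  refine ⟨IsBaseChange.of_equiv ((b.baseChange R').equiv b' (Equiv.refl _)) fun x => ?_⟩
  have : ((((b.baseChange R').equiv b' (Equiv.refl _)) : R' ⊗[R] A →ₗ[R'] A').restrictScalars R) ∘ₗ
      (TensorProduct.mk R R' A 1) = (IsScalarTower.toAlgHom R A A').toLinearMap := by
    apply b.ext
    intro i
    change ((b.baseChange R').equiv b' (Equiv.refl _)) (1 ⊗ₜ b i) = algebraMap A A' (b i)
    rw [← Module.Basis.baseChange_apply, Module.Basis.equiv_apply, Equiv.refl_apply, ← h]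
  exact LinearMap.congr_fun this x

end pushout

end Pool.Agent.H14
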