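import Pool.Agent.H14.TabRel

/-!
# The Plücker algebra of `G(2,6)`: the regular representation
-/

set_option autoImplicit false

open MvPolynomial

namespace Pool.Agent.H14

section rel

variable {R : Type*} [CommRing R]

/-- The fifteen Plücker relations `p_ij p_kl - p_ik p_jl + p_il p_jk`, in the parameters
`t = (p12, p13, p14 + p23, p15 + p24, p16 + p25 + p34, p26 + p35, p36 + p45, p46, p56)` and
`u = (p23, p24, p25, p34, p35, p45)`. -/
def plRel (t : Fin 9 → R) (u : Fin 6 → R) : Fin 15 → R :=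
  ![t 0 * u 3 - t 1 * u 1 + (t 2 - u 0) * u 0,
    t 0 * u 4 - t 1 * u 2 + (t 3 - u 1) * u 0,
    t 0 * (t 6 - u 5) - t 1 * (t 5 - u 4) + (t 4 - u 2 - u 3) * u 0,
    t 0 * u 5 - (t 2 - u 0) * u 2 + (t 3 - u 1) * u 1,
    t 0 * t 7 - (t 2 - u 0) * (t 5 - u 4) + (t 4 - u 2 - u 3) * u 1,
    t 0 * t 8 - (t 3 - u 1) * (t 5 - u 4) + (t 4 - u 2 - u 3) * u 2,
    t 1 * u 5 - (t 2 - u 0) * u 4 + (t 3 - u 1) * u 3,
    t 1 * t 7 - (t 2 - u 0) * (t 6 - u 5) + (t 4 - u 2 - u 3) * u 3,
    t 1 * t 8 - (t 3 - u 1) * (t 6 - u 5) + (t 4 - u 2 - u 3) * u 4,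
    (t 2 - u 0) * t 8 - (t 3 - u 1) * t 7 + (t 4 - u 2 - u 3) * u 5,
    u 0 * u 5 - u 1 * u 4 + u 2 * u 3,
    u 0 * t 7 - u 1 * (t 6 - u 5) + (t 5 - u 4) * u 3,
    u 0 * t 8 - u 2 * (t 6 - u 5) + (t 5 - u 4) * u 4,
    u 1 * t 8 - u 2 * t 7 + (t 5 - u 4) * u 5,
    u 3 * t 8 - u 4 * t 7 + (t 6 - u 5) * u 5]

lemma plRel_map {R' : Type*} [CommRing R'] (f : R →+* R') (t : Fin 9 → R) (u : Fin 6 → R)
    (i : Fin 15) : f (plRel t u i) = plRel (fun j => f (t j)) (fun j => f (u j)) i := by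
  fin_cases i <;> simp [plRel]

end rel

variable (k : Type) [CommRing k]

/-- the polynomial ring of the parameters -/
abbrev A9 : Type := MvPolynomial (Fin 9) k

/-- the parameters -/
noncomputable def th (i : ℕ) : A9 k := if h : i < 9 then X ⟨i, h⟩ else 0

/-- the matrices of the regular representation -/
noncomputable def Mx (j : ℕ) : Matrix (Fin 14) (Fin 14) (A9 k) := (SP.tm j).ev (th k) 14

lemma Mx_comm (i j : Fin 6) : Mx k i * Mx k j = Mx k j * Mx k i := by
  rcases lt_trichotomy i j with h | h | h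
  · exact SP.comm_of_check _ _ _ _ (SP.comm_chk i i.2 j j.2 h)
  · rw [h]
  · exact (SP.comm_of_check _ _ _ _ (SP.comm_chk j j.2 i i.2 h)).symm

/-- the algebra generated by the matrices -/
noncomputable abbrev SA : Subalgebra (A9 k) (Matrix (Fin 14) (Fin 14) (A9 k)) :=
  Algebra.adjoin (A9 k) (Set.range fun j : Fin 6 => Mx k j)

lemma SA_mul_comm (x y : SA k) : x * y = y * x := by
  have := Algebra.isMulCommutative_adjoin (A9 k) (s := Set.range fun j : Fin 6 => Mx k j) (by
    rintro _ ⟨i, rfl⟩ _ ⟨j, rfl⟩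
    exact Mx_comm k i j)
  exact this.is_comm.comm x y

noncomputable instance : CommRing (SA k) :=
  { (inferInstance : Ring (SA k)) with mul_comm := SA_mul_comm k }

/-- the generators -/
noncomputable def gS (j : ℕ) : SA k :=
  if h : j < 6 then ⟨Mx k j, Algebra.subset_adjoin ⟨⟨j, h⟩, rfl⟩⟩ else 1

lemma idM_ev : SP.idM.ev (th k) 14 = 1 := by
  apply Matrix.ext
  intro r j
  simp only [SP.Mat.ev]
  rw [SP.id_chk j j.2 r r.2, Matrix.one_apply]
  by_cases h : r = j
  · simp [h, SP.evm]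
  · rw [if_neg (by rwa [Fin.val_inj]), if_neg h]; simp

lemma gS_val (j : ℕ) : (gS k j : Matrix (Fin 14) (Fin 14) (A9 k)) = Mx k j := by
  unfold gS
  split_ifs with h
  · rfl
  · have : SP.tm j = SP.idM := by
      match j, h with
      | 0, h => omega
      | 1, h => omega
      | 2, h => omega
      | 3, h => omega
      | 4, h => omega
      | 5, h => omega
      | (n + 6), _ => rfl
    rw [Mx, this, idM_ev]
    rfl

/-- the first column -/
noncomputable def col0 : SA k →ₗ[A9 k] (Fin 14 → A9 k) where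
  toFun s := fun r => (s : Matrix (Fin 14) (Fin 14) (A9 k)) r 0
  map_add' x y := by ext r; simp
  map_smul' c x := by ext r; simp

lemma col0_apply (s : SA k) (r : Fin 14) : col0 k s r =
    (s : Matrix (Fin 14) (Fin 14) (A9 k)) r 0 := rfl

lemma ev_one : SP.ev (th k) [(0, 1)] = 1 := by simp [SP.evm]

/-- the elements of the basis -/
noncomputable def bS : Fin 14 → SA k :=
  ![1, gS k 0, gS k 1, gS k 2, gS k 3, gS k 4, gS k 5, gS k 3 * gS k 0, gS k 3 * gS k 1,
    gS k 3 * gS k 2, gS k 3 * gS k 3, gS k 3 * gS k 4, gS k 3 * gS k 5,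
    gS k 3 * (gS k 3 * gS k 3)]

lemma col0_mul (s s' : SA k) (r : Fin 14) : col0 k (s * s') r =
    ∑ l, (s : Matrix (Fin 14) (Fin 14) (A9 k)) r l * col0 k s' l := by
  rw [col0_apply, MulMemClass.coe_mul, Matrix.mul_apply]
  rfl

lemma col0_mul_single (s s' : SA k) (j : Fin 14) (h : col0 k s' = Pi.single j 1) (r : Fin 14) :
    col0 k (s * s') r = (s : Matrix (Fin 14) (Fin 14) (A9 k)) r j := by
  rw [col0_mul, h]
  simp [Pi.single_apply]

lemma col0_one : col0 k 1 = Pi.single 0 1 := by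
  funext r
  rw [col0_apply, OneMemClass.coe_one, Matrix.one_apply, Pi.single_apply]

lemma col0_gS (j : ℕ) (hj : j < 6) : col0 k (gS k j) = Pi.single ⟨j + 1, by omega⟩ 1 := by
  funext r
  rw [col0_apply, gS_val, Mx]
  simp only [SP.Mat.ev]
  rw [show ((0 : Fin 14) : ℕ) = 0 from rfl, SP.col_chk j hj r r.2, Pi.single_apply]
  by_cases h : (r : ℕ) = j + 1
  · rw [if_pos h, if_pos (Fin.ext h), ev_one]
  · rw [if_neg h, if_neg (fun h' => h (congrArg Fin.val h'))]; simp

lemma col0_g3g (j : ℕ) (hj : j < 6) :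
    col0 k (gS k 3 * gS k j) = Pi.single ⟨j + 7, by omega⟩ 1 := by
  funext r
  rw [col0_mul_single k _ _ _ (col0_gS k j hj), gS_val, Mx]
  simp only [SP.Mat.ev]
  rw [show SP.tm 3 = SP.m34 from rfl, SP.col34_chk j hj r r.2, Pi.single_apply]
  by_cases h : (r : ℕ) = j + 7
  · rw [if_pos h, if_pos (Fin.ext h), ev_one]
  · rw [if_neg h, if_neg (fun h' => h (congrArg Fin.val h'))]; simp

lemma col0_g3g3g3 : col0 k (gS k 3 * (gS k 3 * gS k 3)) = Pi.single 13 1 := by
  funext r
  rw [col0_mul_single k _ _ _ (col0_g3g k 3 (by norm_num)), gS_val, Mx]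
  simp only [SP.Mat.ev]
  rw [show SP.tm 3 = SP.m34 from rfl, show 3 + 7 = 10 from rfl, SP.col343_chk r r.2,
    Pi.single_apply]
  by_cases h : (r : ℕ) = 13
  · rw [if_pos h, if_pos (Fin.ext h), ev_one]
  · rw [if_neg h, if_neg (fun h' => h (congrArg Fin.val h'))]; simp

lemma col0_bS (i : Fin 14) : col0 k (bS k i) = Pi.single i 1 := by
  fin_cases i
  · exact col0_one k
  · exact col0_gS k 0 (by norm_num)
  · exact col0_gS k 1 (by norm_num)
  · exact col0_gS k 2 (by norm_num)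
  · exact col0_gS k 3 (by norm_num)
  · exact col0_gS k 4 (by norm_num)
  · exact col0_gS k 5 (by norm_num)
  · exact col0_g3g k 0 (by norm_num)
  · exact col0_g3g k 1 (by norm_num)
  · exact col0_g3g k 2 (by norm_num)
  · exact col0_g3g k 3 (by norm_num)
  · exact col0_g3g k 4 (by norm_num)
  · exact col0_g3g k 5 (by norm_num)
  · exact col0_g3g3g3 k

/-- an element of the algebra is determined by its first column -/
lemma eq_zero_of_col0 (s : SA k) (h : col0 k s = 0) : s = 0 := by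
  apply Subtype.ext
  apply Matrix.ext
  intro r j
  have h1 := col0_mul_single k s (bS k j) j (col0_bS k j) r
  rw [SA_mul_comm, col0_mul, h] at h1
  simp only [Pi.zero_apply, mul_zero, Finset.sum_const_zero] at h1
  rw [← h1, ZeroMemClass.coe_zero, Matrix.zero_apply]

lemma relS (L : List (SP.Poly × ℕ × ℕ))
    (h : SP.relCheck 14 (L.map fun x => (x.1, SP.tm x.2.1, SP.tm x.2.2)) = true) :
    (L.map fun x => algebraMap (A9 k) (SA k) (SP.ev (th k) x.1) * (gS k x.2.1 * gS k x.2.2)).sum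
      = 0 := by
  apply eq_zero_of_col0
  ext1 r
  have h1 := SP.rel_of_check (th k) 13 _ h r
  rw [List.map_map] at h1
  rw [Pi.zero_apply, ← h1]
  clear h1 h
  induction L with
  | nil => simp
  | cons x L ih =>
    rw [List.map_cons, List.map_cons, List.sum_cons, List.sum_cons, map_add, Pi.add_apply, ih]
    congr 1
    rw [← Algebra.smul_def, map_smul, Pi.smul_apply, smul_eq_mul, col0_apply,
      MulMemClass.coe_mul, gS_val, gS_val]
    rfl

end Pool.Agent.H14
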