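import Pool.Agent.H14.PlRules

/-!
# The Plücker algebra of `G(2,6)` is free of rank 14 over the ring of the parameters
-/

set_option autoImplicit false
set_option linter.unusedSimpArgs false

open MvPolynomial

namespace Pool.Agent.H14

variable (k : Type) [CommRing k]

/-- the ideal of the Plücker relations -/
noncomputable def plIdeal : Ideal (MvPolynomial (Fin 6) (A9 k)) :=
  Ideal.span (Set.range (plRel (fun i => C (X i)) X))

/-- the homogeneous coordinate ring of the Grassmannian `G(2,6)` -/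
def Pl : Type := MvPolynomial (Fin 6) (A9 k) ⧸ plIdeal k

noncomputable instance : CommRing (Pl k) :=
  inferInstanceAs (CommRing (MvPolynomial (Fin 6) (A9 k) ⧸ plIdeal k))

noncomputable instance : Algebra (A9 k) (Pl k) :=
  inferInstanceAs (Algebra (A9 k) (MvPolynomial (Fin 6) (A9 k) ⧸ plIdeal k))

/-- the quotient map -/
noncomputable def mkP : MvPolynomial (Fin 6) (A9 k) →ₐ[A9 k] Pl k :=
  Ideal.Quotient.mkₐ (A9 k) (plIdeal k)

lemma mkP_surjective : Function.Surjective (mkP k) := Ideal.Quotient.mk_surjective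

lemma mkP_eq_zero_iff (x : MvPolynomial (Fin 6) (A9 k)) : mkP k x = 0 ↔ x ∈ plIdeal k :=
  Ideal.Quotient.eq_zero_iff_mem

/-- the parameters -/
noncomputable def tP (i : Fin 9) : Pl k := algebraMap (A9 k) (Pl k) (X i)

/-- the generators -/
noncomputable def uP (j : Fin 6) : Pl k := mkP k (X j)

lemma tP_eq (i : Fin 9) : mkP k (C (X i)) = tP k i := rfl

lemma mkP_C (a : A9 k) : mkP k (C a) = algebraMap (A9 k) (Pl k) a := rfl

lemma plRel_P (i : Fin 15) : plRel (tP k) (uP k) i = 0 := by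
  have h := plRel_map (R := MvPolynomial (Fin 6) (A9 k)) (R' := Pl k)
    ((mkP k : MvPolynomial (Fin 6) (A9 k) →ₐ[A9 k] Pl k) : MvPolynomial (Fin 6) (A9 k) →+* Pl k)
    (fun i => (C (X i : A9 k) : MvPolynomial (Fin 6) (A9 k)))
    (fun j => (X j : MvPolynomial (Fin 6) (A9 k))) i
  have h2 : mkP k (plRel
      (fun i => (C (X i : A9 k) : MvPolynomial (Fin 6) (A9 k)))
      (fun j => (X j : MvPolynomial (Fin 6) (A9 k))) i) = 0 :=
    (mkP_eq_zero_iff k _).2 (Ideal.subset_span ⟨i, rfl⟩)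
  rw [RingHom.coe_coe, h2] at h
  exact h.symm

lemma algX (i : Fin 9) : algebraMap (A9 k) (Pl k) (X i) = tP k i := rfl

/-- the basis -/
noncomputable def bP : Fin 14 → Pl k :=
  ![1, uP k 0, uP k 1, uP k 2, uP k 3, uP k 4, uP k 5, uP k 3 * uP k 0, uP k 3 * uP k 1,
    uP k 3 * uP k 2, uP k 3 * uP k 3, uP k 3 * uP k 4, uP k 3 * uP k 5,
    uP k 3 * (uP k 3 * uP k 3)]

/-- the span -/
noncomputable def spW : Submodule (A9 k) (Pl k) := Submodule.span (A9 k) (Set.range (bP k))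

lemma bP_mem (i : Fin 14) : bP k i ∈ spW k := Submodule.subset_span ⟨i, rfl⟩

lemma mem_of (x : Pl k) (a0 a1 a2 a3 a4 a5 a6 a7 a8 a9 a10 a11 a12 a13 : A9 k)
    (h : x = algebraMap _ (Pl k) a0 * 1 + algebraMap _ (Pl k) a1 * uP k 0 +
      algebraMap _ (Pl k) a2 * uP k 1 + algebraMap _ (Pl k) a3 * uP k 2 +
      algebraMap _ (Pl k) a4 * uP k 3 + algebraMap _ (Pl k) a5 * uP k 4 +
      algebraMap _ (Pl k) a6 * uP k 5 + algebraMap _ (Pl k) a7 * (uP k 3 * uP k 0) +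
      algebraMap _ (Pl k) a8 * (uP k 3 * uP k 1) + algebraMap _ (Pl k) a9 * (uP k 3 * uP k 2) +
      algebraMap _ (Pl k) a10 * (uP k 3 * uP k 3) + algebraMap _ (Pl k) a11 * (uP k 3 * uP k 4) +
      algebraMap _ (Pl k) a12 * (uP k 3 * uP k 5) +
      algebraMap _ (Pl k) a13 * (uP k 3 * (uP k 3 * uP k 3))) : x ∈ spW k := by
  rw [h]
  simp only [← Algebra.smul_def]
  have hb := bP_mem k
  exact add_mem (add_mem (add_mem (add_mem (add_mem (add_mem (add_mem (add_mem (add_mem (add_mem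
    (add_mem (add_mem (add_mem (Submodule.smul_mem _ _ (hb 0)) (Submodule.smul_mem _ _ (hb 1)))
    (Submodule.smul_mem _ _ (hb 2))) (Submodule.smul_mem _ _ (hb 3)))
    (Submodule.smul_mem _ _ (hb 4))) (Submodule.smul_mem _ _ (hb 5)))
    (Submodule.smul_mem _ _ (hb 6))) (Submodule.smul_mem _ _ (hb 7)))
    (Submodule.smul_mem _ _ (hb 8))) (Submodule.smul_mem _ _ (hb 9)))
    (Submodule.smul_mem _ _ (hb 10))) (Submodule.smul_mem _ _ (hb 11)))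
    (Submodule.smul_mem _ _ (hb 12))) (Submodule.smul_mem _ _ (hb 13))

lemma mr00 : uP k 0 * uP k 0 ∈ spW k := by
  refine mem_of k _ 0 (X 2) (-X 1) 0 (X 0) 0 0 0 0 0 0 0 0 0 ?_
  have h := r00 (plRel_P k)
  simp only [map_add, map_sub, map_mul, map_neg, map_zero, map_one, map_ofNat, algX]
  linear_combination h

lemma mr01 : uP k 0 * uP k 1 ∈ spW k := by
  refine mem_of k _ 0 (X 3) 0 (-X 1) 0 (X 0) 0 0 0 0 0 0 0 0 ?_
  have h := r01 (plRel_P k)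
  simp only [map_add, map_sub, map_mul, map_neg, map_zero, map_one, map_ofNat, algX]
  linear_combination h

lemma mr02 : uP k 0 * uP k 2 ∈ spW k := by
  refine mem_of k _ (X 0 * X 6 - X 1 * X 5) (X 4) 0 0 0 (X 1) (-X 0) (-1) 0 0 0 0 0 0 ?_
  have h := r02 (plRel_P k)
  simp only [map_add, map_sub, map_mul, map_neg, map_zero, map_one, map_ofNat, algX]
  linear_combination h

lemma mr11 : uP k 1 * uP k 1 ∈ spW k := by
  refine mem_of k _ (X 0 * X 6 - X 1 * X 5) (X 4) (X 3) (-X 2) 0 (X 1) 0 (-1) 0 0 0 0 0 0 ?_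
  have h := r11 (plRel_P k)
  simp only [map_add, map_sub, map_mul, map_neg, map_zero, map_one, map_ofNat, algX]
  linear_combination h

lemma mr12 : uP k 1 * uP k 2 ∈ spW k := by
  refine mem_of k _ (X 0 * X 7 - X 2 * X 5) (X 5) (X 4) 0 (X 3) 0 (X 1) 0 (-2) 0 0 0 0 0 ?_
  have h := r12 (plRel_P k)
  simp only [map_add, map_sub, map_mul, map_neg, map_zero, map_one, map_ofNat, algX]
  linear_combination h

lemma mr22 : uP k 2 * uP k 2 ∈ spW k := by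
  refine mem_of k _ (X 0 * X 8 - X 1 * X 7 + X 2 * X 6 - X 3 * X 5) (-X 6) (X 5) (X 4) (-X 4) (X 3) (-X 2) 0 0
    (-1) (1) 0 0 0 ?_
  have h := r22 (plRel_P k)
  simp only [map_add, map_sub, map_mul, map_neg, map_zero, map_one, map_ofNat, algX]
  linear_combination h

lemma mr04 : uP k 0 * uP k 4 ∈ spW k := by
  refine mem_of k _ 0 0 0 0 (-X 3) (X 2) (-X 1) 0 (1) 0 0 0 0 0 ?_
  have h := r04 (plRel_P k)
  simp only [map_add, map_sub, map_mul, map_neg, map_zero, map_one, map_ofNat, algX]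
  linear_combination h

lemma mr05 : uP k 0 * uP k 5 ∈ spW k := by
  refine mem_of k _ (X 1 * X 7 - X 2 * X 6) (X 6) 0 0 (X 4) 0 (X 2) 0 0 (-1) (-1) 0 0 0 ?_
  have h := r05 (plRel_P k)
  simp only [map_add, map_sub, map_mul, map_neg, map_zero, map_one, map_ofNat, algX]
  linear_combination h

lemma mr15 : uP k 1 * uP k 5 ∈ spW k := by
  refine mem_of k _ 0 (-X 7) (X 6) 0 (-X 5) 0 0 0 0 0 0 (1) 0 0 ?_
  have h := r15 (plRel_P k)
  simp only [map_add, map_sub, map_mul, map_neg, map_zero, map_one, map_ofNat, algX]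
  linear_combination h

lemma mr25 : uP k 2 * uP k 5 ∈ spW k := by
  refine mem_of k _ (X 2 * X 8 - X 3 * X 7) (-X 8) (X 7) 0 0 0 (X 4) 0 0 0 0 0 (-1) 0 ?_
  have h := r25 (plRel_P k)
  simp only [map_add, map_sub, map_mul, map_neg, map_zero, map_one, map_ofNat, algX]
  linear_combination h

lemma mr14 : uP k 1 * uP k 4 ∈ spW k := by
  refine mem_of k _ (X 1 * X 7 - X 2 * X 6) (X 6) 0 0 (X 4) 0 (X 2) 0 0 0 (-1) 0 0 0 ?_
  have h := r14 (plRel_P k)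
  simp only [map_add, map_sub, map_mul, map_neg, map_zero, map_one, map_ofNat, algX]
  linear_combination h

lemma mr24 : uP k 2 * uP k 4 ∈ spW k := by
  refine mem_of k _ (X 1 * X 8 - X 3 * X 6) (X 7) 0 0 (X 5) (X 4) (X 3) 0 0 0 0 (-2) 0 0 ?_
  have h := r24 (plRel_P k)
  simp only [map_add, map_sub, map_mul, map_neg, map_zero, map_one, map_ofNat, algX]
  linear_combination h

lemma mr44 : uP k 4 * uP k 4 ∈ spW k := by
  refine mem_of k _ (X 2 * X 8 - X 3 * X 7) 0 (X 7) (-X 6) 0 (X 5) (X 4) 0 0 0 0 0 (-1) 0 ?_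
  have h := r44 (plRel_P k)
  simp only [map_add, map_sub, map_mul, map_neg, map_zero, map_one, map_ofNat, algX]
  linear_combination h

lemma mr45 : uP k 4 * uP k 5 ∈ spW k := by
  refine mem_of k _ 0 0 (X 8) (-X 7) 0 0 (X 5) 0 0 0 0 0 0 0 ?_
  have h := r45 (plRel_P k)
  simp only [map_add, map_sub, map_mul, map_neg, map_zero, map_one, map_ofNat, algX]
  linear_combination h

lemma mr55 : uP k 5 * uP k 5 ∈ spW k := by
  refine mem_of k _ 0 0 0 0 (X 8) (-X 7) (X 6) 0 0 0 0 0 0 0 ?_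
  have h := r55 (plRel_P k)
  simp only [map_add, map_sub, map_mul, map_neg, map_zero, map_one, map_ofNat, algX]
  linear_combination h

lemma mr033 : uP k 0 * uP k 3 * uP k 3 ∈ spW k := by
  refine mem_of k _ (-X 0 * X 2 * X 8 + X 0 * X 3 * X 7 + X 1 * X 1 * X 8 + X 1 * X 2 * X 7 - X 1 * X 3 * X 6 -
    X 2 * X 2 * X 6) (2 * X 1 * X 7 + X 2 * X 6) (-X 0 * X 7 - X 1 * X 6) (X 0 * X 6) (X 0 * X 6
    + X 1 * X 5 + X 2 * X 4 + X 3 * X 3) (-X 0 * X 5 + X 1 * X 4 - X 2 * X 3) (-X 0 * X 4 + 2 *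
    X 1 * X 3 + X 2 * X 2) (X 4) (-X 3) (-X 2) (-X 2) (-2 * X 1) (X 0) 0 ?_
  have h := r033 (plRel_P k)
  simp only [map_add, map_sub, map_mul, map_neg, map_zero, map_one, map_ofNat, algX]
  linear_combination h

lemma mr133 : uP k 1 * uP k 3 * uP k 3 ∈ spW k := by
  refine mem_of k _ (-X 1 * X 2 * X 8 + 2 * X 1 * X 3 * X 7 - X 2 * X 3 * X 6) (X 1 * X 8 + X 2 * X 7) (X 0 * X
    8 - 2 * X 1 * X 7) (-X 0 * X 7 + X 1 * X 6) (X 0 * X 7 + X 3 * X 4) (-X 0 * X 6) (X 0 * X 5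
    - X 1 * X 4 + X 2 * X 3) (X 5) 0 (-X 3) 0 (-X 2) (2 * X 1) 0 ?_
  have h := r133 (plRel_P k)
  simp only [map_add, map_sub, map_mul, map_neg, map_zero, map_one, map_ofNat, algX]
  linear_combination h

lemma mr233 : uP k 2 * uP k 3 * uP k 3 ∈ spW k := by
  refine mem_of k _ (X 0 * X 6 * X 6 - X 1 * X 4 * X 7 - X 1 * X 5 * X 6 + X 2 * X 2 * X 8 - X 2 * X 3 * X 7 + X
    2 * X 4 * X 6) (-X 2 * X 8) (-X 1 * X 8 + X 2 * X 7) (2 * X 1 * X 7 - X 2 * X 6) (2 * X 1 *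
    X 7 - 2 * X 2 * X 6 + X 3 * X 5 - X 4 * X 4) (-X 0 * X 7 + X 1 * X 6) (-X 0 * X 6) (X 6) (-X
    5) (X 4) (3 * X 4) (-X 3) (X 2) (-2) ?_
  have h := r233 (plRel_P k)
  simp only [map_add, map_sub, map_mul, map_neg, map_zero, map_one, map_ofNat, algX]
  linear_combination h

lemma mr334 : uP k 3 * uP k 3 * uP k 4 ∈ spW k := by
  refine mem_of k _ (-X 0 * X 6 * X 7 + 2 * X 1 * X 5 * X 7 - X 2 * X 5 * X 6) (X 3 * X 8 - X 4 * X 7 + X 5 * X
    6) (-X 2 * X 8) (-X 1 * X 8 + X 2 * X 7) (X 1 * X 8 + X 4 * X 5) (X 0 * X 8 - 2 * X 1 * X 7)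
    (X 0 * X 7 + X 1 * X 6) (2 * X 7) (-X 6) (-X 5) 0 0 (X 3) 0 ?_
  have h := r334 (plRel_P k)
  simp only [map_add, map_sub, map_mul, map_neg, map_zero, map_one, map_ofNat, algX]
  linear_combination h

lemma mr335 : uP k 3 * uP k 3 * uP k 5 ∈ spW k := by
  refine mem_of k _ (-X 0 * X 6 * X 8 + X 0 * X 7 * X 7 + X 1 * X 5 * X 8 + X 1 * X 6 * X 7 - X 2 * X 5 * X 7 -
    X 2 * X 6 * X 6) (-X 4 * X 8 + 2 * X 5 * X 7 + X 6 * X 6) (-X 3 * X 8 + X 4 * X 7 - X 5 * X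
    6) (X 2 * X 8) (X 2 * X 8 + X 3 * X 7 + X 4 * X 6 + X 5 * X 5) (-X 1 * X 8 - X 2 * X 7) (2 *
    X 1 * X 7 + X 2 * X 6) (X 8) (-2 * X 7) (-X 6) (-X 6) (-X 5) (X 4) 0 ?_
  have h := r335 (plRel_P k)
  simp only [map_add, map_sub, map_mul, map_neg, map_zero, map_one, map_ofNat, algX]
  linear_combination h

lemma mr3333 : uP k 3 * uP k 3 * uP k 3 * uP k 3 ∈ spW k := by
  refine mem_of k _ (X 0 * X 2 * X 6 * X 8 + X 0 * X 3 * X 6 * X 7 + 2 * X 1 * X 1 * X 7 * X 7 + X 1 * X 2 * X 5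
    * X 8 - X 1 * X 2 * X 6 * X 7 - 6 * X 1 * X 3 * X 5 * X 7 - X 2 * X 2 * X 6 * X 6 + 3 * X 2
    * X 3 * X 5 * X 6) (-X 0 * X 6 * X 8 + X 0 * X 7 * X 7 - X 1 * X 5 * X 8 + 3 * X 1 * X 6 * X
    7 - X 2 * X 5 * X 7 + X 2 * X 6 * X 6 - 2 * X 3 * X 3 * X 8 + 2 * X 3 * X 4 * X 7 - 2 * X 3
    * X 5 * X 6) (-2 * X 0 * X 5 * X 8 + X 1 * X 4 * X 8 + 2 * X 1 * X 5 * X 7 - X 1 * X 6 * X 6
    + X 2 * X 3 * X 8) (2 * X 0 * X 5 * X 7 + 2 * X 1 * X 3 * X 8 - X 1 * X 4 * X 7 - X 1 * X 5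
    * X 6 - X 2 * X 3 * X 7) (-X 0 * X 4 * X 8 + X 0 * X 6 * X 6 + 2 * X 1 * X 4 * X 7 + X 2 * X
    2 * X 8 + X 2 * X 4 * X 6 - 3 * X 3 * X 4 * X 5) (-2 * X 0 * X 3 * X 8 + X 0 * X 4 * X 7 + X
    0 * X 5 * X 6 + 2 * X 1 * X 3 * X 7 - X 2 * X 2 * X 7) (-X 0 * X 2 * X 8 - X 0 * X 3 * X 7 -
    2 * X 0 * X 5 * X 5 + X 1 * X 1 * X 8 + 3 * X 1 * X 2 * X 7 - X 1 * X 3 * X 6 + 2 * X 1 * X
    4 * X 5 + X 2 * X 2 * X 6 - 2 * X 2 * X 3 * X 5) (-3 * X 3 * X 7 + X 4 * X 6 - X 5 * X 5)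
    (-3 * X 1 * X 8 + X 3 * X 6) (2 * X 1 * X 7 - 2 * X 2 * X 6 + 3 * X 3 * X 5) (X 0 * X 8 - X
    1 * X 7 - 2 * X 2 * X 6 + 2 * X 3 * X 5) (-3 * X 0 * X 7 + X 2 * X 5) (-3 * X 1 * X 5 + X 2
    * X 4 - X 3 * X 3) (X 4) ?_
  have h := r3333 (plRel_P k)
  simp only [map_add, map_sub, map_mul, map_neg, map_zero, map_one, map_ofNat, algX]
  linear_combination h


end Pool.Agent.H14
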