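import Pool.Agent.H14.Pl2

/-!
# The Plücker algebra of `G(2,6)` is free: the basis
-/

set_option autoImplicit false
set_option linter.unusedSimpArgs false

open MvPolynomial

namespace Pool.Agent.H14

variable (k : Type) [CommRing k]

lemma spW_mul_of (y : Pl k) (h : ∀ i, y * bP k i ∈ spW k) (x : Pl k) (hx : x ∈ spW k) :
    y * x ∈ spW k := by
  induction hx using Submodule.span_induction with
  | mem x hx => obtain ⟨i, rfl⟩ := hx; exact h i
  | zero => rw [mul_zero]; exact zero_mem _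
  | add x y _ _ h1 h2 => rw [mul_add]; exact add_mem h1 h2
  | smul a x _ h1 => rw [mul_smul_comm]; exact Submodule.smul_mem _ _ h1

lemma one_mem_spW : (1 : Pl k) ∈ spW k := bP_mem k 0
lemma mu0 : uP k 0 ∈ spW k := bP_mem k 1
lemma mu1 : uP k 1 ∈ spW k := bP_mem k 2
lemma mu2 : uP k 2 ∈ spW k := bP_mem k 3
lemma mu3 : uP k 3 ∈ spW k := bP_mem k 4
lemma mu4 : uP k 4 ∈ spW k := bP_mem k 5
lemma mu5 : uP k 5 ∈ spW k := bP_mem k 6
lemma mu30 : uP k 3 * uP k 0 ∈ spW k := bP_mem k 7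
lemma mu31 : uP k 3 * uP k 1 ∈ spW k := bP_mem k 8
lemma mu32 : uP k 3 * uP k 2 ∈ spW k := bP_mem k 9
lemma mu33 : uP k 3 * uP k 3 ∈ spW k := bP_mem k 10
lemma mu34 : uP k 3 * uP k 4 ∈ spW k := bP_mem k 11
lemma mu35 : uP k 3 * uP k 5 ∈ spW k := bP_mem k 12
lemma mu333 : uP k 3 * (uP k 3 * uP k 3) ∈ spW k := bP_mem k 13

lemma spW_mul3 (x : Pl k) (hx : x ∈ spW k) : uP k 3 * x ∈ spW k := by
  refine spW_mul_of k _ (fun i => ?_) x hx
  fin_cases i
  · change uP k 3 * 1 ∈ spW k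
    rw [mul_one]; exact mu3 k
  · exact mu30 k
  · exact mu31 k
  · exact mu32 k
  · exact mu33 k
  · exact mu34 k
  · exact mu35 k
  · change uP k 3 * (uP k 3 * uP k 0) ∈ spW k
    have := mr033 k
    rwa [show uP k 0 * uP k 3 * uP k 3 = uP k 3 * (uP k 3 * uP k 0) by ring] at this
  · change uP k 3 * (uP k 3 * uP k 1) ∈ spW k
    have := mr133 k
    rwa [show uP k 1 * uP k 3 * uP k 3 = uP k 3 * (uP k 3 * uP k 1) by ring] at this
  · change uP k 3 * (uP k 3 * uP k 2) ∈ spW k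
    have := mr233 k
    rwa [show uP k 2 * uP k 3 * uP k 3 = uP k 3 * (uP k 3 * uP k 2) by ring] at this
  · exact mu333 k
  · change uP k 3 * (uP k 3 * uP k 4) ∈ spW k
    have := mr334 k
    rwa [show uP k 3 * uP k 3 * uP k 4 = uP k 3 * (uP k 3 * uP k 4) by ring] at this
  · change uP k 3 * (uP k 3 * uP k 5) ∈ spW k
    have := mr335 k
    rwa [show uP k 3 * uP k 3 * uP k 5 = uP k 3 * (uP k 3 * uP k 5) by ring] at this
  · change uP k 3 * (uP k 3 * (uP k 3 * uP k 3)) ∈ spW k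
    have := mr3333 k
    rwa [show uP k 3 * uP k 3 * uP k 3 * uP k 3 = uP k 3 * (uP k 3 * (uP k 3 * uP k 3)) by ring]
      at this

lemma spW_mulj (y : Pl k) (hy : y ∈ spW k) (h0 : y * uP k 0 ∈ spW k) (h1 : y * uP k 1 ∈ spW k)
    (h2 : y * uP k 2 ∈ spW k) (h4 : y * uP k 4 ∈ spW k) (h5 : y * uP k 5 ∈ spW k)
    (x : Pl k) (hx : x ∈ spW k) : y * x ∈ spW k := by
  have h3 : y * uP k 3 ∈ spW k := by rw [mul_comm]; exact spW_mul3 k _ hy
  have h := spW_mul3 k
  refine spW_mul_of k _ (fun i => ?_) x hx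
  fin_cases i
  · change y * 1 ∈ spW k
    rwa [mul_one]
  · exact h0
  · exact h1
  · exact h2
  · exact h3
  · exact h4
  · exact h5
  · change y * (uP k 3 * uP k 0) ∈ spW k
    rw [mul_left_comm]; exact h _ h0
  · change y * (uP k 3 * uP k 1) ∈ spW k
    rw [mul_left_comm]; exact h _ h1
  · change y * (uP k 3 * uP k 2) ∈ spW k
    rw [mul_left_comm]; exact h _ h2
  · change y * (uP k 3 * uP k 3) ∈ spW k
    rw [mul_left_comm]; exact h _ h3
  · change y * (uP k 3 * uP k 4) ∈ spW k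
    rw [mul_left_comm]; exact h _ h4
  · change y * (uP k 3 * uP k 5) ∈ spW k
    rw [mul_left_comm]; exact h _ h5
  · change y * (uP k 3 * (uP k 3 * uP k 3)) ∈ spW k
    rw [mul_left_comm]
    refine h _ ?_
    rw [mul_left_comm]; exact h _ h3

lemma spW_mulu (j : Fin 6) (x : Pl k) (hx : x ∈ spW k) : uP k j * x ∈ spW k := by
  have c : ∀ a b : Pl k, a * b ∈ spW k → b * a ∈ spW k := fun a b h => by rwa [mul_comm]
  fin_cases j
  · exact spW_mulj k _ (mu0 k) (mr00 k) (mr01 k) (mr02 k) (mr04 k) (mr05 k) x hx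
  · exact spW_mulj k _ (mu1 k) (c _ _ (mr01 k)) (mr11 k) (mr12 k) (mr14 k) (mr15 k) x hx
  · exact spW_mulj k _ (mu2 k) (c _ _ (mr02 k)) (c _ _ (mr12 k)) (mr22 k) (mr24 k) (mr25 k) x hx
  · exact spW_mul3 k x hx
  · exact spW_mulj k _ (mu4 k) (c _ _ (mr04 k)) (c _ _ (mr14 k)) (c _ _ (mr24 k)) (mr44 k)
      (mr45 k) x hx
  · exact spW_mulj k _ (mu5 k) (c _ _ (mr05 k)) (c _ _ (mr15 k)) (c _ _ (mr25 k))
      (c _ _ (mr45 k)) (mr55 k) x hx

lemma spW_top : spW k = ⊤ := by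
  rw [eq_top_iff]
  rintro x -
  obtain ⟨p, rfl⟩ := mkP_surjective k x
  induction p using MvPolynomial.induction_on with
  | C a =>
    rw [mkP_C, Algebra.algebraMap_eq_smul_one]
    exact Submodule.smul_mem _ _ (one_mem_spW k)
  | add p q hp hq => rw [map_add]; exact add_mem hp hq
  | mul_X p i hp =>
    rw [map_mul, mul_comm]
    exact spW_mulu k i _ hp

/-! the map to the algebra generated by the matrices -/

/-- the generators -/
noncomputable def gS' (j : Fin 6) : SA k := gS k j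

/-- the parameters -/
noncomputable def tS (i : Fin 9) : SA k := algebraMap (A9 k) (SA k) (X i)

lemma gS6 : gS k 6 = 1 := rfl

lemma evS (p : SP.Poly) : algebraMap (A9 k) (SA k) (SP.ev (th k) p) =
    SP.ev (fun i => algebraMap (A9 k) (SA k) (th k i)) p := by
  have hm : ∀ n i c : ℕ, algebraMap (A9 k) (SA k) (SP.evm (th k) n i c) =
      SP.evm (fun i => algebraMap (A9 k) (SA k) (th k i)) n i c := by
    intro n
    induction n with
    | zero => intro i c; simp [SP.evm]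
    | succ n ih => intro i c; simp only [SP.evm, map_mul, map_pow, ih]
  induction p with
  | nil => simp
  | cons m p ih => rw [SP.ev_cons, SP.ev_cons, map_add, map_mul, hm, ih, map_intCast]

lemma tS0 : tS k 0 = algebraMap (A9 k) (SA k) (th k 0) := by
  rw [th, dif_pos (by norm_num)]; rfl

lemma tS1 : tS k 1 = algebraMap (A9 k) (SA k) (th k 1) := by
  rw [th, dif_pos (by norm_num)]; rfl

lemma tS2 : tS k 2 = algebraMap (A9 k) (SA k) (th k 2) := by
  rw [th, dif_pos (by norm_num)]; rfl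

lemma tS3 : tS k 3 = algebraMap (A9 k) (SA k) (th k 3) := by
  rw [th, dif_pos (by norm_num)]; rfl

lemma tS4 : tS k 4 = algebraMap (A9 k) (SA k) (th k 4) := by
  rw [th, dif_pos (by norm_num)]; rfl

lemma tS5 : tS k 5 = algebraMap (A9 k) (SA k) (th k 5) := by
  rw [th, dif_pos (by norm_num)]; rfl

lemma tS6 : tS k 6 = algebraMap (A9 k) (SA k) (th k 6) := by
  rw [th, dif_pos (by norm_num)]; rfl

lemma tS7 : tS k 7 = algebraMap (A9 k) (SA k) (th k 7) := by
  rw [th, dif_pos (by norm_num)]; rfl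

lemma tS8 : tS k 8 = algebraMap (A9 k) (SA k) (th k 8) := by
  rw [th, dif_pos (by norm_num)]; rfl

lemma plRel_S0 : tS k 0 * gS k 3 - tS k 1 * gS k 1 + (tS k 2 - gS k 0) * gS k 0 = 0 := by
  have h := relS k SP.rD0 SP.rD0_chk
  simp only [SP.rD0, List.map_cons, List.map_nil, List.sum_cons, List.sum_nil, evS, SP.ev_cons,
    SP.ev_nil, SP.evm, gS6] at h
  norm_num [← tS0, ← tS1, ← tS2, ← tS3, ← tS4, ← tS5, ← tS6, ← tS7, ← tS8] at h
  linear_combination h

lemma plRel_S1 : tS k 0 * gS k 4 - tS k 1 * gS k 2 + (tS k 3 - gS k 1) * gS k 0 = 0 := by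
  have h := relS k SP.rD1 SP.rD1_chk
  simp only [SP.rD1, List.map_cons, List.map_nil, List.sum_cons, List.sum_nil, evS, SP.ev_cons,
    SP.ev_nil, SP.evm, gS6] at h
  norm_num [← tS0, ← tS1, ← tS2, ← tS3, ← tS4, ← tS5, ← tS6, ← tS7, ← tS8] at h
  linear_combination h

lemma plRel_S2 : tS k 0 * (tS k 6 - gS k 5) - tS k 1 * (tS k 5 - gS k 4) + (tS k 4 - gS k 2 - gS k 3) * gS k 0 = 0 := by
  have h := relS k SP.rD2 SP.rD2_chk
  simp only [SP.rD2, List.map_cons, List.map_nil, List.sum_cons, List.sum_nil, evS, SP.ev_cons,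
    SP.ev_nil, SP.evm, gS6] at h
  norm_num [← tS0, ← tS1, ← tS2, ← tS3, ← tS4, ← tS5, ← tS6, ← tS7, ← tS8] at h
  linear_combination h

lemma plRel_S3 : tS k 0 * gS k 5 - (tS k 2 - gS k 0) * gS k 2 + (tS k 3 - gS k 1) * gS k 1 = 0 := by
  have h := relS k SP.rD3 SP.rD3_chk
  simp only [SP.rD3, List.map_cons, List.map_nil, List.sum_cons, List.sum_nil, evS, SP.ev_cons,
    SP.ev_nil, SP.evm, gS6] at h
  norm_num [← tS0, ← tS1, ← tS2, ← tS3, ← tS4, ← tS5, ← tS6, ← tS7, ← tS8] at h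
  linear_combination h

lemma plRel_S4 : tS k 0 * tS k 7 - (tS k 2 - gS k 0) * (tS k 5 - gS k 4) + (tS k 4 - gS k 2 - gS k 3) * gS k 1 = 0 := by
  have h := relS k SP.rD4 SP.rD4_chk
  simp only [SP.rD4, List.map_cons, List.map_nil, List.sum_cons, List.sum_nil, evS, SP.ev_cons,
    SP.ev_nil, SP.evm, gS6] at h
  norm_num [← tS0, ← tS1, ← tS2, ← tS3, ← tS4, ← tS5, ← tS6, ← tS7, ← tS8] at h
  linear_combination h

lemma plRel_S5 : tS k 0 * tS k 8 - (tS k 3 - gS k 1) * (tS k 5 - gS k 4) + (tS k 4 - gS k 2 - gS k 3) * gS k 2 = 0 := by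
  have h := relS k SP.rD5 SP.rD5_chk
  simp only [SP.rD5, List.map_cons, List.map_nil, List.sum_cons, List.sum_nil, evS, SP.ev_cons,
    SP.ev_nil, SP.evm, gS6] at h
  norm_num [← tS0, ← tS1, ← tS2, ← tS3, ← tS4, ← tS5, ← tS6, ← tS7, ← tS8] at h
  linear_combination h

lemma plRel_S6 : tS k 1 * gS k 5 - (tS k 2 - gS k 0) * gS k 4 + (tS k 3 - gS k 1) * gS k 3 = 0 := by
  have h := relS k SP.rD6 SP.rD6_chk
  simp only [SP.rD6, List.map_cons, List.map_nil, List.sum_cons, List.sum_nil, evS, SP.ev_cons,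
    SP.ev_nil, SP.evm, gS6] at h
  norm_num [← tS0, ← tS1, ← tS2, ← tS3, ← tS4, ← tS5, ← tS6, ← tS7, ← tS8] at h
  linear_combination h

lemma plRel_S7 : tS k 1 * tS k 7 - (tS k 2 - gS k 0) * (tS k 6 - gS k 5) + (tS k 4 - gS k 2 - gS k 3) * gS k 3 = 0 := by
  have h := relS k SP.rD7 SP.rD7_chk
  simp only [SP.rD7, List.map_cons, List.map_nil, List.sum_cons, List.sum_nil, evS, SP.ev_cons,
    SP.ev_nil, SP.evm, gS6] at h
  norm_num [← tS0, ← tS1, ← tS2, ← tS3, ← tS4, ← tS5, ← tS6, ← tS7, ← tS8] at h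
  linear_combination h

lemma plRel_S8 : tS k 1 * tS k 8 - (tS k 3 - gS k 1) * (tS k 6 - gS k 5) + (tS k 4 - gS k 2 - gS k 3) * gS k 4 = 0 := by
  have h := relS k SP.rD8 SP.rD8_chk
  simp only [SP.rD8, List.map_cons, List.map_nil, List.sum_cons, List.sum_nil, evS, SP.ev_cons,
    SP.ev_nil, SP.evm, gS6] at h
  norm_num [← tS0, ← tS1, ← tS2, ← tS3, ← tS4, ← tS5, ← tS6, ← tS7, ← tS8] at h
  linear_combination h

lemma plRel_S9 : (tS k 2 - gS k 0) * tS k 8 - (tS k 3 - gS k 1) * tS k 7 + (tS k 4 - gS k 2 - gS k 3) * gS k 5 = 0 := by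
  have h := relS k SP.rD9 SP.rD9_chk
  simp only [SP.rD9, List.map_cons, List.map_nil, List.sum_cons, List.sum_nil, evS, SP.ev_cons,
    SP.ev_nil, SP.evm, gS6] at h
  norm_num [← tS0, ← tS1, ← tS2, ← tS3, ← tS4, ← tS5, ← tS6, ← tS7, ← tS8] at h
  linear_combination h

lemma plRel_S10 : gS k 0 * gS k 5 - gS k 1 * gS k 4 + gS k 2 * gS k 3 = 0 := by
  have h := relS k SP.rD10 SP.rD10_chk
  simp only [SP.rD10, List.map_cons, List.map_nil, List.sum_cons, List.sum_nil, evS, SP.ev_cons,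
    SP.ev_nil, SP.evm, gS6] at h
  norm_num [← tS0, ← tS1, ← tS2, ← tS3, ← tS4, ← tS5, ← tS6, ← tS7, ← tS8] at h
  linear_combination h

lemma plRel_S11 : gS k 0 * tS k 7 - gS k 1 * (tS k 6 - gS k 5) + (tS k 5 - gS k 4) * gS k 3 = 0 := by
  have h := relS k SP.rD11 SP.rD11_chk
  simp only [SP.rD11, List.map_cons, List.map_nil, List.sum_cons, List.sum_nil, evS, SP.ev_cons,
    SP.ev_nil, SP.evm, gS6] at h
  norm_num [← tS0, ← tS1, ← tS2, ← tS3, ← tS4, ← tS5, ← tS6, ← tS7, ← tS8] at h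
  linear_combination h

lemma plRel_S12 : gS k 0 * tS k 8 - gS k 2 * (tS k 6 - gS k 5) + (tS k 5 - gS k 4) * gS k 4 = 0 := by
  have h := relS k SP.rD12 SP.rD12_chk
  simp only [SP.rD12, List.map_cons, List.map_nil, List.sum_cons, List.sum_nil, evS, SP.ev_cons,
    SP.ev_nil, SP.evm, gS6] at h
  norm_num [← tS0, ← tS1, ← tS2, ← tS3, ← tS4, ← tS5, ← tS6, ← tS7, ← tS8] at h
  linear_combination h

lemma plRel_S13 : gS k 1 * tS k 8 - gS k 2 * tS k 7 + (tS k 5 - gS k 4) * gS k 5 = 0 := by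
  have h := relS k SP.rD13 SP.rD13_chk
  simp only [SP.rD13, List.map_cons, List.map_nil, List.sum_cons, List.sum_nil, evS, SP.ev_cons,
    SP.ev_nil, SP.evm, gS6] at h
  norm_num [← tS0, ← tS1, ← tS2, ← tS3, ← tS4, ← tS5, ← tS6, ← tS7, ← tS8] at h
  linear_combination h

lemma plRel_S14 : gS k 3 * tS k 8 - gS k 4 * tS k 7 + (tS k 6 - gS k 5) * gS k 5 = 0 := by
  have h := relS k SP.rD14 SP.rD14_chk
  simp only [SP.rD14, List.map_cons, List.map_nil, List.sum_cons, List.sum_nil, evS, SP.ev_cons,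
    SP.ev_nil, SP.evm, gS6] at h
  norm_num [← tS0, ← tS1, ← tS2, ← tS3, ← tS4, ← tS5, ← tS6, ← tS7, ← tS8] at h
  linear_combination h

lemma plRel_S (i : Fin 15) : plRel (tS k) (gS' k) i = 0 := by
  fin_cases i
  · exact plRel_S0 k
  · exact plRel_S1 k
  · exact plRel_S2 k
  · exact plRel_S3 k
  · exact plRel_S4 k
  · exact plRel_S5 k
  · exact plRel_S6 k
  · exact plRel_S7 k
  · exact plRel_S8 k
  · exact plRel_S9 k
  · exact plRel_S10 k
  · exact plRel_S11 k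
  · exact plRel_S12 k
  · exact plRel_S13 k
  · exact plRel_S14 k

end Pool.Agent.H14
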