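import Pool.Agent.H14.Pl3

/-!
# The Plücker algebra of `G(2,6)`: universal property and basis over the parameters
-/

set_option autoImplicit false

open MvPolynomial

namespace Pool.Agent.H14

variable (k : Type) [CommRing k]

noncomputable instance : Algebra k (Pl k) :=
  inferInstanceAs (Algebra k (MvPolynomial (Fin 6) (A9 k) ⧸ plIdeal k))

instance : IsScalarTower k (A9 k) (Pl k) :=
  inferInstanceAs (IsScalarTower k (A9 k) (MvPolynomial (Fin 6) (A9 k) ⧸ plIdeal k))

variable {k}

section liftA

variable {B : Type*} [CommRing B] [Algebra (A9 k) B]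

/-- homomorphisms over the ring of the parameters -/
noncomputable def Pl.liftA (u : Fin 6 → B)
    (h : ∀ i, plRel (fun j => algebraMap (A9 k) B (X j)) u i = 0) : Pl k →ₐ[A9 k] B :=
  Ideal.Quotient.liftₐ (plIdeal k) (aeval u) (by
    intro a ha
    have : plIdeal k ≤ RingHom.ker (aeval (R := A9 k) u) := by
      rw [plIdeal, Ideal.span_le]
      rintro _ ⟨i, rfl⟩
      rw [SetLike.mem_coe, RingHom.mem_ker]
      have h1 := plRel_map (R := MvPolynomial (Fin 6) (A9 k)) (R' := B)
        ((aeval (R := A9 k) u : MvPolynomial (Fin 6) (A9 k) →ₐ[A9 k] B) :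
          MvPolynomial (Fin 6) (A9 k) →+* B) (fun i => (C (X i : A9 k)))
        (fun j => X j) i
      rw [RingHom.coe_coe] at h1
      rw [h1]
      simp only [aeval_X, algHom_C]
      exact h i
    exact this ha)

lemma Pl.liftA_uP (u : Fin 6 → B)
    (h : ∀ i, plRel (fun j => algebraMap (A9 k) B (X j)) u i = 0) (j : Fin 6) :
    Pl.liftA u h (uP k j) = u j := by
  change aeval (R := A9 k) u (X j) = u j
  rw [aeval_X]

end liftA

section lift

variable {B : Type*} [CommRing B] [Algebra k B]

/-- homomorphisms -/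
noncomputable def Pl.lift (t : Fin 9 → B) (u : Fin 6 → B) (h : ∀ i, plRel t u i = 0) :
    Pl k →ₐ[k] B :=
  Ideal.Quotient.liftₐ (plIdeal k) (aevalTower (aeval (R := k) t) u) (by
    intro a ha
    have : plIdeal k ≤ RingHom.ker (aevalTower (aeval (R := k) t) u) := by
      rw [plIdeal, Ideal.span_le]
      rintro _ ⟨i, rfl⟩
      rw [SetLike.mem_coe, RingHom.mem_ker]
      have h1 := plRel_map (R := MvPolynomial (Fin 6) (A9 k)) (R' := B)
        ((aevalTower (aeval (R := k) t) u : MvPolynomial (Fin 6) (A9 k) →ₐ[k] B) :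
          MvPolynomial (Fin 6) (A9 k) →+* B) (fun i => (C (X i : A9 k)))
        (fun j => X j) i
      rw [RingHom.coe_coe] at h1
      rw [h1]
      simp only [aevalTower_X, aevalTower_C, aeval_X]
      exact h i
    exact this ha)

lemma Pl.lift_uP (t : Fin 9 → B) (u : Fin 6 → B) (h : ∀ i, plRel t u i = 0) (j : Fin 6) :
    Pl.lift t u h (uP k j) = u j := by
  change aevalTower (aeval (R := k) t) u (X j) = u j
  rw [aevalTower_X]

lemma Pl.lift_algebraMap (t : Fin 9 → B) (u : Fin 6 → B) (h : ∀ i, plRel t u i = 0) (p : A9 k) :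
    Pl.lift t u h (algebraMap (A9 k) (Pl k) p) = aeval t p := by
  change aevalTower (aeval (R := k) t) u (C p) = _
  rw [aevalTower_C]

lemma Pl.lift_tP (t : Fin 9 → B) (u : Fin 6 → B) (h : ∀ i, plRel t u i = 0) (j : Fin 9) :
    Pl.lift t u h (tP k j) = t j := by
  rw [tP, Pl.lift_algebraMap, aeval_X]

lemma Pl.hom_ext {f g : Pl k →ₐ[k] B} (ht : ∀ i, f (tP k i) = g (tP k i))
    (hu : ∀ i, f (uP k i) = g (uP k i)) : f = g := by
  have h1 : (f.comp ((mkP k).restrictScalars k)) = g.comp ((mkP k).restrictScalars k) := by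
    apply MvPolynomial.algHom_ext'
    · apply MvPolynomial.algHom_ext
      intro i
      exact ht i
    · intro i
      exact hu i
  ext x
  obtain ⟨p, rfl⟩ := mkP_surjective k x
  exact DFunLike.congr_fun h1 p

end lift

variable (k)

/-- the map to the algebra generated by the matrices -/
noncomputable def piS : Pl k →ₐ[A9 k] SA k := Pl.liftA (gS' k) (plRel_S k)

lemma piS_uP (j : Fin 6) : piS k (uP k j) = gS k j := Pl.liftA_uP ..

lemma piS_bP (i : Fin 14) : piS k (bP k i) = bS k i := by
  have h0 : piS k (uP k 0) = gS k 0 := piS_uP k 0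
  have h1 : piS k (uP k 1) = gS k 1 := piS_uP k 1
  have h2 : piS k (uP k 2) = gS k 2 := piS_uP k 2
  have h3 : piS k (uP k 3) = gS k 3 := piS_uP k 3
  have h4 : piS k (uP k 4) = gS k 4 := piS_uP k 4
  have h5 : piS k (uP k 5) = gS k 5 := piS_uP k 5
  fin_cases i <;> simp [bP, bS, h0, h1, h2, h3, h4, h5]

lemma bP_linearIndependent : LinearIndependent (A9 k) (bP k) := by
  have h : LinearIndependent (A9 k)
      ((col0 k ∘ₗ (piS k).toLinearMap : Pl k →ₗ[A9 k] (Fin 14 → A9 k)) ∘ bP k) := by
    have : ((col0 k ∘ₗ (piS k).toLinearMap : Pl k →ₗ[A9 k] (Fin 14 → A9 k)) ∘ bP k) =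
        ⇑(Pi.basisFun (A9 k) (Fin 14)) := by
      funext i
      rw [Pi.basisFun_apply, ← col0_bS, ← piS_bP]
      rfl
    rw [this]
    exact (Pi.basisFun (A9 k) (Fin 14)).linearIndependent
  exact LinearIndependent.of_comp _ h

/-- the basis of the Plücker algebra over the parameters -/
noncomputable def basisP : Module.Basis (Fin 14) (A9 k) (Pl k) :=
  Module.Basis.mk (bP_linearIndependent k) (spW_top k).ge

instance : Module.Free (A9 k) (Pl k) := Module.Free.of_basis (basisP k)

instance : Module.Finite (A9 k) (Pl k) := Module.Finite.of_basis (basisP k)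

end Pool.Agent.H14
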