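import Pool.Agent.H14.Pl1

/-! Rewriting rules in a ring in which the Plücker relations hold. -/

set_option autoImplicit false

namespace Pool.Agent.H14

section rules

variable {R : Type*} [CommRing R] {t : Fin 9 → R} {u : Fin 6 → R}

lemma hrel0 (h : ∀ i, plRel t u i = 0) :
    t 0 * u 3 - t 1 * u 1 + (t 2 - u 0) * u 0 = 0 := h 0
lemma hrel1 (h : ∀ i, plRel t u i = 0) :
    t 0 * u 4 - t 1 * u 2 + (t 3 - u 1) * u 0 = 0 := h 1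
lemma hrel2 (h : ∀ i, plRel t u i = 0) :
    t 0 * (t 6 - u 5) - t 1 * (t 5 - u 4) + (t 4 - u 2 - u 3) * u 0 = 0 := h 2
lemma hrel3 (h : ∀ i, plRel t u i = 0) :
    t 0 * u 5 - (t 2 - u 0) * u 2 + (t 3 - u 1) * u 1 = 0 := h 3
lemma hrel4 (h : ∀ i, plRel t u i = 0) :
    t 0 * t 7 - (t 2 - u 0) * (t 5 - u 4) + (t 4 - u 2 - u 3) * u 1 = 0 := h 4
lemma hrel5 (h : ∀ i, plRel t u i = 0) :
    t 0 * t 8 - (t 3 - u 1) * (t 5 - u 4) + (t 4 - u 2 - u 3) * u 2 = 0 := h 5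
lemma hrel6 (h : ∀ i, plRel t u i = 0) :
    t 1 * u 5 - (t 2 - u 0) * u 4 + (t 3 - u 1) * u 3 = 0 := h 6
lemma hrel7 (h : ∀ i, plRel t u i = 0) :
    t 1 * t 7 - (t 2 - u 0) * (t 6 - u 5) + (t 4 - u 2 - u 3) * u 3 = 0 := h 7
lemma hrel8 (h : ∀ i, plRel t u i = 0) :
    t 1 * t 8 - (t 3 - u 1) * (t 6 - u 5) + (t 4 - u 2 - u 3) * u 4 = 0 := h 8
lemma hrel9 (h : ∀ i, plRel t u i = 0) :
    (t 2 - u 0) * t 8 - (t 3 - u 1) * t 7 + (t 4 - u 2 - u 3) * u 5 = 0 := h 9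
lemma hrel10 (h : ∀ i, plRel t u i = 0) :
    u 0 * u 5 - u 1 * u 4 + u 2 * u 3 = 0 := h 10
lemma hrel11 (h : ∀ i, plRel t u i = 0) :
    u 0 * t 7 - u 1 * (t 6 - u 5) + (t 5 - u 4) * u 3 = 0 := h 11
lemma hrel12 (h : ∀ i, plRel t u i = 0) :
    u 0 * t 8 - u 2 * (t 6 - u 5) + (t 5 - u 4) * u 4 = 0 := h 12
lemma hrel13 (h : ∀ i, plRel t u i = 0) :
    u 1 * t 8 - u 2 * t 7 + (t 5 - u 4) * u 5 = 0 := h 13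
lemma hrel14 (h : ∀ i, plRel t u i = 0) :
    u 3 * t 8 - u 4 * t 7 + (t 6 - u 5) * u 5 = 0 := h 14

lemma r00 (h : ∀ i, plRel t u i = 0) : u 0 * u 0 =
    t 0 * u 3 - t 1 * u 1 + t 2 * u 0 := by
  linear_combination (-1) * hrel0 h
lemma r01 (h : ∀ i, plRel t u i = 0) : u 0 * u 1 =
    t 0 * u 4 - t 1 * u 2 + t 3 * u 0 := by
  linear_combination (-1) * hrel1 h
lemma r02 (h : ∀ i, plRel t u i = 0) : u 0 * u 2 =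
    t 0 * t 6 - t 0 * u 5 - t 1 * t 5 + t 1 * u 4 + t 4 * u 0 - u 0 * u 3 := by
  linear_combination (-1) * hrel2 h
lemma r11 (h : ∀ i, plRel t u i = 0) : u 1 * u 1 =
    t 0 * t 6 - t 1 * t 5 + t 1 * u 4 - t 2 * u 2 + t 3 * u 1 + t 4 * u 0 - u 0 * u 3 := by
  linear_combination (-1) * hrel2 h + (-1) * hrel3 h
lemma r12 (h : ∀ i, plRel t u i = 0) : u 1 * u 2 =
    t 0 * t 7 + t 1 * u 5 - t 2 * t 5 + t 3 * u 3 + t 4 * u 1 + t 5 * u 0 - 2 * u 1 * u 3 := by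
  linear_combination (-1) * hrel4 h + (-1) * hrel6 h
lemma r22 (h : ∀ i, plRel t u i = 0) : u 2 * u 2 =
    t 0 * t 8 - t 1 * t 7 + t 2 * t 6 - t 2 * u 5 - t 3 * t 5 + t 3 * u 4 + t 4 * u 2 - t 4 * u
    3 + t 5 * u 1 - t 6 * u 0 - u 2 * u 3 + u 3 * u 3 := by
  linear_combination (-1) * hrel5 h + (1) * hrel7 h + (1) * hrel10 h
lemma r04 (h : ∀ i, plRel t u i = 0) : u 0 * u 4 =
    -t 1 * u 5 + t 2 * u 4 - t 3 * u 3 + u 1 * u 3 := by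
  linear_combination (1) * hrel6 h
lemma r05 (h : ∀ i, plRel t u i = 0) : u 0 * u 5 =
    t 1 * t 7 - t 2 * t 6 + t 2 * u 5 + t 4 * u 3 + t 6 * u 0 - u 2 * u 3 - u 3 * u 3 := by
  linear_combination (-1) * hrel7 h
lemma r15 (h : ∀ i, plRel t u i = 0) : u 1 * u 5 =
    -t 5 * u 3 + t 6 * u 1 - t 7 * u 0 + u 3 * u 4 := by
  linear_combination (1) * hrel11 h
lemma r25 (h : ∀ i, plRel t u i = 0) : u 2 * u 5 =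
    t 2 * t 8 - t 3 * t 7 + t 4 * u 5 + t 7 * u 1 - t 8 * u 0 - u 3 * u 5 := by
  linear_combination (-1) * hrel9 h
lemma r14 (h : ∀ i, plRel t u i = 0) : u 1 * u 4 =
    t 1 * t 7 - t 2 * t 6 + t 2 * u 5 + t 4 * u 3 + t 6 * u 0 - u 3 * u 3 := by
  linear_combination (-1) * hrel7 h + (-1) * hrel10 h
lemma r24 (h : ∀ i, plRel t u i = 0) : u 2 * u 4 =
    t 1 * t 8 - t 3 * t 6 + t 3 * u 5 + t 4 * u 4 + t 5 * u 3 + t 7 * u 0 - 2 * u 3 * u 4 := by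
  linear_combination (-1) * hrel8 h + (-1) * hrel11 h
lemma r44 (h : ∀ i, plRel t u i = 0) : u 4 * u 4 =
    t 2 * t 8 - t 3 * t 7 + t 4 * u 5 + t 5 * u 4 - t 6 * u 2 + t 7 * u 1 - u 3 * u 5 := by
  linear_combination (-1) * hrel9 h + (-1) * hrel12 h
lemma r45 (h : ∀ i, plRel t u i = 0) : u 4 * u 5 =
    t 5 * u 5 - t 7 * u 2 + t 8 * u 1 := by
  linear_combination (-1) * hrel13 h
lemma r55 (h : ∀ i, plRel t u i = 0) : u 5 * u 5 =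
    t 6 * u 5 - t 7 * u 4 + t 8 * u 3 := by
  linear_combination (-1) * hrel14 h
lemma r033 (h : ∀ i, plRel t u i = 0) : u 0 * u 3 * u 3 =
    -t 0 * t 2 * t 8 + t 0 * t 3 * t 7 - t 0 * t 4 * u 5 - t 0 * t 5 * u 4 + t 0 * t 6 * u 2 + t
    0 * t 6 * u 3 - t 0 * t 7 * u 1 + t 0 * u 3 * u 5 + t 1 * t 1 * t 8 + t 1 * t 2 * t 7 - t 1
    * t 3 * t 6 + 2 * t 1 * t 3 * u 5 + t 1 * t 4 * u 4 + t 1 * t 5 * u 3 - t 1 * t 6 * u 1 + 2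
    * t 1 * t 7 * u 0 - 2 * t 1 * u 3 * u 4 - t 2 * t 2 * t 6 + t 2 * t 2 * u 5 - t 2 * t 3 * u
    4 + t 2 * t 4 * u 3 + t 2 * t 6 * u 0 - t 2 * u 2 * u 3 - t 2 * u 3 * u 3 + t 3 * t 3 * u 3
    - t 3 * u 1 * u 3 + t 4 * u 0 * u 3 := by
  linear_combination (t 6) * r00 h + (-t 3) * r04 h + (t 2) * r05 h + (t 1) * r24 h + (-t 0) * r44 h + (-u 4) *
    r01 h + (u 0) * r14 h
lemma r133 (h : ∀ i, plRel t u i = 0) : u 1 * u 3 * u 3 =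
    t 0 * t 5 * u 5 - t 0 * t 6 * u 4 - t 0 * t 7 * u 2 + t 0 * t 7 * u 3 + t 0 * t 8 * u 1 - t
    1 * t 2 * t 8 + 2 * t 1 * t 3 * t 7 - t 1 * t 4 * u 5 + t 1 * t 6 * u 2 - 2 * t 1 * t 7 * u
    1 + t 1 * t 8 * u 0 + 2 * t 1 * u 3 * u 5 - t 2 * t 3 * t 6 + t 2 * t 3 * u 5 + t 2 * t 7 *
    u 0 - t 2 * u 3 * u 4 + t 3 * t 4 * u 3 - t 3 * u 2 * u 3 + t 5 * u 0 * u 3 := by
  linear_combination (-u 3) * r04 h + (t 7) * r00 h + (t 3) * r05 h + (-t 1) * r44 h + (t 0) * r45 h + (-u 4) *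
    r02 h + (u 0) * r24 h
lemma r233 (h : ∀ i, plRel t u i = 0) : u 2 * u 3 * u 3 =
    t 0 * t 6 * t 6 - t 0 * t 6 * u 5 - t 0 * t 7 * u 4 - t 1 * t 4 * t 7 - t 1 * t 5 * t 6 + t
    1 * t 6 * u 4 + 2 * t 1 * t 7 * u 2 + 2 * t 1 * t 7 * u 3 - t 1 * t 8 * u 1 + t 2 * t 2 * t
    8 - t 2 * t 3 * t 7 + t 2 * t 4 * t 6 - t 2 * t 6 * u 2 - 2 * t 2 * t 6 * u 3 + t 2 * t 7 *
    u 1 - t 2 * t 8 * u 0 + t 2 * u 3 * u 5 + t 3 * t 5 * u 3 - t 3 * u 3 * u 4 - t 4 * t 4 * u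
    3 + t 4 * u 2 * u 3 + 3 * t 4 * u 3 * u 3 - t 5 * u 1 * u 3 + t 6 * u 0 * u 3 - 2 * u 3 * u
    3 * u 3 := by
  linear_combination (-t 4 + u 2 + 2 * u 3) * r14 h + (t 6) * r02 h + (-t 5) * r04 h + (t 2) * r25 h + (-t 1) *
    r45 h + (-u 4) * r12 h
lemma r334 (h : ∀ i, plRel t u i = 0) : u 3 * u 3 * u 4 =
    -t 0 * t 6 * t 7 + t 0 * t 7 * u 5 + t 0 * t 8 * u 4 + 2 * t 1 * t 5 * t 7 + t 1 * t 6 * u 5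
    - 2 * t 1 * t 7 * u 4 - t 1 * t 8 * u 2 + t 1 * t 8 * u 3 - t 2 * t 5 * t 6 + t 2 * t 7 * u
    2 - t 2 * t 8 * u 1 + t 3 * t 8 * u 0 + t 3 * u 3 * u 5 + t 4 * t 5 * u 3 - t 4 * t 7 * u 0
    + t 5 * t 6 * u 0 - t 5 * u 2 * u 3 - t 6 * u 1 * u 3 + 2 * t 7 * u 0 * u 3 := by
  linear_combination (-u 3) * r15 h + (t 8) * r01 h + (t 5) * r05 h + (-t 7) * r11 h + (t 1) * r55 h + (u 5) *
    r12 h + (-u 1) * r25 h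
lemma r335 (h : ∀ i, plRel t u i = 0) : u 3 * u 3 * u 5 =
    -t 0 * t 6 * t 8 + t 0 * t 7 * t 7 + t 1 * t 5 * t 8 + t 1 * t 6 * t 7 + 2 * t 1 * t 7 * u 5
    - t 1 * t 8 * u 4 - t 2 * t 5 * t 7 - t 2 * t 6 * t 6 + t 2 * t 6 * u 5 - t 2 * t 7 * u 4 +
    t 2 * t 8 * u 2 + t 2 * t 8 * u 3 + t 3 * t 7 * u 3 - t 3 * t 8 * u 1 + t 4 * t 6 * u 3 + t
    4 * t 7 * u 1 - t 4 * t 8 * u 0 + t 4 * u 3 * u 5 + t 5 * t 5 * u 3 - t 5 * t 6 * u 1 + 2 *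
    t 5 * t 7 * u 0 - t 5 * u 3 * u 4 + t 6 * t 6 * u 0 - t 6 * u 2 * u 3 - t 6 * u 3 * u 3 - 2
    * t 7 * u 1 * u 3 + t 8 * u 0 * u 3 := by
  linear_combination (t 6) * r05 h + (-t 8) * r11 h + (t 7) * r12 h + (-t 5) * r15 h + (t 2) * r55 h + (u 5) *
    r14 h + (-u 1) * r45 h
lemma r3333 (h : ∀ i, plRel t u i = 0) : u 3 * u 3 * u 3 * u 3 =
    t 0 * t 2 * t 6 * t 8 - t 0 * t 2 * t 8 * u 5 + t 0 * t 3 * t 6 * t 7 - t 0 * t 3 * t 7 * u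
    5 - 2 * t 0 * t 3 * t 8 * u 4 + t 0 * t 4 * t 7 * u 4 - t 0 * t 4 * t 8 * u 3 - 2 * t 0 * t
    5 * t 5 * u 5 + t 0 * t 5 * t 6 * u 4 + 2 * t 0 * t 5 * t 7 * u 2 - 2 * t 0 * t 5 * t 8 * u
    1 + t 0 * t 6 * t 6 * u 3 - t 0 * t 6 * t 8 * u 0 + t 0 * t 7 * t 7 * u 0 - 3 * t 0 * t 7 *
    u 3 * u 4 + t 0 * t 8 * u 3 * u 3 + 2 * t 1 * t 1 * t 7 * t 7 + t 1 * t 1 * t 8 * u 5 + t 1
    * t 2 * t 5 * t 8 - t 1 * t 2 * t 6 * t 7 + 3 * t 1 * t 2 * t 7 * u 5 - 6 * t 1 * t 3 * t 5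
    * t 7 - t 1 * t 3 * t 6 * u 5 + 2 * t 1 * t 3 * t 7 * u 4 + 2 * t 1 * t 3 * t 8 * u 2 + 2 *
    t 1 * t 4 * t 5 * u 5 - t 1 * t 4 * t 7 * u 2 + 2 * t 1 * t 4 * t 7 * u 3 + t 1 * t 4 * t 8
    * u 1 - t 1 * t 5 * t 6 * u 2 + 2 * t 1 * t 5 * t 7 * u 1 - t 1 * t 5 * t 8 * u 0 - 3 * t 1
    * t 5 * u 3 * u 5 - t 1 * t 6 * t 6 * u 1 + 3 * t 1 * t 6 * t 7 * u 0 + 2 * t 1 * t 7 * u 2
    * u 3 - t 1 * t 7 * u 3 * u 3 - 3 * t 1 * t 8 * u 1 * u 3 - t 2 * t 2 * t 6 * t 6 + t 2 * t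
    2 * t 6 * u 5 - t 2 * t 2 * t 7 * u 4 + t 2 * t 2 * t 8 * u 3 + 3 * t 2 * t 3 * t 5 * t 6 -
    2 * t 2 * t 3 * t 5 * u 5 - t 2 * t 3 * t 7 * u 2 + t 2 * t 3 * t 8 * u 1 + t 2 * t 4 * t 6
    * u 3 + t 2 * t 4 * u 3 * u 5 - t 2 * t 5 * t 7 * u 0 + t 2 * t 5 * u 3 * u 4 + t 2 * t 6 *
    t 6 * u 0 - 2 * t 2 * t 6 * u 2 * u 3 - 2 * t 2 * t 6 * u 3 * u 3 - 2 * t 3 * t 3 * t 8 * u
    0 - t 3 * t 3 * u 3 * u 5 - 3 * t 3 * t 4 * t 5 * u 3 + 2 * t 3 * t 4 * t 7 * u 0 - 2 * t 3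
    * t 5 * t 6 * u 0 + 3 * t 3 * t 5 * u 2 * u 3 + 2 * t 3 * t 5 * u 3 * u 3 + t 3 * t 6 * u 1
    * u 3 - 3 * t 3 * t 7 * u 0 * u 3 + t 4 * t 6 * u 0 * u 3 + t 4 * u 3 * u 3 * u 3 - t 5 * t
    5 * u 0 * u 3 := by
  linear_combination (t 6) * r033 h + (-t 1 * t 8 - t 2 * t 7 - t 5 * u 3) * r04 h + (-t 5 - u 4) * r133 h + (t 0
    * t 7 - t 1 * t 6 + t 3 * u 3) * r24 h + (-2 * t 3) * r334 h + (t 0 * t 6 + t 2 * u 3) * r44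
    h + (-t 0 * t 5 + t 1 * t 4 - 2 * t 1 * u 3 - t 2 * t 3) * r45 h + (-t 0 * t 8 + 2 * t 1 * t
    7 + u 3 * u 3) * r14 h

end rules

end Pool.Agent.H14
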