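import Mathlib

/-!
# Regular local rings are domains and have long regular sequences
-/

set_option autoImplicit false

universe u

open IsLocalRing RingTheory.Sequence
open scoped Pointwise

namespace Pool.Agent.H14

lemma exists_mem_maximalIdeal_notMem (R : Type u) [CommRing R] [IsLocalRing R]
    [IsNoetherianRing R] (h : 0 < ringKrullDim R) :
    ∃ x ∈ maximalIdeal R, x ∉ maximalIdeal R ^ 2 ∧ ∀ P ∈ minimalPrimes R, x ∉ P := by
  classical
  by_contra hcon
  push Not at hcon
  have hfin : (minimalPrimes R).Finite := minimalPrimes.finite_of_isNoetherianRing R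
  set s : Finset (Ideal R) := insert (maximalIdeal R ^ 2) hfin.toFinset with hs
  have hsub : (maximalIdeal R : Set R) ⊆ ⋃ I ∈ (s : Set (Ideal R)), (I : Set R) := by
    intro x hx
    by_cases h2 : x ∈ maximalIdeal R ^ 2
    · simp only [Set.mem_iUnion]
      exact ⟨_, by simp [hs], h2⟩
    · obtain ⟨P, hP, hxP⟩ := hcon x hx h2
      simp only [Set.mem_iUnion]
      exact ⟨P, by simp [hs, hP], hxP⟩
  rw [Ideal.subset_union_prime (maximalIdeal R ^ 2) (maximalIdeal R ^ 2)] at hsub
  · obtain ⟨I, hI, hle⟩ := hsub
    have hdim : (maximalIdeal R).height ≠ 0 := by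
      intro h0
      rw [← maximalIdeal_height_eq_ringKrullDim, h0] at h
      exact lt_irrefl _ h
    rw [hs, Finset.mem_insert] at hI
    rcases hI with rfl | hI
    · have hb : maximalIdeal R = ⊥ := by
        apply Submodule.eq_bot_of_le_smul_of_le_jacobson_bot (maximalIdeal R) _
          (IsNoetherian.noetherian _)
        · rwa [smul_eq_mul, ← pow_two]
        · rw [jacobson_eq_maximalIdeal _ bot_ne_top]
      apply hdim
      rw [Ideal.height_eq_zero_iff]
      rw [hb]
      refine ⟨⟨?_, le_refl _⟩, fun q _ _ => bot_le⟩
      rw [← hb]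
      infer_instance
    · rw [Set.Finite.mem_toFinset] at hI
      apply hdim
      rw [Ideal.height_eq_zero_iff]
      have := hI.1.1
      rwa [le_antisymm hle (IsLocalRing.le_maximalIdeal this.ne_top)]
  · intro I hI h1 _
    rw [hs, Finset.mem_insert] at hI
    rcases hI with rfl | hI
    · exact absurd rfl h1
    · rw [Set.Finite.mem_toFinset] at hI
      exact hI.1.1

theorem regular_aux (n : ℕ) : ∀ (R : Type u) [CommRing R] [IsLocalRing R] [IsNoetherianRing R],
    ringKrullDim R = n → (maximalIdeal R).spanFinrank ≤ n →
    IsDomain R ∧ ∃ rs : List R, rs.length = n ∧ (∀ r ∈ rs, r ∈ maximalIdeal R) ∧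
      IsRegular R rs := by
  induction n with
  | zero =>
    intro R _ _ _ hd hs
    have hb : maximalIdeal R = ⊥ := by
      rw [← Submodule.spanFinrank_eq_zero_iff_eq_bot (IsNoetherian.noetherian _)]
      omega
    have hf : IsField R := by rwa [isField_iff_maximalIdeal_eq]
    refine ⟨hf.isDomain, [], rfl, by simp, IsRegular.nil _ _⟩
  | succ n ih =>
    intro R _ _ _ hd hs
    classical
    obtain ⟨x, hx, hx2, hxP⟩ := exists_mem_maximalIdeal_notMem R (by
      rw [hd]; exact_mod_cast Nat.succ_pos n)
    have hspan : Ideal.span {x} ≤ maximalIdeal R := by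
      rwa [Ideal.span_singleton_le_iff_mem]
    have hne : Ideal.span {x} ≠ ⊤ := fun h => (maximalIdeal.isMaximal R).ne_top
      (top_le_iff.1 (h ▸ hspan))
    have : Nontrivial (R ⧸ Ideal.span {x}) := Ideal.Quotient.nontrivial_iff.2 hne
    have : IsLocalRing (R ⧸ Ideal.span {x}) :=
      IsLocalRing.of_surjective' (Ideal.Quotient.mk _) Ideal.Quotient.mk_surjective
    have hmax : maximalIdeal (R ⧸ Ideal.span {x}) =
        (maximalIdeal R).map (Ideal.Quotient.mk (Ideal.span {x})) := by
      have := IsLocalHom.of_surjective (Ideal.Quotient.mk (Ideal.span {x}))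
        Ideal.Quotient.mk_surjective
      symm
      ext y
      obtain ⟨y, rfl⟩ := Ideal.Quotient.mk_surjective y
      simp [sup_eq_left.mpr hspan]
    -- the number of generators
    have hgen : (maximalIdeal (R ⧸ Ideal.span {x})).spanFinrank ≤ n := by
      obtain ⟨s, hs1, hs2⟩ := Submodule.FG.exists_span_finset_card_eq_spanFinrank
        (IsNoetherian.noetherian (maximalIdeal R))
      have hxs : x ∈ Submodule.span R (s : Set R) := by rw [hs2]; exact hx
      obtain ⟨f, _, hf⟩ := Submodule.mem_span_finset.1 hxs
      have : ∃ i ∈ s, f i ∉ maximalIdeal R := by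
        by_contra hcon
        push Not at hcon
        apply hx2
        rw [← hf, pow_two]
        refine Ideal.sum_mem _ fun i hi => Ideal.mul_mem_mul (hcon i hi) ?_
        rw [← hs2]
        exact Submodule.subset_span hi
      obtain ⟨i, hi, hfi⟩ := this
      have hu : IsUnit (f i) := by
        by_contra hu
        exact hfi ((mem_maximalIdeal _).2 hu)
      have key : maximalIdeal (R ⧸ Ideal.span {x}) =
          Ideal.span (((s.erase i).image (Ideal.Quotient.mk (Ideal.span {x})) :
            Finset _) : Set (R ⧸ Ideal.span {x})) := by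
        rw [hmax]
        apply le_antisymm
        · rw [← hs2]
          change Ideal.map _ (Ideal.span (s : Set R)) ≤ _
          rw [Ideal.map_span, Ideal.span_le]
          rintro _ ⟨y, hy, rfl⟩
          by_cases hyi : y = i
          · subst hyi
            obtain ⟨v, hv⟩ := hu.exists_left_inv
            have h1 : y = v * x - ∑ j ∈ s.erase y, (v * f j) * j := by
              rw [← hf, ← Finset.add_sum_erase s _ hi, mul_add, Finset.mul_sum]
              simp only [smul_eq_mul, mul_assoc]
              rw [← mul_assoc, hv, one_mul]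
              ring
            have h2 : Ideal.Quotient.mk (Ideal.span {x}) y =
                - ∑ j ∈ s.erase y, Ideal.Quotient.mk (Ideal.span {x}) (v * f j) *
                  Ideal.Quotient.mk (Ideal.span {x}) j := by
              conv_lhs => rw [h1]
              rw [map_sub, map_mul, Ideal.Quotient.eq_zero_iff_mem.2
                (Ideal.mem_span_singleton_self x), mul_zero, zero_sub, map_sum]
              simp only [map_mul]
            rw [SetLike.mem_coe, h2]
            refine neg_mem (Ideal.sum_mem _ fun j hj => Ideal.mul_mem_left _ _ ?_)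
            exact Ideal.subset_span (by
              rw [Finset.coe_image]; exact ⟨j, hj, rfl⟩)
          · exact Ideal.subset_span (by
              rw [Finset.coe_image]; exact ⟨y, by simp [hyi, hy], rfl⟩)
        · rw [Ideal.span_le]
          intro y hy
          rw [Finset.coe_image] at hy
          obtain ⟨z, hz, rfl⟩ := hy
          apply Ideal.mem_map_of_mem
          rw [← hs2]
          exact Submodule.subset_span (Finset.mem_of_mem_erase hz)
      rw [key]
      refine (Submodule.spanFinrank_span_le_ncard_of_finite (Finset.finite_toSet _)).trans ?_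
      rw [Set.ncard_coe_finset]
      refine Finset.card_image_le.trans ?_
      rw [Finset.card_erase_of_mem hi]
      omega
    have hdim : ringKrullDim (R ⧸ Ideal.span {x}) = n := by
      apply le_antisymm
      · exact (ringKrullDim_le_spanFinrank_maximalIdeal _).trans (by exact_mod_cast hgen)
      · have h1 := ringKrullDim_le_ringKrullDim_quotient_add_card (R := R) {x} (by
          intro y hy
          rw [Finset.coe_singleton, Set.mem_singleton_iff] at hy
          rw [hy, IsLocalRing.ringJacobson_eq_maximalIdeal]
          exact hx)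
        rw [hd, Finset.coe_singleton, Finset.card_singleton] at h1
        have hd0 : ringKrullDim (R ⧸ Ideal.span {x}) ≠ ⊥ := ringKrullDim_ne_bot
        push_cast at h1
        have h3 : ((n : ℕ) : WithBot ℕ∞) + 1 ≤ ringKrullDim (R ⧸ Ideal.span {x}) + 1 := h1
        exact ENat.WithBot.add_le_add_one_right_iff.1 h3
    obtain ⟨hdom, rs, hlen, hrs, hreg⟩ := ih _ hdim hgen
    have hprime : (Ideal.span {x}).IsPrime := (Ideal.Quotient.isDomain_iff_prime _).1 hdom
    have hR : IsDomain R := by
      obtain ⟨P, hP, hPx⟩ := Ideal.exists_minimalPrimes_le (I := ⊥) (J := Ideal.span {x}) bot_le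
      have hxP' := hxP P hP
      have hPp : P.IsPrime := hP.1.1
      have hPb : P = ⊥ := by
        apply Submodule.eq_bot_of_le_smul_of_le_jacobson_bot (maximalIdeal R) _
          (IsNoetherian.noetherian _)
        · intro p hp
          obtain ⟨r, rfl⟩ := Ideal.mem_span_singleton'.1 (hPx hp)
          rw [smul_eq_mul, mul_comm r x]
          refine Ideal.mul_mem_mul hx ?_
          rcases hPp.mem_or_mem hp with h | h
          · exact h
          · exact absurd h hxP'
        · rw [jacobson_eq_maximalIdeal _ bot_ne_top]
      rw [hPb] at hPp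
      exact IsDomain.of_bot_isPrime R
    refine ⟨hR, ?_⟩
    obtain ⟨ls, hls⟩ := List.map_surjective_iff.2
      (Ideal.Quotient.mk_surjective (I := Ideal.span {x})) rs
    have hlmem : ∀ r ∈ ls, r ∈ maximalIdeal R := by
      intro r hr
      have h1 := hrs (Ideal.Quotient.mk _ r) (by rw [← hls]; exact List.mem_map_of_mem hr)
      rw [mem_maximalIdeal, mem_nonunits_iff] at h1 ⊢
      exact fun h => h1 (h.map _)
    have hx0 : x ≠ 0 := fun h => hx2 (by rw [h]; exact zero_mem _)
    have hall : ∀ r ∈ x :: ls, r ∈ maximalIdeal R := by
      intro r hr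
      rcases List.mem_cons.1 hr with rfl | hr
      · exact hx
      · exact hlmem r hr
    refine ⟨x :: ls, ?_, hall, ?_⟩
    · rw [List.length_cons, ← hlen, ← hls, List.length_map]
    · rw [IsLocalRing.isRegular_iff_isWeaklyRegular_of_subset_maximalIdeal hall,
        isWeaklyRegular_cons_iff]
      refine ⟨?_, ?_⟩
      · intro a b hab
        exact mul_left_cancel₀ hx0 hab
      · have h1 := hreg.1
        rw [← hls, ← Ideal.Quotient.algebraMap_eq, isWeaklyRegular_map_algebraMap_iff] at h1
        have heq : (Ideal.span {x} : Submodule R R) = x • (⊤ : Submodule R R) := by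
          rw [← Submodule.ideal_span_singleton_smul, Ideal.smul_top_eq_map]
          simp
        exact ((Submodule.quotEquivOfEq _ _ heq).isWeaklyRegular_congr ls).1 h1

end Pool.Agent.H14
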