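import Mathlib

/-!
# Sparse polynomials in nine variables, with a decidable check of matrix identities

A monomial is coded by the natural number whose digits in base 16 are the exponents.
-/

set_option autoImplicit false

namespace Pool.Agent.H14.SP

/-- sparse polynomials -/
abbrev Poly := List (ℕ × ℤ)

section

variable {R : Type*} [CommRing R]

/-- value of a coded monomial -/
def evm (θ : ℕ → R) : ℕ → ℕ → ℕ → R
  | 0, _, _ => 1
  | n + 1, i, c => θ i ^ (c % 16) * evm θ n (i + 1) (c / 16)

/-- all exponents are less than 8 -/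
def goodm : ℕ → ℕ → Bool
  | 0, _ => true
  | n + 1, c => decide (c % 16 < 8) && goodm n (c / 16)

lemma evm_add (θ : ℕ → R) (n : ℕ) : ∀ (i a b : ℕ), goodm n a = true → goodm n b = true →
    evm θ n i (a + b) = evm θ n i a * evm θ n i b := by
  induction n with
  | zero => intro i a b _ _; simp [evm]
  | succ n ih =>
    intro i a b ha hb
    simp only [goodm, Bool.and_eq_true, decide_eq_true_eq] at ha hb
    have h1 : (a + b) % 16 = a % 16 + b % 16 := by omega
    have h2 : (a + b) / 16 = a / 16 + b / 16 := by omega
    simp only [evm]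
    rw [h1, h2, ih _ _ _ ha.2 hb.2, pow_add]
    ring

/-- value of a sparse polynomial -/
def ev (θ : ℕ → R) (p : Poly) : R := (p.map fun m => (m.2 : R) * evm θ 9 0 m.1).sum

@[simp] lemma ev_nil (θ : ℕ → R) : ev θ [] = 0 := rfl

@[simp] lemma ev_cons (θ : ℕ → R) (m : ℕ × ℤ) (p : Poly) :
    ev θ (m :: p) = (m.2 : R) * evm θ 9 0 m.1 + ev θ p := by
  simp [ev]

@[simp] lemma ev_append (θ : ℕ → R) (p q : Poly) : ev θ (p ++ q) = ev θ p + ev θ q := by
  simp [ev]

/-- sum of sparse polynomials, the codes of the monomials decreasing -/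
def add : ℕ → Poly → Poly → Poly
  | 0, p, q => p ++ q
  | _ + 1, [], q => q
  | _ + 1, m :: p, [] => m :: p
  | n + 1, m :: p, l :: q =>
    if m.1 = l.1 then
      (if m.2 + l.2 = 0 then add n p q else (m.1, m.2 + l.2) :: add n p q)
    else if l.1 < m.1 then m :: add n p (l :: q) else l :: add n (m :: p) q

lemma ev_addp (θ : ℕ → R) (n : ℕ) : ∀ p q : Poly, ev θ (add n p q) = ev θ p + ev θ q := by
  induction n with
  | zero => intro p q; simp [add]
  | succ n ih =>
    intro p q
    match p, q with
    | [], q => simp [add]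
    | m :: p, [] => simp [add]
    | m :: p, l :: q =>
      simp only [add]
      split_ifs with h1 h2 h3
      · have h4 : (m.2 : R) + (l.2 : R) = 0 := by exact_mod_cast congrArg (Int.cast : ℤ → R) h2
        rw [ih, ev_cons, ev_cons, h1]
        linear_combination (-evm θ 9 0 l.1) * h4
      · rw [ev_cons, ih, ev_cons, ev_cons, h1]
        push_cast
        ring
      · rw [ev_cons, ih, ev_cons, ev_cons]; ring
      · rw [ev_cons, ih, ev_cons, ev_cons]; ring

/-- product with a monomial -/
def mulm (m : ℕ × ℤ) (q : Poly) : Poly := q.map fun l => (m.1 + l.1, m.2 * l.2)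

/-- all monomials have small exponents -/
def good (p : Poly) : Bool := p.all fun m => goodm 9 m.1

lemma ev_mulm (θ : ℕ → R) (m : ℕ × ℤ) (q : Poly) (hm : goodm 9 m.1 = true)
    (hq : good q = true) : ev θ (mulm m q) = (m.2 : R) * evm θ 9 0 m.1 * ev θ q := by
  induction q with
  | nil => simp [mulm]
  | cons l q ih =>
    simp only [good, List.all_cons, Bool.and_eq_true] at hq
    have := ih hq.2
    simp only [mulm, List.map_cons] at this ⊢
    rw [ev_cons, this, ev_cons, evm_add θ 9 0 _ _ hm hq.1]
    push_cast
    ring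

/-- product of sparse polynomials -/
def mul : Poly → Poly → Poly
  | [], _ => []
  | m :: p, q => add 100000 (mulm m q) (mul p q)

lemma ev_mul (θ : ℕ → R) (p q : Poly) (hp : good p = true) (hq : good q = true) :
    ev θ (mul p q) = ev θ p * ev θ q := by
  induction p with
  | nil => simp [mul]
  | cons m p ih =>
    simp only [good, List.all_cons, Bool.and_eq_true] at hp
    rw [mul, ev_addp, ev_mulm θ _ _ hp.1 hq, ih hp.2, ev_cons]
    ring

end

/-- matrices of sparse polynomials, given by the list of the columns -/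
abbrev Mat := List (List Poly)

/-- an entry -/
def Mat.ent (A : Mat) (i j : ℕ) : Poly := (A.getD j []).getD i []

/-- all entries are good -/
def Mat.good (n : ℕ) (A : Mat) : Bool :=
  (List.range n).all fun i => (List.range n).all fun j => SP.good (A.ent i j)

/-- the matrix over a ring -/
def Mat.ev {R : Type*} [CommRing R] (θ : ℕ → R) (n : ℕ) (A : Mat) : Matrix (Fin n) (Fin n) R :=
  fun i j => SP.ev θ (A.ent i j)

/-- an entry of the product -/
def pent (n : ℕ) (A B : Mat) (i j : ℕ) : Poly :=
  (List.range n).foldr (fun l acc => add 100000 (mul (A.ent i l) (B.ent l j)) acc) []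

lemma ev_pent {R : Type*} [CommRing R] (θ : ℕ → R) (n : ℕ) (A B : Mat) (hA : A.good n = true)
    (hB : B.good n = true) (i j : Fin n) :
    ev θ (pent n A B i j) = (A.ev θ n * B.ev θ n) i j := by
  have key : ∀ L : List ℕ, (∀ l ∈ L, l < n) →
      ev θ (L.foldr (fun l acc => add 100000 (mul (A.ent i l) (B.ent l j)) acc) []) =
        (L.map fun l => ev θ (A.ent i l) * ev θ (B.ent l j)).sum := by
    intro L
    induction L with
    | nil => intro _; simp
    | cons l L ih =>
      intro h
      have hl : l < n := h l (by simp)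
      rw [List.foldr_cons, ev_addp, ih (fun l hl => h l (by simp [hl])), List.map_cons,
        List.sum_cons, ev_mul]
      · simp only [Mat.good, List.all_eq_true, List.mem_range] at hA
        exact hA i i.2 l hl
      · simp only [Mat.good, List.all_eq_true, List.mem_range] at hB
        exact hB l hl j j.2
  rw [pent, key _ (fun l hl => List.mem_range.1 hl), Matrix.mul_apply]
  change _ = ∑ l : Fin n, ev θ (A.ent i l) * ev θ (B.ent l j)
  rw [Fin.sum_univ_eq_sum_range (fun l => ev θ (A.ent i l) * ev θ (B.ent l j)) n]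
  rfl

/-- the check that two matrices commute -/
def commCheck (n : ℕ) (A B : Mat) : Bool :=
  A.good n && (B.good n && (List.range n).all fun i => (List.range n).all fun j =>
    pent n A B i j == pent n B A i j)

lemma comm_of_check {R : Type*} [CommRing R] (θ : ℕ → R) (n : ℕ) (A B : Mat)
    (h : commCheck n A B = true) : A.ev θ n * B.ev θ n = B.ev θ n * A.ev θ n := by
  simp only [commCheck, Bool.and_eq_true, List.all_eq_true, List.mem_range, beq_iff_eq] at h
  obtain ⟨hA, hB, h⟩ := h
  ext i j
  rw [← ev_pent θ n A B hA hB, ← ev_pent θ n B A hB hA, h i i.2 j j.2]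

/-- the check that the first column of a combination of products of two matrices vanishes -/
def relCheck (n : ℕ) (L : List (Poly × Mat × Mat)) : Bool :=
  (L.all fun x => SP.good x.1 && (x.2.1.good n && (x.2.2.good n &&
    (List.range n).all fun r => SP.good (pent n x.2.1 x.2.2 r 0)))) &&
  (List.range n).all fun r =>
    (L.foldr (fun x acc => add 100000 (mul x.1 (pent n x.2.1 x.2.2 r 0)) acc) []) == []

lemma rel_of_check {R : Type*} [CommRing R] (θ : ℕ → R) (n : ℕ) (L : List (Poly × Mat × Mat))
    (h : relCheck (n + 1) L = true) (r : Fin (n + 1)) :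
    (L.map fun x => SP.ev θ x.1 * (x.2.1.ev θ (n + 1) * x.2.2.ev θ (n + 1)) r 0).sum = 0 := by
  simp only [relCheck, Bool.and_eq_true, List.all_eq_true, List.mem_range, beq_iff_eq] at h
  obtain ⟨hg, h⟩ := h
  have key : ∀ L' : List (Poly × Mat × Mat), (∀ x ∈ L', x ∈ L) →
      ev θ (L'.foldr (fun x acc => add 100000 (mul x.1 (pent (n + 1) x.2.1 x.2.2 r 0)) acc) []) =
        (L'.map fun x => SP.ev θ x.1 *
          (x.2.1.ev θ (n + 1) * x.2.2.ev θ (n + 1)) r 0).sum := by
    intro L'
    induction L' with
    | nil => intro _; simp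
    | cons x L' ih =>
      intro hL
      obtain ⟨h1, h2, h3, h4⟩ := hg x (hL x (by simp))
      rw [List.foldr_cons, ev_addp, ih (fun y hy => hL y (by simp [hy])), List.map_cons,
        List.sum_cons, ev_mul θ _ _ h1 (h4 r r.2)]
      congr 2
      exact ev_pent θ (n + 1) _ _ h2 h3 r 0
  rw [← key L (fun _ h => h), h r r.2]
  rfl

end Pool.Agent.H14.SP
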