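import Pool.Agent.H14.SectA
import Pool.Agent.H14.LocBasis

/-!
# Local sections of the classifying morphism of the universal chart datum
-/

set_option autoImplicit false
set_option linter.unusedSectionVars false

open TensorProduct CategoryTheory AlgebraicGeometry Limits

namespace Pool.Agent.H14

section

variable {k : Type} [Field k] {X : Scheme.{0}} {f : X ⟶ Spec (CommRingCat.of k)} [IsSeparated f]
variable {n : ℕ} {H 𝒵 : Scheme.{0}} {s : H ⟶ Spec (CommRingCat.of k)} {π : 𝒵 ⟶ H} {α : 𝒵 ⟶ X}
variable (hH : IsHilbertScheme f n s π α)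
variable {B : Type} [CommRing B] [Algebra k B] {i : Spec (CommRingCat.of B) ⟶ X}
variable (hi : IsAffChart k f B i) {b : Fin n → B}

/-- a morphism for which the pullback of the universal family is given by an algebra with a basis
is the classifying morphism of the chart datum -/
lemma eq_cl_ofBasis {R A : Type} [CommRing R] [CommRing A] [Algebra k R] [Algebra R A]
    [Algebra k A] [IsScalarTower k R A] (j : Spec (CommRingCat.of R) ⟶ H) (hj : j ≫ s = sp k R)
    (zA : Spec (CommRingCat.of A) ⟶ 𝒵) (hpb : IsPullback zA (sp R A) π j)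
    (β : B →ₐ[k] A) (hβ : zA ≫ α = Spec.map (CommRingCat.ofHom β.toRingHom) ≫ i)
    (bas : Module.Basis (Fin n) R A) (hb : ∀ l, β (b l) = bas l) :
    j = cl hH hi (Chart.ofBasis bas β hb) := by
  let c : Chart k b R := Chart.ofBasis bas β hb
  let e : OC c ≃+* A := ocEquiv bas β hb
  have he : IsIso (Spec.map (CommRingCat.ofHom (e.symm : A →+* OC c))) := by
    have : IsIso (CommRingCat.ofHom (e.symm : A →+* OC c)) :=
      inferInstanceAs (IsIso (e.symm.toCommRingCatIso.hom))
    infer_instance
  have h1 : IsPullback (Spec.map (CommRingCat.ofHom (e.symm : A →+* OC c))) (pc c) (sp R A)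
      (𝟙 _) := by
    refine IsPullback.of_horiz_isIso ⟨?_⟩
    rw [Category.comp_id, ← Spec.map_comp, ← CommRingCat.ofHom_comp]
    congr 2
    ext r
    change e.symm (algebraMap R A r) = algebraMap R (OC c) r
    rw [RingEquiv.symm_apply_eq]
    exact (ocEquiv_left bas β hb r).symm
  have h2 := h1.paste_horiz hpb
  rw [Category.id_comp] at h2
  apply cl_unique hH hi c j hj
  refine ⟨_, h2, ?_⟩
  rw [Category.assoc, hβ, ← Category.assoc, ← Spec.map_comp, ← CommRingCat.ofHom_comp]
  congr 3
  ext x
  change e.symm (β x) = algebraMap B (OC c) x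
  rw [RingEquiv.symm_apply_eq]
  exact (ocEquiv_right bas β hb x).symm

/-- an algebra with a basis, which is the pullback of the universal family, is the family of a
chart datum; the corresponding morphism factors over the universal chart -/
lemma section_of_basis {R A : Type} [CommRing R] [CommRing A] [Algebra k R] [Algebra R A]
    [Algebra k A] [IsScalarTower k R A] (j : Spec (CommRingCat.of R) ⟶ H) (hj : j ≫ s = sp k R)
    (zA : Spec (CommRingCat.of A) ⟶ 𝒵) (hpb : IsPullback zA (sp R A) π j)
    (β : B →ₐ[k] A) (hβ : zA ≫ α = Spec.map (CommRingCat.ofHom β.toRingHom) ≫ i)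
    (bas : Module.Basis (Fin n) R A) (hb : ∀ l, β (b l) = bas l) :
    ∃ q : Spec (CommRingCat.of R) ⟶ Spec (CommRingCat.of (ChartRing k b)),
      q ≫ clU hH hi b = j := by
  refine ⟨Spec.map (CommRingCat.ofHom (Chart.ofBasis (e := b) bas β hb).lift.toRingHom), ?_⟩
  rw [eq_cl_ofBasis hH hi j hj zA hpb β hβ bas hb]
  exact (cl_eq hH hi _).symm

/-- Near a point of `H` whose family is the family of a chart datum, `H` has a section of the
classifying morphism of the universal chart datum. -/
theorem exists_section {K : Type} [Field K] [Algebra k K] (cK : Chart k b K)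
    (y0 : Spec (CommRingCat.of K)) :
    ∃ (R : Type) (_ : CommRing R) (j : Spec (CommRingCat.of R) ⟶ H)
      (q : Spec (CommRingCat.of R) ⟶ Spec (CommRingCat.of (ChartRing k b)))
      (w : Spec (CommRingCat.of R)), IsOpenImmersion j ∧ q ≫ clU hH hi b = j ∧
        j w = cl hH hi cK y0 := by
  have hio := hi.isOpenImmersion
  have hπ1 := hH.family.finite
  have hπ2 := hH.family.flat
  have hπ3 := hH.family.lfp
  obtain ⟨z, hz, hza⟩ := cl_pb hH hi cK
  -- the affine neighbourhood
  obtain ⟨R, _, j0, hj0, hh0, hV⟩ := exists_affine_nbhd π α (Set.range i)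
    i.isOpenEmbedding.isOpen_range (cl hH hi cK y0) (by
      intro z1 hz1
      obtain ⟨z', hz', -⟩ := Scheme.exists_preimage_of_isPullback hz z1 y0 hz1
      have h1 : α z1 = i (sp B (OC cK) z') := by
        rw [← hz']
        have := congrArg (fun g => g z') (congrArg (fun g : _ ⟶ X => (g.base : _ → _)) hza)
        exact this
      exact ⟨_, h1.symm⟩)
  obtain ⟨A, _, _, zA, hpb, hfin, hflat, hfp, hrank⟩ := exists_affine_model π hH.family.rank j0
  -- the `k`-algebra structures
  obtain ⟨φk, hφk⟩ := Spec.map_surjective (j0 ≫ s)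
  let _ : Algebra k R := φk.hom.toAlgebra
  have hj0s : j0 ≫ s = sp k R := hφk.symm
  let _ : Algebra k A := ((algebraMap R A).comp (algebraMap k R)).toAlgebra
  have htow : IsScalarTower k R A := IsScalarTower.of_algebraMap_eq' rfl
  -- the map of `B`
  have hrange : Set.range (zA ≫ α) ⊆ Set.range i := by
    rintro _ ⟨a, rfl⟩
    have h1 : π (zA a) = j0 (sp R A a) := by
      have := congrArg (fun g => g a) (congrArg (fun g : _ ⟶ H => (g.base : _ → _)) hpb.w)
      exact this
    exact hV (zA a) ⟨_, h1.symm⟩
  obtain ⟨β0, hβ0⟩ := Spec.map_surjective (IsOpenImmersion.lift i (zA ≫ α) hrange)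
  have hβ1 : Spec.map β0 ≫ i = zA ≫ α := by rw [hβ0, IsOpenImmersion.lift_fac]
  have hβ2 : CommRingCat.ofHom (algebraMap k B) ≫ β0 =
      CommRingCat.ofHom (algebraMap k A) := by
    apply Spec.map_injective
    rw [Spec.map_comp]
    change _ ≫ sp k B = _
    rw [← hi.w, ← Category.assoc, hβ1, Category.assoc, hH.family.w, ← Category.assoc, hpb.w,
      Category.assoc, hj0s, ← Spec.map_comp]
    rfl
  let β : B →ₐ[k] A := { β0.hom with
    commutes' := fun x => DFunLike.congr_fun (congrArg CommRingCat.Hom.hom hβ2) x }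
  have hβ3 : zA ≫ α = Spec.map (CommRingCat.ofHom β.toRingHom) ≫ i := hβ1.symm
  -- the point
  have hx0 : Set.range (cl hH hi cK) ⊆ Set.range j0 := by
    rintro _ ⟨y, rfl⟩
    have : y = y0 := Subsingleton.elim (α := PrimeSpectrum K) y y0
    rw [this]
    exact hh0
  obtain ⟨κ0, hκ0⟩ := Spec.map_surjective (IsOpenImmersion.lift j0 (cl hH hi cK) hx0)
  have hκ1 : Spec.map κ0 ≫ j0 = cl hH hi cK := by rw [hκ0, IsOpenImmersion.lift_fac]
  -- the map of the fibre
  obtain ⟨ζ0, hζ0⟩ := Spec.map_surjective (hpb.lift z (pc cK ≫ Spec.map κ0) (by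
    rw [Category.assoc, hκ1, hz.w]))
  have hζ1 : Spec.map ζ0 ≫ zA = z := by rw [hζ0, hpb.lift_fst]
  have hζ2 : Spec.map ζ0 ≫ sp R A = pc cK ≫ Spec.map κ0 := by rw [hζ0, hpb.lift_snd]
  have hζ3 : ∀ r, ζ0.hom (algebraMap R A r) = algebraMap K (OC cK) (κ0.hom r) := by
    rw [← Spec.map_comp, ← Spec.map_comp] at hζ2
    exact fun r => DFunLike.congr_fun (congrArg CommRingCat.Hom.hom (Spec.map_injective hζ2)) r
  have hζ4 : ∀ x, ζ0.hom (β x) = algebraMap B (OC cK) x := by
    have h1 : Spec.map ζ0 ≫ Spec.map β0 = sp B (OC cK) := by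
      rw [← cancel_mono i, Category.assoc, hβ1, ← Category.assoc, hζ1, hza]
    rw [← Spec.map_comp] at h1
    exact fun x => DFunLike.congr_fun (congrArg CommRingCat.Hom.hom (Spec.map_injective h1)) x
  -- the basis
  obtain ⟨r, hr, bas, hbas⟩ := exists_loc_basis κ0.hom ζ0.hom hζ3 (fun l => β (b l)) (by
    simp only [hζ4]
    have h1 := (basisO cK).linearIndependent
    have h2 : ⇑(basisO cK) = fun l => algebraMap B (OC cK) (b l) := by
      funext l
      rw [basisO_apply]
    rwa [h2] at h1) hrank
  have hjo : IsOpenImmersion (sp R (Localization (Submonoid.powers r))) :=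
    Scheme.isOpenImmersion_SpecMap_localizationAway (R := CommRingCat.of R) r
  have hcomm : ∀ x : k, algebraMap A (LA A (Submonoid.powers r)) (algebraMap k A x) =
      algebraMap k (LA A (Submonoid.powers r)) x := fun x =>
    (IsScalarTower.algebraMap_apply k A (LA A (Submonoid.powers r)) x).symm
  have htow1 : IsScalarTower k (Localization (Submonoid.powers r)) (LA A (Submonoid.powers r)) := by
    apply IsScalarTower.of_algebraMap_eq
    intro x
    rw [← hcomm, IsScalarTower.algebraMap_apply k R A, ← IsScalarTower.algebraMap_apply R A,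
      IsScalarTower.algebraMap_apply k R (Localization (Submonoid.powers r)),
      ← IsScalarTower.algebraMap_apply R (Localization (Submonoid.powers r))]
  have hpo : IsPullback (sp A (LA A (Submonoid.powers r)))
      (sp (Localization (Submonoid.powers r)) (LA A (Submonoid.powers r))) (sp R A)
      (sp R (Localization (Submonoid.powers r))) := by
    apply isPullback_SpecMap_of_isPushout
    have : Algebra.IsPushout R A (Localization (Submonoid.powers r))
        (LA A (Submonoid.powers r)) :=
      (Algebra.isLocalization_iff_isPushout (Submonoid.powers r) _).mp inferInstance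
    exact (CommRingCat.isPushout_of_isPushout R A (Localization (Submonoid.powers r))
      (LA A (Submonoid.powers r)))
  let βr : B →ₐ[k] LA A (Submonoid.powers r) :=
    { (algebraMap A (LA A (Submonoid.powers r))).comp β.toRingHom with
      commutes' := fun x => by
        change algebraMap A (LA A (Submonoid.powers r)) (β (algebraMap k B x)) = _
        rw [β.commutes]
        exact hcomm x }
  obtain ⟨q, hq⟩ := section_of_basis hH hi (b := b)
    (sp R (Localization (Submonoid.powers r)) ≫ j0) (by
      rw [Category.assoc, hj0s, ← Spec.map_comp, ← CommRingCat.ofHom_comp,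
        ← IsScalarTower.algebraMap_eq k R (Localization (Submonoid.powers r))])
    (sp A (LA A (Submonoid.powers r)) ≫ zA) (hpo.paste_horiz hpb) βr (by
      rw [Category.assoc, hβ3, ← Category.assoc, ← Spec.map_comp, ← CommRingCat.ofHom_comp]) bas (fun l => (hbas l).symm)
  have hu : ∀ x : Submonoid.powers r, IsUnit (κ0.hom x) := by
    rintro ⟨_, m, rfl⟩
    rw [isUnit_iff_ne_zero]
    change κ0.hom (r ^ m) ≠ 0
    rw [map_pow]
    exact pow_ne_zero m hr
  let κr : Localization (Submonoid.powers r) →+* K := IsLocalization.lift hu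
  refine ⟨Localization (Submonoid.powers r), inferInstance, _, q,
    Spec.map (CommRingCat.ofHom κr) y0, inferInstance, hq, ?_⟩
  rw [← hκ1]
  have h1 : Spec.map (CommRingCat.ofHom κr) ≫ sp R (Localization (Submonoid.powers r)) =
      Spec.map κ0 := by
    rw [← Spec.map_comp, ← CommRingCat.ofHom_comp]
    congr 1
    ext x
    exact IsLocalization.lift_eq hu x
  rw [← h1]
  rfl

end

end Pool.Agent.H14
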