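import Pool.Agent.H14.Cls

/-!
# Affine models of families
-/

set_option autoImplicit false
set_option linter.unusedSectionVars false

open TensorProduct CategoryTheory AlgebraicGeometry Limits

namespace Pool.Agent.H14

lemma exists_affine_nbhd {H 𝒵 X : Scheme.{0}} (π : 𝒵 ⟶ H) [IsFinite π] (α : 𝒵 ⟶ X)
    (V : Set X) (hV : IsOpen V) (h : H) (hh : ∀ z, π z = h → α z ∈ V) :
    ∃ (R : Type) (_ : CommRing R) (j0 : Spec (CommRingCat.of R) ⟶ H), IsOpenImmersion j0 ∧
      h ∈ Set.range j0 ∧ ∀ z, π z ∈ Set.range j0 → α z ∈ V := by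
  have hcl : IsClosed (π '' (α ⁻¹' V)ᶜ) := by
    apply π.isClosedMap
    exact (hV.preimage α.continuous).isClosed_compl
  have hmem : h ∉ π '' (α ⁻¹' V)ᶜ := by
    rintro ⟨z, hz, hzh⟩
    exact hz (hh z hzh)
  obtain ⟨R, j0, h1, h2, h3⟩ := AlgebraicGeometry.Scheme.exists_affine_mem_range_and_range_subset
    (X := H) (U := ⟨(π '' (α ⁻¹' V)ᶜ)ᶜ, hcl.isOpen_compl⟩) (x := h) hmem
  refine ⟨R, inferInstance, j0, h1, h2, fun z hz => ?_⟩
  by_contra hcon
  exact h3 hz ⟨z, hcon, rfl⟩

lemma exists_affine_model {H 𝒵 : Scheme.{0}} (π : 𝒵 ⟶ H) [IsFinite π] [Flat π]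
    [LocallyOfFinitePresentation π] {n : ℕ} (hr : ∀ x, π.finrank x = n) {R : Type} [CommRing R]
    (j0 : Spec (CommRingCat.of R) ⟶ H) :
    ∃ (A : Type) (_ : CommRing A) (_ : Algebra R A) (zA : Spec (CommRingCat.of A) ⟶ 𝒵),
      IsPullback zA (sp R A) π j0 ∧ Module.Finite R A ∧ Module.Flat R A ∧
      Module.FinitePresentation R A ∧
      ∀ y : PrimeSpectrum R, Module.rankAtStalk (R := R) A y = n := by
  let P := pullback π j0
  have hP : IsAffine P := isAffine_of_isAffineHom (pullback.snd π j0)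
  let A := Γ(P, ⊤)
  let e : Spec A ⟶ P := P.isoSpec.inv
  obtain ⟨ρ, hρ⟩ := Spec.map_surjective (e ≫ pullback.snd π j0)
  have hpb : IsPullback (e ≫ pullback.fst π j0) (Spec.map ρ) π j0 := by
    have h1 : IsPullback e (Spec.map ρ) (pullback.snd π j0) (𝟙 _) :=
      IsPullback.of_horiz_isIso ⟨by rw [hρ, Category.comp_id]⟩
    have h2 := h1.paste_horiz (IsPullback.of_hasPullback π j0)
    rwa [Category.id_comp] at h2
  let _ : Algebra R A := ρ.hom.toAlgebra
  have hsp : Spec.map ρ = sp R A := rfl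
  have hfin : IsFinite (Spec.map ρ) := MorphismProperty.of_isPullback hpb inferInstance
  have hflat : Flat (Spec.map ρ) := MorphismProperty.of_isPullback hpb inferInstance
  have hlfp : LocallyOfFinitePresentation (Spec.map ρ) :=
    MorphismProperty.of_isPullback hpb inferInstance
  have h1 : Module.Finite R A := by
    rw [IsFinite.SpecMap_iff] at hfin
    exact hfin
  have h2 : Module.Flat R A := by
    rw [Flat.SpecMap_iff] at hflat
    exact hflat
  have h3 : Algebra.FinitePresentation R A := by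
    rw [LocallyOfFinitePresentation.SpecMap_iff] at hlfp
    exact hlfp
  have h4 : Module.FinitePresentation R A :=
    Module.FinitePresentation.of_finite_of_finitePresentation R A
  refine ⟨A, inferInstance, ρ.hom.toAlgebra, e ≫ pullback.fst π j0, hpb, h1, h2, h4, ?_⟩
  intro y
  exact ((Scheme.Hom.finrank_SpecMap_algebraMap R A y).symm.trans
    (Scheme.Hom.finrank_of_isPullback _ _ _ _ hpb y)).trans (hr _)

end Pool.Agent.H14
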