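import Pool.Agent.H14.CM

/-!
# Smooth algebras over normal domains which are finite and flat over a regular ring
-/

set_option autoImplicit false
set_option linter.unusedSectionVars false

open IsLocalRing RingTheory.Sequence

namespace Pool.Agent.H14

/-- A normal Cohen–Macaulay local ring. -/
def IsNCM (R : Type*) [CommRing R] : Prop :=
  IsDomain R ∧ IsIntegrallyClosed R ∧ IsCMLocal R

lemma IsNCM.of_ringEquiv {R R' : Type*} [CommRing R] [CommRing R'] (h : IsNCM R)
    (e : R ≃+* R') : IsNCM R' := by
  obtain ⟨h1, h2, h3⟩ := h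
  exact ⟨e.symm.toMulEquiv.isDomain _, IsIntegrallyClosed.of_equiv e, h3.of_ringEquiv e⟩

instance mv_isIntegrallyClosed {R : Type*} [CommRing R] [IsDomain R] [IsIntegrallyClosed R]
    {ι : Type*} [Finite ι] : IsIntegrallyClosed (MvPolynomial ι R) := by
  induction ι using Finite.induction_empty_option with
  | of_equiv e H => exact IsIntegrallyClosed.of_equiv (MvPolynomial.renameEquiv _ e).toRingEquiv
  | h_empty => exact IsIntegrallyClosed.of_equiv (MvPolynomial.isEmptyRingEquiv R _).symm
  | h_option IH =>
    exact IsIntegrallyClosed.of_equiv (MvPolynomial.optionEquivLeft R _).toRingEquiv.symm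

section

variable {S0 D : Type} [CommRing S0] [CommRing D] [Algebra S0 D]

attribute [local instance] MvPolynomial.algebraMvPolynomial

lemma mv_finite [Module.Finite S0 D] (n : ℕ) :
    Module.Finite (MvPolynomial (Fin n) S0) (MvPolynomial (Fin n) D) := by
  have h : Algebra.IsPushout S0 (MvPolynomial (Fin n) S0) D (MvPolynomial (Fin n) D) :=
    inferInstance
  exact Module.Finite.equiv h.out.equiv

lemma mv_flat [Module.Flat S0 D] (n : ℕ) :
    Module.Flat (MvPolynomial (Fin n) S0) (MvPolynomial (Fin n) D) := by
  have h : Algebra.IsPushout S0 (MvPolynomial (Fin n) S0) D (MvPolynomial (Fin n) D) :=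
    inferInstance
  exact Module.Flat.isBaseChange _ _ _ _ h.out

theorem smooth_ncm [IsRegularRing S0] [IsDomain D] [IsIntegrallyClosed D] [Module.Finite S0 D]
    [Module.Flat S0 D] {E : Type} [CommRing E] [Algebra D E] [Algebra.Smooth D E]
    (q : Ideal E) [q.IsPrime] : IsNCM (Localization.AtPrime q) := by
  have hDn : IsNoetherianRing D := IsNoetherianRing.of_finite S0 D
  have hEn : IsNoetherianRing E := Algebra.FiniteType.isNoetherianRing D E
  obtain ⟨f, hf, n, i1, i2, i3⟩ :=
    Algebra.IsSmoothAt.exists_isStandardEtale_mvPolynomial (R := D) (p := q)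
  have het : Algebra.Etale (MvPolynomial (Fin n) D) (Localization.Away f) := inferInstance
  have hdis : Disjoint (Submonoid.powers f : Set E) (q : Set E) :=
    (Ideal.disjoint_powers_iff_notMem_of_isPrime _).mpr hf
  set q' := q.map (algebraMap E (Localization.Away f)) with hq'
  have hq'p : q'.IsPrime := IsLocalization.isPrime_of_isPrime_disjoint (.powers f) _ _ ‹_› hdis
  have hcm : q'.comap (algebraMap E (Localization.Away f)) = q :=
    IsLocalization.under_map_of_isPrime_disjoint (.powers f) _ ‹_› hdis
  have hloc : IsLocalization.AtPrime (Localization.AtPrime q') q := by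
    convert IsLocalization.isLocalization_isLocalization_atPrime_isLocalization
      (Submonoid.powers f) (Localization.AtPrime q') q'
    exact hcm.symm
  have e : Localization.AtPrime q' ≃+* Localization.AtPrime q :=
    (IsLocalization.algEquiv q.primeCompl (Localization.AtPrime q')
      (Localization.AtPrime q)).toRingEquiv
  obtain ⟨hd, hi⟩ := etale_normal (R0 := MvPolynomial (Fin n) D) q'
  have hfin := mv_finite (S0 := S0) (D := D) n
  have hflat := mv_flat (S0 := S0) (D := D) n
  let _ : Algebra (MvPolynomial (Fin n) S0) (Localization.Away f) :=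
    ((algebraMap (MvPolynomial (Fin n) D) (Localization.Away f)).comp
      (algebraMap (MvPolynomial (Fin n) S0) (MvPolynomial (Fin n) D))).toAlgebra
  have : IsScalarTower (MvPolynomial (Fin n) S0) (MvPolynomial (Fin n) D)
      (Localization.Away f) := IsScalarTower.of_algebraMap_eq' rfl
  have hfl : Module.Flat (MvPolynomial (Fin n) S0) (Localization.Away f) :=
    Module.Flat.trans _ (MvPolynomial (Fin n) D) _
  have hqf : Algebra.QuasiFinite (MvPolynomial (Fin n) S0) (Localization.Away f) :=
    Algebra.QuasiFinite.trans _ (MvPolynomial (Fin n) D) _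
  exact IsNCM.of_ringEquiv ⟨hd, hi, cm_of_quasiFinite (S := MvPolynomial (Fin n) S0) q'⟩ e

end

/-- A normal domain which is finite and flat over a regular ring. -/
def GoodBase (D : Type) [CommRing D] : Prop :=
  IsDomain D ∧ IsIntegrallyClosed D ∧ ∃ (S0 : Type) (_ : CommRing S0) (_ : Algebra S0 D),
    IsRegularRing S0 ∧ Module.Finite S0 D ∧ Module.Flat S0 D

lemma GoodBase.of_ringEquiv {D D' : Type} [CommRing D] [CommRing D'] (h : GoodBase D)
    (e : D ≃+* D') : GoodBase D' := by
  obtain ⟨h1, h2, S0, i1, i2, h3, h4, h5⟩ := h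
  refine ⟨e.symm.toMulEquiv.isDomain _, IsIntegrallyClosed.of_equiv e, S0, i1,
    ((e : D →+* D').comp (algebraMap S0 D)).toAlgebra, h3, ?_, ?_⟩
  · let _ : Algebra S0 D' := ((e : D →+* D').comp (algebraMap S0 D)).toAlgebra
    let e' : D ≃ₐ[S0] D' := { e with commutes' := fun _ => rfl }
    exact Module.Finite.equiv e'.toLinearEquiv
  · let _ : Algebra S0 D' := ((e : D →+* D').comp (algebraMap S0 D)).toAlgebra
    let e' : D ≃ₐ[S0] D' := { e with commutes' := fun _ => rfl }
    exact Module.Flat.of_linearEquiv e'.symm.toLinearEquiv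

theorem GoodBase.smooth {D : Type} [CommRing D] (h : GoodBase D) {E : Type} [CommRing E]
    [Algebra D E] [Algebra.Smooth D E] (q : Ideal E) [q.IsPrime] :
    IsNCM (Localization.AtPrime q) := by
  obtain ⟨h1, h2, S0, i1, i2, h3, h4, h5⟩ := h
  exact smooth_ncm (S0 := S0) (D := D) q

lemma goodBase_of_regular {D : Type} [CommRing D] [IsDomain D] [IsIntegrallyClosed D]
    [IsRegularRing D] : GoodBase D :=
  ⟨inferInstance, inferInstance, D, inferInstance, inferInstance, inferInstance, inferInstance,
    inferInstance⟩

lemma goodBase_mv {S0 D : Type} [CommRing S0] [CommRing D] [Algebra S0 D]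
    [IsRegularRing S0] [IsDomain D] [IsIntegrallyClosed D] [Module.Finite S0 D]
    [Module.Flat S0 D] (n : ℕ) : GoodBase (MvPolynomial (Fin n) D) :=
  ⟨inferInstance, inferInstance, MvPolynomial (Fin n) S0, inferInstance,
    MvPolynomial.algebraMvPolynomial, inferInstance, mv_finite n, mv_flat n⟩

end Pool.Agent.H14
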