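import Pool.Agent.H14.Sect

/-!
# Every point of the Hilbert scheme is in the image of a chart
-/

set_option autoImplicit false
set_option linter.unusedSectionVars false

open TensorProduct CategoryTheory AlgebraicGeometry Limits

namespace Pool.Agent.H14

lemma exists_basis_of_span {K B A : Type} [Field K] [CommRing A] [Algebra K A]
    [Module.Finite K A] (β : B → A) (hs : Submodule.span K (Set.range β) = ⊤) {n : ℕ}
    (hr : Module.finrank K A = n) :
    ∃ (b : Fin n → B) (bas : Module.Basis (Fin n) K A), ∀ l, β (b l) = bas l := by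
  obtain ⟨t, ht, hsp, hli⟩ := exists_linearIndependent K (Set.range β)
  let bs : Module.Basis t K A := Module.Basis.mk hli (by rw [Subtype.range_coe, hsp, hs])
  have : Fintype t := FiniteDimensional.fintypeBasisIndex bs
  have hcard : Fintype.card t = n := by rw [← hr, Module.finrank_eq_card_basis bs]
  let bas := bs.reindex (Fintype.equivFinOfCardEq hcard)
  have h1 : ∀ l, ∃ x : B, β x = bas l := by
    intro l
    rw [Module.Basis.reindex_apply, Module.Basis.mk_apply]
    exact ht (Subtype.mem _)
  choose b hb using h1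
  exact ⟨b, bas, hb⟩

/-- the pullback of a family is a family -/
lemma IsFamily.pullback {X S T Z : Scheme.{0}} {f : X ⟶ S} {n : ℕ} {t : T ⟶ S} {p : Z ⟶ T}
    {a : Z ⟶ X} (hf : IsFamily f n t p a) {T' Z' : Scheme.{0}} (g : T' ⟶ T) (t' : T' ⟶ S)
    (ht' : g ≫ t = t') (z : Z' ⟶ Z) (p' : Z' ⟶ T') (h : IsPullback z p' p g) :
    IsFamily f n t' p' (z ≫ a) := by
  subst ht'
  have hw : (z ≫ a) ≫ f = p' ≫ g ≫ t := by
    rw [Category.assoc, hf.w, ← Category.assoc, h.w, Category.assoc]
  have h1 := hf.finite
  have h2 := hf.flat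
  have h3 := hf.lfp
  have h4 := hf.closed
  refine ⟨hw, MorphismProperty.of_isPullback h h1, MorphismProperty.of_isPullback h h2,
    MorphismProperty.of_isPullback h h3, ?_, ?_⟩
  · intro x
    rw [← hf.rank (g x)]
    exact Scheme.Hom.finrank_of_isPullback _ _ _ _ h x
  · let M : Limits.pullback f (g ≫ t) ⟶ Limits.pullback f t :=
      pullback.lift (pullback.fst f (g ≫ t)) (pullback.snd f (g ≫ t) ≫ g)
        (by rw [pullback.condition, Category.assoc])
    have hM : IsPullback M (pullback.snd f (g ≫ t)) (pullback.snd f t) g := by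
      refine IsPullback.of_right (h₁₂ := pullback.fst f t) (h₂₂ := t) ?_ ?_
        (IsPullback.of_hasPullback f t)
      · rw [pullback.lift_fst]
        exact IsPullback.of_hasPullback f (g ≫ t)
      · rw [pullback.lift_snd]
    have hL : IsPullback z (pullback.lift (z ≫ a) p' hw) (pullback.lift a p hf.w) M := by
      refine IsPullback.of_bot (v₂₁ := pullback.snd f (g ≫ t)) (v₂₂ := pullback.snd f t)
        (h₃₁ := g) ?_ ?_ hM
      · rw [pullback.lift_snd, pullback.lift_snd]
        exact h
      · apply pullback.hom_ext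
        · rw [Category.assoc, Category.assoc, pullback.lift_fst, pullback.lift_fst,
            pullback.lift_fst]
        · rw [Category.assoc, Category.assoc, pullback.lift_snd, pullback.lift_snd,
            pullback.lift_snd_assoc, h.w]
    exact MorphismProperty.of_isPullback hL h4

section

variable {k : Type} [Field k] {X : Scheme.{0}} {f : X ⟶ Spec (CommRingCat.of k)} [IsSeparated f]
variable {n : ℕ} {H 𝒵 : Scheme.{0}} {s : H ⟶ Spec (CommRingCat.of k)} {π : 𝒵 ⟶ H} {α : 𝒵 ⟶ X}
variable (hH : IsHilbertScheme f n s π α)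

/-- the coordinate ring of an affine open is generated by the two factors -/
lemma surj_of_closed {K A B : Type} [Field K] [CommRing A] [CommRing B] [Algebra k K]
    [Algebra k A] [Algebra K A] [IsScalarTower k K A] [Algebra k B]
    {i : Spec (CommRingCat.of B) ⟶ X} (hi : IsAffChart k f B i) (β : B →ₐ[k] A)
    (a : Spec (CommRingCat.of A) ⟶ X) (ha : Spec.map (CommRingCat.ofHom β.toRingHom) ≫ i = a)
    (hf : IsFamily f n (sp k K) (sp K A) a) :
    Submodule.span K (Set.range β) = ⊤ := by
  have hio := hi.isOpenImmersion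
  have hcl := hf.closed
  have hfin := hf.finite
  let φ : K ⊗[k] B →ₐ[K] A := Algebra.TensorProduct.lift (Algebra.ofId K A) β
    (fun _ _ => Commute.all _ _)
  let u : Spec (CommRingCat.of A) ⟶ Spec (CommRingCat.of (K ⊗[k] B)) :=
    Spec.map (CommRingCat.ofHom φ.toRingHom)
  have hu1 : u ≫ sp K (K ⊗[k] B) = sp K A := by
    rw [← Spec.map_comp, ← CommRingCat.ofHom_comp]
    congr 2
    ext x
    exact φ.commutes x
  let v : Spec (CommRingCat.of (K ⊗[k] B)) ⟶ Spec (CommRingCat.of B) :=
    Spec.map (CommRingCat.ofHom (Algebra.TensorProduct.includeRight (R := k) (A := K) (B := B) :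
      B →ₐ[k] K ⊗[k] B).toRingHom)
  have hu2 : u ≫ v ≫ i = a := by
    rw [← ha, ← Category.assoc, ← Spec.map_comp, ← CommRingCat.ofHom_comp]
    congr 3
    ext x
    change Algebra.TensorProduct.lift (Algebra.ofId K A) β (fun _ _ => Commute.all _ _)
      (1 ⊗ₜ x) = β x
    rw [Algebra.TensorProduct.lift_tmul, map_one, one_mul]
  have hmono : Mono u := by
    refine ⟨fun {W} p q hpq => ?_⟩
    rw [← cancel_mono (pullback.lift a (sp K A) hf.w)]
    apply pullback.hom_ext
    · rw [Category.assoc, pullback.lift_fst, Category.assoc, pullback.lift_fst, ← hu2,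
        ← Category.assoc, hpq, Category.assoc]
    · rw [Category.assoc, pullback.lift_snd, Category.assoc, pullback.lift_snd, ← hu1,
        ← Category.assoc, hpq, Category.assoc]
  have hfinu : IsFinite u := by
    have : IsFinite (u ≫ sp K (K ⊗[k] B)) := by rw [hu1]; exact hfin
    exact IsFinite.of_comp _ (sp K (K ⊗[k] B))
  have hclu : IsClosedImmersion u := (IsClosedImmersion.iff_isFinite_and_mono u).2 ⟨hfinu, hmono⟩
  have hsurj : Function.Surjective φ := by
    have h1 := (IsClosedImmersion.isAffine_surjective_of_isAffine u).2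
    have h2 := Scheme.ΓSpecIso_inv_naturality (CommRingCat.ofHom φ.toRingHom)
    intro y
    obtain ⟨x, hx⟩ := h1 ((Scheme.ΓSpecIso (CommRingCat.of A)).inv.hom y)
    refine ⟨(Scheme.ΓSpecIso (CommRingCat.of (K ⊗[k] B))).hom.hom x, ?_⟩
    have h3 : Function.Injective (Scheme.ΓSpecIso (CommRingCat.of A)).inv.hom :=
      (ConcreteCategory.bijective_of_isIso (Scheme.ΓSpecIso (CommRingCat.of A)).inv).1
    apply h3
    rw [← hx]
    have h4 := DFunLike.congr_fun (congrArg CommRingCat.Hom.hom h2)
      ((Scheme.ΓSpecIso (CommRingCat.of (K ⊗[k] B))).hom.hom x)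
    refine h4.trans ?_
    change (Scheme.Hom.appTop u).hom ((Scheme.ΓSpecIso (CommRingCat.of (K ⊗[k] B))).inv.hom
      ((Scheme.ΓSpecIso (CommRingCat.of (K ⊗[k] B))).hom.hom x)) = _
    congr 1
    exact DFunLike.congr_fun (congrArg CommRingCat.Hom.hom
      (Scheme.ΓSpecIso (CommRingCat.of (K ⊗[k] B))).hom_inv_id) x
  rw [eq_top_iff]
  rintro y -
  obtain ⟨x, rfl⟩ := hsurj y
  induction x using TensorProduct.induction_on with
  | zero => rw [map_zero]; exact zero_mem _
  | add x y hx hy => rw [map_add]; exact add_mem hx hy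
  | tmul r p =>
    rw [Algebra.TensorProduct.lift_tmul]
    change algebraMap K A r * β p ∈ _
    rw [← Algebra.smul_def]
    exact Submodule.smul_mem _ _ (Submodule.subset_span ⟨p, rfl⟩)

theorem exists_chart_datum_at [LocallyOfFiniteType f]
    (hAF : ∀ F : Set X, F.Finite → ∃ U : X.Opens, IsAffineOpen U ∧ F ⊆ U) (h : H) :
    ∃ (B : Type) (_ : CommRing B) (_ : Algebra k B) (_ : Algebra.FiniteType k B)
      (i : Spec (CommRingCat.of B) ⟶ X) (hi : IsAffChart k f B i) (b : Fin n → B)
      (K : Type) (_ : Field K) (_ : Algebra k K) (cK : Chart k b K)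
      (y0 : Spec (CommRingCat.of K)), cl hH hi cK y0 = h := by
  have hπ1 := hH.family.finite
  have hπ2 := hH.family.flat
  have hπ3 := hH.family.lfp
  let K := H.residueField h
  let j0 : Spec (CommRingCat.of K) ⟶ H := H.fromSpecResidueField h
  obtain ⟨A, _, _, zA, hpb, hfin, hflat, hfp, hrank⟩ := exists_affine_model π hH.family.rank j0
  -- the `k`-algebra structures
  obtain ⟨φk, hφk⟩ := Spec.map_surjective (j0 ≫ s)
  let _ : Algebra k K := φk.hom.toAlgebra
  have hj0s : j0 ≫ s = sp k K := hφk.symm
  let _ : Algebra k A := ((algebraMap K A).comp (algebraMap k K)).toAlgebra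
  have htow : IsScalarTower k K A := IsScalarTower.of_algebraMap_eq' rfl
  -- the affine open
  have hartin : IsArtinianRing A := isArtinian_of_tower K inferInstance
  obtain ⟨U, hU, hFU⟩ := hAF (Set.range (zA ≫ α)) (by
    have : Finite (PrimeSpectrum A) := inferInstance
    exact Set.finite_range (ι := PrimeSpectrum A) (zA ≫ α))
  let B := Γ(X, U)
  let i : Spec (CommRingCat.of B) ⟶ X := hU.fromSpec
  have hio : IsOpenImmersion i := inferInstanceAs (IsOpenImmersion hU.fromSpec)
  obtain ⟨φB, hφB⟩ := Spec.map_surjective (i ≫ f)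
  let _ : Algebra k B := φB.hom.toAlgebra
  have hi : IsAffChart k f B i := ⟨hio, hφB.symm⟩
  have hft : Algebra.FiniteType k B := by
    have h1 : LocallyOfFiniteType (i ≫ f) := inferInstance
    rw [← hφB] at h1
    exact (HasRingHomProperty.Spec_iff (P := @LocallyOfFiniteType)).mp h1
  -- the map of `B`
  have hrange : Set.range (zA ≫ α) ⊆ Set.range i := by
    rw [hU.range_fromSpec]
    exact hFU
  obtain ⟨β0, hβ0⟩ := Spec.map_surjective (IsOpenImmersion.lift i (zA ≫ α) hrange)
  have hβ1 : Spec.map β0 ≫ i = zA ≫ α := by rw [hβ0, IsOpenImmersion.lift_fac]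
  have hβ2 : CommRingCat.ofHom (algebraMap k B) ≫ β0 =
      CommRingCat.ofHom (algebraMap k A) := by
    apply Spec.map_injective
    rw [Spec.map_comp]
    change _ ≫ sp k B = _
    rw [← hi.w, ← Category.assoc, hβ1, Category.assoc, hH.family.w, ← Category.assoc, hpb.w,
      Category.assoc, hj0s, ← Spec.map_comp]
    rfl
  let β : B →ₐ[k] A := { β0.hom with
    commutes' := fun x => DFunLike.congr_fun (congrArg CommRingCat.Hom.hom hβ2) x }
  have hβ3 : Spec.map (CommRingCat.ofHom β.toRingHom) ≫ i = zA ≫ α := hβ1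
  have hfam : IsFamily f n (sp k K) (sp K A) (zA ≫ α) :=
    hH.family.pullback j0 _ hj0s zA (sp K A) hpb
  have hspan := surj_of_closed hi β (zA ≫ α) hβ3 hfam
  have hfr : Module.finrank K A = n := by
    have := hrank (default : PrimeSpectrum K)
    rw [← this, Module.rankAtStalk_eq_finrank_of_free]
    rfl
  obtain ⟨b, bas, hb⟩ := exists_basis_of_span β hspan hfr
  refine ⟨B, inferInstance, inferInstance, hft, i, hi, b, K, inferInstance, inferInstance,
    Chart.ofBasis bas β hb, (default : PrimeSpectrum K), ?_⟩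
  have h1 : j0 (default : PrimeSpectrum K) = h := Scheme.fromSpecResidueField_apply h _
  refine Eq.trans ?_ h1
  rw [← eq_cl_ofBasis hH hi (b := b) j0 hj0s zA hpb β hβ3.symm bas hb]

theorem exists_chart_at [LocallyOfFiniteType f]
    (hAF : ∀ F : Set X, F.Finite → ∃ U : X.Opens, IsAffineOpen U ∧ F ⊆ U) (h : H) :
    ∃ (B : Type) (_ : CommRing B) (_ : Algebra k B) (_ : Algebra.FiniteType k B)
      (i : Spec (CommRingCat.of B) ⟶ X) (hi : IsAffChart k f B i) (b : Fin n → B)
      (x : Spec (CommRingCat.of (ChartRing k b))), clU hH hi b x = h := by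
  obtain ⟨B, _, _, hft, i, hi, b, K, _, _, cK, y0, h1⟩ := exists_chart_datum_at hH hAF h
  refine ⟨B, inferInstance, inferInstance, hft, i, hi, b,
    (Spec.map (CommRingCat.ofHom cK.lift.toRingHom)) y0, ?_⟩
  rw [← h1, cl_eq hH hi cK]
  rfl

end

end Pool.Agent.H14
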