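import Pool.Agent.H14.Tab

/-! The multiplication tables satisfy the Plücker relations. -/

set_option autoImplicit false

namespace Pool.Agent.H14.SP

/-- the identity matrix -/
def idM : Mat :=
  [[[(0, 1)], [], [], [], [], [], [], [], [], [], [], [], [], []], [[], [(0, 1)], [], [], [], [], [], [], [], [], [], [], [], []], [[], [], [(0, 1)], [], [], [], [], [], [], [], [], [], [], []], [[], [], [], [(0, 1)], [], [], [], [], [], [], [], [], [], []], [[], [], [], [], [(0, 1)], [], [], [], [], [], [], [], [], []], [[], [], [], [], [], [(0, 1)], [], [], [], [], [], [], [], []], [[], [], [], [], [], [], [(0, 1)], [], [], [], [], [], [], []], [[], [], [], [], [], [], [], [(0, 1)], [], [], [], [], [], []], [[], [], [], [], [], [], [], [], [(0, 1)], [], [], [], [], []], [[], [], [], [], [], [], [], [], [], [(0, 1)], [], [], [], []], [[], [], [], [], [], [], [], [], [], [], [(0, 1)], [], [], []], [[], [], [], [], [], [], [], [], [], [], [], [(0,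 1)], [], []], [[], [], [], [], [], [], [], [], [], [], [], [], [(0, 1)], []], [[], [], [], [], [], [], [], [], [], [], [], [], [], [(0, 1)]]]

/-- the matrices by their index -/
def tm : ℕ → Mat
  | 0 => m23
  | 1 => m24
  | 2 => m25
  | 3 => m34
  | 4 => m35
  | 5 => m45
  | _ => idM

/-- the relation 1234 -/
def rD0 : List (Poly × ℕ × ℕ) :=
  [([(0, -1)], 0, 0), ([(256, 1)], 0, 6), ([(16, -1)], 1, 6), ([(1, 1)], 3, 6)]
lemma rD0_chk : relCheck 14 (rD0.map fun x => (x.1, tm x.2.1, tm x.2.2)) = true := by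
  decide +kernel
/-- the relation 1235 -/
def rD1 : List (Poly × ℕ × ℕ) :=
  [([(0, -1)], 0, 1), ([(4096, 1)], 0, 6), ([(16, -1)], 2, 6), ([(1, 1)], 4, 6)]
lemma rD1_chk : relCheck 14 (rD1.map fun x => (x.1, tm x.2.1, tm x.2.2)) = true := by
  decide +kernel
/-- the relation 1236 -/
def rD2 : List (Poly × ℕ × ℕ) :=
  [([(0, -1)], 0, 2), ([(0, -1)], 0, 3), ([(65536, 1)], 0, 6), ([(16, 1)], 4, 6), ([(1, -1)], 5, 6), ([(16777217, 1), (1048592, -1)], 6, 6)]
lemma rD2_chk : relCheck 14 (rD2.map fun x => (x.1, tm x.2.1, tm x.2.2)) = true := by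
  decide +kernel
/-- the relation 1245 -/
def rD3 : List (Poly × ℕ × ℕ) :=
  [([(0, 1)], 0, 2), ([(0, -1)], 1, 1), ([(4096, 1)], 1, 6), ([(256, -1)], 2, 6), ([(1, 1)], 5, 6)]
lemma rD3_chk : relCheck 14 (rD3.map fun x => (x.1, tm x.2.1, tm x.2.2)) = true := by
  decide +kernel
/-- the relation 1246 -/
def rD4 : List (Poly × ℕ × ℕ) :=
  [([(0, -1)], 0, 4), ([(1048576, 1)], 0, 6), ([(0, -1)], 1, 2), ([(0, -1)], 1, 3), ([(65536, 1)], 1, 6), ([(256, 1)], 4, 6), ([(268435457, 1), (1048832, -1)], 6, 6)]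
lemma rD4_chk : relCheck 14 (rD4.map fun x => (x.1, tm x.2.1, tm x.2.2)) = true := by
  decide +kernel
/-- the relation 1256 -/
def rD5 : List (Poly × ℕ × ℕ) :=
  [([(0, -1)], 1, 4), ([(1048576, 1)], 1, 6), ([(0, -1)], 2, 2), ([(0, -1)], 2, 3), ([(65536, 1)], 2, 6), ([(4096, 1)], 4, 6), ([(4294967297, 1), (1052672, -1)], 6, 6)]
lemma rD5_chk : relCheck 14 (rD5.map fun x => (x.1, tm x.2.1, tm x.2.2)) = true := by
  decide +kernel
/-- the relation 1345 -/
def rD6 : List (Poly × ℕ × ℕ) :=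
  [([(0, 1)], 0, 4), ([(0, -1)], 1, 3), ([(4096, 1)], 3, 6), ([(256, -1)], 4, 6), ([(16, 1)], 5, 6)]
lemma rD6_chk : relCheck 14 (rD6.map fun x => (x.1, tm x.2.1, tm x.2.2)) = true := by
  decide +kernel
/-- the relation 1346 -/
def rD7 : List (Poly × ℕ × ℕ) :=
  [([(0, -1)], 0, 5), ([(16777216, 1)], 0, 6), ([(0, -1)], 2, 3), ([(0, -1)], 3, 3), ([(65536, 1)], 3, 6), ([(256, 1)], 5, 6), ([(268435472, 1), (16777472, -1)], 6, 6)]
lemma rD7_chk : relCheck 14 (rD7.map fun x => (x.1, tm x.2.1, tm x.2.2)) = true := by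
  decide +kernel
/-- the relation 1356 -/
def rD8 : List (Poly × ℕ × ℕ) :=
  [([(0, -1)], 1, 5), ([(16777216, 1)], 1, 6), ([(0, -1)], 2, 4), ([(0, -1)], 3, 4), ([(65536, 1)], 4, 6), ([(4096, 1)], 5, 6), ([(4294967312, 1), (16781312, -1)], 6, 6)]
lemma rD8_chk : relCheck 14 (rD8.map fun x => (x.1, tm x.2.1, tm x.2.2)) = true := by
  decide +kernel
/-- the relation 1456 -/
def rD9 : List (Poly × ℕ × ℕ) :=
  [([(4294967296, -1)], 0, 6), ([(268435456, 1)], 1, 6), ([(0, -1)], 2, 5), ([(0, -1)], 3, 5), ([(65536, 1)], 5, 6), ([(4294967552, 1), (268439552, -1)], 6, 6)]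
lemma rD9_chk : relCheck 14 (rD9.map fun x => (x.1, tm x.2.1, tm x.2.2)) = true := by
  decide +kernel
/-- the relation 2345 -/
def rD10 : List (Poly × ℕ × ℕ) :=
  [([(0, 1)], 0, 5), ([(0, -1)], 1, 4), ([(0, 1)], 2, 3)]
lemma rD10_chk : relCheck 14 (rD10.map fun x => (x.1, tm x.2.1, tm x.2.2)) = true := by
  decide +kernel
/-- the relation 2346 -/
def rD11 : List (Poly × ℕ × ℕ) :=
  [([(268435456, 1)], 0, 6), ([(0, 1)], 1, 5), ([(16777216, -1)], 1, 6), ([(0, -1)], 3, 4), ([(1048576, 1)], 3, 6)]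
lemma rD11_chk : relCheck 14 (rD11.map fun x => (x.1, tm x.2.1, tm x.2.2)) = true := by
  decide +kernel
/-- the relation 2356 -/
def rD12 : List (Poly × ℕ × ℕ) :=
  [([(4294967296, 1)], 0, 6), ([(0, 1)], 2, 5), ([(16777216, -1)], 2, 6), ([(0, -1)], 4, 4), ([(1048576, 1)], 4, 6)]
lemma rD12_chk : relCheck 14 (rD12.map fun x => (x.1, tm x.2.1, tm x.2.2)) = true := by
  decide +kernel
/-- the relation 2456 -/
def rD13 : List (Poly × ℕ × ℕ) :=
  [([(4294967296, 1)], 1, 6), ([(268435456, -1)], 2, 6), ([(0, -1)], 4, 5), ([(1048576, 1)], 5, 6)]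
lemma rD13_chk : relCheck 14 (rD13.map fun x => (x.1, tm x.2.1, tm x.2.2)) = true := by
  decide +kernel
/-- the relation 3456 -/
def rD14 : List (Poly × ℕ × ℕ) :=
  [([(4294967296, 1)], 3, 6), ([(268435456, -1)], 4, 6), ([(0, -1)], 5, 5), ([(16777216, 1)], 5, 6)]
lemma rD14_chk : relCheck 14 (rD14.map fun x => (x.1, tm x.2.1, tm x.2.2)) = true := by
  decide +kernel

lemma col_chk : ∀ j < 6, ∀ r < 14, (tm j).ent r 0 = if r = j + 1 then [(0, 1)] else [] := by
  decide +kernel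
lemma col34_chk : ∀ j < 6, ∀ r < 14, m34.ent r (j + 1) = if r = j + 7 then [(0, 1)] else [] := by
  decide +kernel
lemma col343_chk : ∀ r < 14, m34.ent r 10 = if r = 13 then [(0, 1)] else [] := by decide +kernel
lemma id_chk : ∀ j < 14, ∀ r < 14, idM.ent r j = if r = j then [(0, 1)] else [] := by decide +kernel

lemma comm_chk : ∀ i < 6, ∀ j < 6, i < j → commCheck 14 (tm i) (tm j) = true := by
  intro i hi j hj hij
  interval_cases j <;> interval_cases i
  · exact chk_23_24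
  · exact chk_23_25
  · exact chk_24_25
  · exact chk_23_34
  · exact chk_24_34
  · exact chk_25_34
  · exact chk_23_35
  · exact chk_24_35
  · exact chk_25_35
  · exact chk_34_35
  · exact chk_23_45
  · exact chk_24_45
  · exact chk_25_45
  · exact chk_34_45
  · exact chk_35_45

end Pool.Agent.H14.SP
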