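import Pool.Agent.H14.HUniv

/-!
# Chart rings of a formally smooth algebra are formally smooth
-/

set_option autoImplicit false
set_option linter.unusedSectionVars false

open TensorProduct

namespace Pool.Agent.H14

section OC

variable {k : Type} [CommRing k] {P : Type} [CommRing P] [Algebra k P] {d : ℕ} {e : Fin d → P}
variable {R : Type} [CommRing R] [Algebra k R]

/-- the algebra defined by a chart datum -/
def OC (c : Chart k e R) : Type := (R ⊗[k] P) ⧸ c.ideal

noncomputable instance (c : Chart k e R) : CommRing (OC c) :=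
  inferInstanceAs (CommRing ((R ⊗[k] P) ⧸ c.ideal))

/-- the quotient map -/
noncomputable def mkO (c : Chart k e R) : R ⊗[k] P →+* OC c := Ideal.Quotient.mk c.ideal

lemma mkO_surjective (c : Chart k e R) : Function.Surjective (mkO c) :=
  Ideal.Quotient.mk_surjective

lemma mkO_eq_iff (c : Chart k e R) (x y : R ⊗[k] P) : mkO c x = mkO c y ↔ c.L x = c.L y := by
  rw [← sub_eq_zero (a := c.L x), ← map_sub, ← Chart.mem_ideal]
  exact Ideal.Quotient.eq

noncomputable instance (c : Chart k e R) : Algebra P (OC c) :=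
  ((mkO c).comp (Algebra.TensorProduct.includeRight : P →ₐ[k] R ⊗[k] P).toRingHom).toAlgebra

lemma algebraMap_OC (c : Chart k e R) (p : P) : algebraMap P (OC c) p = mkO c (1 ⊗ₜ p) := rfl

/-- the coordinates -/
noncomputable def LO (c : Chart k e R) (y : OC c) : Fin d → R :=
  c.L (mkO_surjective c y).choose

lemma LO_mk (c : Chart k e R) (x : R ⊗[k] P) : LO c (mkO c x) = c.L x :=
  (mkO_eq_iff c _ _).1 (mkO_surjective c (mkO c x)).choose_spec

lemma LO_injective (c : Chart k e R) : Function.Injective (LO c) := by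
  intro x y h
  obtain ⟨x, rfl⟩ := mkO_surjective c x
  obtain ⟨y, rfl⟩ := mkO_surjective c y
  rw [LO_mk, LO_mk] at h
  exact (mkO_eq_iff c x y).2 h

lemma LO_add (c : Chart k e R) (x y : OC c) : LO c (x + y) = LO c x + LO c y := by
  obtain ⟨x, rfl⟩ := mkO_surjective c x
  obtain ⟨y, rfl⟩ := mkO_surjective c y
  rw [← map_add, LO_mk, LO_mk, LO_mk, map_add]

lemma LO_zero (c : Chart k e R) : LO c 0 = 0 := by
  rw [← map_zero (mkO c), LO_mk, map_zero]

lemma L_mul' (c : Chart k e R) (x y : R ⊗[k] P) :
    c.L (x * y) = ∑ j, ∑ i, (c.L x j * c.L y i) • c.q (e j * e i) := by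
  rw [c.L_mul]
  refine Finset.sum_congr rfl fun j _ => ?_
  rw [mul_comm, c.L_mul, Finset.smul_sum]
  refine Finset.sum_congr rfl fun i _ => ?_
  rw [smul_smul, Algebra.TensorProduct.tmul_mul_tmul, one_mul, Chart.L_tmul, one_smul,
    mul_comm (e i)]

lemma LO_mul (c : Chart k e R) (x y : OC c) : LO c (x * y) =
    ∑ j, ∑ i, (LO c x j * LO c y i) • c.q (e j * e i) := by
  obtain ⟨x, rfl⟩ := mkO_surjective c x
  obtain ⟨y, rfl⟩ := mkO_surjective c y
  rw [← map_mul, LO_mk, LO_mk, LO_mk, L_mul']

lemma LO_algebraMap (c : Chart k e R) (p : P) : LO c (algebraMap P (OC c) p) = c.q p := by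
  rw [algebraMap_OC, LO_mk, Chart.L_tmul, one_smul]

lemma LO_one (c : Chart k e R) : LO c 1 = c.q 1 := by
  rw [← map_one (algebraMap P (OC c)), LO_algebraMap]

/-- the element with given coordinates -/
noncomputable def sO (c : Chart k e R) (v : Fin d → R) : OC c := mkO c (Chart.expand R e v)

lemma LO_sO (c : Chart k e R) (v : Fin d → R) : LO c (sO c v) = v := by
  rw [sO, LO_mk, Chart.L_expand]

lemma LO_smul (c : Chart k e R) (a : k) (y : OC c) :
    LO c (algebraMap P (OC c) (algebraMap k P a) * y) = a • LO c y := by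
  obtain ⟨y, rfl⟩ := mkO_surjective c y
  have h : (1 : R) ⊗ₜ[k] algebraMap k P a = algebraMap k R a ⊗ₜ[k] (1 : P) := by
    rw [Algebra.algebraMap_eq_smul_one, Algebra.algebraMap_eq_smul_one, tmul_smul, smul_tmul']
  rw [algebraMap_OC, ← map_mul, LO_mk, LO_mk, h]
  have h2 : (algebraMap k R a ⊗ₜ[k] (1 : P)) * y = algebraMap k R a • y := by
    rw [Algebra.smul_def]; rfl
  rw [h2, map_smul, algebraMap_smul]

end OC

section hom

variable {k : Type} [CommRing k] {P : Type} [CommRing P] [Algebra k P] {d : ℕ} {e : Fin d → P}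
variable {B : Type} [CommRing B] [Algebra k B] [Algebra P B] [IsScalarTower k P B]
variable {R : Type} [CommRing R] [Algebra k R]

/-- the homomorphism defined by an extension of a chart datum -/
noncomputable def ofChart (c : Chart k e R) (c1 : Chart k (fun i => algebraMap P B (e i)) R)
    (h : ∀ p, c1.q (algebraMap P B p) = c.q p) : B →ₐ[P] OC c where
  toFun x := sO c (c1.q x)
  map_one' := by
    apply LO_injective c
    rw [LO_sO, LO_one, ← h, show algebraMap P B 1 = 1 from map_one _]
  map_mul' x y := by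
    apply LO_injective c
    rw [LO_mul]
    simp only [LO_sO]
    rw [c1.q_mul]
    refine Finset.sum_congr rfl fun j _ => ?_
    rw [mul_comm, c1.q_mul, Finset.smul_sum]
    refine Finset.sum_congr rfl fun i _ => ?_
    rw [smul_smul, ← map_mul, h, mul_comm (e i)]
  map_zero' := by
    apply LO_injective c
    rw [LO_sO, LO_zero, map_zero]
  map_add' x y := by
    apply LO_injective c
    rw [LO_add]
    simp only [LO_sO]
    rw [map_add]
  commutes' p := by
    apply LO_injective c
    rw [LO_sO, LO_algebraMap, h]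

lemma LO_ofChart (c : Chart k e R) (c1 : Chart k (fun i => algebraMap P B (e i)) R)
    (h : ∀ p, c1.q (algebraMap P B p) = c.q p) (x : B) : LO c (ofChart c c1 h x) = c1.q x :=
  LO_sO _ _

/-- the extension of a chart datum defined by a homomorphism -/
noncomputable def toChart (c : Chart k e R) (γ : B →ₐ[P] OC c) :
    Chart k (fun i => algebraMap P B (e i)) R where
  q :=
    { toFun := fun x => LO c (γ x)
      map_add' := fun x y => by rw [map_add, LO_add]
      map_smul' := fun a x => by
        rw [RingHom.id_apply, Algebra.smul_def, map_mul,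
          IsScalarTower.algebraMap_apply k P B, AlgHom.commutes, LO_smul] }
  q_b i := by
    simp only [LinearMap.coe_mk, AddHom.coe_mk]
    rw [AlgHom.commutes, LO_algebraMap, c.q_b]
  q_mul x y := by
    simp only [LinearMap.coe_mk, AddHom.coe_mk]
    rw [map_mul, LO_mul]
    refine Finset.sum_congr rfl fun j _ => ?_
    rw [map_mul, AlgHom.commutes, mul_comm (algebraMap P (OC c) (e j)), LO_mul,
      Finset.smul_sum]
    simp only [LO_algebraMap, c.q_b, Pi.single_apply]
    refine Finset.sum_congr rfl fun i _ => ?_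
    simp only [mul_ite, mul_one, mul_zero, ite_smul, zero_smul, Finset.sum_ite_eq',
      Finset.mem_univ, if_true]
    rw [smul_smul, mul_comm (e i)]

lemma toChart_q (c : Chart k e R) (γ : B →ₐ[P] OC c) (x : B) :
    (toChart c γ).q x = LO c (γ x) := rfl

variable {R' : Type} [CommRing R'] [Algebra k R']

/-- base change -/
noncomputable def gO (c : Chart k e R) (φ : R →ₐ[k] R') : OC c →ₐ[P] OC (c.map φ) where
  toRingHom := Ideal.Quotient.lift c.ideal ((mkO (c.map φ)).comp (bc P φ).toRingHom) (by
    intro a ha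
    rw [Chart.mem_ideal] at ha
    rw [RingHom.comp_apply, ← map_zero (mkO (c.map φ)), mkO_eq_iff, map_zero]
    ext j
    exact (c.map_L φ a j).trans (by rw [ha]; simp))
  commutes' p := by
    change mkO (c.map φ) (bc P φ (1 ⊗ₜ p)) = _
    rw [algebraMap_OC]
    simp

lemma gO_mk (c : Chart k e R) (φ : R →ₐ[k] R') (x : R ⊗[k] P) :
    gO c φ (mkO c x) = mkO (c.map φ) (bc P φ x) := rfl

lemma LO_gO (c : Chart k e R) (φ : R →ₐ[k] R') (y : OC c) (j : Fin d) :
    LO (c.map φ) (gO c φ y) j = φ (LO c y j) := by
  obtain ⟨y, rfl⟩ := mkO_surjective c y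
  rw [gO_mk, LO_mk, LO_mk, Chart.map_L]

lemma gO_surjective (c : Chart k e R) (φ : R →ₐ[k] R') (hφ : Function.Surjective φ) :
    Function.Surjective (gO c φ) := by
  intro y
  choose v hv using fun j => hφ (LO (c.map φ) y j)
  refine ⟨sO c v, ?_⟩
  apply LO_injective
  ext j
  rw [LO_gO, LO_sO, hv]

lemma gO_nilpotent (c : Chart k e R) (φ : R →ₐ[k] R') (hφ : (RingHom.ker φ) ^ 2 = ⊥) :
    IsNilpotent (RingHom.ker (gO c φ : OC c →+* OC (c.map φ))) := by
  refine ⟨2, ?_⟩
  rw [Ideal.zero_eq_bot, eq_bot_iff, pow_two, Ideal.mul_le]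
  intro x hx y hy
  rw [Ideal.mem_bot]
  have key : ∀ z ∈ RingHom.ker (gO c φ : OC c →+* OC (c.map φ)), ∀ j,
      LO c z j ∈ RingHom.ker φ := by
    intro z hz j
    rw [RingHom.mem_ker, RingHom.coe_coe] at hz
    rw [RingHom.mem_ker, ← LO_gO, hz, LO_zero]
    rfl
  apply LO_injective
  rw [LO_mul, LO_zero]
  refine Finset.sum_eq_zero fun j _ => Finset.sum_eq_zero fun i _ => ?_
  have : LO c x j * LO c y i ∈ (RingHom.ker φ) ^ 2 := by
    rw [pow_two]
    exact Ideal.mul_mem_mul (key x hx j) (key y hy i)
  rw [hφ, Ideal.mem_bot] at this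
  rw [this, zero_smul]

end hom

section smooth

variable {k : Type} [CommRing k] {P : Type} [CommRing P] [Algebra k P] {d : ℕ} (e : Fin d → P)
variable (B : Type) [CommRing B] [Algebra k B] [Algebra P B] [IsScalarTower k P B]

/-- restriction of a chart datum -/
noncomputable def Chart.res {R : Type} [CommRing R] [Algebra k R]
    (c : Chart k (fun i => algebraMap P B (e i)) R) : Chart k e R where
  q := c.q ∘ₗ (IsScalarTower.toAlgHom k P B).toLinearMap
  q_b i := c.q_b i
  q_mul x y := by
    simp only [LinearMap.coe_comp, Function.comp_apply, AlgHom.toLinearMap_apply,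
      IsScalarTower.coe_toAlgHom', map_mul]
    exact c.q_mul _ _

lemma Chart.res_q {R : Type} [CommRing R] [Algebra k R]
    (c : Chart k (fun i => algebraMap P B (e i)) R) (p : P) :
    (c.res e B).q p = c.q (algebraMap P B p) := rfl

variable (k) in
/-- the map of the chart rings -/
noncomputable def resHom : ChartRing k e →ₐ[k] ChartRing k (fun i => algebraMap P B (e i)) :=
  ((univChart k (fun i => algebraMap P B (e i))).res e B).lift

lemma resHom_q (p : P) (j : Fin d) : resHom k e B ((univChart k e).q p j) =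
    (univChart k (fun i => algebraMap P B (e i))).q (algebraMap P B p) j :=
  Chart.lift_mk _ _ _

theorem resHom_formallySmooth [Algebra.FormallySmooth P B] :
    (resHom k e B).toRingHom.FormallySmooth := by
  set b' : Fin d → B := fun i => algebraMap P B (e i) with hb'
  let D := ChartRing k e
  let E := ChartRing k b'
  let _ : Algebra D E := (resHom k e B).toRingHom.toAlgebra
  have hDE : ∀ x : D, algebraMap D E x = resHom k e B x := fun x => rfl
  change Algebra.FormallySmooth D E
  apply Algebra.FormallySmooth.of_comp_surjective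
  intro C _ _ I hI g
  let _ : Algebra k C := ((algebraMap D C).comp (algebraMap k D)).toAlgebra
  have : IsScalarTower k D C := IsScalarTower.of_algebraMap_eq' rfl
  have : IsScalarTower k D (C ⧸ I) := inferInstance
  have : IsScalarTower k D E := IsScalarTower.of_algebraMap_eq (fun x => by
    rw [hDE, AlgHom.commutes])
  let c : Chart k e C := (univChart k e).map (IsScalarTower.toAlgHom k D C)
  let g' : E →ₐ[k] C ⧸ I := g.restrictScalars k
  let c1 : Chart k b' (C ⧸ I) := (univChart k b').map g'
  let φ : C →ₐ[k] C ⧸ I := Ideal.Quotient.mkₐ k I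
  have h : ∀ p, c1.q (algebraMap P B p) = (c.map φ).q p := by
    intro p
    ext j
    change g ((univChart k b').q (algebraMap P B p) j) =
      Ideal.Quotient.mk I (algebraMap D C ((univChart k e).q p j))
    rw [← resHom_q, ← hDE, AlgHom.commutes]
    rfl
  have hφs : Function.Surjective φ := Ideal.Quotient.mkₐ_surjective k I
  have hφn : (RingHom.ker φ) ^ 2 = ⊥ := by
    have : RingHom.ker φ = I := Ideal.mk_ker
    rw [this, hI]
  let γ : B →ₐ[P] OC c := Algebra.FormallySmooth.liftOfSurjective
    (ofChart (c.map φ) c1 h) (gO c φ) (gO_surjective c φ hφs) (gO_nilpotent c φ hφn)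
  have hγ : ∀ x, gO c φ (γ x) = ofChart (c.map φ) c1 h x :=
    Algebra.FormallySmooth.liftOfSurjective_apply _ _ _ _
  let c2 : Chart k b' C := toChart c γ
  have hc2 : c2.lift.comp (resHom k e B) = IsScalarTower.toAlgHom k D C := by
    apply chartRing_hom_ext
    ext x j
    rw [Chart.map_q, AlgHom.comp_apply, resHom_q, ← Chart.map_q, Chart.map_lift]
    change LO c (γ (algebraMap P B x)) j = _
    rw [AlgHom.commutes, LO_algebraMap]
  refine ⟨{ c2.lift with commutes' := fun x => ?_ }, ?_⟩
  · exact DFunLike.congr_fun hc2 x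
  · apply AlgHom.ext
    intro x
    have h3 : φ.comp c2.lift = g' := by
      apply chartRing_hom_ext
      rw [← Chart.map_map, Chart.map_lift]
      ext x j
      rw [Chart.map_q]
      change φ (LO c (γ x) j) = c1.q x j
      rw [← LO_gO, hγ, LO_ofChart]
    exact DFunLike.congr_fun h3 x

end smooth

end Pool.Agent.H14
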